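import Mathlib

set_option autoImplicit false
set_option linter.unusedSectionVars false

/-!
# A rational linear system with approximate nonnegative solutions has an exact one

PROOF. Step 1 (a real solution). For `n : ℕ` let `μ n : Ω → ℚ` be the approximate solution for
`ε = 1 / (n + 1)`, as a point of `Ω → ℝ`. All of them are in the compact set `Set.Icc 0 B`
(coordinatewise: `0 ≤ μ x ≤ ∑ μ ≤ B`). By `IsCompact.tendsto_subseq` a subsequence converges to
some `ν`, and `ν x ≥ 0`, `∑ x, A j x * ν x = r j` by continuity.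
Step 2 (a rational solution). Regard `ℝ` as a vector space over `ℚ`. It is enough to find a
`ℚ`-linear map `φ : ℝ → ℚ` with `φ 1 = 1` and `φ (ν x) > 0` whenever `ν x > 0`: then
`μ x = φ (ν x)` is nonnegative (`φ 0 = 0`) and
`∑ A j x * μ x = φ (∑ A j x * ν x) = φ (r j) = r j * φ 1 = r j`. Existence of `φ`: let `W` be the
`ℚ`-span of `1` and the `ν x`, finite dimensional, with a basis `β i` (`i : Fin d`) with `β 0 = 1`
(extend the independent family `1`; or take any finite basis of a complement). Write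
`ν x = ∑ q x i * β i` with rational `q x i`. The functions `(y i) ↦ ∑ q x i * y i` are continuous
on `Fin d → ℝ` and positive at the point `β` for those `x` with `ν x > 0`. Rational vectors are
dense (`Rat.denseRange_cast` and `DenseRange.piMap`, or choose `y i` rational with
`|y i - β i| < δ`), so there is a rational `y` with `y 0 = 1` and all these sums positive. Let
`φ` on `W` be the linear map `β i ↦ y i`, extended to `ℝ` by a complement
(`LinearMap.exists_extend`), or only use it on `W`.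
(Any other proof is welcome, for example: the set of supports, Gaussian elimination, Farkas.)
-/

namespace Pool.Agent.Lib.MP_95bb8c_al.OE

open Finset Filter Topology

/-- rational linear functionals near the inclusion of a finite dimensional space -/
theorem exact_functional (F : Finset ℝ) (hF : ∀ w ∈ F, 0 < w) :
    ∃ φ : ℝ →ₗ[ℚ] ℚ, ∀ w ∈ F, 0 < φ w := by
  classical
  let W : Submodule ℚ ℝ := Submodule.span ℚ (F : Set ℝ)
  have : FiniteDimensional ℚ W := FiniteDimensional.span_finset ℚ F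
  let b := Module.finBasis ℚ W
  have hmem : ∀ w ∈ F, w ∈ W := fun w hw => Submodule.subset_span hw
  let U : Set (Fin (Module.finrank ℚ W) → ℝ) :=
    ⋂ w : {w // w ∈ F}, {y | 0 < ∑ i, ((b.repr ⟨w.1, hmem w.1 w.2⟩ i : ℚ) : ℝ) * y i}
  have hU : IsOpen U := by
    apply isOpen_iInter_of_finite
    intro w
    apply isOpen_lt continuous_const
    fun_prop
  have hb : (fun i => ((b i : W) : ℝ)) ∈ U := by
    simp only [U, Set.mem_iInter, Set.mem_ofPred_eq]
    intro w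
    have h1 := b.sum_repr ⟨w.1, hmem w.1 w.2⟩
    have h2 := congrArg (fun v : W => (v : ℝ)) h1
    simp only [Submodule.coe_sum, Submodule.coe_smul] at h2
    have h3 : ∑ i, ((b.repr ⟨w.1, hmem w.1 w.2⟩ i : ℚ) : ℝ) * ((b i : W) : ℝ) = w.1 := by
      refine Eq.trans ?_ h2
      exact Finset.sum_congr rfl fun i _ => by rw [Rat.smul_def]
    rw [h3]
    exact hF w.1 w.2
  have hd : DenseRange (fun y : Fin (Module.finrank ℚ W) → ℚ => fun i => ((y i : ℚ) : ℝ)) := by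
    have := DenseRange.piMap (fun _ : Fin (Module.finrank ℚ W) => (Rat.denseRange_cast (𝕜 := ℝ)))
    exact this
  obtain ⟨y, hy⟩ := hd.exists_mem_open hU ⟨_, hb⟩
  let ψ : W →ₗ[ℚ] ℚ := b.constr ℚ y
  obtain ⟨φ, hφ⟩ := LinearMap.exists_extend ψ
  refine ⟨φ, fun w hw => ?_⟩
  have h1 : φ w = ψ ⟨w, hmem w hw⟩ := by
    rw [← hφ]
    rfl
  rw [h1]
  have h2 : ψ ⟨w, hmem w hw⟩ = ∑ i, b.repr ⟨w, hmem w hw⟩ i * y i := by
    rw [Module.Basis.constr_apply_fintype]
    simp [Module.Basis.equivFun_apply]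
  rw [h2]
  simp only [U, Set.mem_iInter, Set.mem_ofPred_eq] at hy
  have h3 := hy ⟨w, hw⟩
  exact_mod_cast h3

theorem exact_real {Ω J : Type} [Fintype Ω] [Fintype J] (A : J → Ω → ℚ) (r : J → ℚ) (B : ℚ)
    (h : ∀ ε : ℚ, 0 < ε → ∃ μ : Ω → ℚ, (∀ x, 0 ≤ μ x) ∧ ∑ x, μ x ≤ B ∧
      ∀ j, |∑ x, A j x * μ x - r j| ≤ ε) :
    ∃ ν : Ω → ℝ, (∀ x, 0 ≤ ν x) ∧ ∀ j, ∑ x, (A j x : ℝ) * ν x = r j := by
  have h' : ∀ n : ℕ, ∃ μ : Ω → ℚ, (∀ x, 0 ≤ μ x) ∧ ∑ x, μ x ≤ B ∧
      ∀ j, |∑ x, A j x * μ x - r j| ≤ 1 / ((n : ℚ) + 1) := fun n => h _ (by positivity)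
  choose μ h1 h2 h3 using h'
  have hK : IsCompact (Set.Icc (fun _ : Ω => (0 : ℝ)) (fun _ => (B : ℝ))) := isCompact_Icc
  have hmem : ∀ n, (fun x => ((μ n x : ℚ) : ℝ)) ∈ Set.Icc (fun _ : Ω => (0 : ℝ)) (fun _ => (B : ℝ)) := by
    intro n
    constructor
    · intro x
      show (0 : ℝ) ≤ ((μ n x : ℚ) : ℝ)
      exact_mod_cast h1 n x
    · intro x
      have : μ n x ≤ B := (single_le_sum (fun y _ => h1 n y) (mem_univ x)).trans (h2 n)
      show ((μ n x : ℚ) : ℝ) ≤ (B : ℝ)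
      exact_mod_cast this
  obtain ⟨ν, hν, φ, hφ, hlim⟩ := hK.tendsto_subseq hmem
  refine ⟨ν, fun x => hν.1 x, fun j => ?_⟩
  have hl1 : Tendsto (fun n => ∑ x, (A j x : ℝ) * ((μ (φ n) x : ℚ) : ℝ)) atTop
      (𝓝 (∑ x, (A j x : ℝ) * ν x)) := by
    apply tendsto_finsetSum
    intro x _
    apply Tendsto.const_mul
    exact (tendsto_pi_nhds.1 hlim) x
  have hl2 : Tendsto (fun n => ∑ x, (A j x : ℝ) * ((μ (φ n) x : ℚ) : ℝ)) atTop (𝓝 (r j : ℝ)) := by
    rw [tendsto_iff_dist_tendsto_zero]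
    have h4 : Tendsto (fun n : ℕ => 1 / (((φ n : ℕ) : ℝ) + 1)) atTop (𝓝 0) :=
      tendsto_one_div_add_atTop_nhds_zero_nat.comp hφ.tendsto_atTop
    refine squeeze_zero (fun _ => dist_nonneg) (fun n => ?_) h4
    rw [Real.dist_eq]
    have h5 : ((|∑ x, A j x * μ (φ n) x - r j| : ℚ) : ℝ) ≤ ((1 / (((φ n : ℕ) : ℚ) + 1) : ℚ) : ℝ) :=
      Rat.cast_le.2 (h3 (φ n) j)
    push_cast at h5
    exact h5
  exact tendsto_nhds_unique hl1 hl2

theorem exact_of_approx {Ω J : Type} [Fintype Ω] [Fintype J] (A : J → Ω → ℚ) (r : J → ℚ) (B : ℚ)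
    (h : ∀ ε : ℚ, 0 < ε → ∃ μ : Ω → ℚ, (∀ x, 0 ≤ μ x) ∧ ∑ x, μ x ≤ B ∧
      ∀ j, |∑ x, A j x * μ x - r j| ≤ ε) :
    ∃ μ : Ω → ℚ, (∀ x, 0 ≤ μ x) ∧ ∀ j, ∑ x, A j x * μ x = r j := by
  classical
  obtain ⟨ν, hν0, hν⟩ := exact_real A r B h
  obtain ⟨φ, hφ⟩ := exact_functional (insert 1 ((univ.image ν).filter fun w => 0 < w)) (by
    intro w hw
    rw [mem_insert] at hw
    rcases hw with rfl | hw
    · exact one_pos
    · exact (mem_filter.1 hw).2)
  have h1 : 0 < φ 1 := hφ 1 (mem_insert_self _ _)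
  have hφν : ∀ x, 0 ≤ φ (ν x) := by
    intro x
    rcases (hν0 x).eq_or_lt with h0 | h0
    · rw [← h0, map_zero]
    · exact (hφ (ν x) (mem_insert_of_mem (mem_filter.2 ⟨mem_image_of_mem ν (mem_univ x), h0⟩))).le
  have hr : ∀ q : ℚ, φ (q : ℝ) = q * φ 1 := by
    intro q
    have := φ.map_smul q (1 : ℝ)
    rw [Rat.smul_def, mul_one, smul_eq_mul] at this
    exact this
  refine ⟨fun x => φ (ν x) / φ 1, fun x => div_nonneg (hφν x) h1.le, fun j => ?_⟩
  have h2 := congrArg φ (hν j)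
  rw [map_sum, hr] at h2
  have h3 : ∀ x, φ ((A j x : ℝ) * ν x) = A j x * φ (ν x) := by
    intro x
    have := φ.map_smul (A j x) (ν x)
    rw [Rat.smul_def, smul_eq_mul] at this
    exact this
  simp only [h3] at h2
  have h4 : ∑ x, A j x * (φ (ν x) / φ 1) = (∑ x, A j x * φ (ν x)) / φ 1 := by
    rw [sum_div]
    exact sum_congr rfl fun x _ => by rw [mul_div_assoc]
  rw [h4, h2, mul_div_assoc, div_self h1.ne', mul_one]

end Pool.Agent.Lib.MP_95bb8c_al.OE
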