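import Mathlib

set_option autoImplicit false
set_option linter.unusedSectionVars false

/-!
# Solvability of linear systems over the field with two elements

PROOF of `zmod_solve`. The map `φ : (X → ZMod 2) → (I → ZMod 2)`, `(φ x) i = ∑ e, A i e * x e`, is
linear over the field `ZMod 2` (`Fact (Nat.Prime 2)`). If `r` is not in its range there is a linear form
on `I → ZMod 2` which vanishes on the range and not at `r` (`Submodule.exists_le_ker_of_notMem` or
`Submodule.exists_dual_map_eq_bot_of_notMem`); it is `v ↦ ∑ i, y i * v i` (`y i` its value at the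
unit vector `i`, `LinearMap.pi_apply_eq_sum_univ`); then `∑ i, y i * A i e = 0` for all `e` (take `x` a unit
vector) but `∑ i, y i * r i ≠ 0`.
-/

namespace Pool.Agent.Lib.MP_95bb8c_al.OE

open Finset

theorem zmod_solve {I X : Type} [Fintype I] [Fintype X] (A : I → X → ZMod 2) (r : I → ZMod 2)
    (h : ∀ y : I → ZMod 2, (∀ e, ∑ i, y i * A i e = 0) → ∑ i, y i * r i = 0) :
    ∃ x : X → ZMod 2, ∀ i, ∑ e, A i e * x e = r i := by
  classical
  haveI : Fact (Nat.Prime 2) := ⟨Nat.prime_two⟩
  let φ : (X → ZMod 2) →ₗ[ZMod 2] (I → ZMod 2) :=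
    { toFun := fun x i => ∑ e, A i e * x e
      map_add' := by
        intro x y
        funext i
        simp [mul_add, Finset.sum_add_distrib]
      map_smul' := by
        intro c x
        funext i
        simp only [Pi.smul_apply, smul_eq_mul, RingHom.id_apply, Finset.mul_sum]
        exact Finset.sum_congr rfl fun e _ => by ring }
  by_contra hne
  have hr : r ∉ LinearMap.range φ := by
    rintro ⟨x, hx⟩
    exact hne ⟨x, fun i => congrFun hx i⟩
  obtain ⟨f, hf1, hf2⟩ := Submodule.exists_le_ker_of_notMem hr
  have hrep : ∀ v : I → ZMod 2, f v = ∑ i, f (Pi.single i 1) * v i := by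
    intro v
    rw [LinearMap.pi_apply_eq_sum_univ f v]
    refine Finset.sum_congr rfl fun i _ => ?_
    have h1 : (fun j => if i = j then (1 : ZMod 2) else 0) = Pi.single i 1 := by
      funext j
      by_cases hij : i = j
      · subst hij; simp
      · simp [hij, Ne.symm hij]
    rw [h1, smul_eq_mul, mul_comm]
  apply hf1
  rw [hrep]
  refine h (fun i => f (Pi.single i 1)) (fun e => ?_)
  have h2 : f (φ (Pi.single e 1)) = 0 := by
    have h3 : φ (Pi.single e 1) ∈ LinearMap.range φ := ⟨_, rfl⟩
    exact LinearMap.mem_ker.mp (hf2 h3)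
  rw [hrep] at h2
  rw [← h2]
  refine Finset.sum_congr rfl fun i _ => ?_
  congr 1
  change A i e = ∑ e', A i e' * (Pi.single e 1 : X → ZMod 2) e'
  rw [Finset.sum_eq_single e]
  · simp
  · intro b _ hb
    simp [Pi.single_eq_of_ne hb]
  · intro hb
    exact absurd (Finset.mem_univ e) hb

end Pool.Agent.Lib.MP_95bb8c_al.OE
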