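import Pool.Agent.Lib.MP_95bb8c_al.OE.Cut
import Pool.Agent.Lib.MP_95bb8c_al.OE.ZSolve

set_option autoImplicit false
set_option linter.unusedSectionVars false

/-!
# Splitting an object into two joins

PROOF of `split_obj`. Let `X = {e | o e = 1}`, `D2 = {e | o e = 2}`; other edges which are no loops
have `o e = 0` (each `v` with `InU` has `∑ of o over its star = 2`, so `o e ≤ 2`). For such `v` the
star of `v` contains either two edges of `X` and no edge of `D2`, or one edge of `D2` and no
edge of `X`. For `v = a`: not the second: if `e ∈ D2` is at `a`, its other end `v` is in `T`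
(`hnab`; no loop), the set `{a, v}` separates `a` from `b`, and no edge with `o ≠ 0` leaves it
(`o e = 2` is the whole star of `a` and of `v`), contradicting `ess`. The same for `b`.
Equations (unknown `col : E → ZMod 2`, index set `V`): for `v` with `InU` and two edges `e, f` of `X` at
`v`: `col e + col f = 1` if `v ∈ T`, `= 0` if `v = a` or `v = b`; trivial equations `0 = 0` for the other
`v`. So `A v e = 1` iff `InU v`, `e ∈ X` and `e` is in the star of `v`; `r v = 1` iff `v ∈ T` and the star of
`v` meets `X`. Solvable by `zmod_solve`: let `y` satisfy `∑ v, y v * A v e = 0` for all `e`, and let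
`S` be the set of `v` with `y v = 1`, `InU v` and two edges of `X` at `v`. Each `e ∈ X` (no loop) has an even
number of ends in `S`, so `X ∩ cut s t S = ∅`; edges of `D2` are not at vertices of `S`. So
`cw (rat o) S = 0`, `S` is not essential, `(S ∩ T).card` is even, which is `∑ v, y v * r v = 0`.
Put `R1 = D2 ∪ {e ∈ X | col e = 1}`, `R2 = D2 ∪ {e ∈ X | col e = 0}`. Both have exactly one edge at
each `v ∈ T`; at `a` both edges of `X` have the same colour, so one of `R1, R2` contains
both and the other one none; the same at `b`.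
-/

namespace Pool.Agent.Lib.MP_95bb8c_al.OE

open Finset

variable {V E : Type} [Fintype V] [DecidableEq V] [Fintype E] [DecidableEq E]
variable {s t : E → V} {T : Finset V} {a b : V} {z : E → ℚ} {c : ℚ}

/-- At `v` one of `R1`, `R2` has two edges and the other one none. -/
def TwoZero (s t : E → V) (v : V) (R1 R2 : Finset E) : Prop :=
  ((R1 ∩ cut s t {v}).card = 2 ∧ (R2 ∩ cut s t {v}).card = 0) ∨
    ((R1 ∩ cut s t {v}).card = 0 ∧ (R2 ∩ cut s t {v}).card = 2)

theorem split_star {e : E} (h : s e ≠ t e) (v : V) :
    e ∈ cut s t {v} ↔ (v = s e ∨ v = t e) := by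
  rw [mem_cut, Finset.mem_singleton, Finset.mem_singleton]
  constructor
  · intro h1
    by_contra h2
    push Not at h2
    exact h1 (iff_of_false (fun h3 => h2.1 h3.symm) (fun h3 => h2.2 h3.symm))
  · rintro (rfl | rfl) h1
    · exact h (h1.mp rfl).symm
    · exact h (h1.mpr rfl)

theorem split_filter_inter (p : E → Prop) [DecidablePred p] (δ : Finset E) :
    (univ.filter p) ∩ δ = δ.filter p := by
  ext e
  simp [and_comm]

theorem split_count (o : E → ℕ) (δ : Finset E) (h : ∀ e ∈ δ, o e ≤ 2) :
    ∑ e ∈ δ, o e = ((univ.filter (fun e => o e = 1)) ∩ δ).card +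
      2 * ((univ.filter (fun e => o e = 2)) ∩ δ).card := by
  rw [split_filter_inter, split_filter_inter, Finset.card_filter, Finset.card_filter,
    Finset.mul_sum, ← Finset.sum_add_distrib]
  refine Finset.sum_congr rfl fun e he => ?_
  have h1 := h e he
  have h2 : o e = 0 ∨ o e = 1 ∨ o e = 2 := by omega
  rcases h2 with h2 | h2 | h2 <;> simp [h2]

theorem split_deg {o : E → ℕ} {v : V} (h : cw s t (rat o) {v} = 2) :
    ∑ e ∈ cut s t {v}, o e = 2 := by
  have h1 : ((∑ e ∈ cut s t {v}, o e : ℕ) : ℚ) = 2 := by
    push_cast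
    exact h
  exact_mod_cast h1

/-- At a terminal there is no edge of weight `2`. -/
theorem split_term (hF : Frame s t T a b) (hnab : ∀ e ∈ cut s t {b}, e ∉ cut s t {a})
    {o : E → ℕ} (ho : TObj s t T a b c z o) {x y : V} (hxy : (x = a ∧ y = b) ∨ (x = b ∧ y = a))
    {e : E} (he : e ∈ cut s t {x}) : o e ≠ 2 := by
  intro h2
  have hloop : s e ≠ t e := fun h => by
    have := ho.loop e h
    omega
  have hxU : InU T a b x := by
    rcases hxy with ⟨rfl, _⟩ | ⟨rfl, _⟩
    · exact Or.inr (Or.inl rfl)
    · exact Or.inr (Or.inr rfl)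
  have hney : y ≠ x := by
    rcases hxy with ⟨rfl, rfl⟩ | ⟨rfl, rfl⟩
    · exact hF.hab.symm
    · exact hF.hab
  have hen : e ∉ cut s t {y} := by
    rcases hxy with ⟨rfl, rfl⟩ | ⟨rfl, rfl⟩
    · exact fun h => hnab e h he
    · exact hnab e he
  obtain ⟨w, hw, hwU, hwx⟩ : ∃ w, e ∈ cut s t {w} ∧ InU T a b w ∧ w ≠ x := by
    rcases (split_star hloop x).mp he with h | h
    · exact ⟨t e, (split_star hloop _).mpr (Or.inr rfl), hF.ht e, fun h3 => hloop (h3.trans h).symm⟩
    · exact ⟨s e, (split_star hloop _).mpr (Or.inl rfl), hF.hs e, fun h3 => hloop (h3.trans h)⟩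
  have hwy : w ≠ y := fun h => hen (h ▸ hw)
  have hE : Ess T a b ({x} ∪ {w}) := by
    right
    rcases hxy with ⟨rfl, rfl⟩ | ⟨rfl, rfl⟩
    · simp only [Finset.mem_union, Finset.mem_singleton, true_or, true_iff]
      rintro (h | h)
      · exact hney h
      · exact hwy h.symm
    · simp only [Finset.mem_union, Finset.mem_singleton, true_or, iff_true]
      rintro (h | h)
      · exact hney h
      · exact hwy h.symm
  have h3 := ho.ess _ hE
  have h4 := cw_inter_union (s := s) (t := t) (z := rat o) {x} {w}
  rw [ho.deg x hxU, ho.deg w hwU] at h4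
  have h5 : (2 : ℚ) ≤ ∑ e ∈ cr s t (({x} : Finset V) \ {w}) ({w} \ {x}), rat o e := by
    have h6 : e ∈ cr s t (({x} : Finset V) \ {w}) ({w} \ {x}) := by
      rw [mem_cr]
      simp only [Finset.mem_sdiff, Finset.mem_singleton]
      rcases (split_star hloop x).mp he with h | h
      · rcases (split_star hloop w).mp hw with h' | h'
        · exact absurd (h'.trans h.symm) hwx
        · left
          exact ⟨⟨h.symm, fun h7 => hwx (h7.symm.trans h.symm)⟩,
            ⟨h'.symm, fun h7 => hwx (h'.trans h7)⟩⟩
      · rcases (split_star hloop w).mp hw with h' | h'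
        · right
          exact ⟨⟨h'.symm, fun h7 => hwx (h'.trans h7)⟩,
            ⟨h.symm, fun h7 => hwx (h7.symm.trans h.symm)⟩⟩
        · exact absurd (h'.trans h.symm) hwx
    have h7 : rat o e ≤ ∑ e ∈ cr s t (({x} : Finset V) \ {w}) ({w} \ {x}), rat o e :=
      Finset.single_le_sum (f := rat o) (fun i _ => Nat.cast_nonneg _) h6
    have h8 : rat o e = 2 := by
      unfold rat
      rw [h2]
      norm_num
    linarith
  have h9 : 0 ≤ cw s t (rat o) ({x} ∩ {w}) := cw_nonneg (fun e => Nat.cast_nonneg _) _
  linarith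

theorem split_obj (hF : Frame s t T a b) (hnab : ∀ e ∈ cut s t {b}, e ∉ cut s t {a})
    {o : E → ℕ} (ho : TObj s t T a b c z o) :
    ∃ R1 R2 : Finset E,
      (∀ e, (o e : ℚ) = (if e ∈ R1 then 1 else 0) + (if e ∈ R2 then 1 else 0)) ∧
      (∀ v ∈ T, (R1 ∩ cut s t {v}).card = 1 ∧ (R2 ∩ cut s t {v}).card = 1) ∧
      TwoZero s t a R1 R2 ∧ TwoZero s t b R1 R2 := by
  classical
  have hle : ∀ e, o e ≤ 2 := by
    intro e
    by_cases h : s e = t e
    · rw [ho.loop e h]
      omega
    · have h1 : e ∈ cut s t {s e} := (split_star h _).mpr (Or.inl rfl)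
      rw [← split_deg (ho.deg (s e) (hF.hs e))]
      exact Finset.single_le_sum (f := o) (fun i _ => Nat.zero_le _) h1
  let X : Finset E := univ.filter (fun e => o e = 1)
  let D : Finset E := univ.filter (fun e => o e = 2)
  have hX : ∀ e, e ∈ X ↔ o e = 1 := fun e => by simp [X]
  have hD : ∀ e, e ∈ D ↔ o e = 2 := fun e => by simp [D]
  have hcount : ∀ v, InU T a b v → (X ∩ cut s t {v}).card + 2 * (D ∩ cut s t {v}).card = 2 := by
    intro v hv
    have h1 := split_count o (cut s t {v}) (fun e _ => hle e)
    rw [split_deg (ho.deg v hv)] at h1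
    exact h1.symm
  have hloopX : ∀ e, e ∈ X → s e ≠ t e := by
    intro e he h
    have h1 := ho.loop e h
    rw [hX] at he
    omega
  have hloopD : ∀ e, e ∈ D → s e ≠ t e := by
    intro e he h
    have h1 := ho.loop e h
    rw [hD] at he
    omega
  let A : V → E → ZMod 2 := fun v e => if InU T a b v ∧ e ∈ X ∧ e ∈ cut s t {v} then 1 else 0
  let r : V → ZMod 2 := fun v => if v ∈ T ∧ (X ∩ cut s t {v}).Nonempty then 1 else 0
  have hz2 : ∀ x : ZMod 2, x = 0 ∨ x = 1 := by decide
  obtain ⟨col, hcol⟩ := zmod_solve A r (by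
    intro y hy
    let S : Finset V := univ.filter (fun v => y v = 1 ∧ InU T a b v ∧ (X ∩ cut s t {v}).Nonempty)
    have hS : ∀ v, v ∈ S ↔ y v = 1 ∧ InU T a b v ∧ (X ∩ cut s t {v}).Nonempty :=
      fun v => by simp [S]
    have hXS : ∀ e, e ∈ X → e ∉ cut s t S := by
      intro e he
      have hl := hloopX e he
      have h1 : ∑ v, y v * A v e = y (s e) + y (t e) := by
        have h2 : ∀ v, y v * A v e = (if v = s e then y v else 0) + (if v = t e then y v else 0) := by
          intro v
          have hst := split_star hl v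
          by_cases h3 : v = s e
          · have h4 : v ≠ t e := fun h => hl (h3.symm.trans h)
            have h5 : A v e = 1 := if_pos ⟨h3 ▸ hF.hs e, he, hst.mpr (Or.inl h3)⟩
            rw [h5, if_pos h3, if_neg h4]
            ring
          · by_cases h4 : v = t e
            · have h5 : A v e = 1 := if_pos ⟨h4 ▸ hF.ht e, he, hst.mpr (Or.inr h4)⟩
              rw [h5, if_neg h3, if_pos h4]
              ring
            · have h5 : A v e = 0 := if_neg (fun h => by
                rcases hst.mp h.2.2 with h | h
                · exact h3 h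
                · exact h4 h)
              rw [h5, if_neg h3, if_neg h4]
              ring
        simp_rw [h2]
        rw [Finset.sum_add_distrib]
        simp
      rw [hy e] at h1
      have h2 : y (s e) = y (t e) := by
        rcases hz2 (y (s e)) with h3 | h3 <;> rcases hz2 (y (t e)) with h4 | h4 <;>
          rw [h3, h4] at h1 ⊢
        · exact absurd h1 (by decide)
        · exact absurd h1 (by decide)
      rw [mem_cut, not_not, hS, hS, h2]
      have h3 : (X ∩ cut s t {s e}).Nonempty :=
        ⟨e, Finset.mem_inter.mpr ⟨he, (split_star hl _).mpr (Or.inl rfl)⟩⟩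
      have h4 : (X ∩ cut s t {t e}).Nonempty :=
        ⟨e, Finset.mem_inter.mpr ⟨he, (split_star hl _).mpr (Or.inr rfl)⟩⟩
      constructor
      · rintro ⟨h5, _⟩
        exact ⟨h5, hF.ht e, h4⟩
      · rintro ⟨h5, _⟩
        exact ⟨h5, hF.hs e, h3⟩
    have hDS : ∀ e, e ∈ D → e ∉ cut s t S := by
      intro e he
      have hl := hloopD e he
      have h1 : ∀ v, InU T a b v → e ∈ cut s t {v} → v ∉ S := by
        intro v hv hev hvS
        have h2 := hcount v hv
        have h3 : 0 < (D ∩ cut s t {v}).card :=
          Finset.card_pos.mpr ⟨e, Finset.mem_inter.mpr ⟨he, hev⟩⟩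
        have h4 := Finset.card_pos.mpr ((hS v).mp hvS).2.2
        omega
      rw [mem_cut, not_not]
      exact iff_of_false (h1 _ (hF.hs e) ((split_star hl _).mpr (Or.inl rfl)))
        (h1 _ (hF.ht e) ((split_star hl _).mpr (Or.inr rfl)))
    have hcw : cw s t (rat o) S = 0 := by
      apply Finset.sum_eq_zero
      intro e he
      have h1 : o e ≠ 1 := fun h => hXS e ((hX e).mpr h) he
      have h2 : o e ≠ 2 := fun h => hDS e ((hD e).mpr h) he
      have h3 := hle e
      have h4 : o e = 0 := by omega
      unfold rat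
      rw [h4]
      norm_num
    have hnE : ¬ Ess T a b S := by
      intro h
      have h1 := ho.ess S h
      rw [hcw] at h1
      norm_num at h1
    have hev : Even (S ∩ T).card := by
      by_contra h
      exact hnE (Or.inl (Nat.not_even_iff_odd.mp h))
    have h1 : ∀ v, y v * r v = if v ∈ S ∩ T then 1 else 0 := by
      intro v
      by_cases h2 : v ∈ T ∧ (X ∩ cut s t {v}).Nonempty
      · have h3 : r v = 1 := if_pos h2
        rw [h3, mul_one]
        rcases hz2 (y v) with h4 | h4
        · rw [h4, if_neg]
          intro h5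
          have h6 := ((hS v).mp (Finset.mem_inter.mp h5).1).1
          rw [h4] at h6
          exact absurd h6 (by decide)
        · rw [h4, if_pos]
          exact Finset.mem_inter.mpr ⟨(hS v).mpr ⟨h4, Or.inl h2.1, h2.2⟩, h2.1⟩
      · have h3 : r v = 0 := if_neg h2
        rw [h3, mul_zero, if_neg]
        intro h5
        have h6 := (hS v).mp (Finset.mem_inter.mp h5).1
        exact h2 ⟨(Finset.mem_inter.mp h5).2, h6.2.2⟩
    simp_rw [h1]
    rw [Finset.sum_boole, Finset.filter_mem_eq_inter, Finset.univ_inter]
    exact (ZMod.natCast_eq_zero_iff_even).mpr hev)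
  let X1 : Finset E := X.filter (fun e => col e = 1)
  let X0 : Finset E := X.filter (fun e => ¬ col e = 1)
  have hparity : ∀ v, InU T a b v → (((X1 ∩ cut s t {v}).card : ℕ) : ZMod 2) = r v := by
    intro v hv
    rw [← hcol v]
    have h1 : X1 ∩ cut s t {v} = univ.filter (fun e => e ∈ X1 ∩ cut s t {v}) := by
      rw [Finset.filter_mem_eq_inter, Finset.univ_inter]
    rw [h1, ← Finset.sum_boole]
    refine Finset.sum_congr rfl fun e _ => ?_
    by_cases h2 : e ∈ X1 ∩ cut s t {v}
    · have h3 := Finset.mem_filter.mp (Finset.mem_inter.mp h2).1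
      have h4 : A v e = 1 := if_pos ⟨hv, h3.1, (Finset.mem_inter.mp h2).2⟩
      rw [if_pos h2, h4, h3.2]
      rfl
    · rw [if_neg h2]
      by_cases h3 : InU T a b v ∧ e ∈ X ∧ e ∈ cut s t {v}
      · have h4 : ¬ col e = 1 := fun h =>
          h2 (Finset.mem_inter.mpr ⟨Finset.mem_filter.mpr ⟨h3.2.1, h⟩, h3.2.2⟩)
        have h5 : col e = 0 := (hz2 (col e)).resolve_right h4
        rw [h5, mul_zero]
      · have h4 : A v e = 0 := if_neg h3
        rw [h4, zero_mul]
  have hXsplit : ∀ v, (X1 ∩ cut s t {v}).card + (X0 ∩ cut s t {v}).card =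
      (X ∩ cut s t {v}).card := by
    intro v
    rw [← Finset.card_union_of_disjoint]
    · congr 1
      rw [← Finset.union_inter_distrib_right]
      congr 1
      exact Finset.filter_union_filter_not_eq _ _
    · apply Finset.disjoint_of_subset_left Finset.inter_subset_left
      apply Finset.disjoint_of_subset_right Finset.inter_subset_left
      exact Finset.disjoint_filter_filter_not _ _ _
  have hDX1 : Disjoint D X1 := by
    rw [Finset.disjoint_left]
    intro e h1 h2
    have h3 := (hD e).mp h1
    have h4 := (hX e).mp (Finset.mem_filter.mp h2).1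
    omega
  have hDX0 : Disjoint D X0 := by
    rw [Finset.disjoint_left]
    intro e h1 h2
    have h3 := (hD e).mp h1
    have h4 := (hX e).mp (Finset.mem_filter.mp h2).1
    omega
  have hR1 : ∀ v, ((D ∪ X1) ∩ cut s t {v}).card =
      (D ∩ cut s t {v}).card + (X1 ∩ cut s t {v}).card := by
    intro v
    rw [Finset.union_inter_distrib_right, Finset.card_union_of_disjoint]
    exact Finset.disjoint_of_subset_left Finset.inter_subset_left
      (Finset.disjoint_of_subset_right Finset.inter_subset_left hDX1)
  have hR0 : ∀ v, ((D ∪ X0) ∩ cut s t {v}).card =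
      (D ∩ cut s t {v}).card + (X0 ∩ cut s t {v}).card := by
    intro v
    rw [Finset.union_inter_distrib_right, Finset.card_union_of_disjoint]
    exact Finset.disjoint_of_subset_left Finset.inter_subset_left
      (Finset.disjoint_of_subset_right Finset.inter_subset_left hDX0)
  have hterm : ∀ x y : V, (x = a ∧ y = b) ∨ (x = b ∧ y = a) →
      TwoZero s t x (D ∪ X1) (D ∪ X0) := by
    intro x y hxy
    have hxU : InU T a b x := by
      rcases hxy with ⟨rfl, _⟩ | ⟨rfl, _⟩
      · exact Or.inr (Or.inl rfl)
      · exact Or.inr (Or.inr rfl)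
    have hxT : x ∉ T := by
      rcases hxy with ⟨rfl, _⟩ | ⟨rfl, _⟩
      · exact hF.ha
      · exact hF.hb
    have h1 : (D ∩ cut s t {x}).card = 0 := by
      rw [Finset.card_eq_zero, Finset.eq_empty_iff_forall_notMem]
      intro e he
      rw [Finset.mem_inter, hD] at he
      exact split_term hF hnab ho hxy he.2 he.1
    have h2 := hcount x hxU
    have h3 := hXsplit x
    have h4 := hparity x hxU
    have h5 : r x = 0 := if_neg (fun h => hxT h.1)
    rw [h5, ZMod.natCast_eq_zero_iff_even] at h4
    unfold TwoZero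
    rw [hR1, hR0, h1]
    obtain ⟨k, hk⟩ := h4
    omega
  refine ⟨D ∪ X1, D ∪ X0, ?_, ?_, hterm a b (Or.inl ⟨rfl, rfl⟩), hterm b a (Or.inr ⟨rfl, rfl⟩)⟩
  · intro e
    have h1 := hle e
    have h2 : o e = 0 ∨ o e = 1 ∨ o e = 2 := by omega
    rcases h2 with h2 | h2 | h2
    · have h3 : e ∉ D ∪ X1 := by
        rw [Finset.mem_union, hD]
        rintro (h | h)
        · omega
        · have := (hX e).mp (Finset.mem_filter.mp h).1
          omega
      have h4 : e ∉ D ∪ X0 := by
        rw [Finset.mem_union, hD]
        rintro (h | h)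
        · omega
        · have := (hX e).mp (Finset.mem_filter.mp h).1
          omega
      rw [if_neg h3, if_neg h4, h2]
      norm_num
    · by_cases h3 : col e = 1
      · have h4 : e ∈ D ∪ X1 :=
          Finset.mem_union_right _ (Finset.mem_filter.mpr ⟨(hX e).mpr h2, h3⟩)
        have h5 : e ∉ D ∪ X0 := by
          rw [Finset.mem_union, hD]
          rintro (h | h)
          · omega
          · exact (Finset.mem_filter.mp h).2 h3
        rw [if_pos h4, if_neg h5, h2]
        norm_num
      · have h4 : e ∈ D ∪ X0 :=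
          Finset.mem_union_right _ (Finset.mem_filter.mpr ⟨(hX e).mpr h2, h3⟩)
        have h5 : e ∉ D ∪ X1 := by
          rw [Finset.mem_union, hD]
          rintro (h | h)
          · omega
          · exact h3 (Finset.mem_filter.mp h).2
        rw [if_neg h5, if_pos h4, h2]
        norm_num
    · have h3 : e ∈ D := (hD e).mpr h2
      rw [if_pos (Finset.mem_union_left _ h3), if_pos (Finset.mem_union_left _ h3), h2]
      norm_num
  · intro v hv
    have hvU : InU T a b v := Or.inl hv
    have h2 := hcount v hvU
    have h3 := hXsplit v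
    have h4 := hparity v hvU
    rw [hR1, hR0]
    by_cases h5 : (X ∩ cut s t {v}).Nonempty
    · have h6 : r v = 1 := if_pos ⟨hv, h5⟩
      have h7 := Finset.card_pos.mpr h5
      rw [h6, ZMod.natCast_eq_one_iff_odd] at h4
      obtain ⟨k, hk⟩ := h4
      omega
    · rw [Finset.not_nonempty_iff_eq_empty] at h5
      rw [h5, Finset.card_empty] at h2 h3
      omega

end Pool.Agent.Lib.MP_95bb8c_al.OE
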