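import Pool.Agent.Lib.MP_95bb8c_al.OE.BObj
import Pool.Agent.Lib.MP_95bb8c_al.OE.Split

set_option autoImplicit false
set_option linter.unusedSectionVars false

/-!
# A balanced law on single-pass joins (clean graphs without edges between the terminals)

PROOF. Take `balanced_objs` restricted to the `i` with `w i > 0`, and `R1 i`, `R2 i` of `split_obj`. New
index type `ι × Bool` (over the `i` with `w i > 0`), weights `w i` for both, joins `R1 i`, `R2 i`.
Total mass `2 * ∑ w = c`. Marginals: `∑ w i * ([e ∈ R1 i] + [e ∈ R2 i]) = ∑ w i * o i e = z e`.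
For `e ≠ f` in the star of `b`: `[e, f ∈ R1 i] + [e, f ∈ R2 i] = o i e * o i f`: the star of `b` has in
`R1 i` two edges and none in `R2 i` (or vice versa), so `o i` is `1` on two edges of the star and
`0` on the others; both sides are `1` iff `e`, `f` are these two. The same at `a` for
`σ e ≠ σ f` (`σ` is injective on the star of `b`).
-/

namespace Pool.Agent.Lib.MP_95bb8c_al.OE

open Finset

variable {V E : Type} [Fintype V] [DecidableEq V] [Fintype E] [DecidableEq E]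
variable {s t : E → V} {T : Finset V} {a b : V} {z : E → ℚ} {c : ℚ} {σ τ : E → E}

/-- `R` has exactly one edge at each vertex of `T` and `0` or `2` edges at `a` and at `b`. -/
structure Join (s t : E → V) (T : Finset V) (a b : V) (z : E → ℚ) (R : Finset E) : Prop where
  supp : ∀ e ∈ R, z e ≠ 0 ∧ s e ≠ t e
  degT : ∀ v ∈ T, (R ∩ cut s t {v}).card = 1
  dega : (R ∩ cut s t {a}).card = 0 ∨ (R ∩ cut s t {a}).card = 2
  degb : (R ∩ cut s t {b}).card = 0 ∨ (R ∩ cut s t {b}).card = 2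

theorem rlaw_sum {ι : Type} [Fintype ι] {w : ι → ℚ} (hw : ∀ i, 0 ≤ w i) (F : ι → Bool → ℚ) :
    ∑ x : {i // 0 < w i} × Bool, w x.1.1 * F x.1.1 x.2 =
      ∑ i, w i * (F i true + F i false) := by
  classical
  rw [Fintype.sum_prod_type]
  have h1 : ∀ i : {i // 0 < w i}, ∑ y : Bool, w i.1 * F i.1 y = w i.1 * (F i.1 true + F i.1 false) := by
    intro i
    rw [Fintype.sum_bool]
    ring
  rw [Finset.sum_congr rfl fun i _ => h1 i]
  have h2 : ∑ i : {i // 0 < w i}, w i.1 * (F i.1 true + F i.1 false) =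
      ∑ i ∈ univ.filter (fun i => 0 < w i), w i * (F i true + F i false) := by
    symm
    apply Finset.sum_subtype
    intro i
    simp
  rw [h2, Finset.sum_filter_of_ne]
  intro i _ h3
  rcases (hw i).lt_or_eq with h4 | h4
  · exact h4
  · exact absurd (by rw [← h4, zero_mul]) h3

theorem rlaw_pair {R1 R2 : Finset E} {v : V} {o : E → ℕ} {e f : E}
    (ho : ∀ e, (o e : ℚ) = (if e ∈ R1 then 1 else 0) + (if e ∈ R2 then 1 else 0))
    (h : TwoZero s t v R1 R2) (he : e ∈ cut s t {v}) (hf : f ∈ cut s t {v}) :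
    (if e ∈ R1 ∧ f ∈ R1 then (1 : ℚ) else 0) + (if e ∈ R2 ∧ f ∈ R2 then 1 else 0) =
      (o e : ℚ) * o f := by
  rw [ho e, ho f]
  rcases h with ⟨_, h⟩ | ⟨h, _⟩
  · rw [Finset.card_eq_zero, Finset.eq_empty_iff_forall_notMem] at h
    have h1 : e ∉ R2 := fun h1 => h e (Finset.mem_inter.mpr ⟨h1, he⟩)
    have h2 : f ∉ R2 := fun h2 => h f (Finset.mem_inter.mpr ⟨h2, hf⟩)
    by_cases h3 : e ∈ R1 <;> by_cases h4 : f ∈ R1 <;> simp [h1, h2, h3, h4]
  · rw [Finset.card_eq_zero, Finset.eq_empty_iff_forall_notMem] at h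
    have h1 : e ∉ R1 := fun h1 => h e (Finset.mem_inter.mpr ⟨h1, he⟩)
    have h2 : f ∉ R1 := fun h2 => h f (Finset.mem_inter.mpr ⟨h2, hf⟩)
    by_cases h3 : e ∈ R2 <;> by_cases h4 : f ∈ R2 <;> simp [h1, h2, h3, h4]

theorem rlaw_clean (C : Clean s t T a b c z) (hA : Axis s t a b z σ τ) :
    ∃ (ι : Type) (_ : Fintype ι) (w : ι → ℚ) (R : ι → Finset E), (∀ i, 0 < w i) ∧
      (∀ i, Join s t T a b z (R i)) ∧ ∑ i, w i = c ∧
      (∀ e, ∑ i, w i * (if e ∈ R i then 1 else 0) = z e) ∧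
      ∀ e ∈ cut s t {b}, ∀ f ∈ cut s t {b}, e ≠ f →
        ∑ i, w i * (if e ∈ R i ∧ f ∈ R i then 1 else 0) =
          ∑ i, w i * (if σ e ∈ R i ∧ σ f ∈ R i then 1 else 0) := by
  classical
  obtain ⟨ι, hι, w, o, hw, ho, hsum, hmarg, hpair⟩ := balanced_objs C hA
  have hsp := fun i => split_obj C.kk.frame hA.hnab (ho i)
  choose R1 R2 hR hRT hRa hRb using hsp
  let Q : ι → Bool → Finset E := fun i y => if y = true then R1 i else R2 i
  have hQ : ∀ i y, Q i y = R1 i ∨ Q i y = R2 i := by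
    intro i y
    cases y
    · right
      rfl
    · left
      rfl
  have hpos1 : ∀ i e, e ∈ R1 i → o i e ≠ 0 := by
    intro i e he h0
    have h1 := hR i e
    rw [h0, if_pos he] at h1
    have h2 : (0 : ℚ) ≤ (if e ∈ R2 i then 1 else 0) := by split_ifs <;> norm_num
    rw [Nat.cast_zero] at h1
    linarith
  have hpos2 : ∀ i e, e ∈ R2 i → o i e ≠ 0 := by
    intro i e he h0
    have h1 := hR i e
    rw [h0, if_pos he] at h1
    have h2 : (0 : ℚ) ≤ (if e ∈ R1 i then 1 else 0) := by split_ifs <;> norm_num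
    rw [Nat.cast_zero] at h1
    linarith
  refine ⟨{i // 0 < w i} × Bool, inferInstance, fun x => w x.1.1, fun x => Q x.1.1 x.2,
    fun x => x.1.2, fun x => ?_, ?_, fun e => ?_, fun e he f hf hne => ?_⟩
  · have hsupp : ∀ e ∈ Q x.1.1 x.2, z e ≠ 0 ∧ s e ≠ t e := by
      intro e he
      have h1 : o x.1.1 e ≠ 0 := by
        rcases hQ x.1.1 x.2 with h | h
        · exact hpos1 _ _ (h ▸ he)
        · exact hpos2 _ _ (h ▸ he)
      exact ⟨fun h => h1 ((ho x.1.1).supp e h), fun h => h1 ((ho x.1.1).loop e h)⟩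
    change Join s t T a b z (Q x.1.1 x.2)
    refine ⟨hsupp, ?_, ?_, ?_⟩
    · intro v hv
      rcases hQ x.1.1 x.2 with h | h
      · rw [h]
        exact (hRT x.1.1 v hv).1
      · rw [h]
        exact (hRT x.1.1 v hv).2
    · rcases hQ x.1.1 x.2 with h | h <;> rw [h] <;> rcases hRa x.1.1 with h1 | h1
      · exact Or.inr h1.1
      · exact Or.inl h1.1
      · exact Or.inl h1.2
      · exact Or.inr h1.2
    · rcases hQ x.1.1 x.2 with h | h <;> rw [h] <;> rcases hRb x.1.1 with h1 | h1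
      · exact Or.inr h1.1
      · exact Or.inl h1.1
      · exact Or.inl h1.2
      · exact Or.inr h1.2
  · have h1 := rlaw_sum hw (fun _ _ => 1)
    simp only [mul_one] at h1
    rw [h1, ← hsum, Finset.mul_sum]
    refine Finset.sum_congr rfl fun i _ => ?_
    ring
  · have h1 := rlaw_sum hw (fun i y => if e ∈ Q i y then 1 else 0)
    change ∑ x : {i // 0 < w i} × Bool, w x.1.1 * (if e ∈ Q x.1.1 x.2 then 1 else 0) = z e
    rw [h1, ← hmarg e]
    refine Finset.sum_congr rfl fun i _ => ?_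
    rw [hR i e]
    rfl
  · have h1 := rlaw_sum hw (fun i y => if e ∈ Q i y ∧ f ∈ Q i y then 1 else 0)
    have h2 := rlaw_sum hw (fun i y => if σ e ∈ Q i y ∧ σ f ∈ Q i y then 1 else 0)
    change ∑ x : {i // 0 < w i} × Bool, w x.1.1 * (if e ∈ Q x.1.1 x.2 ∧ f ∈ Q x.1.1 x.2 then 1 else 0)
      = ∑ x : {i // 0 < w i} × Bool, w x.1.1 * (if σ e ∈ Q x.1.1 x.2 ∧ σ f ∈ Q x.1.1 x.2 then 1 else 0)
    rw [h1, h2]
    have h3 : ∀ i, (if e ∈ Q i true ∧ f ∈ Q i true then (1 : ℚ) else 0) +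
        (if e ∈ Q i false ∧ f ∈ Q i false then 1 else 0) = (o i e : ℚ) * o i f :=
      fun i => rlaw_pair (hR i) (hRb i) he hf
    have h4 : ∀ i, (if σ e ∈ Q i true ∧ σ f ∈ Q i true then (1 : ℚ) else 0) +
        (if σ e ∈ Q i false ∧ σ f ∈ Q i false then 1 else 0) = (o i (σ e) : ℚ) * o i (σ f) :=
      fun i => rlaw_pair (hR i) (hRa i) (hA.link.fwd e he).1 (hA.link.fwd f hf).1
    simp_rw [h3, h4]
    exact hpair e he f hf

end Pool.Agent.Lib.MP_95bb8c_al.OE
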