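import Pool.Agent.Lib.MP_95bb8c_al.OE.SubDefs

set_option autoImplicit false
set_option linter.unusedSectionVars false

/-!
# The axis of the subdivided graph

PROOF of `sub_axis`. An edge `x` of `G'` at `inl b` is `inl e` with `e` at `b`, not special, or
`inr (e, true)`; so `x = phi true (psi x) d` for each `d`, `psi x ∈ cut s t {b}`, `z (psi x) ≠ 0`. The same
at `inl a` with `phi false`. With `e = psi x`: `σ e` is at `a`, has weight `z e ≠ 0` and is no loop, so
`sbσ x = phi false (σ e) x` is at `inl a` with `psi` of it `= σ e` and weight `z (σ e) = z e`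
(special: `inr (σ e, false)` of weight `z (σ e)`; otherwise `inl (σ e)` of weight `z (σ e)`), and
`sbτ (sbσ x) = phi true (τ (σ e)) _ = phi true e _ = x`. The weight of `x` is `z e` too. The same
for `bwd`. No edge of `G'` is at `inl a` and at `inl b`.
-/

namespace Pool.Agent.Lib.MP_95bb8c_al.OE

open Finset

variable {V E : Type} [Fintype V] [DecidableEq V] [Fintype E] [DecidableEq E]
variable {s t : E → V} {T : Finset V} {a b : V} {z : E → ℚ} {c : ℚ} {σ τ : E → E}

theorem subAxis_inr (y : AB s t a b z) (j : Bool) (v : V) :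
    (Sum.inr (y, j) : E0 s t z ⊕ (AB s t a b z × Bool)) ∈
      cut (sbS s t a b z) (sbT s t a b z) {Sum.inl v} ↔ (if j then b else a) = v := by
  rw [mem_cut_singleton]
  simp [sbS, sbT]

theorem subAxis_sp (e : E0 s t z) (h : e.1 ∈ cut s t {a} ∧ e.1 ∈ cut s t {b}) (v : V) :
    (Sum.inl e : E0 s t z ⊕ (AB s t a b z × Bool)) ∉
      cut (sbS s t a b z) (sbT s t a b z) {Sum.inl v} := by
  rw [mem_cut_singleton]
  simp [sbS, sbT, h]

theorem subAxis_inl (e : E0 s t z) (h : ¬ (e.1 ∈ cut s t {a} ∧ e.1 ∈ cut s t {b})) (v : V) :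
    (Sum.inl e : E0 s t z ⊕ (AB s t a b z × Bool)) ∈
      cut (sbS s t a b z) (sbT s t a b z) {Sum.inl v} ↔ e.1 ∈ cut s t {v} := by
  have hs : sbS s t a b z (Sum.inl e) = Sum.inl (s e.1) := by
    simp only [sbS, Sum.elim_inl]
    rw [dif_neg h]
  have ht : sbT s t a b z (Sum.inl e) = Sum.inl (t e.1) := by
    simp only [sbT, Sum.elim_inl]
    rw [dif_neg h]
  rw [mem_cut_singleton, mem_cut_singleton, hs, ht, Sum.inl.injEq, Sum.inl.injEq]

theorem subAxis_ne {v : V} {e : E} (h : e ∈ cut s t {v}) : s e ≠ t e := by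
  intro h1
  rw [mem_cut, h1] at h
  exact h Iff.rfl

/-- the new edge which represents an old edge at a terminal -/
theorem subAxis_phi (c : ℚ) (i : Bool) {e : E} (he : e ∈ cut s t {if i then b else a}) (hz : z e ≠ 0)
    (d : E0 s t z ⊕ (AB s t a b z × Bool)) :
    phi s t a b z i e d ∈ cut (sbS s t a b z) (sbT s t a b z) {Sum.inl (if i then b else a)} ∧
      psi s t a b z (phi s t a b z i e d) = e ∧ sbz s t a b c z (phi s t a b z i e d) = z e := by
  unfold phi
  by_cases h : z e ≠ 0 ∧ e ∈ cut s t {a} ∧ e ∈ cut s t {b}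
  · rw [dif_pos h]
    exact ⟨(subAxis_inr _ _ _).2 rfl, rfl, rfl⟩
  · have h2 : z e ≠ 0 ∧ s e ≠ t e := ⟨hz, subAxis_ne he⟩
    have h3 : ¬ (e ∈ cut s t {a} ∧ e ∈ cut s t {b}) := fun h4 => h ⟨hz, h4⟩
    rw [dif_neg h, dif_pos h2]
    refine ⟨(subAxis_inl ⟨e, h2⟩ h3 _).2 he, rfl, ?_⟩
    simp only [sbz, Sum.elim_inl]
    rw [if_neg h3]

/-- the new edges at a terminal -/
theorem subAxis_at (c : ℚ) (hab : a ≠ b) (i : Bool) {x : E0 s t z ⊕ (AB s t a b z × Bool)}
    (hx : x ∈ cut (sbS s t a b z) (sbT s t a b z) {Sum.inl (if i then b else a)}) :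
    psi s t a b z x ∈ cut s t {if i then b else a} ∧ z (psi s t a b z x) ≠ 0 ∧
      (∀ d, phi s t a b z i (psi s t a b z x) d = x) ∧
      sbz s t a b c z x = z (psi s t a b z x) := by
  rcases x with e | ⟨y, j⟩
  · by_cases h : e.1 ∈ cut s t {a} ∧ e.1 ∈ cut s t {b}
    · exact absurd hx (subAxis_sp e h _)
    · rw [subAxis_inl e h] at hx
      refine ⟨hx, e.2.1, fun d => ?_, ?_⟩
      · unfold phi
        have h1 : ¬ (z e.1 ≠ 0 ∧ e.1 ∈ cut s t {a} ∧ e.1 ∈ cut s t {b}) := fun h2 => h h2.2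
        exact (dif_neg h1).trans (dif_pos e.2)
      · simp only [sbz, Sum.elim_inl]
        rw [if_neg h]
        rfl
  · rw [subAxis_inr] at hx
    have hij : j = i := by
      cases i <;> cases j <;> simp at hx ⊢
      · exact hab hx.symm
      · exact hab hx
    subst hij
    refine ⟨?_, y.2.1, fun d => ?_, rfl⟩
    · cases j
      · exact y.2.2.1
      · exact y.2.2.2
    · unfold phi
      exact dif_pos y.2

theorem sub_axis (h : KK s t T a b c c z) (hA : Axis0 s t a b c z σ τ) :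
    Axis (sbS s t a b z) (sbT s t a b z) (Sum.inl a) (Sum.inl b) (sbz s t a b c z)
      (sbσ s t a b z σ) (sbτ s t a b z τ) := by
  have hab := h.frame.hab
  refine ⟨⟨fun x hx => ?_, fun x hx => ?_⟩, fun x hx hx' => ?_⟩
  · obtain ⟨h1, h2, h3, h4⟩ := subAxis_at c hab true hx
    obtain ⟨h5, h6, h7⟩ := hA.fwd _ h1 h2
    have h8 : z (σ (psi s t a b z x)) ≠ 0 := by rw [h7]; exact h2
    obtain ⟨h9, h10, h11⟩ := subAxis_phi c false h5 h8 x
    refine ⟨h9, ?_, ?_⟩
    · show phi s t a b z true (τ (psi s t a b z (sbσ s t a b z σ x))) (sbσ s t a b z σ x) = x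
      have h12 : psi s t a b z (sbσ s t a b z σ x) = σ (psi s t a b z x) := h10
      rw [h12, h6]
      exact h3 _
    · rw [h4, ← h7]
      exact h11
  · obtain ⟨h1, h2, h3, h4⟩ := subAxis_at c hab false hx
    obtain ⟨h5, h6, h7⟩ := hA.bwd _ h1 h2
    have h8 : z (τ (psi s t a b z x)) ≠ 0 := by rw [h7]; exact h2
    obtain ⟨h9, h10, h11⟩ := subAxis_phi c true h5 h8 x
    refine ⟨h9, ?_⟩
    show phi s t a b z false (σ (psi s t a b z (sbτ s t a b z τ x))) (sbτ s t a b z τ x) = x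
    have h12 : psi s t a b z (sbτ s t a b z τ x) = τ (psi s t a b z x) := h10
    rw [h12, h6]
    exact h3 _
  · obtain ⟨h1, h2, h3, -⟩ := subAxis_at c hab true hx
    obtain ⟨h5, -, h6, -⟩ := subAxis_at c hab false hx'
    have h7 : z (psi s t a b z x) ≠ 0 ∧ psi s t a b z x ∈ cut s t {a} ∧
        psi s t a b z x ∈ cut s t {b} := ⟨h2, h5, h1⟩
    have h8 := (h3 x).trans (h6 x).symm
    unfold phi at h8
    rw [dif_pos h7, dif_pos h7] at h8
    exact Bool.false_ne_true (congrArg Prod.snd (Sum.inr.inj h8)).symm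

end Pool.Agent.Lib.MP_95bb8c_al.OE
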