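import Pool.Agent.Lib.MP_95bb8c_al.OE.SubKK
import Pool.Agent.Lib.MP_95bb8c_al.OE.SubAxis
import Pool.Agent.Lib.MP_95bb8c_al.OE.RLaw

set_option autoImplicit false
set_option linter.unusedSectionVars false

/-!
# A balanced law on single-pass joins, general case

PROOF. Take the law `w, R'` of `rlaw_clean` for the subdivided graph (`sub_clean`, `sub_axis`). For a
join `R'` of the new graph define `R = back R' : Finset E`: `e ∈ R` iff (`e : AB` and
`inr (e, false) ∈ R'`) or (`e : E0` is not special and `inl e ∈ R'`). For `e : AB`: exactly one edge of `R'` is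
at the new vertex `inr (e, false)` (its star is `inl e`, `inr (e, false)`), and the same at
`inr (e, true)`; so `inr (e, false) ∈ R' ↔ inl e ∉ R' ↔ inr (e, true) ∈ R'`.
Star of `v ∈ T`: no `AB` edge, `R ∩ cut s t {v}` corresponds to `R' ∩ cut' {inl v}` by `inl e ↦ e`:
one edge. Star of `a`: `e ↦ phi false e` maps `R ∩ cut s t {a}` bijectively to
`R' ∩ cut' {inl a}`, star of `b`: `phi true`, using the equivalence above. Hence `Join`. Marginals: for
`e` no loop with `z e ≠ 0`: special: the marginal of `inr (e, false)` is `z e`; otherwise that of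
`inl e` is `z e`. If `z e = 0`: `e ∉ R`. Balance: `e ∈ R ↔ phi true e _ ∈ R'` for `e` at `b` with
`z e ≠ 0`, `σ e ∈ R ↔ phi false (σ e) _ ∈ R'` and `sbσ (phi true e _) = phi false (σ e) _`.
-/

namespace Pool.Agent.Lib.MP_95bb8c_al.OE

open Finset

variable {V E : Type} [Fintype V] [DecidableEq V] [Fintype E] [DecidableEq E]
variable {s t : E → V} {T : Finset V} {a b : V} {z : E → ℚ} {c : ℚ} {σ τ : E → E}

/-- the old edge `e` belongs to the old join -/
def subLaw_P (s t : E → V) (a b : V) (z : E → ℚ) (R : Finset (E0 s t z ⊕ (AB s t a b z × Bool)))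
    (e : E) : Bool :=
  if h : z e ≠ 0 ∧ e ∈ cut s t {a} ∧ e ∈ cut s t {b} then decide (Sum.inr (⟨e, h⟩, false) ∈ R)
  else if h2 : z e ≠ 0 ∧ s e ≠ t e then decide (Sum.inl ⟨e, h2⟩ ∈ R) else false

/-- the old join -/
def subLaw_back (s t : E → V) (a b : V) (z : E → ℚ)
    (R : Finset (E0 s t z ⊕ (AB s t a b z × Bool))) : Finset E :=
  univ.filter fun e => subLaw_P s t a b z R e = true

theorem subLaw_mem (R : Finset (E0 s t z ⊕ (AB s t a b z × Bool))) (e : E) :
    e ∈ subLaw_back s t a b z R ↔ subLaw_P s t a b z R e = true := by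
  simp [subLaw_back]

theorem subLaw_mem_sp (R : Finset (E0 s t z ⊕ (AB s t a b z × Bool))) {e : E}
    (h : z e ≠ 0 ∧ e ∈ cut s t {a} ∧ e ∈ cut s t {b}) :
    e ∈ subLaw_back s t a b z R ↔ Sum.inr (⟨e, h⟩, false) ∈ R := by
  rw [subLaw_mem]
  unfold subLaw_P
  rw [dif_pos h, decide_eq_true_iff]

theorem subLaw_mem_ns (R : Finset (E0 s t z ⊕ (AB s t a b z × Bool))) {e : E}
    (h : ¬ (e ∈ cut s t {a} ∧ e ∈ cut s t {b})) (h2 : z e ≠ 0 ∧ s e ≠ t e) :
    e ∈ subLaw_back s t a b z R ↔ Sum.inl ⟨e, h2⟩ ∈ R := by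
  rw [subLaw_mem]
  unfold subLaw_P
  have h1 : ¬ (z e ≠ 0 ∧ e ∈ cut s t {a} ∧ e ∈ cut s t {b}) := fun h3 => h h3.2
  rw [dif_neg h1, dif_pos h2, decide_eq_true_iff]

theorem subLaw_supp (R : Finset (E0 s t z ⊕ (AB s t a b z × Bool))) {e : E}
    (he : e ∈ subLaw_back s t a b z R) : z e ≠ 0 ∧ s e ≠ t e := by
  rw [subLaw_mem] at he
  unfold subLaw_P at he
  split_ifs at he with h1 h2
  · exact ⟨h1.1, subAxis_ne h1.2.1⟩
  · exact h2

/-- the star of a new vertex -/
theorem subLaw_star (hab : a ≠ b) (y : AB s t a b z) (i : Bool) :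
    cut (sbS s t a b z) (sbT s t a b z) {Sum.inr (y, i)} =
      {Sum.inl ⟨y.1, y.2.1, subAxis_ne y.2.2.1⟩, Sum.inr (y, i)} := by
  ext x
  rw [mem_cut_singleton, Finset.mem_insert, Finset.mem_singleton]
  rcases x with e | ⟨y', j⟩
  · by_cases h : e.1 ∈ cut s t {a} ∧ e.1 ∈ cut s t {b}
    · have hs : sbS s t a b z (Sum.inl e) = Sum.inr (⟨e.1, e.2.1, h⟩, false) := by
        simp only [sbS, Sum.elim_inl]
        rw [dif_pos h]
      have ht : sbT s t a b z (Sum.inl e) = Sum.inr (⟨e.1, e.2.1, h⟩, true) := by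
        simp only [sbT, Sum.elim_inl]
        rw [dif_pos h]
      rw [hs, ht]
      have key : (Sum.inl e : E0 s t z ⊕ (AB s t a b z × Bool)) =
          Sum.inl ⟨y.1, y.2.1, subAxis_ne y.2.2.1⟩ ↔ e.1 = y.1 := by
        rw [Sum.inl.injEq]
        constructor
        · intro h1
          exact congrArg Subtype.val h1
        · intro h1
          exact Subtype.ext h1
      rw [key]
      simp only [Sum.inr.injEq, Prod.mk.injEq, reduceCtorEq, or_false]
      have key2 : (⟨e.1, e.2.1, h⟩ : AB s t a b z) = y ↔ e.1 = y.1 := by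
        constructor
        · intro h1
          exact congrArg Subtype.val h1
        · intro h1
          exact Subtype.ext h1
      rw [key2]
      cases i <;> simp
    · have hs : sbS s t a b z (Sum.inl e) = Sum.inl (s e.1) := by
        simp only [sbS, Sum.elim_inl]
        rw [dif_neg h]
      have ht : sbT s t a b z (Sum.inl e) = Sum.inl (t e.1) := by
        simp only [sbT, Sum.elim_inl]
        rw [dif_neg h]
      rw [hs, ht]
      constructor
      · intro h1
        exact absurd (iff_of_false (by exact Sum.inl_ne_inr) (by exact Sum.inl_ne_inr)) h1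
      · rintro (h1 | h1)
        · exfalso
          have h2 := congrArg Subtype.val (Sum.inl.inj h1)
          apply h
          show (e : E) ∈ cut s t {a} ∧ (e : E) ∈ cut s t {b}
          rw [h2]
          exact y.2.2
        · exact absurd h1 Sum.inl_ne_inr
  · have hs : sbS s t a b z (Sum.inr (y', j)) = Sum.inl (if j then b else a) := rfl
    have ht : sbT s t a b z (Sum.inr (y', j)) = Sum.inr (y', j) := rfl
    rw [hs, ht]
    constructor
    · intro h1
      right
      by_contra h2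
      exact h1 (iff_of_false Sum.inl_ne_inr (fun h3 => h2 (by rw [Sum.inr.inj h3])))
    · rintro (h1 | h1)
      · exact absurd h1 Sum.inr_ne_inl
      · intro h2
        exact Sum.inl_ne_inr (h2.2 (by rw [Sum.inr.inj h1]))

theorem subLaw_pair {α : Type} [DecidableEq α] {R : Finset α} {x y : α} (hxy : x ≠ y)
    (h : (R ∩ {x, y}).card = 1) : y ∈ R ↔ x ∉ R := by
  by_cases hx : x ∈ R <;> by_cases hy : y ∈ R
  · exfalso
    have h1 : R ∩ {x, y} = {x, y} := by
      apply Finset.inter_eq_right.2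
      intro u hu
      rw [Finset.mem_insert, Finset.mem_singleton] at hu
      rcases hu with rfl | rfl <;> assumption
    rw [h1, Finset.card_pair hxy] at h
    exact absurd h (by norm_num)
  · exact iff_of_false hy (fun h1 => h1 hx)
  · exact iff_of_true hy hx
  · exfalso
    have h1 : R ∩ {x, y} = ∅ := by
      rw [Finset.eq_empty_iff_forall_notMem]
      intro u hu
      rw [Finset.mem_inter, Finset.mem_insert, Finset.mem_singleton] at hu
      rcases hu with ⟨hu, rfl | rfl⟩
      · exact hx hu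
      · exact hy hu
    rw [h1, Finset.card_empty] at h
    exact absurd h (by norm_num)

theorem subLaw_two (hab : a ≠ b) (R : Finset (E0 s t z ⊕ (AB s t a b z × Bool)))
    (hR : ∀ v ∈ sbV s t a b z T, (R ∩ cut (sbS s t a b z) (sbT s t a b z) {v}).card = 1)
    (y : AB s t a b z) : Sum.inr (y, true) ∈ R ↔ Sum.inr (y, false) ∈ R := by
  have h1 : ∀ i, Sum.inr (y, i) ∈ R ↔ Sum.inl ⟨y.1, y.2.1, subAxis_ne y.2.2.1⟩ ∉ R := by
    intro i
    have h2 := hR (Sum.inr (y, i)) (by simp [sbV])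
    rw [subLaw_star hab] at h2
    exact subLaw_pair Sum.inl_ne_inr h2
  rw [h1, h1]

theorem subLaw_phi (hab : a ≠ b) (R : Finset (E0 s t z ⊕ (AB s t a b z × Bool)))
    (hR : ∀ v ∈ sbV s t a b z T, (R ∩ cut (sbS s t a b z) (sbT s t a b z) {v}).card = 1)
    (i : Bool) {e : E} (h2 : z e ≠ 0 ∧ s e ≠ t e) (d : E0 s t z ⊕ (AB s t a b z × Bool)) :
    e ∈ subLaw_back s t a b z R ↔ phi s t a b z i e d ∈ R := by
  by_cases h : e ∈ cut s t {a} ∧ e ∈ cut s t {b}
  · have h1 : z e ≠ 0 ∧ e ∈ cut s t {a} ∧ e ∈ cut s t {b} := ⟨h2.1, h⟩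
    have h3 : phi s t a b z i e d = Sum.inr (⟨e, h1⟩, i) := dif_pos h1
    rw [subLaw_mem_sp R h1, h3]
    cases i
    · exact Iff.rfl
    · exact (subLaw_two hab R hR _).symm
  · have h1 : ¬ (z e ≠ 0 ∧ e ∈ cut s t {a} ∧ e ∈ cut s t {b}) := fun h3 => h h3.2
    have h3 : phi s t a b z i e d = Sum.inl ⟨e, h2⟩ := (dif_neg h1).trans (dif_pos h2)
    rw [subLaw_mem_ns R h h2, h3]

/-- the star of a terminal -/
theorem subLaw_card (c : ℚ) (hab : a ≠ b) (R : Finset (E0 s t z ⊕ (AB s t a b z × Bool)))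
    (hR : ∀ v ∈ sbV s t a b z T, (R ∩ cut (sbS s t a b z) (sbT s t a b z) {v}).card = 1)
    (i : Bool) : (R ∩ cut (sbS s t a b z) (sbT s t a b z) {Sum.inl (if i then b else a)}).card =
      (subLaw_back s t a b z R ∩ cut s t {if i then b else a}).card := by
  refine Finset.card_bij (fun x _ => psi s t a b z x) (fun x hx => ?_) (fun x hx x' hx' he => ?_)
    (fun e he => ?_)
  · rw [Finset.mem_inter] at hx ⊢
    obtain ⟨h1, h2, h3, -⟩ := subAxis_at c hab i hx.2
    refine ⟨?_, h1⟩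
    rw [subLaw_phi hab R hR i ⟨h2, subAxis_ne h1⟩ x, h3]
    exact hx.1
  · rw [Finset.mem_inter] at hx hx'
    obtain ⟨-, -, h3, -⟩ := subAxis_at c hab i hx.2
    obtain ⟨-, -, h4, -⟩ := subAxis_at c hab i hx'.2
    have he' : psi s t a b z x = psi s t a b z x' := he
    rw [← h3 x, he', h4 x]
  · rw [Finset.mem_inter] at he
    have h1 := subLaw_supp R he.1
    obtain ⟨h2, h3, -⟩ := subAxis_phi c i he.2 h1.1 (Sum.inl ⟨e, h1⟩)
    refine ⟨phi s t a b z i e (Sum.inl ⟨e, h1⟩), ?_, h3⟩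
    rw [Finset.mem_inter]
    exact ⟨(subLaw_phi hab R hR i h1 _).1 he.1, h2⟩

/-- the star of an ordinary vertex -/
theorem subLaw_cardT (hab : a ≠ b) (R : Finset (E0 s t z ⊕ (AB s t a b z × Bool)))
    (v : V) (hva : v ≠ a) (hvb : v ≠ b) :
    (R ∩ cut (sbS s t a b z) (sbT s t a b z) {Sum.inl v}).card =
      (subLaw_back s t a b z R ∩ cut s t {v}).card := by
  refine Finset.card_bij (fun x _ => psi s t a b z x) (fun x hx => ?_) (fun x hx x' hx' he => ?_)
    (fun e he => ?_)
  · rw [Finset.mem_inter] at hx ⊢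
    rcases x with e | ⟨y, j⟩
    · by_cases h : e.1 ∈ cut s t {a} ∧ e.1 ∈ cut s t {b}
      · exact absurd hx.2 (subAxis_sp e h v)
      · exact ⟨(subLaw_mem_ns R h e.2).2 hx.1, (subAxis_inl e h v).1 hx.2⟩
    · exfalso
      have h1 := (subAxis_inr y j v).1 hx.2
      cases j
      · exact hva h1.symm
      · exact hvb h1.symm
  · rw [Finset.mem_inter] at hx hx'
    have key : ∀ x : E0 s t z ⊕ (AB s t a b z × Bool),
        x ∈ cut (sbS s t a b z) (sbT s t a b z) {Sum.inl v} → ∃ e : E0 s t z, x = Sum.inl e := by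
      rintro (e | ⟨y, j⟩) h1
      · exact ⟨e, rfl⟩
      · exfalso
        have h1 := (subAxis_inr y j v).1 h1
        cases j
        · exact hva h1.symm
        · exact hvb h1.symm
    obtain ⟨e, rfl⟩ := key x hx.2
    obtain ⟨e', rfl⟩ := key x' hx'.2
    have h1 : e.1 = e'.1 := he
    rw [Subtype.ext h1]
  · rw [Finset.mem_inter] at he
    have h1 := subLaw_supp R he.1
    have h : ¬ (e ∈ cut s t {a} ∧ e ∈ cut s t {b}) := by
      rintro ⟨h2, h3⟩
      have h4 := he.2
      rw [mem_cut_singleton] at h4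
      rcases subKK_ends hab h2 h3 with ⟨h5, h6⟩ | ⟨h5, h6⟩
      · rw [h5, h6] at h4
        exact h4 (iff_of_false hva.symm hvb.symm)
      · rw [h5, h6] at h4
        exact h4 (iff_of_false hvb.symm hva.symm)
    refine ⟨Sum.inl ⟨e, h1⟩, ?_, rfl⟩
    rw [Finset.mem_inter]
    exact ⟨(subLaw_mem_ns R h h1).1 he.1, (subAxis_inl ⟨e, h1⟩ h v).2 he.2⟩

theorem rlaw (h : KK s t T a b c c z) (hc : 0 < c) (hA : Axis0 s t a b c z σ τ) :
    ∃ (ι : Type) (_ : Fintype ι) (w : ι → ℚ) (R : ι → Finset E), (∀ i, 0 < w i) ∧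
      (∀ i, Join s t T a b z (R i)) ∧ ∑ i, w i = c ∧
      (∀ e, s e ≠ t e → ∑ i, w i * (if e ∈ R i then 1 else 0) = z e) ∧
      ∀ e ∈ cut s t {b}, ∀ f ∈ cut s t {b}, z e ≠ 0 → z f ≠ 0 → e ≠ f →
        ∑ i, w i * (if e ∈ R i ∧ f ∈ R i then 1 else 0) =
          ∑ i, w i * (if σ e ∈ R i ∧ σ f ∈ R i then 1 else 0) := by
  have hab := h.frame.hab
  obtain ⟨ι, hι, w, R', hw, hJ, hsum, hmarg, hbal⟩ :=
    rlaw_clean (sub_clean h hc hA) (sub_axis h hA)
  refine ⟨ι, hι, w, fun i => subLaw_back s t a b z (R' i), hw, fun i => ?_, hsum, ?_, ?_⟩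
  · have hR := (hJ i).degT
    refine ⟨fun e he => subLaw_supp _ he, fun v hv => ?_, ?_, ?_⟩
    · rw [← subLaw_cardT hab (R' i) v (fun h1 => h.frame.ha (h1 ▸ hv))
        (fun h1 => h.frame.hb (h1 ▸ hv))]
      exact hR _ (by simp [sbV, hv])
    · have h1 := subLaw_card c hab (R' i) hR false
      have h2 := (hJ i).dega
      simp only [Bool.false_eq_true, if_false] at h1
      rw [← h1]
      exact h2
    · have h1 := subLaw_card c hab (R' i) hR true
      have h2 := (hJ i).degb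
      simp only [if_true] at h1
      rw [← h1]
      exact h2
  · intro e hne
    by_cases hz : z e = 0
    · rw [hz]
      refine Finset.sum_eq_zero fun i _ => ?_
      have h1 : e ∉ subLaw_back s t a b z (R' i) := fun h2 => (subLaw_supp _ h2).1 hz
      rw [if_neg h1, mul_zero]
    · by_cases hs : e ∈ cut s t {a} ∧ e ∈ cut s t {b}
      · have h1 : z e ≠ 0 ∧ e ∈ cut s t {a} ∧ e ∈ cut s t {b} := ⟨hz, hs⟩
        have h2 := hmarg (Sum.inr (⟨e, h1⟩, false))
        have h3 : sbz s t a b c z (Sum.inr (⟨e, h1⟩, false)) = z e := rfl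
        rw [h3] at h2
        rw [← h2]
        refine Finset.sum_congr rfl fun i _ => ?_
        congr 1
        exact if_congr (subLaw_mem_sp (R' i) h1) rfl rfl
      · have h2 := hmarg (Sum.inl ⟨e, hz, hne⟩)
        have h3 : sbz s t a b c z (Sum.inl ⟨e, hz, hne⟩) = z e := by
          simp only [sbz, Sum.elim_inl]
          rw [if_neg hs]
        rw [h3] at h2
        rw [← h2]
        refine Finset.sum_congr rfl fun i _ => ?_
        congr 1
        exact if_congr (subLaw_mem_ns (R' i) hs ⟨hz, hne⟩) rfl rfl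
  · intro e he f hf hze hzf hef
    have hne := subAxis_ne he
    have hnf := subAxis_ne hf
    obtain ⟨x, hx⟩ : ∃ x, x = phi s t a b z true e (Sum.inl ⟨e, hze, hne⟩) := ⟨_, rfl⟩
    obtain ⟨x', hx'⟩ : ∃ x', x' = phi s t a b z true f (Sum.inl ⟨f, hzf, hnf⟩) := ⟨_, rfl⟩
    obtain ⟨h1, h2, -⟩ := subAxis_phi c true he hze (Sum.inl ⟨e, hze, hne⟩)
    obtain ⟨h3, h4, -⟩ := subAxis_phi c true hf hzf (Sum.inl ⟨f, hzf, hnf⟩)
    rw [← hx] at h1 h2
    rw [← hx'] at h3 h4
    have hxx : x ≠ x' := by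
      intro h5
      apply hef
      rw [← h2, ← h4, h5]
    have h5 := hbal x h1 x' h3 hxx
    obtain ⟨g1, g2, g3⟩ := hA.fwd e he hze
    obtain ⟨k1, k2, k3⟩ := hA.fwd f hf hzf
    have h6 : ∑ i, w i * (if e ∈ subLaw_back s t a b z (R' i) ∧
        f ∈ subLaw_back s t a b z (R' i) then (1 : ℚ) else 0) =
        ∑ i, w i * (if x ∈ R' i ∧ x' ∈ R' i then 1 else 0) := by
      refine Finset.sum_congr rfl fun i _ => ?_
      congr 1
      refine if_congr (and_congr ?_ ?_) rfl rfl
      · rw [hx]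
        exact subLaw_phi hab (R' i) (hJ i).degT true ⟨hze, hne⟩ _
      · rw [hx']
        exact subLaw_phi hab (R' i) (hJ i).degT true ⟨hzf, hnf⟩ _
    have h7 : ∑ i, w i * (if σ e ∈ subLaw_back s t a b z (R' i) ∧
        σ f ∈ subLaw_back s t a b z (R' i) then (1 : ℚ) else 0) =
        ∑ i, w i * (if sbσ s t a b z σ x ∈ R' i ∧ sbσ s t a b z σ x' ∈ R' i then 1 else 0) := by
      refine Finset.sum_congr rfl fun i _ => ?_
      congr 1
      refine if_congr (and_congr ?_ ?_) rfl rfl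
      · have h8 : sbσ s t a b z σ x = phi s t a b z false (σ e) x := by
          unfold sbσ
          rw [h2]
        rw [h8]
        exact subLaw_phi hab (R' i) (hJ i).degT false
          ⟨by rw [g3]; exact hze, subAxis_ne g1⟩ _
      · have h8 : sbσ s t a b z σ x' = phi s t a b z false (σ f) x' := by
          unfold sbσ
          rw [h4]
        rw [h8]
        exact subLaw_phi hab (R' i) (hJ i).degT false
          ⟨by rw [k3]; exact hzf, subAxis_ne k1⟩ _
    show ∑ i, w i * (if e ∈ subLaw_back s t a b z (R' i) ∧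
        f ∈ subLaw_back s t a b z (R' i) then (1 : ℚ) else 0) =
        ∑ i, w i * (if σ e ∈ subLaw_back s t a b z (R' i) ∧
        σ f ∈ subLaw_back s t a b z (R' i) then (1 : ℚ) else 0)
    rw [h6, h7]
    exact h5

end Pool.Agent.Lib.MP_95bb8c_al.OE
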