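import Pool.Agent.Lib.MP_95bb8c_al.OE.PeelY
import Pool.Agent.Lib.MP_95bb8c_al.OE.SubLaw

set_option autoImplicit false
set_option linter.unusedSectionVars false

/-!
# The three laws on a weighted graph with two terminals

PROOF of `main_law`. `peelY` gives the matchings `C` (mass `c - k`) and `o` with
`KK s t T a b k k o`, `z e = ∑ w1 i * [e ∈ C i] + o e`. So `0 ≤ o e ≤ z e`, and `o e = z e` for `e` at
`a` or at `b` (the edges of `C i` have both ends in `T`).
`O`: `edmonds_frame` for `U = insert a (insert b T)`, `x = o`, constant `k`: a set `S` with `S ∩ U`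
odd is essential (`(S ∩ U).card = (S ∩ T).card + [a ∈ S] + [b ∈ S]`), `ess_le`.
(`O i` in the support: if `o e = 0` then `e ∉ O i` by `supp_of_law`.)
`R`: `rlaw` for `o`, constant `k`, with `Axis0 s t a b k o σ τ` (from the one for `z`, since
`o = z` on both stars). Supports: `o e ≠ 0` implies `z e ≠ 0`.
-/

namespace Pool.Agent.Lib.MP_95bb8c_al.OE

open Finset

variable {V E : Type} [Fintype V] [DecidableEq V] [Fintype E] [DecidableEq E]

/-- Three laws: `C` perfect matchings of `T` (mass `c - k`), `O` perfect matchings of all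
vertices (mass `k`), `R` single-pass joins (mass `k`) with balanced pairs; `O` and `R` have the
same marginals, and the marginals of `C` and `O` add up to `z`. -/
structure Law3 (s t : E → V) (T : Finset V) (a b : V) (c k : ℚ) (z : E → ℚ) (σ : E → E) where
  ι1 : Type
  ι2 : Type
  ι3 : Type
  f1 : Fintype ι1
  f2 : Fintype ι2
  f3 : Fintype ι3
  w1 : ι1 → ℚ
  w2 : ι2 → ℚ
  w3 : ι3 → ℚ
  C : ι1 → Finset E
  O : ι2 → Finset E
  R : ι3 → Finset E
  p1 : ∀ i, 0 < w1 i
  p2 : ∀ i, 0 < w2 i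
  p3 : ∀ i, 0 < w3 i
  m1 : ∑ i, w1 i = c - k
  m2 : ∑ i, w2 i = k
  m3 : ∑ i, w3 i = k
  hC : ∀ i, Inside s t T z (C i) ∧ ∀ v ∈ T, (C i ∩ cut s t {v}).card = 1
  hO : ∀ i, (∀ e ∈ O i, z e ≠ 0 ∧ s e ≠ t e) ∧ ∀ v, InU T a b v → (O i ∩ cut s t {v}).card = 1
  hR : ∀ i, Join s t T a b z (R i)
  mar : ∀ e, s e ≠ t e →
    ∑ i, w1 i * (if e ∈ C i then 1 else 0) + ∑ i, w2 i * (if e ∈ O i then 1 else 0) = z e
  marR : ∀ e, s e ≠ t e →
    ∑ i, w3 i * (if e ∈ R i then 1 else 0) = ∑ i, w2 i * (if e ∈ O i then 1 else 0)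
  bal : ∀ e ∈ cut s t {b}, ∀ f ∈ cut s t {b}, z e ≠ 0 → z f ≠ 0 → e ≠ f →
    ∑ i, w3 i * (if e ∈ R i ∧ f ∈ R i then 1 else 0) =
      ∑ i, w3 i * (if σ e ∈ R i ∧ σ f ∈ R i then 1 else 0)

attribute [instance] Law3.f1 Law3.f2 Law3.f3

variable {s t : E → V} {T : Finset V} {a b : V} {z : E → ℚ} {c k : ℚ} {σ τ : E → E}

theorem main3_o_le {ι : Type} [Fintype ι] {w : ι → ℚ} {M : ι → Finset E} {o : E → ℚ}
    (hw : ∀ i, 0 < w i) (hz : ∀ e, z e = ∑ i, w i * (if e ∈ M i then 1 else 0) + o e) (e : E) :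
    o e ≤ z e := by
  rw [hz e]
  have h1 : 0 ≤ ∑ i, w i * (if e ∈ M i then (1 : ℚ) else 0) :=
    Finset.sum_nonneg fun i _ => mul_nonneg (hw i).le (by split_ifs <;> norm_num)
  linarith

theorem main3_star {ι : Type} [Fintype ι] {w : ι → ℚ} {M : ι → Finset E} {o : E → ℚ}
    (hM : ∀ i, Inside s t T z (M i))
    (hz : ∀ e, z e = ∑ i, w i * (if e ∈ M i then 1 else 0) + o e) {x : V} (hx : x ∉ T) {e : E}
    (he : e ∈ cut s t {x}) : o e = z e := by
  have h1 : ∑ i, w i * (if e ∈ M i then (1 : ℚ) else 0) = 0 := by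
    apply Finset.sum_eq_zero
    intro i _
    rw [if_neg, mul_zero]
    intro h2
    obtain ⟨_, hs, ht, _⟩ := hM i e h2
    rw [mem_cut, Finset.mem_singleton, Finset.mem_singleton] at he
    exact he (iff_of_false (fun h => hx (h ▸ hs)) (fun h => hx (h ▸ ht)))
  rw [hz e, h1, zero_add]

theorem main3_ess (hF : Frame s t T a b) {S : Finset V}
    (hS : Odd (S ∩ insert a (insert b T)).card) : Ess T a b S := by
  by_contra hne
  unfold Ess at hne
  push Not at hne
  obtain ⟨h1, h2⟩ := hne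
  have haT : a ∉ S ∩ T := fun h => hF.ha (Finset.mem_inter.mp h).2
  have hbT : b ∉ S ∩ T := fun h => hF.hb (Finset.mem_inter.mp h).2
  by_cases ha : a ∈ S
  · have hb : b ∈ S := h2.mp ha
    rw [Finset.inter_insert_of_mem ha, Finset.inter_insert_of_mem hb,
      Finset.card_insert_of_notMem, Finset.card_insert_of_notMem hbT] at hS
    · rw [Nat.odd_iff] at hS
      rw [Nat.not_odd_iff] at h1
      omega
    · rw [Finset.mem_insert]
      rintro (h | h)
      · exact hF.hab h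
      · exact haT h
  · have hb : b ∉ S := fun h => ha (h2.mpr h)
    rw [Finset.inter_insert_of_notMem ha, Finset.inter_insert_of_notMem hb] at hS
    exact h1 hS

theorem main_law (h : KK s t T a b c k z) (hk : 0 < k) (hkc : k < c)
    (hA : Axis0 s t a b k z σ τ) : Nonempty (Law3 s t T a b c k z σ) := by
  classical
  obtain ⟨ι1, f1, w1, C, o, p1, hC, m1, hKo, hz⟩ := peelY h hk hkc.le
  have hF := h.frame
  have hoz : ∀ e, o e ≤ z e := main3_o_le p1 hz
  have hne : ∀ e, o e ≠ 0 → z e ≠ 0 := by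
    intro e h1 h2
    have h3 := hoz e
    have h4 := hKo.nonneg e
    rw [h2] at h3
    exact h1 (le_antisymm h3 h4)
  have hoa : ∀ e ∈ cut s t {a}, o e = z e := fun e he => main3_star (fun i => (hC i).1) hz hF.ha he
  have hob : ∀ e ∈ cut s t {b}, o e = z e := fun e he => main3_star (fun i => (hC i).1) hz hF.hb he
  have hU : ∀ v, InU T a b v ↔ v ∈ insert a (insert b T) := by
    intro v
    unfold InU
    rw [Finset.mem_insert, Finset.mem_insert]
    tauto
  obtain ⟨ι2, f2, w2, O, p2, hO, m2, marO⟩ := edmonds_frame (U := insert a (insert b T)) (x := o) hk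
    (fun e => (hU _).mp (hF.hs e)) (fun e => (hU _).mp (hF.ht e)) hKo.nonneg
    (fun v hv => deg_eq hKo ((hU v).mpr hv)) (fun S hS => ess_le hKo (main3_ess hF hS))
  have hA' : Axis0 s t a b k o σ τ := by
    refine ⟨fun e he h0 => ?_, fun f hf h0 => ?_, fun e h1 h2 => ?_⟩
    · rw [hob e he] at h0
      obtain ⟨h1, h2, h3⟩ := hA.fwd e he h0
      exact ⟨h1, h2, by rw [hoa _ h1, hob e he, h3]⟩
    · rw [hoa f hf] at h0
      obtain ⟨h1, h2, h3⟩ := hA.bwd f hf h0
      exact ⟨h1, h2, by rw [hob _ h1, hoa f hf, h3]⟩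
    · rw [hoa e h1]
      exact hA.small e h1 h2
  obtain ⟨ι3, f3, w3, R, p3, hR, m3, marR, bal⟩ := rlaw hKo hk hA'
  refine ⟨{
    ι1 := ι1
    ι2 := ι2
    ι3 := ι3
    f1 := f1
    f2 := f2
    f3 := f3
    w1 := w1
    w2 := w2
    w3 := w3
    C := C
    O := O
    R := R
    p1 := p1
    p2 := p2
    p3 := p3
    m1 := m1
    m2 := m2
    m3 := m3
    hC := hC
    hO := ?_
    hR := ?_
    mar := ?_
    marR := ?_
    bal := ?_ }⟩
  · intro i
    refine ⟨fun e he => ?_, fun v hv => (hO i).deg v ((hU v).mp hv)⟩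
    have hl := (hO i).loop e he
    refine ⟨?_, hl⟩
    intro h0
    have h1 := hoz e
    have h2 := hKo.nonneg e
    rw [h0] at h1
    have h3 : o e = 0 := le_antisymm h1 h2
    have h4 := marO e hl
    rw [h3] at h4
    have h5 := supp_of_law p2 (fun i => by split_ifs <;> norm_num) h4 i
    rw [if_pos he] at h5
    exact one_ne_zero h5
  · intro i
    exact ⟨fun e he => ⟨hne e ((hR i).supp e he).1, ((hR i).supp e he).2⟩, (hR i).degT,
      (hR i).dega, (hR i).degb⟩
  · intro e he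
    rw [marO e he, hz e]
  · intro e he
    rw [marO e he, marR e he]
  · intro e he f hf h1 h2 h3
    exact bal e he f hf (by rw [hob e he]; exact h1) (by rw [hob f hf]; exact h2) h3

end Pool.Agent.Lib.MP_95bb8c_al.OE
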