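import Pool.Agent.Lib.MP_95bb8c_al.OE.FqSame

set_option autoImplicit false
set_option linter.unusedSectionVars false

/-!
# Frequencies of pairs at the exceptional vertices

PROOF of `fq_ab`. At `v ∈ {a, b}`: no `C i` has an edge at `v`, so `y e = y f = 0`, `o e = o f = 1`. The pairs
`(C, C')` contribute `0`, the pairs `(O, O')` `2 o e * o f = 2` (exactly one edge at `v`), the pairs
`(C, R)`: `e, f ∈ symmDiff C R` iff `e, f ∈ R`: `2 (∑ w1) * rho e f = 2 (D - d) rho e f`.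
-/

namespace Pool.Agent.Lib.MP_95bb8c_al.OE

open Finset

variable {V E : Type} [Fintype V] [DecidableEq V] [Fintype E] [DecidableEq E]
variable {s t : E → V} {T : Finset V} {a b : V} {D d : ℕ} {σ : E → E}

theorem fq_ab (Λ : LawW s t T a b D d σ) {v : V} (hv : v = a ∨ v = b) {e f : E}
    (he : e ∈ cut s t {v}) (hf : f ∈ cut s t {v}) (hef : e ≠ f) :
    fq Λ e f = 2 + 2 * ((D : ℚ) - d) * rho Λ e f := by
  have hB : ∀ i, ¬ (e ∈ Λ.O i ∧ f ∈ Λ.O i) := fun i => fqsame_not (Λ.aO i v hv) he hf hef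
  have hC : ∀ i, ∀ g ∈ cut s t {v}, g ∉ Λ.C i := by
    intro i g hg hg2
    have h1 := Λ.aC i v hv
    rw [Finset.card_eq_zero, Finset.eq_empty_iff_forall_notMem] at h1
    exact h1 g (Finset.mem_inter.mpr ⟨hg2, hg⟩)
  have hA : ∀ i, ¬ (e ∈ Λ.C i ∧ f ∈ Λ.C i) := fun i h => hC i e he h.1
  have hy : ∀ g ∈ cut s t {v}, (∑ i, Λ.w1 i * (if g ∈ Λ.C i then (1 : ℚ) else 0)) = 0 := by
    intro g hg
    apply Finset.sum_eq_zero
    intro i _
    rw [if_neg (hC i g hg), mul_zero]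
  have ho : ∀ g ∈ cut s t {v}, (∑ i, Λ.w2 i * (if g ∈ Λ.O i then (1 : ℚ) else 0)) = 1 := by
    intro g hg
    have h1 := Λ.mar g
    rw [hy g hg, zero_add] at h1
    exact h1
  have h3 : (∑ p : Λ.ι1 × Λ.ι3, Λ.w1 p.1 * Λ.w3 p.2 * (if e ∈ symmDiff (Λ.C p.1) (Λ.R p.2) ∧
      f ∈ symmDiff (Λ.C p.1) (Λ.R p.2) then (1 : ℚ) else 0)) = ((D : ℚ) - d) * rho Λ e f := by
    have h4 := sum_prod Λ.w1 Λ.w3 (fun _ => 1)
      (fun i => if e ∈ Λ.R i ∧ f ∈ Λ.R i then (1 : ℚ) else 0)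
    simp only [mul_one, one_mul] at h4
    rw [Λ.m1] at h4
    rw [rho, ← h4]
    apply Finset.sum_congr rfl
    intro p _
    congr 1
    have hmem : ∀ g ∈ cut s t {v}, (g ∈ symmDiff (Λ.C p.1) (Λ.R p.2) ↔ g ∈ Λ.R p.2) := by
      intro g hg
      rw [Finset.mem_symmDiff]
      have := hC p.1 g hg
      tauto
    simp only [hmem e he, hmem f hf]
  rw [fqsame_split, fqsame_pair2 _ _ _ _ e f hA hA, fqsame_pair2 _ _ _ _ e f hB hB, h3,
    hy e he, hy f hf, ho e he, ho f hf]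
  ring

end Pool.Agent.Lib.MP_95bb8c_al.OE
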