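import Pool.Agent.Lib.MP_95bb8c_al.OE.Fq

set_option autoImplicit false
set_option linter.unusedSectionVars false

/-!
# The symmetric differences have degrees `0` and `2`

PROOF of `fq_deg`. `symmDiff A B ∩ cut = symmDiff (A ∩ cut) (B ∩ cut)`, `card_symm` (Law.lean; see
`deg02_symm` there). At `v ∈ T`: `1` and `1`: `0` or `2`. At a low vertex: even and even, and at most
`3` edges. At `a`, `b`: `(C, C')`: `0`, `0`. `(O, O')`: `1`, `1`. `(C, R)`: `0` and `0` or `2`.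
-/

namespace Pool.Agent.Lib.MP_95bb8c_al.OE

open Finset

variable {V E : Type} [Fintype V] [DecidableEq V] [Fintype E] [DecidableEq E]
variable {s t : E → V} {T : Finset V} {a b : V} {D d : ℕ} {σ : E → E}

/-- The degree of a symmetric difference. -/
theorem fqdeg_card (A B : Finset E) (v : V) :
    (symmDiff A B ∩ cut s t {v}).card + 2 * (A ∩ cut s t {v} ∩ (B ∩ cut s t {v})).card =
      (A ∩ cut s t {v}).card + (B ∩ cut s t {v}).card ∧
    (A ∩ cut s t {v} ∩ (B ∩ cut s t {v})).card ≤ (A ∩ cut s t {v}).card ∧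
    (symmDiff A B ∩ cut s t {v}).card ≤ dg s t v := by
  have h1 : symmDiff A B ∩ cut s t {v} = symmDiff (A ∩ cut s t {v}) (B ∩ cut s t {v}) := by
    ext e
    simp only [Finset.mem_inter, Finset.mem_symmDiff]
    tauto
  have h2 := card_symm (A ∩ cut s t {v}) (B ∩ cut s t {v})
  rw [← h1] at h2
  exact ⟨h2, Finset.card_le_card Finset.inter_subset_left,
    Finset.card_le_card Finset.inter_subset_right⟩

/-- The degrees at `T` and at the low vertices. -/
theorem fqdeg_pair (hg : Good2 s t T a b D d) {A B : Finset E}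
    (tA : ∀ v ∈ T, (A ∩ cut s t {v}).card = 1) (tB : ∀ v ∈ T, (B ∩ cut s t {v}).card = 1)
    (lA : ∀ v, v ∉ T → v ≠ a → v ≠ b → Even (A ∩ cut s t {v}).card)
    (lB : ∀ v, v ∉ T → v ≠ a → v ≠ b → Even (B ∩ cut s t {v}).card)
    (hab : ∀ v, v = a ∨ v = b → (A ∩ cut s t {v}).card = 0 ∧ (B ∩ cut s t {v}).card = 0 ∨
      (A ∩ cut s t {v}).card = 1 ∧ (B ∩ cut s t {v}).card = 1 ∨
      (A ∩ cut s t {v}).card = 0 ∧ (B ∩ cut s t {v}).card = 2) :
    Deg02 s t (symmDiff A B) := by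
  intro v
  obtain ⟨h1, h2, h3⟩ := fqdeg_card (s := s) (t := t) A B v
  by_cases hv : v ∈ T
  · have h4 := tA v hv
    have h5 := tB v hv
    omega
  by_cases hva : v = a ∨ v = b
  · have h4 := hab v hva
    omega
  · rw [not_or] at hva
    have h4 := lA v hv hva.1 hva.2
    have h5 := lB v hv hva.1 hva.2
    have h6 := hg.hlow v hv hva.1 hva.2
    obtain ⟨x, hx⟩ := h4
    obtain ⟨y, hy⟩ := h5
    omega

theorem fq_deg (hg : Good2 s t T a b D d) (Λ : LawW s t T a b D d σ) (k : Kap Λ) :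
    Deg02 s t (kX Λ k) := by
  rcases k with p | p | p
  · exact fqdeg_pair hg (Λ.tC _) (Λ.tC _) (Λ.lC _) (Λ.lC _)
      fun v hv => Or.inl ⟨Λ.aC _ v hv, Λ.aC _ v hv⟩
  · exact fqdeg_pair hg (Λ.tO _) (Λ.tO _) (Λ.lO _) (Λ.lO _)
      fun v hv => Or.inr (Or.inl ⟨Λ.aO _ v hv, Λ.aO _ v hv⟩)
  · refine fqdeg_pair hg (Λ.tC _) (Λ.tR _) (Λ.lC _) (Λ.lR _) fun v hv => ?_
    rcases Λ.aR p.2 v hv with h | h
    · exact Or.inl ⟨Λ.aC _ v hv, h⟩
    · exact Or.inr (Or.inr ⟨Λ.aC _ v hv, h⟩)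

end Pool.Agent.Lib.MP_95bb8c_al.OE
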