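import Pool.Agent.Lib.MP_95bb8c_al.OE.FqSame
import Pool.Agent.Lib.MP_95bb8c_al.OE.FqDeg

set_option autoImplicit false
set_option linter.unusedSectionVars false

/-!
# Frequencies of pairs at the low vertices

PROOF. (See the end of the proof of `balanced_law` in Law.lean.) Let `v` be low, `e ≠ f` at `v`. By
`fq_deg` each `kX Λ k` has `0` or `2` edges at `v`. `dg s t v = 2`: the star is `{e, f}`, so
`[e, f ∈ X] = [e ∈ X]` and `fq Λ e f = fq Λ e e`. `dg s t v = 3`: the star is `{e, f, g}` and
`[e, f ∈ X] = ([e ∈ X] + [f ∈ X] - [g ∈ X]) / 2`, so `fq Λ e f = (2 (D - 1)) / 2`.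
-/

namespace Pool.Agent.Lib.MP_95bb8c_al.OE

open Finset

variable {V E : Type} [Fintype V] [DecidableEq V] [Fintype E] [DecidableEq E]
variable {s t : E → V} {T : Finset V} {a b : V} {D d : ℕ} {σ : E → E}

theorem fqlow_one (Λ : LawW s t T a b D d σ) (e : E) :
    ∑ k, kW Λ k * (if e ∈ kX Λ k then (1 : ℚ) else 0) = 2 * ((D : ℚ) - 1) := by
  rw [← fq_same Λ e]
  unfold fq
  apply Finset.sum_congr rfl
  intro k _
  simp only [and_self]

theorem fq_low (hg : Good2 s t T a b D d) (Λ : LawW s t T a b D d σ) {v : V} {e f : E}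
    (he : e ∈ cut s t {v}) (hf : f ∈ cut s t {v}) (hef : e ≠ f)
    (hd : dg s t v = 2 ∨ dg s t v = 3) :
    fq Λ e f = if dg s t v = 2 then 2 * ((D : ℚ) - 1) else (D : ℚ) - 1 := by
  have hsub : ({e, f} : Finset E) ⊆ cut s t {v} := by
    intro g hg'
    rw [Finset.mem_insert, Finset.mem_singleton] at hg'
    rcases hg' with rfl | rfl
    · exact he
    · exact hf
  rcases hd with h2 | h3
  · rw [if_pos h2, ← fqlow_one Λ e]
    have hcut : cut s t {v} = {e, f} := by
      symm
      apply Finset.eq_of_subset_of_card_le hsub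
      rw [Finset.card_pair hef]
      exact h2.le
    unfold fq
    apply Finset.sum_congr rfl
    intro k _
    have h5 := fq_deg hg Λ k v
    rw [hcut, card_inter_sum, Finset.sum_pair hef] at h5
    by_cases h6 : e ∈ kX Λ k <;> by_cases h7 : f ∈ kX Λ k <;> simp_all
  · have hne2 : dg s t v ≠ 2 := by omega
    rw [if_neg hne2]
    have hc1 : (cut s t {v} \ {e, f}).card = 1 := by
      rw [Finset.card_sdiff_of_subset hsub, Finset.card_pair hef]
      have : (cut s t {v}).card = 3 := h3
      omega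
    obtain ⟨g, hg1⟩ := Finset.card_eq_one.mp hc1
    have hgm : g ∈ cut s t {v} \ {e, f} := by rw [hg1]; exact Finset.mem_singleton_self g
    rw [Finset.mem_sdiff, Finset.mem_insert, Finset.mem_singleton, not_or] at hgm
    have hcut : cut s t {v} = insert g {e, f} := by
      rw [← Finset.sdiff_union_of_subset hsub, hg1]
      rfl
    unfold fq
    have h1 : ∀ k, kW Λ k * (if e ∈ kX Λ k ∧ f ∈ kX Λ k then (1 : ℚ) else 0) =
        (kW Λ k * (if e ∈ kX Λ k then (1 : ℚ) else 0) +
        kW Λ k * (if f ∈ kX Λ k then (1 : ℚ) else 0) -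
        kW Λ k * (if g ∈ kX Λ k then (1 : ℚ) else 0)) / 2 := by
      intro k
      have h5 := fq_deg hg Λ k v
      rw [hcut, card_inter_sum, Finset.sum_insert (by
        rw [Finset.mem_insert, Finset.mem_singleton, not_or]; exact hgm.2),
        Finset.sum_pair hef] at h5
      by_cases h6 : e ∈ kX Λ k <;> by_cases h7 : f ∈ kX Λ k <;> by_cases h8 : g ∈ kX Λ k <;>
        simp_all
    simp_rw [h1]
    rw [← Finset.sum_div, Finset.sum_sub_distrib, Finset.sum_add_distrib, fqlow_one, fqlow_one,
      fqlow_one]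
    ring

end Pool.Agent.Lib.MP_95bb8c_al.OE
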