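import Pool.Agent.Lib.MP_95bb8c_al.OE.FqSame

set_option autoImplicit false
set_option linter.unusedSectionVars false

/-!
# Frequencies of pairs at the vertices of `T`

PROOF of `fq_T`. Each member of the three laws has exactly one edge at `v`, so for `e ≠ f` at `v`
`[e, f ∈ symmDiff A B] = [e ∈ A] * [f ∈ B] + [f ∈ A] * [e ∈ B]` (`e` and `f` are not both in `A`, not both
in `B`). With `y`, `o` as in Fq.lean the three parts are `2 y e * y f`, `2 o e * o f` and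
`2 (y e * o f + y f * o e)`; the sum is `2 (y e + o e) (y f + o f) = 2`.
-/

namespace Pool.Agent.Lib.MP_95bb8c_al.OE

open Finset

variable {V E : Type} [Fintype V] [DecidableEq V] [Fintype E] [DecidableEq E]
variable {s t : E → V} {T : Finset V} {a b : V} {D d : ℕ} {σ : E → E}

theorem fq_T (Λ : LawW s t T a b D d σ) {v : V} (hv : v ∈ T) {e f : E} (he : e ∈ cut s t {v})
    (hf : f ∈ cut s t {v}) (hef : e ≠ f) : fq Λ e f = 2 := by
  have hA : ∀ i, ¬ (e ∈ Λ.C i ∧ f ∈ Λ.C i) := fun i => fqsame_not (Λ.tC i v hv) he hf hef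
  have hB : ∀ i, ¬ (e ∈ Λ.O i ∧ f ∈ Λ.O i) := fun i => fqsame_not (Λ.tO i v hv) he hf hef
  have hR : ∀ i, ¬ (e ∈ Λ.R i ∧ f ∈ Λ.R i) := fun i => fqsame_not (Λ.tR i v hv) he hf hef
  rw [fqsame_split, fqsame_pair2 _ _ _ _ e f hA hA, fqsame_pair2 _ _ _ _ e f hB hB,
    fqsame_pair2 _ _ _ _ e f hA hR, Λ.marR e, Λ.marR f]
  have h1 : ∀ g, (∑ i, Λ.w1 i * (if g ∈ Λ.C i then (1 : ℚ) else 0)) =
      1 - ∑ i, Λ.w2 i * (if g ∈ Λ.O i then (1 : ℚ) else 0) := by
    intro g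
    have h2 := Λ.mar g
    linarith
  rw [h1 e, h1 f]
  ring

end Pool.Agent.Lib.MP_95bb8c_al.OE
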