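import Pool.Agent.Lib.MP_95bb8c_al.OE.Pull

set_option autoImplicit false
set_option linter.unusedSectionVars false

/-!
# The three laws on the multigraph

PROOF. `main_law` for the gadget graph (`gad_KK`, constants `D`, `d`), with `gσ σ`, `gσ τ`. `Axis0`:
an edge `x` of positive weight at `gB`: not `inr (p, q)` (weight `D * gb / 2 = 0` if `p.1.1 ∈ TP`; an
`inr (p, q)` at `gB` has `p = gB` or `q = gB`), so `x = inl e` with `e ∈ cut s t {b}`
(`mem_cut_inl`, `ext_of_mem`), weight `D * (1 / D) = 1`; `2 * 1 ≤ d`. Take the law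
`Λ : Law3` and put `C i = old (Λ.C i)` and so on. `C`: `Inside` gives that the edges have both ends in
`gT`, so no edge at `gA`, `gB`: `pull_star` for `a`, `b` gives `0`. Degrees at `v ∈ T`:
`⟨(v, none), _⟩ ∈ gT`, `pull_star`. Low vertices: all `p` with `p.1.1 = v` are in `gT`:
`pull_even`. The same for `O` (`InU` holds for all vertices of the gadget graph) and `R`.
`mar`: `gz (inl e) = 1`, `gs (inl e) ≠ gt (inl e)` since `s e ≠ t e` (`pt_fst`). `bal`: from
`Λ.bal` for `inl e`, `inl f`, with `gσ σ (inl e) = inl (σ e)`.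
-/

namespace Pool.Agent.Lib.MP_95bb8c_al.OE

open Finset

variable {V E : Type} [Fintype V] [DecidableEq V] [Fintype E] [DecidableEq E]
variable {s t : E → V} {T : Finset V} {a b : V} {D d : ℕ} {σ τ : E → E}

theorem laww_old (hl : ∀ e, s e ≠ t e) {v : V} (hv : v ∈ TP T a b)
    {x : E ⊕ (GV s t (TP T a b) × GV s t (TP T a b))}
    (hx : x ∈ cut (gs (TP T a b) hl) (gt (TP T a b) hl) {⟨(v, none), Or.inl hv⟩})
    (h0 : gz s t T a b D x ≠ 0) : ∃ e ∈ cut s t {v}, x = Sum.inl e := by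
  rcases x with e | ⟨p, q⟩
  · rw [mem_cut_inl, ext_of_mem hv] at hx
    exact ⟨e, hx, rfl⟩
  · exfalso
    obtain ⟨h5, h6, h7⟩ := pull_supp (M := {Sum.inr (p, q)}) (D := D)
      (fun y hy => by rw [Finset.mem_singleton.mp hy]; exact h0) p q (Finset.mem_singleton_self _)
    rw [mem_cut_singleton] at hx
    have h8 : p = ⟨(v, none), Or.inl hv⟩ ∨ q = ⟨(v, none), Or.inl hv⟩ := by
      by_contra h9
      push Not at h9
      exact hx (iff_of_false h9.1 h9.2)
    rcases h8 with h8 | h8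
    · rw [h8] at h7
      exact h7 hv
    · rw [h6, h8] at h7
      exact h7 hv

theorem laww_one (hD : (D : ℚ) ≠ 0) (e : E) : gz s t T a b D (Sum.inl e) = 1 := by
  show (D : ℚ) * (1 / (D : ℚ)) = 1
  field_simp

theorem laww_memT (hg : Good2 s t T a b D d) {v : V} (hv : v ∈ T) :
    (⟨(v, none), Or.inl (Finset.mem_insert_of_mem (Finset.mem_insert_of_mem hv))⟩ :
      GV s t (TP T a b)) ∈ gT s t T a b := by
  unfold gT
  rw [Finset.mem_filter]
  refine ⟨Finset.mem_univ _, ?_, ?_⟩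
  · rintro h
    exact hg.ha (h ▸ hv)
  · rintro h
    exact hg.hb (h ▸ hv)

theorem laww_mem {v : V} (h1 : v ≠ a) (h2 : v ≠ b) {p : GV s t (TP T a b)} (hp : p.1.1 = v) :
    p ∈ gT s t T a b := by
  unfold gT
  rw [Finset.mem_filter]
  exact ⟨Finset.mem_univ _, hp ▸ h1, hp ▸ h2⟩

theorem laww_axis (hl : ∀ e, s e ≠ t e) (hg : Good2 s t T a b D d)
    (hσ : ∀ e ∈ cut s t {b}, σ e ∈ cut s t {a} ∧ τ (σ e) = e)
    (hτ : ∀ f ∈ cut s t {a}, τ f ∈ cut s t {b} ∧ σ (τ f) = f) (hD : (D : ℚ) ≠ 0) :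
    Axis0 (gs (TP T a b) hl) (gt (TP T a b) hl) (gA s t T a b) (gB s t T a b) (d : ℚ)
      (gz s t T a b D) (gσ s t T a b σ) (gσ s t T a b τ) := by
  have haU : a ∈ TP T a b := Finset.mem_insert_self _ _
  have hbU : b ∈ TP T a b := Finset.mem_insert_of_mem (Finset.mem_insert_self _ _)
  refine ⟨?_, ?_, ?_⟩
  · intro x hx h0
    obtain ⟨e, he, rfl⟩ := laww_old hl hbU hx h0
    obtain ⟨h1, h2⟩ := hσ e he
    refine ⟨?_, ?_, ?_⟩
    · show Sum.inl (σ e) ∈ cut (gs (TP T a b) hl) (gt (TP T a b) hl) {⟨(a, none), Or.inl haU⟩}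
      rw [mem_cut_inl, ext_of_mem haU]
      exact h1
    · show Sum.inl (τ (σ e)) = Sum.inl e
      rw [h2]
    · show gz s t T a b D (Sum.inl (σ e)) = _
      rw [laww_one hD, laww_one hD]
  · intro x hx h0
    obtain ⟨e, he, rfl⟩ := laww_old hl haU hx h0
    obtain ⟨h1, h2⟩ := hτ e he
    refine ⟨?_, ?_, ?_⟩
    · show Sum.inl (τ e) ∈ cut (gs (TP T a b) hl) (gt (TP T a b) hl) {⟨(b, none), Or.inl hbU⟩}
      rw [mem_cut_inl, ext_of_mem hbU]
      exact h1
    · show Sum.inl (σ (τ e)) = Sum.inl e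
      rw [h2]
    · show gz s t T a b D (Sum.inl (τ e)) = _
      rw [laww_one hD, laww_one hD]
  · intro x hx _
    have hd : (4 : ℚ) ≤ d := by exact_mod_cast hg.hd
    by_cases h0 : gz s t T a b D x = 0
    · rw [h0]
      linarith
    · obtain ⟨e, he, rfl⟩ := laww_old hl haU hx h0
      rw [laww_one hD]
      linarith

theorem lawW (hl : ∀ e, s e ≠ t e) (hg : Good2 s t T a b D d)
    (hσ : ∀ e ∈ cut s t {b}, σ e ∈ cut s t {a} ∧ τ (σ e) = e)
    (hτ : ∀ f ∈ cut s t {a}, τ f ∈ cut s t {b} ∧ σ (τ f) = f) :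
    Nonempty (LawW s t T a b D d σ) := by
  classical
  have hd4 : (4 : ℚ) ≤ d := by exact_mod_cast hg.hd
  have hdD : (d : ℚ) < D := by exact_mod_cast hg.hdD
  have hD : (D : ℚ) ≠ 0 := by
    intro h
    linarith
  obtain ⟨Λ⟩ := main_law (gad_KK hl hg) (by linarith) hdD (laww_axis hl hg hσ hτ hD)
  have haU : a ∈ TP T a b := Finset.mem_insert_self _ _
  have hbU : b ∈ TP T a b := Finset.mem_insert_of_mem (Finset.mem_insert_self _ _)
  have hTU : ∀ v ∈ T, v ∈ TP T a b := fun v hv =>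
    Finset.mem_insert_of_mem (Finset.mem_insert_of_mem hv)
  have hnU : ∀ v, v ∉ T → v ≠ a → v ≠ b → v ∉ TP T a b := by
    intro v h1 h2 h3 h4
    rw [Finset.mem_insert, Finset.mem_insert] at h4
    tauto
  have hCz : ∀ i, ∀ x ∈ Λ.C i, gz s t T a b D x ≠ 0 := fun i x hx => ((Λ.hC i).1 x hx).1
  have hOz : ∀ i, ∀ x ∈ Λ.O i, gz s t T a b D x ≠ 0 := fun i x hx => ((Λ.hO i).1 x hx).1
  have hRz : ∀ i, ∀ x ∈ Λ.R i, gz s t T a b D x ≠ 0 := fun i x hx => ((Λ.hR i).supp x hx).1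
  have hloop : ∀ e : E, gs (TP T a b) hl (Sum.inl e) ≠ gt (TP T a b) hl (Sum.inl e) := by
    intro e h
    have := congrArg (fun p : GV s t (TP T a b) => p.1.1) h
    simp only [gs, gt, Sum.elim_inl, pt_fst] at this
    exact hl e this
  have h1if : ∀ (M : Finset (E ⊕ (GV s t (TP T a b) × GV s t (TP T a b)))) (e : E),
      (if e ∈ old M then (1 : ℚ) else 0) = if Sum.inl e ∈ M then 1 else 0 := by
    intro M e
    simp only [mem_old]
  have h2if : ∀ (M : Finset (E ⊕ (GV s t (TP T a b) × GV s t (TP T a b)))) (e f : E),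
      (if e ∈ old M ∧ f ∈ old M then (1 : ℚ) else 0) =
        if Sum.inl e ∈ M ∧ Sum.inl f ∈ M then 1 else 0 := by
    intro M e f
    simp only [mem_old]
  have hC0 : ∀ i, ∀ p, p ∉ gT s t T a b →
      (Λ.C i ∩ cut (gs (TP T a b) hl) (gt (TP T a b) hl) {p}).card = 0 := by
    intro i p hp
    rw [Finset.card_eq_zero, Finset.eq_empty_iff_forall_notMem]
    intro x hx
    rw [Finset.mem_inter, mem_cut_singleton] at hx
    obtain ⟨-, h1, h2, -⟩ := (Λ.hC i).1 x hx.1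
    exact hx.2 (iff_of_false (fun h => hp (h ▸ h1)) (fun h => hp (h ▸ h2)))
  have hAn : (⟨(a, none), Or.inl haU⟩ : GV s t (TP T a b)) ∉ gT s t T a b := by
    unfold gT
    rw [Finset.mem_filter]
    rintro ⟨-, h, -⟩
    exact h rfl
  have hBn : (⟨(b, none), Or.inl hbU⟩ : GV s t (TP T a b)) ∉ gT s t T a b := by
    unfold gT
    rw [Finset.mem_filter]
    rintro ⟨-, -, h⟩
    exact h rfl
  refine ⟨{
    ι1 := Λ.ι1
    ι2 := Λ.ι2
    ι3 := Λ.ι3
    f1 := Λ.f1
    f2 := Λ.f2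
    f3 := Λ.f3
    w1 := Λ.w1
    w2 := Λ.w2
    w3 := Λ.w3
    C := fun i => old (Λ.C i)
    O := fun i => old (Λ.O i)
    R := fun i => old (Λ.R i)
    p1 := Λ.p1
    p2 := Λ.p2
    p3 := Λ.p3
    m1 := Λ.m1
    m2 := Λ.m2
    m3 := Λ.m3
    tC := ?_
    tO := ?_
    tR := ?_
    lC := ?_
    lO := ?_
    lR := ?_
    aC := ?_
    aO := ?_
    aR := ?_
    mar := ?_
    marR := ?_
    bal := ?_ }⟩
  · intro i v hv
    rw [pull_star hl (hCz i) (hTU v hv)]
    exact (Λ.hC i).2 _ (laww_memT hg hv)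
  · intro i v hv
    rw [pull_star hl (hOz i) (hTU v hv)]
    exact (Λ.hO i).2 _ (Or.inl (laww_memT hg hv))
  · intro i v hv
    rw [pull_star hl (hRz i) (hTU v hv)]
    exact (Λ.hR i).degT _ (laww_memT hg hv)
  · intro i v h1 h2 h3
    exact pull_even hl (hCz i) (hnU v h1 h2 h3) fun p hp => (Λ.hC i).2 _ (laww_mem h2 h3 hp)
  · intro i v h1 h2 h3
    exact pull_even hl (hOz i) (hnU v h1 h2 h3) fun p hp =>
      (Λ.hO i).2 _ (Or.inl (laww_mem h2 h3 hp))
  · intro i v h1 h2 h3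
    exact pull_even hl (hRz i) (hnU v h1 h2 h3) fun p hp => (Λ.hR i).degT _ (laww_mem h2 h3 hp)
  · rintro i v (rfl | rfl)
    · rw [pull_star hl (hCz i) haU]
      exact hC0 i _ hAn
    · rw [pull_star hl (hCz i) hbU]
      exact hC0 i _ hBn
  · rintro i v (rfl | rfl)
    · rw [pull_star hl (hOz i) haU]
      exact (Λ.hO i).2 _ (Or.inr (Or.inl rfl))
    · rw [pull_star hl (hOz i) hbU]
      exact (Λ.hO i).2 _ (Or.inr (Or.inr rfl))
  · rintro i v (rfl | rfl)
    · rw [pull_star hl (hRz i) haU]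
      exact (Λ.hR i).dega
    · rw [pull_star hl (hRz i) hbU]
      exact (Λ.hR i).degb
  · intro e
    simp only [h1if]
    rw [Λ.mar (Sum.inl e) (hloop e), laww_one hD]
  · intro e
    simp only [h1if]
    exact Λ.marR (Sum.inl e) (hloop e)
  · intro e he f hf hef
    simp only [h2if]
    have hmem : ∀ g ∈ cut s t {b}, Sum.inl g ∈ cut (gs (TP T a b) hl) (gt (TP T a b) hl)
        {gB s t T a b} := by
      intro g hg'
      show Sum.inl g ∈ cut (gs (TP T a b) hl) (gt (TP T a b) hl) {⟨(b, none), Or.inl hbU⟩}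
      rw [mem_cut_inl, ext_of_mem hbU]
      exact hg'
    have hbal := Λ.bal (Sum.inl e) (hmem e he) (Sum.inl f) (hmem f hf)
      (by rw [laww_one hD]; exact one_ne_zero) (by rw [laww_one hD]; exact one_ne_zero)
      (fun h => hef (Sum.inl_injective h))
    have hσi : ∀ g : E, gσ s t T a b σ (Sum.inl g) = Sum.inl (σ g) := fun g => rfl
    rw [hσi, hσi] at hbal
    convert hbal

end Pool.Agent.Lib.MP_95bb8c_al.OE
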