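import Pool.Agent.Lib.MP_95bb8c_al.OE.ListOf
import Pool.Agent.Lib.MP_95bb8c_al.OE.LawW
import Pool.Agent.Lib.MP_95bb8c_al.OE.FqT
import Pool.Agent.Lib.MP_95bb8c_al.OE.FqAB
import Pool.Agent.Lib.MP_95bb8c_al.OE.FqLow

set_option autoImplicit false
set_option linter.unusedSectionVars false

/-!
# The tiling theorem with one exceptional generator
-/

namespace Pool.Agent.Lib.MP_95bb8c_al.OE

open Finset

variable {V E : Type} [Fintype V] [DecidableEq V] [Fintype E] [DecidableEq E]
variable {s t : E → V}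

theorem good2_of (hl : ∀ e, s e ≠ t e) (hcard : 2 < Fintype.card V) (hconn : Conn s t)
    (bar : V → V) (hbar : ∀ v, bar (bar v) = v) (hbar' : ∀ v, bar v ≠ v)
    (hdb : ∀ v, dg s t (bar v) = dg s t v)
    (hlam : ∀ v S, v ∈ S → bar v ∉ S → dg s t v ≤ (cut s t S).card) (D : ℕ) (u : V)
    (hdeg : ∀ v, v ≠ u → v ≠ bar u → dg s t v = D ∨ dg s t v ≤ 3)
    (h4 : 4 ≤ dg s t u) (huD : dg s t u < D) :
    Good2 s t (univ.filter fun v => dg s t v = D) (bar u) u D (dg s t u) := by
  have hbr : ∀ S : Finset V, (cut s t S).card ≠ 1 := by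
    intro S hS
    by_cases h : ∀ v ∈ S, bar v ∈ S
    · have := even_of_closed hl bar hbar hbar' hdb S h
      rw [hS] at this
      exact absurd this (by decide)
    · push Not at h
      obtain ⟨v, hv, hv2⟩ := h
      have h1 := hlam v S hv hv2
      have h2 := two_le_dg hl hcard hconn bar hbar hbar' hdb hlam v
      omega
  refine ⟨hbar' u, ?_, ?_, h4, huD, ?_, hdb u, rfl, ?_, ?_, ?_, hbr⟩
  · rw [Finset.mem_filter, hdb]
    exact fun h => absurd h.2 huD.ne
  · rw [Finset.mem_filter]
    exact fun h => absurd h.2 huD.ne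
  · intro v hv
    exact (Finset.mem_filter.mp hv).2
  · intro v hv hva hvb
    rcases hdeg v hvb hva with h | h
    · rw [Finset.mem_filter] at hv
      exact absurd ⟨Finset.mem_univ _, h⟩ hv
    · exact h
  · intro S hS
    by_contra hcon
    push Not at hcon
    rw [← Nat.not_even_iff_odd] at hS
    apply hS
    apply even_card_of_closed bar hbar hbar'
    intro v hv
    rw [Finset.mem_inter, Finset.mem_filter] at hv ⊢
    refine ⟨?_, Finset.mem_univ _, by rw [hdb]; exact hv.2.2⟩
    by_contra hv2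
    have := hlam v S hv.1 hv2
    rw [hv.2.2] at this
    omega
  · intro S haS hbS
    have := hlam (bar u) S haS (by rw [hbar]; exact hbS)
    rw [hdb] at this
    exact this

theorem tiling_one (hl : ∀ e, s e ≠ t e) (hcard : 2 < Fintype.card V) (hconn : Conn s t)
    (bar : V → V) (hbar : ∀ v, bar (bar v) = v) (hbar' : ∀ v, bar v ≠ v)
    (sig : V → E → E) (hsig : ∀ v, ∀ e ∈ cut s t {v}, sig v e ∈ cut s t {bar v})
    (hinv : ∀ v, ∀ e ∈ cut s t {v}, sig (bar v) (sig v e) = e)
    (hlam : ∀ v S, v ∈ S → bar v ∉ S → dg s t v ≤ (cut s t S).card) (D : ℕ) (u : V)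
    (hdeg : ∀ v, v ≠ u → v ≠ bar u → dg s t v = D ∨ dg s t v ≤ 3) (hu : dg s t u ≤ D) :
    ∃ L : List (Finset E), (∀ C ∈ L, IsCycle s t C) ∧ (∃ C ∈ L, 3 ≤ C.card) ∧
      ∀ v, ∀ e ∈ cut s t {v}, ∀ f ∈ cut s t {v},
        (L.countP fun C => e ∈ C ∧ f ∈ C) = (L.countP fun C => sig v e ∈ C ∧ sig v f ∈ C) := by
  have hinj : ∀ v, ∀ e ∈ cut s t {v}, ∀ f ∈ cut s t {v}, sig v e = sig v f → e = f := by
    intro v e he f hf h
    rw [← hinv v e he, h, hinv v f hf]
  have hle : ∀ v, dg s t v ≤ dg s t (bar v) := by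
    intro v
    unfold dg
    apply Finset.card_le_card_of_injOn (sig v)
    · intro e he
      exact hsig v e he
    · intro e he f hf h
      exact hinj v e he f hf h
  have hdb : ∀ v, dg s t (bar v) = dg s t v := by
    intro v
    have h1 := hle v
    have h2 := hle (bar v)
    rw [hbar] at h2
    omega
  by_cases hcase : dg s t u = D ∨ dg s t u ≤ 3
  · refine tiling hl hcard hconn bar hbar hbar' sig hsig hinj hlam D ?_
    intro v
    by_cases h1 : v = u
    · rw [h1]; exact hcase
    by_cases h2 : v = bar u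
    · rw [h2, hdb]; exact hcase
    exact hdeg v h1 h2
  push Not at hcase
  have hg := good2_of hl hcard hconn bar hbar hbar' hdb hlam D u hdeg (by omega) (by omega)
  set T : Finset V := univ.filter fun v => dg s t v = D with hT
  set d := dg s t u with hd
  have hTb : ∀ v, bar v ∈ T ↔ v ∈ T := by
    intro v
    rw [hT, Finset.mem_filter, Finset.mem_filter, hdb]
    simp
  obtain ⟨Λ⟩ := lawW (σ := sig u) (τ := sig (bar u)) hl hg
    (fun e he => ⟨hsig u e he, hinv u e he⟩)
    (fun f hf => by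
      have h1 := hsig (bar u) f hf
      rw [hbar] at h1
      refine ⟨h1, ?_⟩
      have h2 := hinv (bar u) f hf
      rw [hbar] at h2
      exact h2)
  obtain ⟨L, N, hN, hL1, hL2⟩ := list_of_law hl (kW Λ) (kW_nonneg Λ) (kX Λ)
    (fun k _ => fq_deg hg Λ k)
  have hNq : (0 : ℚ) < N := by exact_mod_cast hN
  have hL2' : ∀ v, ∀ e ∈ cut s t {v}, ∀ f ∈ cut s t {v},
      ((L.countP fun C => e ∈ C ∧ f ∈ C : ℕ) : ℚ) = N * fq Λ e f := hL2
  have hdD : (d : ℚ) < D := by exact_mod_cast hg.hdD
  have hd4 : (4 : ℚ) ≤ d := by exact_mod_cast hg.hd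
  have hrho : ∀ e f, 0 ≤ rho Λ e f := by
    intro e f
    apply Finset.sum_nonneg
    intro i _
    refine mul_nonneg (Λ.p3 i).le ?_
    split_ifs <;> norm_num
  have hlow : ∀ v, v ∉ T → v ≠ bar u → v ≠ u → ∀ e ∈ cut s t {v}, ∀ f ∈ cut s t {v}, e ≠ f →
      dg s t v = 2 ∨ dg s t v = 3 := by
    intro v hv hva hvb e he f hf hef
    have h1 := hg.hlow v hv hva hvb
    have h2 : ({e, f} : Finset E) ⊆ cut s t {v} := by
      intro g hg'
      rw [Finset.mem_insert, Finset.mem_singleton] at hg'
      rcases hg' with rfl | rfl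
      · exact he
      · exact hf
    have h3 := Finset.card_le_card h2
    rw [Finset.card_pair hef] at h3
    unfold dg at *
    omega
  refine ⟨L, hL1, ?_, ?_⟩
  · obtain ⟨e, f, y, y', hey, hfy, hey', hfy'⟩ := exists_pair hl hcard hconn
    have hef : e ≠ f := by
      rintro rfl
      exact hfy' hey'
    have h1 := hL2' y e hey f hfy
    have h4 : 0 < fq Λ e f := by
      by_cases hyT : y ∈ T
      · rw [fq_T Λ hyT hey hfy hef]
        norm_num
      by_cases hyab : y = bar u ∨ y = u
      · rw [fq_ab Λ hyab hey hfy hef]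
        have := hrho e f
        have h5 : 0 ≤ 2 * ((D : ℚ) - d) * rho Λ e f :=
          mul_nonneg (by linarith) this
        linarith
      · push Not at hyab
        rw [fq_low hg Λ hey hfy hef (hlow y hyT hyab.1 hyab.2 e hey f hfy hef)]
        split_ifs <;> linarith
    have h5 : 0 < (L.countP fun C => e ∈ C ∧ f ∈ C) := by
      have : (0 : ℚ) < ((L.countP fun C => e ∈ C ∧ f ∈ C : ℕ) : ℚ) := by
        rw [h1]
        positivity
      exact_mod_cast this
    rw [List.countP_pos_iff] at h5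
    obtain ⟨C, hC, hC2⟩ := h5
    rw [decide_eq_true_eq] at hC2
    refine ⟨C, hC, ?_⟩
    have h6 := (hL1 C hC).deg y'
    have h7 : e ∈ C ∩ cut s t {y'} := Finset.mem_inter.mpr ⟨hC2.1, hey'⟩
    have h8 : (C ∩ cut s t {y'}).card = 2 := by
      rcases h6 with h | h
      · rw [Finset.card_eq_zero] at h
        rw [h] at h7
        simp at h7
      · exact h
    have h9 : C ∩ cut s t {y'} ⊆ C.erase f := by
      intro g hg'
      rw [Finset.mem_inter] at hg'
      rw [Finset.mem_erase]
      refine ⟨?_, hg'.1⟩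
      rintro rfl
      exact hfy' hg'.2
    have h10 := Finset.card_le_card h9
    rw [Finset.card_erase_of_mem hC2.2, h8] at h10
    omega
  · intro v e he f hf
    have h1 := hL2' v e he f hf
    have he' := hsig v e he
    have hf' := hsig v f hf
    have h2 := hL2' (bar v) _ he' _ hf'
    have h3 : fq Λ (sig v e) (sig v f) = fq Λ e f := by
      by_cases hef : e = f
      · subst hef
        rw [fq_same, fq_same]
      have hef' : sig v e ≠ sig v f := fun h => hef (hinj v e he f hf h)
      by_cases hvT : v ∈ T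
      · rw [fq_T Λ hvT he hf hef, fq_T Λ ((hTb v).mpr hvT) he' hf' hef']
      by_cases hvu : v = u
      · subst hvu
        rw [fq_ab Λ (Or.inr rfl) he hf hef, fq_ab Λ (Or.inl rfl) he' hf' hef']
        have h4 := Λ.bal e he f hf hef
        show 2 + 2 * ((D : ℚ) - d) * rho Λ (sig v e) (sig v f) = 2 + 2 * ((D : ℚ) - d) * rho Λ e f
        unfold rho
        rw [h4]
      by_cases hvb : v = bar u
      · subst hvb
        rw [hbar] at he' hf'
        rw [fq_ab Λ (Or.inl rfl) he hf hef, fq_ab Λ (Or.inr rfl) he' hf' hef']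
        have h4 := Λ.bal _ he' _ hf' hef'
        have h5 := hinv (bar u) e he
        have h6 := hinv (bar u) f hf
        rw [hbar] at h5 h6
        rw [h5, h6] at h4
        unfold rho
        rw [h4]
      have hvT' : bar v ∉ T := fun h => hvT ((hTb v).mp h)
      have h7 : bar v ≠ bar u := fun h => hvu (by rw [← hbar v, h, hbar])
      have h8 : bar v ≠ u := fun h => hvb (by rw [← hbar v, h])
      rw [fq_low hg Λ he hf hef (hlow v hvT hvb hvu e he f hf hef),
        fq_low hg Λ he' hf' hef' (hlow (bar v) hvT' h7 h8 _ he' _ hf' hef'), hdb]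
    rw [h3, ← h1] at h2
    exact_mod_cast h2.symm

variable {n : ℕ} {U : List (List (Letter n))}

theorem conMap_inv (hU : CycRed U) (v : Letter n) : ∀ e ∈ cut (src U) (tgt U) {v},
    conMap U (bar v) (conMap U v e) = e := by
  intro e he
  rw [mem_star (no_loop hU)] at he
  unfold conMap
  by_cases h : tgt U e = v
  · rw [if_pos h]
    have h1 : tgt U e.next ≠ bar v := by
      intro h2
      have h3 := tgt_eq h
      exact no_loop hU _ (h3.trans h2.symm)
    rw [if_neg h1, prev_next]
  · rw [if_neg h]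
    have h1 : src U e = v := by
      rcases he with h1 | h1
      · exact h1
      · exact absurd h1 h
    rw [if_pos (src_eq h1), next_prev]

theorem one_exceptional (hn : 1 < n) (U : List (List (Letter n))) (hU : CycRed U)
    (hconn : Conn (src U) (tgt U)) (hlam : ∀ v, lam U v (bar v) = (star U v).card) (D : ℕ)
    (a₀ : Fin n) (hD : ∀ a, a ≠ a₀ → occ U a = D ∨ occ U a ≤ 3) (h₀ : occ U a₀ ≤ D) :
    ∃ L : List (Finset (Pos U)), (∀ C ∈ L, IsCycle (src U) (tgt U) C) ∧ (∃ C ∈ L, 3 ≤ C.card) ∧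
      ∀ v, ∀ e ∈ star U v, ∀ f ∈ star U v,
        (L.countP fun C => e ∈ C ∧ f ∈ C) =
          (L.countP fun C => conMap U v e ∈ C ∧ conMap U v f ∈ C) := by
  refine tiling_one (no_loop hU) ?_ hconn bar bar_bar bar_ne (conMap U) (conMap_mem hU)
    (conMap_inv hU) ?_ D (a₀, true) ?_ ?_
  · rw [Fintype.card_prod, Fintype.card_fin, Fintype.card_bool]
    omega
  · intro v S hv hv2
    have h1 := hlam v
    unfold lam star at h1
    unfold dg
    rw [← h1]
    exact Nat.sInf_le ⟨S, hv, hv2, rfl⟩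
  · intro v h1 h2
    rw [dg_eq hU]
    apply hD
    intro h3
    rcases Bool.eq_false_or_eq_true v.2 with h4 | h4
    · exact h1 (Prod.ext h3 h4)
    · exact h2 (Prod.ext h3 h4)
  · rw [dg_eq hU]
    exact h₀

end Pool.Agent.Lib.MP_95bb8c_al.OE
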