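import Mathlib

set_option autoImplicit false
set_option linter.unusedSectionVars false

/-!
# Integral selection of arcs (Hall)

Arcs `x : A` with tail `tl x`, head `hd x`, mass `m x ≥ 0`. The tail mass is `c / 2` at each vertex of `T`,
`c` at `a` and `0` elsewhere; the head mass is `c / 2` on `T`, `c` at `b` and `0` elsewhere.

PROOF. Left set `L = {v // v ∈ T} ⊕ Bool` (`inr _` are two copies of `a`), right set the same type
(`inr _` two copies of `b`), `vl T a : L → V` and `vl T b : R → V` the vertices. `r ∈ rel l` iff some `x` with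
`0 < m x` has `tl x = vl T a l`, `hd x = vl T b r`. Hall's condition
(`Finset.all_card_le_biUnion_card_iff_exists_injective`): let `B : Finset L`, `N = B.biUnion rel`.
`(c / 2) * B.card ≤` mass of the arcs whose tail is in `vl T a '' B` (each `v ∈ T` of `B` contributes `c / 2`;
the copies of `a` in `B`, at most two, contribute at most `c` together). Each arc of positive mass whose
tail is in `vl T a '' B` has its head in `vl T b '' N` (its head is in `T` or is `b`, because the head mass
of other vertices is `0`). `N` contains with one copy of `b` the other one too, so the head mass of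
`vl T b '' N` is `(c / 2) * N.card`. Hence `B.card ≤ N.card`. Hall gives an injective `f : L → R` with
`f l ∈ rel l`; it is bijective (`Finite.injective_iff_bijective`, the two types are equal). Choose `α l`.
(Remark: `∑ l ∈ B, c / 2` can be handled by splitting `B` in its `inl` part and its `inr` part,
`Finset.toLeft`, `Finset.toRight`.)
-/

namespace Pool.Agent.Lib.MP_95bb8c_al.OE

open Finset

/-- The vertex of an element of `{v // v ∈ T} ⊕ Bool`. -/
def vl {V : Type} (T : Finset V) (p : V) : {v // v ∈ T} ⊕ Bool → V :=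
  Sum.elim Subtype.val (fun _ => p)

theorem halla_fib {V : Type} [DecidableEq V] (T : Finset V) (a : V) (ha : a ∉ T) (v : V) :
    (univ.filter (fun l => vl T a l = v)).card = if v ∈ T then 1 else if v = a then 2 else 0 := by
  by_cases hv : v ∈ T
  · rw [if_pos hv]
    have h : (univ.filter (fun l => vl T a l = v)) = {Sum.inl ⟨v, hv⟩} := by
      ext l
      rw [mem_filter, mem_singleton]
      constructor
      · rintro ⟨-, h⟩
        rcases l with l | l
        · congr 1
          exact Subtype.ext h
        · exact absurd (show a = v from h) (fun h' => ha (h' ▸ hv))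
      · rintro rfl
        exact ⟨mem_univ _, rfl⟩
    rw [h, card_singleton]
  · rw [if_neg hv]
    by_cases hva : v = a
    · rw [if_pos hva]
      have h : (univ.filter (fun l => vl T a l = v)) = {Sum.inr true, Sum.inr false} := by
        ext l
        rw [mem_filter, mem_insert, mem_singleton]
        constructor
        · rintro ⟨-, h⟩
          rcases l with l | l
          · exact absurd (show v ∈ T from h ▸ l.2) hv
          · rcases l with _ | _
            · exact Or.inr rfl
            · exact Or.inl rfl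
        · rintro (rfl | rfl)
          · exact ⟨mem_univ _, hva.symm⟩
          · exact ⟨mem_univ _, hva.symm⟩
      rw [h, card_insert_of_notMem, card_singleton]
      simp
    · rw [if_neg hva, card_eq_zero, filter_eq_empty_iff]
      intro l _ h
      rcases l with l | l
      · exact hv (h ▸ l.2)
      · exact hva h.symm

theorem halla_sum {V A : Type} [DecidableEq V] [Fintype A] (g : A → V) (m : A → ℚ)
    (W : Finset V) :
    ∑ x ∈ univ.filter (fun x => g x ∈ W), m x =
      ∑ v ∈ W, ∑ x ∈ univ.filter (fun x => g x = v), m x := by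
  rw [← sum_fiberwise_of_maps_to (s := univ.filter (fun x => g x ∈ W)) (t := W) (g := g)
    (fun x hx => (mem_filter.1 hx).2)]
  refine sum_congr rfl (fun v hv => sum_congr ?_ (fun _ _ => rfl))
  ext x
  rw [mem_filter, mem_filter, mem_filter]
  constructor
  · rintro ⟨⟨h1, _⟩, h2⟩
    exact ⟨h1, h2⟩
  · rintro ⟨h1, h2⟩
    exact ⟨⟨h1, h2 ▸ hv⟩, h2⟩

theorem halla_hall {V A : Type} [Fintype V] [DecidableEq V] [Fintype A] [DecidableEq A]
    (tl hd : A → V) (m : A → ℚ) (hm : ∀ x, 0 ≤ m x) (T : Finset V) (a b : V) (ha : a ∉ T)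
    (hb : b ∉ T) (c : ℚ) (hc : 0 < c)
    (hout : ∀ v, ∑ x ∈ univ.filter (fun x => tl x = v), m x =
      if v ∈ T then c / 2 else if v = a then c else 0)
    (hin : ∀ v, ∑ x ∈ univ.filter (fun x => hd x = v), m x =
      if v ∈ T then c / 2 else if v = b then c else 0)
    (rel : ({v // v ∈ T} ⊕ Bool) → Finset ({v // v ∈ T} ⊕ Bool))
    (hrel : ∀ l r, r ∈ rel l ↔ ∃ x, 0 < m x ∧ tl x = vl T a l ∧ hd x = vl T b r)
    (B : Finset ({v // v ∈ T} ⊕ Bool)) : B.card ≤ (B.biUnion rel).card := by
  have hout' : ∀ v, ∑ x ∈ univ.filter (fun x => tl x = v), m x =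
      c / 2 * ((univ.filter (fun l => vl T a l = v)).card : ℚ) := by
    intro v
    rw [hout v, halla_fib T a ha v]
    split_ifs
    · simp
    · push_cast; ring
    · simp
  have hin' : ∀ v, ∑ x ∈ univ.filter (fun x => hd x = v), m x =
      c / 2 * ((univ.filter (fun l => vl T b l = v)).card : ℚ) := by
    intro v
    rw [hin v, halla_fib T b hb v]
    split_ifs
    · simp
    · push_cast; ring
    · simp
  set N := B.biUnion rel with hN
  have h1 : c / 2 * (B.card : ℚ) ≤
      ∑ x ∈ univ.filter (fun x => tl x ∈ B.image (vl T a)), m x := by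
    rw [halla_sum, card_eq_sum_card_image (vl T a) B, Nat.cast_sum, mul_sum]
    refine sum_le_sum (fun v _ => ?_)
    rw [hout' v]
    refine mul_le_mul_of_nonneg_left ?_ (by positivity)
    exact_mod_cast card_le_card (filter_subset_filter _ (subset_univ B))
  have h2 : ∑ x ∈ univ.filter (fun x => tl x ∈ B.image (vl T a)), m x ≤
      ∑ x ∈ univ.filter (fun x => hd x ∈ N.image (vl T b)), m x := by
    rw [sum_filter, sum_filter]
    refine sum_le_sum (fun x _ => ?_)
    split_ifs with hx1 hx2 hx2
    · exact le_rfl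
    · rcases (hm x).eq_or_lt with h0 | h0
      · exact h0.symm.le
      · exfalso
        apply hx2
        have h3 : m x ≤ ∑ y ∈ univ.filter (fun y => hd y = hd x), m y :=
          single_le_sum (f := m) (fun y _ => hm y) (mem_filter.2 ⟨mem_univ x, rfl⟩)
        rw [hin' (hd x)] at h3
        have h4 : (univ.filter (fun l => vl T b l = hd x)).card ≠ 0 := by
          intro h5
          rw [h5] at h3
          simp only [Nat.cast_zero, mul_zero] at h3
          exact absurd (lt_of_lt_of_le h0 h3) (lt_irrefl 0)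
        obtain ⟨r, hr⟩ := card_pos.1 (Nat.pos_of_ne_zero h4)
        obtain ⟨l, hl, hlx⟩ := mem_image.1 hx1
        have hr' : vl T b r = hd x := (mem_filter.1 hr).2
        refine mem_image.2 ⟨r, ?_, hr'⟩
        rw [hN, mem_biUnion]
        exact ⟨l, hl, (hrel l r).2 ⟨x, h0, hlx.symm, hr'.symm⟩⟩
    · exact hm x
    · exact le_rfl
  have h3 : ∑ x ∈ univ.filter (fun x => hd x ∈ N.image (vl T b)), m x = c / 2 * (N.card : ℚ) := by
    rw [halla_sum, card_eq_sum_card_image (vl T b) N, Nat.cast_sum, mul_sum]
    refine sum_congr rfl (fun v hv => ?_)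
    rw [hin' v]
    congr 2
    congr 1
    ext r
    rw [mem_filter, mem_filter]
    constructor
    · rintro ⟨_, hr⟩
      refine ⟨?_, hr⟩
      obtain ⟨r', hr', hv'⟩ := mem_image.1 hv
      rw [hN, mem_biUnion] at hr' ⊢
      obtain ⟨l, hl, hlr⟩ := hr'
      refine ⟨l, hl, ?_⟩
      rw [hrel] at hlr ⊢
      obtain ⟨x, hx1, hx2, hx3⟩ := hlr
      exact ⟨x, hx1, hx2, by rw [hx3, hv', hr]⟩
    · rintro ⟨_, hr⟩
      exact ⟨mem_univ r, hr⟩
  have h4 : c / 2 * (B.card : ℚ) ≤ c / 2 * (N.card : ℚ) := (h1.trans h2).trans_eq h3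
  have h5 : (B.card : ℚ) ≤ (N.card : ℚ) := le_of_mul_le_mul_left h4 (by positivity)
  exact_mod_cast h5

theorem exists_sel {V A : Type} [Fintype V] [DecidableEq V] [Fintype A] [DecidableEq A]
    (tl hd : A → V) (m : A → ℚ) (hm : ∀ x, 0 ≤ m x) (T : Finset V) (a b : V) (ha : a ∉ T)
    (hb : b ∉ T) (c : ℚ) (hc : 0 < c)
    (hout : ∀ v, ∑ x ∈ univ.filter (fun x => tl x = v), m x =
      if v ∈ T then c / 2 else if v = a then c else 0)
    (hin : ∀ v, ∑ x ∈ univ.filter (fun x => hd x = v), m x =
      if v ∈ T then c / 2 else if v = b then c else 0) :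
    ∃ (f : ({v // v ∈ T} ⊕ Bool) ≃ ({v // v ∈ T} ⊕ Bool)) (α : {v // v ∈ T} ⊕ Bool → A),
      ∀ l, 0 < m (α l) ∧ tl (α l) = vl T a l ∧ hd (α l) = vl T b (f l) := by
  classical
  set rel : ({v // v ∈ T} ⊕ Bool) → Finset ({v // v ∈ T} ⊕ Bool) := fun l =>
    univ.filter (fun r => ∃ x, 0 < m x ∧ tl x = vl T a l ∧ hd x = vl T b r) with hreld
  have hrel : ∀ l r, r ∈ rel l ↔ ∃ x, 0 < m x ∧ tl x = vl T a l ∧ hd x = vl T b r := by
    intro l r
    rw [hreld]
    simp only [mem_filter, mem_univ, true_and]
  have hall := halla_hall tl hd m hm T a b ha hb c hc hout hin rel hrel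
  rw [Finset.all_card_le_biUnion_card_iff_exists_injective] at hall
  obtain ⟨f, hf, hfr⟩ := hall
  have hbij : Function.Bijective f := Finite.injective_iff_bijective.1 hf
  have hx : ∀ l, ∃ x, 0 < m x ∧ tl x = vl T a l ∧ hd x = vl T b (f l) := fun l =>
    (hrel l (f l)).1 (hfr l)
  choose α hα using hx
  exact ⟨Equiv.ofBijective f hbij, α, hα⟩

end Pool.Agent.Lib.MP_95bb8c_al.OE
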