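import Pool.Agent.Lib.MP_95bb8c_al.OE.Orient
import Pool.Agent.Lib.MP_95bb8c_al.OE.HallA

set_option autoImplicit false
set_option linter.unusedSectionVars false

/-!
# An integral vector from the orientation

PROOF. Take `y` of `orient_KK`. Arcs `A = E × Bool`: `(e, true)` goes from `s e` to `t e` with mass
`y e`, `(e, false)` from `t e` to `s e` with mass `nl e - y e` (both `≥ 0`). The tail mass of `v` is the
sum of `orient_KK`, i.e. `outd T a c v`. Tail mass plus head mass of `v` is
`∑ of nl e over s e = v, plus ∑ of nl e over t e = v`, which is `cw s t z {v}` (loops have `nl = 0`), i.e.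
`c` on `T ∪ {a, b}` (`deg_eq`) and `0` at useless vertices; so the head mass is `c / 2` on `T`, `c` at `b`,
`0` at `a` and elsewhere. `exists_sel` gives `f`, `α`. Put `o e = number of l with (α l).1 = e`.
* `z e = 0` or `s e = t e`: `nl e = 0`, both arcs of `e` have mass `0`, so `o e = 0`.
* For `S : Finset V`: `cw (rat o) S = ∑ e ∈ cut S, o e = number of l with (α l).1 ∈ cut s t S`, i.e.
 `= number of l with not (vl T a l ∈ S ↔ vl T b (f l) ∈ S)` (tail and head of `α l` are the two ends
 of `(α l).1`).
 The number of `l` with `vl T a l ∈ S` is `(S ∩ T).card + 2 * [a ∈ S]`, the number of `l` with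
 `vl T b (f l) ∈ S` is `(S ∩ T).card + 2 * [b ∈ S]` (`f` is a bijection).
 `S = {v}`, `v ∈ T`: one `l` with tail `v`, one with head `v`, different since `α l` is no loop: `2`.
 `S = {a}`: two and none: `2`. `S = {b}`: none and two: `2`.
* `a ∈ S`, `b ∉ S`, `cw s t z S = c`. Mass leaving `S` minus mass entering `S` = (tail mass in `S`)
 `-` (head mass in `S`) `= (c + (S ∩ T).card * c / 2) - (S ∩ T).card * c / 2 = c`, and the sum of
 both is `cw s t z S = c`: so the mass entering `S` is `0` and no `α l` enters `S` (its mass is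
 positive): each `l` with `vl T b (f l) ∈ S` has `vl T a l ∈ S`. So the number of crossing `l` is
 `((S ∩ T).card + 2) - (S ∩ T).card = 2`.
-/

namespace Pool.Agent.Lib.MP_95bb8c_al.OE

open Finset

variable {V E : Type} [Fintype V] [DecidableEq V] [Fintype E] [DecidableEq E]
variable {s t : E → V} {T : Finset V} {a b : V} {z : E → ℚ} {c : ℚ}

/-- Tail of an arc. -/
def hall2_tl (s t : E → V) (x : E × Bool) : V := if x.2 then s x.1 else t x.1

/-- Head of an arc. -/
def hall2_hd (s t : E → V) (x : E × Bool) : V := if x.2 then t x.1 else s x.1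

/-- Mass of an arc. -/
def hall2_m (w y : E → ℚ) (x : E × Bool) : ℚ := if x.2 then y x.1 else w x.1 - y x.1

theorem hall2_sum (p : E × Bool → Prop) [DecidablePred p] (m : E × Bool → ℚ) :
    ∑ x ∈ univ.filter p, m x =
      ∑ e ∈ univ.filter (fun e => p (e, true)), m (e, true) +
        ∑ e ∈ univ.filter (fun e => p (e, false)), m (e, false) := by
  rw [sum_filter, Fintype.sum_prod_type]
  simp only [Fintype.sum_bool]
  rw [sum_add_distrib, sum_filter, sum_filter]

theorem hall2_card (T : Finset V) (a : V) (ha : a ∉ T) (S : Finset V) :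
    (univ.filter (fun l => vl T a l ∈ S)).card = (S ∩ T).card + if a ∈ S then 2 else 0 := by
  have h1 : (univ.filter (fun l => vl T a l ∈ S)).card =
      ∑ v ∈ S, (univ.filter (fun l => vl T a l = v)).card := by
    rw [card_eq_sum_card_fiberwise (s := univ.filter (fun l => vl T a l ∈ S)) (t := S)
      (f := vl T a) (fun x hx => (mem_filter.1 (mem_coe.1 hx)).2)]
    refine sum_congr rfl (fun v hv => ?_)
    congr 1
    ext x
    rw [mem_filter, mem_filter, mem_filter]
    constructor
    · rintro ⟨⟨h1, _⟩, h2⟩
      exact ⟨h1, h2⟩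
    · rintro ⟨h1, h2⟩
      exact ⟨⟨h1, h2 ▸ hv⟩, h2⟩
  rw [h1]
  have h2 : ∀ v, (univ.filter (fun l => vl T a l = v)).card =
      (if v ∈ T then 1 else 0) + (if v = a then 2 else 0) := by
    intro v
    rw [halla_fib T a ha v]
    by_cases hv : v ∈ T
    · have hva : v ≠ a := fun h => ha (h ▸ hv)
      rw [if_pos hv, if_pos hv, if_neg hva]
    · rw [if_neg hv, if_neg hv, zero_add]
  simp_rw [h2]
  rw [sum_add_distrib, sum_ite_eq' S a (fun _ => 2)]
  congr 1
  rw [← card_filter, filter_mem_eq_inter]

theorem hall2_cw_singleton (v : V) :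
    ∑ e ∈ univ.filter (fun e => s e = v), nl s t z e +
      ∑ e ∈ univ.filter (fun e => t e = v), nl s t z e = cw s t z {v} := by
  rw [cw_def, sum_filter, sum_filter, ← sum_add_distrib]
  refine sum_congr rfl (fun e _ => ?_)
  unfold nl
  simp only [mem_singleton]
  by_cases h1 : s e = v <;> by_cases h2 : t e = v
  · simp [h1, h2]
  · have h3 : s e ≠ t e := fun h => h2 (h ▸ h1)
    simp [h1, h2, Ne.symm h2]
  · have h3 : s e ≠ t e := fun h => h1 (h.trans h2)
    simp [h1, h2]
  · simp [h1, h2]

theorem hall2_cw (y : E → ℚ) (S : Finset V) :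
    ∑ x ∈ univ.filter (fun x => ¬ (hall2_tl s t x ∈ S ↔ hall2_hd s t x ∈ S)),
      hall2_m (nl s t z) y x = cw s t z S := by
  rw [hall2_sum, cw_def, sum_filter, sum_filter, ← sum_add_distrib]
  refine sum_congr rfl (fun e _ => ?_)
  simp only [hall2_tl, hall2_hd, hall2_m, if_true, Bool.false_eq_true, if_false]
  by_cases h : (s e ∈ S ↔ t e ∈ S)
  · have h' : (t e ∈ S ↔ s e ∈ S) := h.symm
    rw [if_neg (not_not.2 h), if_neg (not_not.2 h'), if_pos h, add_zero]
  · have h' : ¬ (t e ∈ S ↔ s e ∈ S) := fun h1 => h h1.symm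
    rw [if_pos h, if_pos h', if_neg h]
    have h3 : s e ≠ t e := fun h1 => h (by rw [h1])
    unfold nl
    rw [if_neg h3]
    ring

theorem hall2_out (y : E → ℚ)
    (hyv : ∀ v, ∑ e ∈ univ.filter (fun e => s e = v), y e +
        ∑ e ∈ univ.filter (fun e => t e = v), (nl s t z e - y e) = outd T a c v) (v : V) :
    ∑ x ∈ univ.filter (fun x => hall2_tl s t x = v), hall2_m (nl s t z) y x =
      if v ∈ T then c / 2 else if v = a then c else 0 := by
  rw [hall2_sum]
  exact hyv v

theorem hall2_in (h : KK s t T a b c c z) (y : E → ℚ)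
    (hyv : ∀ v, ∑ e ∈ univ.filter (fun e => s e = v), y e +
        ∑ e ∈ univ.filter (fun e => t e = v), (nl s t z e - y e) = outd T a c v) (v : V) :
    ∑ x ∈ univ.filter (fun x => hall2_hd s t x = v), hall2_m (nl s t z) y x =
      if v ∈ T then c / 2 else if v = b then c else 0 := by
  have h1 := hall2_sum (fun x => hall2_hd s t x = v) (hall2_m (nl s t z) y)
  have h2 := hyv v
  have h3 := hall2_cw_singleton (s := s) (t := t) (z := z) v
  have h4 : ∑ x ∈ univ.filter (fun x => hall2_hd s t x = v), hall2_m (nl s t z) y x =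
      ∑ e ∈ univ.filter (fun e => t e = v), y e +
        ∑ e ∈ univ.filter (fun e => s e = v), (nl s t z e - y e) := h1
  rw [h4]
  rw [sum_sub_distrib] at h2 ⊢
  have h5 : cw s t z {v} - outd T a c v = if v ∈ T then c / 2 else if v = b then c else 0 := by
    unfold outd
    by_cases hvT : v ∈ T
    · rw [if_pos hvT, if_pos hvT, deg_eq h (Or.inl hvT)]
      ring
    · rw [if_neg hvT, if_neg hvT]
      by_cases hva : v = a
      · rw [if_pos hva, if_neg (fun h' => h.frame.hab (hva.symm.trans h')),
          deg_eq h (Or.inr (Or.inl hva))]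
        ring
      · rw [if_neg hva]
        by_cases hvb : v = b
        · rw [if_pos hvb, deg_eq h (Or.inr (Or.inr hvb))]
          ring
        · rw [if_neg hvb]
          have h6 : cw s t z {v} = cw s t z ∅ := by
            apply cw_congr h.frame
            intro u hu
            rw [mem_singleton]
            constructor
            · rintro rfl
              rcases hu with hu | hu | hu
              · exact absurd hu hvT
              · exact absurd hu hva
              · exact absurd hu hvb
            · intro hu'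
              exact absurd hu' (notMem_empty u)
          rw [h6, cw_empty]
          ring
  rw [← h5, ← h3, ← h2]
  ring

theorem select (h : KK s t T a b c c z) (hc : 0 < c) :
    ∃ o : E → ℕ, (∀ e, z e = 0 → o e = 0) ∧ (∀ e, s e = t e → o e = 0) ∧
      (∀ v, InU T a b v → cw s t (rat o) {v} = 2) ∧
      ∀ S : Finset V, a ∈ S → b ∉ S → cw s t z S = c → cw s t (rat o) S = 2 := by
  obtain ⟨y, hy, hyv⟩ := orient_KK h hc
  have hm : ∀ x : E × Bool, 0 ≤ hall2_m (nl s t z) y x := by
    rintro ⟨e, _ | _⟩
    · exact sub_nonneg.2 (hy e).2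
    · exact (hy e).1
  have hmle : ∀ x : E × Bool, hall2_m (nl s t z) y x ≤ nl s t z x.1 := by
    rintro ⟨e, _ | _⟩
    · exact sub_le_self _ (hy e).1
    · exact (hy e).2
  have hout := hall2_out y hyv
  have hin := hall2_in h y hyv
  obtain ⟨f, α, hα⟩ := exists_sel (hall2_tl s t) (hall2_hd s t) (hall2_m (nl s t z) y) hm T a b
    h.frame.ha h.frame.hb c hc hout hin
  have hpos : ∀ l, 0 < nl s t z (α l).1 := fun l => lt_of_lt_of_le (hα l).1 (hmle (α l))
  have hnl : ∀ l, s (α l).1 ≠ t (α l).1 := by
    intro l h1
    have h2 := hpos l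
    unfold nl at h2
    rw [if_pos h1] at h2
    exact lt_irrefl 0 h2
  have hnz : ∀ l, z (α l).1 ≠ 0 := by
    intro l h1
    have h2 := hpos l
    unfold nl at h2
    rw [if_neg (hnl l), h1] at h2
    exact lt_irrefl 0 h2
  -- the crossing indices
  have hcross : ∀ (l) (S : Finset V), (α l).1 ∈ cut s t S ↔
      ¬ (vl T a l ∈ S ↔ vl T b (f l) ∈ S) := by
    intro l S
    rw [mem_cut, ← (hα l).2.1, ← (hα l).2.2]
    obtain ⟨e, bb⟩ := α l
    rcases bb with _ | _
    · simp only [hall2_tl, hall2_hd, Bool.false_eq_true, if_false]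
      tauto
    · simp only [hall2_tl, hall2_hd, if_true]
  set o : E → ℕ := fun e => (univ.filter (fun l => (α l).1 = e)).card with ho
  have hcw : ∀ S : Finset V, cw s t (rat o) S =
      ((univ.filter (fun l => ¬ (vl T a l ∈ S ↔ vl T b (f l) ∈ S))).card : ℚ) := by
    intro S
    have h1 : (univ.filter (fun l => ¬ (vl T a l ∈ S ↔ vl T b (f l) ∈ S))) =
        univ.filter (fun l => (α l).1 ∈ cut s t S) := by
      ext l
      rw [mem_filter, mem_filter, hcross]
    rw [h1]
    unfold cw
    rw [card_eq_sum_card_fiberwise (s := univ.filter (fun l => (α l).1 ∈ cut s t S))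
      (t := cut s t S) (f := fun l => (α l).1) (fun x hx => (mem_filter.1 (mem_coe.1 hx)).2),
      Nat.cast_sum]
    refine sum_congr rfl (fun e he => ?_)
    unfold rat
    rw [ho]
    refine congrArg (fun n : ℕ => (n : ℚ)) (congrArg card ?_)
    ext l
    rw [mem_filter, mem_filter, mem_filter]
    constructor
    · rintro ⟨h1, h2⟩
      exact ⟨⟨h1, h2 ▸ he⟩, h2⟩
    · rintro ⟨⟨h1, _⟩, h2⟩
      exact ⟨h1, h2⟩
  have hP : ∀ S : Finset V, (univ.filter (fun l => vl T a l ∈ S)).card =
      (S ∩ T).card + if a ∈ S then 2 else 0 := fun S => hall2_card T a h.frame.ha S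
  have hQ : ∀ S : Finset V, (univ.filter (fun l => vl T b (f l) ∈ S)).card =
      (S ∩ T).card + if b ∈ S then 2 else 0 := by
    intro S
    rw [← hall2_card T b h.frame.hb S]
    refine card_bij (fun l _ => f l) ?_ ?_ ?_
    · intro l hl
      rw [mem_filter] at hl ⊢
      exact ⟨mem_univ _, hl.2⟩
    · intro l _ l' _ hll
      exact f.injective hll
    · intro r hr
      refine ⟨f.symm r, ?_, f.apply_symm_apply r⟩
      rw [mem_filter] at hr ⊢
      refine ⟨mem_univ _, ?_⟩
      rw [f.apply_symm_apply]
      exact hr.2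
  refine ⟨o, ?_, ?_, ?_, ?_⟩
  · intro e he
    rw [ho]
    simp only
    rw [card_eq_zero, filter_eq_empty_iff]
    intro l _ hl
    exact hnz l (hl ▸ he)
  · intro e he
    rw [ho]
    simp only
    rw [card_eq_zero, filter_eq_empty_iff]
    intro l _ hl
    exact hnl l (hl ▸ he)
  · intro v hv
    rw [hcw {v}]
    have h1 : (univ.filter (fun l => ¬ (vl T a l ∈ ({v} : Finset V) ↔ vl T b (f l) ∈ ({v} : Finset V)))) =
        (univ.filter (fun l => vl T a l ∈ ({v} : Finset V))) ∪
          (univ.filter (fun l => vl T b (f l) ∈ ({v} : Finset V))) := by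
      ext l
      rw [mem_union, mem_filter, mem_filter, mem_filter, mem_singleton, mem_singleton]
      have h2 : ¬ (vl T a l = v ∧ vl T b (f l) = v) := by
        rintro ⟨h3, h4⟩
        rw [← (hα l).2.1] at h3
        rw [← (hα l).2.2] at h4
        have h5 : hall2_tl s t (α l) = hall2_hd s t (α l) := h3.trans h4.symm
        apply hnl l
        revert h5
        obtain ⟨e, bb⟩ := α l
        rcases bb with _ | _
        · simp only [hall2_tl, hall2_hd, Bool.false_eq_true, if_false]
          exact fun h => h.symm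
        · simp only [hall2_tl, hall2_hd, if_true]
          exact fun h => h
      tauto
    have h2 : Disjoint (univ.filter (fun l => vl T a l ∈ ({v} : Finset V)))
          (univ.filter (fun l => vl T b (f l) ∈ ({v} : Finset V))) := by
      rw [disjoint_left]
      intro l h3 h4
      rw [mem_filter, mem_singleton] at h3 h4
      have h3' := h3.2
      have h4' := h4.2
      rw [← (hα l).2.1] at h3'
      rw [← (hα l).2.2] at h4'
      have h5 : hall2_tl s t (α l) = hall2_hd s t (α l) := h3'.trans h4'.symm
      apply hnl l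
      revert h5
      obtain ⟨e, bb⟩ := α l
      rcases bb with _ | _
      · simp only [hall2_tl, hall2_hd, Bool.false_eq_true, if_false]
        exact fun h => h.symm
      · simp only [hall2_tl, hall2_hd, if_true]
        exact fun h => h
    rw [h1, card_union_of_disjoint h2, hP, hQ]
    rcases hv with hv | hv | hv
    · rw [singleton_inter_of_mem hv, if_neg, if_neg]
      · simp
      · rw [mem_singleton]
        exact fun h' => h.frame.hb (h' ▸ hv)
      · rw [mem_singleton]
        exact fun h' => h.frame.ha (h' ▸ hv)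
    · rw [hv, singleton_inter_of_notMem h.frame.ha, if_pos (mem_singleton_self a), if_neg]
      · simp
      · rw [mem_singleton]
        exact fun h' => h.frame.hab h'.symm
    · rw [hv, singleton_inter_of_notMem h.frame.hb, if_pos (mem_singleton_self b), if_neg]
      · simp
      · rw [mem_singleton]
        exact fun h' => h.frame.hab h'
  · intro S haS hbS hS
    -- the masses of tails and heads in S
    have hfib : ∀ (p : V) (hp : p ∉ T) (g : E × Bool → V)
        (hg : ∀ v, ∑ x ∈ univ.filter (fun x => g x = v), hall2_m (nl s t z) y x =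
          if v ∈ T then c / 2 else if v = p then c else 0),
        ∑ x ∈ univ.filter (fun x => g x ∈ S), hall2_m (nl s t z) y x =
          c / 2 * (((S ∩ T).card + if p ∈ S then 2 else 0 : ℕ) : ℚ) := by
      intro p hp g hg
      rw [halla_sum, ← hall2_card T p hp S]
      have h1 : (univ.filter (fun l => vl T p l ∈ S)).card =
          ∑ v ∈ S, (univ.filter (fun l => vl T p l = v)).card := by
        rw [card_eq_sum_card_fiberwise (s := univ.filter (fun l => vl T p l ∈ S)) (t := S)
          (f := vl T p) (fun x hx => (mem_filter.1 (mem_coe.1 hx)).2)]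
        refine sum_congr rfl (fun v hv => ?_)
        congr 1
        ext x
        rw [mem_filter, mem_filter, mem_filter]
        constructor
        · rintro ⟨⟨h1, _⟩, h2⟩
          exact ⟨h1, h2⟩
        · rintro ⟨h1, h2⟩
          exact ⟨⟨h1, h2 ▸ hv⟩, h2⟩
      rw [h1, Nat.cast_sum, mul_sum]
      refine sum_congr rfl (fun v _ => ?_)
      rw [hg v, halla_fib T p hp v]
      split_ifs
      · simp
      · push_cast; ring
      · simp
    have hTl := hfib a h.frame.ha (hall2_tl s t) hout
    have hHd := hfib b h.frame.hb (hall2_hd s t) hin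
    rw [if_pos haS] at hTl
    rw [if_neg hbS] at hHd
    have hcwm := hall2_cw (s := s) (t := t) (z := z) y S
    rw [hS] at hcwm
    have hent : ∑ x ∈ univ.filter (fun x => hall2_tl s t x ∉ S ∧ hall2_hd s t x ∈ S),
        hall2_m (nl s t z) y x = 0 := by
      have h1 : ∑ x ∈ univ.filter (fun x => hall2_tl s t x ∈ S), hall2_m (nl s t z) y x -
          ∑ x ∈ univ.filter (fun x => hall2_hd s t x ∈ S), hall2_m (nl s t z) y x +
          2 * ∑ x ∈ univ.filter (fun x => hall2_tl s t x ∉ S ∧ hall2_hd s t x ∈ S),
            hall2_m (nl s t z) y x =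
          ∑ x ∈ univ.filter (fun x => ¬ (hall2_tl s t x ∈ S ↔ hall2_hd s t x ∈ S)),
            hall2_m (nl s t z) y x := by
        rw [sum_filter, sum_filter, sum_filter, sum_filter, mul_sum, ← sum_sub_distrib,
          ← sum_add_distrib]
        refine sum_congr rfl (fun x _ => ?_)
        by_cases h1 : hall2_tl s t x ∈ S <;> by_cases h2 : hall2_hd s t x ∈ S <;>
          (simp [h1, h2]; try ring)
      rw [hTl, hHd, hcwm] at h1
      push_cast at h1
      linarith
    rw [sum_eq_zero_iff_of_nonneg (fun x _ => hm x)] at hent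
    have hsub : (univ.filter (fun l => vl T b (f l) ∈ S)) ⊆
        (univ.filter (fun l => vl T a l ∈ S)) := by
      intro l hl
      rw [mem_filter] at hl ⊢
      refine ⟨mem_univ _, ?_⟩
      by_contra h1
      have h2 := hent (α l) (by
        rw [mem_filter]
        refine ⟨mem_univ _, ?_, ?_⟩
        · rw [(hα l).2.1]
          exact h1
        · rw [(hα l).2.2]
          exact hl.2)
      exact absurd (hα l).1 (by rw [h2]; exact lt_irrefl 0)
    rw [hcw S]
    have h1 : (univ.filter (fun l => ¬ (vl T a l ∈ S ↔ vl T b (f l) ∈ S))) =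
        (univ.filter (fun l => vl T a l ∈ S)) \ (univ.filter (fun l => vl T b (f l) ∈ S)) := by
      ext l
      have h2 : vl T b (f l) ∈ S → vl T a l ∈ S := by
        intro h3
        exact (mem_filter.1 (hsub (mem_filter.2 ⟨mem_univ l, h3⟩))).2
      rw [mem_sdiff, mem_filter, mem_filter, mem_filter]
      have h3 := mem_univ l
      tauto
    rw [h1, card_sdiff_of_subset hsub, hP, hQ, if_pos haS, if_neg hbS]
    simp

end Pool.Agent.Lib.MP_95bb8c_al.OE
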