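import Pool.Agent.Lib.MP_95bb8c_al.OE.Cut

set_option autoImplicit false
set_option linter.unusedSectionVars false

/-!
# Moving until a new constraint becomes tight
-/

namespace Pool.Agent.Lib.MP_95bb8c_al.OE

open Finset

/-- The number of constraints which are not tight. -/
def npos {J : Type} [Fintype J] (g : J → ℚ) : ℕ := (univ.filter fun j => 0 < g j).card

/-- `g` are the slacks of finitely many constraints, `h` is the speed at which they decrease,
tight constraints stay tight. There is a step `l > 0` which keeps all slacks nonnegative and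
makes a new constraint tight; the number of constraints which are not tight decreases. -/
theorem exists_step {J : Type} [Fintype J] (g h : J → ℚ) (hg : ∀ j, 0 ≤ g j)
    (hh : ∀ j, g j = 0 → h j = 0) (hpos : ∃ j, 0 < h j) :
    ∃ l : ℚ, 0 < l ∧ (∀ j, 0 ≤ g j - l * h j) ∧ npos (fun j => g j - l * h j) < npos g := by
  classical
  obtain ⟨j1, hj1⟩ := hpos
  obtain ⟨j0, hj0, hmin⟩ := Finset.exists_min_image (univ.filter fun j => 0 < h j)
    (fun j => g j / h j) ⟨j1, Finset.mem_filter.mpr ⟨Finset.mem_univ _, hj1⟩⟩
  rw [Finset.mem_filter] at hj0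
  have hg0 : 0 < g j0 := by
    rcases (hg j0).eq_or_lt with h1 | h1
    · have := hh j0 h1.symm
      rw [this] at hj0
      exact absurd hj0.2 (lt_irrefl _)
    · exact h1
  refine ⟨g j0 / h j0, div_pos hg0 hj0.2, ?_, ?_⟩
  · intro j
    rcases le_or_gt (h j) 0 with h1 | h1
    · have h2 : g j0 / h j0 * h j ≤ 0 :=
        mul_nonpos_of_nonneg_of_nonpos (div_pos hg0 hj0.2).le h1
      have := hg j
      linarith
    · have h2 := hmin j (Finset.mem_filter.mpr ⟨Finset.mem_univ _, h1⟩)
      have h3 := mul_le_mul_of_nonneg_right h2 h1.le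
      rw [div_mul_cancel₀ _ h1.ne'] at h3
      linarith
  · apply Finset.card_lt_card
    rw [Finset.ssubset_iff_of_subset]
    · refine ⟨j0, Finset.mem_filter.mpr ⟨Finset.mem_univ _, hg0⟩, ?_⟩
      rw [Finset.mem_filter]
      rintro ⟨-, h1⟩
      have h2 : g j0 / h j0 * h j0 = g j0 := div_mul_cancel₀ _ hj0.2.ne'
      simp only [h2, sub_self] at h1
      exact lt_irrefl _ h1
    · intro j hj
      rw [Finset.mem_filter] at hj ⊢
      refine ⟨hj.1, ?_⟩
      rcases (hg j).eq_or_lt with h1 | h1
      · have h2 := hj.2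
        simp only [hh j h1.symm, ← h1, mul_zero, sub_zero] at h2
        exact absurd h2 (lt_irrefl _)
      · exact h1

end Pool.Agent.Lib.MP_95bb8c_al.OE
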