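import Pool.Agent.Lib.MP_95bb8c_al.OE.Cut
import Pool.Agent.Lib.MP_95bb8c_al.OE.Step

set_option autoImplicit false
set_option linter.unusedSectionVars false

/-!
# Subtracting a tight object

PROOF of `step_obj`. Constraints `J = (E ⊕ Finset V) ⊕ Unit`; slacks `slack z c` on `E ⊕ Finset V`
and `c` on `Unit`; speeds: `e ↦ o e`, `S ↦ if Ess T a b S then cw s t (rat o) S - 2 else 0`,
`() ↦ 2`. Slack `0` implies speed `0` (`supp`; tightness `htight`; `c > 0`). `exists_step`
gives `l > 0` with `c - 2 l ≥ 0` and all slacks of `z' = z - l * o`, `c' = c - 2 l` nonnegative.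
If `c' > 0`: `KK s t T a b c' c' z'`: degrees `c - 2 l` since the degrees of `o` are `2`;
`odd` and `sep` from the slacks of essential sets. Right alternative: `nt z' c' < nt z c`
since the `Unit` constraint counts `1` on both sides (both `c, c' > 0`). If `o'` is a `TObj` for
`z', c'`: it is one for `z, c`: `z e = 0` implies `o e = 0`, `z' e = 0`, `o' e = 0`; an essential
`S` with `cw z S = c` has `cw o S = 2`, so `cw z' S = c - 2 l = c'`, so `cw o' S = 2`. The last
clause: `z e = z' e + l * o e` by definition.
If `c' = 0`: all `z' e ≥ 0` and the degrees of `z'` are `0`, so `z' e = 0` for each `e` which is no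
loop (`e` is in the star of `s e`, and `InU (s e)`). So `cw z S = l * cw (rat o) S` for all `S`
(`cw_congr_loop`), `c = 2 l`. For essential `S`, `cw (rat o) S = cw z S / l ≥ c / l = 2`
(`ess_le`), so `o` is itself a `TObj` for `z, c`, and `z e = l * o e` on non-loops: left
alternative.
-/

namespace Pool.Agent.Lib.MP_95bb8c_al.OE

open Finset

variable {V E : Type} [Fintype V] [DecidableEq V] [Fintype E] [DecidableEq E]
variable {s t : E → V} {T : Finset V} {a b : V} {z : E → ℚ} {c : ℚ}

instance (T : Finset V) (a b : V) (S : Finset V) : Decidable (Ess T a b S) := by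
  unfold Ess
  infer_instance

/-- The slacks of the constraints of `KK s t T a b c c z`. -/
def slack (s t : E → V) (T : Finset V) (a b : V) (z : E → ℚ) (c : ℚ) : E ⊕ Finset V → ℚ :=
  Sum.elim z (fun S => if Ess T a b S then cw s t z S - c else 0)

/-- The number of constraints which are not tight. -/
def nt (s t : E → V) (T : Finset V) (a b : V) (z : E → ℚ) (c : ℚ) : ℕ :=
  npos (slack s t T a b z c)

theorem zstep_npos_sum {J K : Type} [Fintype J] [Fintype K] (f : J ⊕ K → ℚ) :
    npos f = npos (fun j => f (Sum.inl j)) + npos (fun k => f (Sum.inr k)) := by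
  unfold npos
  rw [Finset.card_filter, Finset.card_filter, Finset.card_filter, Fintype.sum_sum_type]

theorem zstep_npos_unit (f : Unit → ℚ) (hf : 0 < f ()) : npos f = 1 := by
  unfold npos
  rw [Finset.card_eq_one]
  refine ⟨(), ?_⟩
  ext x
  cases x
  simp [hf]

theorem step_obj (h : KK s t T a b c c z) (hc : 0 < c) {o : E → ℕ}
    (hsupp : ∀ e, z e = 0 → o e = 0) (hloop : ∀ e, s e = t e → o e = 0)
    (hdeg : ∀ v, InU T a b v → cw s t (rat o) {v} = 2)
    (htight : ∀ S : Finset V, Ess T a b S → cw s t z S = c → cw s t (rat o) S = 2) :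
    (TObj s t T a b c z o ∧ ∃ l : ℚ, 0 < l ∧ 2 * l = c ∧ ∀ e, s e ≠ t e → z e = l * o e) ∨
    ∃ (z' : E → ℚ) (c' l : ℚ), 0 < c' ∧ 0 < l ∧ c = c' + 2 * l ∧ KK s t T a b c' c' z' ∧
      nt s t T a b z' c' < nt s t T a b z c ∧
      (∀ o', TObj s t T a b c' z' o' → TObj s t T a b c z o') ∧
      ∀ e, z e = z' e + l * o e := by
  set g : (E ⊕ Finset V) ⊕ Unit → ℚ := Sum.elim (slack s t T a b z c) (fun _ => c) with hg
  set q : (E ⊕ Finset V) ⊕ Unit → ℚ := Sum.elim (Sum.elim (fun e => (o e : ℚ))
    (fun S => if Ess T a b S then cw s t (rat o) S - 2 else 0)) (fun _ => 2) with hq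
  have hgnn : ∀ j, 0 ≤ g j := by
    rintro ((e | S) | u)
    · exact h.nonneg e
    · show 0 ≤ if Ess T a b S then cw s t z S - c else 0
      split_ifs with hS
      · exact sub_nonneg.mpr (ess_le h hS)
      · exact le_rfl
    · exact hc.le
  have hgq : ∀ j, g j = 0 → q j = 0 := by
    rintro ((e | S) | u) hj
    · show (o e : ℚ) = 0
      rw [hsupp e hj, Nat.cast_zero]
    · show (if Ess T a b S then cw s t (rat o) S - 2 else 0) = 0
      have hj' : (if Ess T a b S then cw s t z S - c else 0) = 0 := hj
      split_ifs with hS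
      · rw [if_pos hS] at hj'
        rw [htight S hS (by linarith)]
        norm_num
      · rfl
    · exact absurd hj hc.ne'
  obtain ⟨l, hl, hnn, hlt⟩ := exists_step g q hgnn hgq ⟨Sum.inr (), two_pos⟩
  set z' : E → ℚ := fun e => z e - l * o e with hz'
  have hcw : ∀ S : Finset V, cw s t z' S = cw s t z S - l * cw s t (rat o) S := by
    intro S
    rw [hz', cw_sub, cw_smul]
    rfl
  have hz'nn : ∀ e, 0 ≤ z' e := fun e => hnn (Sum.inl (Sum.inl e))
  have hess : ∀ S : Finset V, Ess T a b S → c - 2 * l ≤ cw s t z' S := by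
    intro S hS
    have h1 : 0 ≤ (if Ess T a b S then cw s t z S - c else 0) -
      l * (if Ess T a b S then cw s t (rat o) S - 2 else 0) := hnn (Sum.inl (Sum.inr S))
    rw [if_pos hS, if_pos hS] at h1
    rw [hcw]
    linarith
  have hdeg' : ∀ v, InU T a b v → cw s t z' {v} = c - 2 * l := by
    intro v hv
    rw [hcw, hdeg v hv, deg_eq h hv]
    ring
  have hc' : 0 ≤ c - l * 2 := hnn (Sum.inr ())
  rcases hc'.lt_or_eq with hc1 | hc1
  · right
    refine ⟨z', c - 2 * l, l, by linarith, hl, by ring, ?_, ?_, ?_, ?_⟩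
    · refine ⟨h.frame, hz'nn, fun v hv => hdeg' v (Or.inl hv), hdeg' a (Or.inr (Or.inl rfl)),
        hdeg' b (Or.inr (Or.inr rfl)), fun S hS => hess S (Or.inl hS), ?_⟩
      intro S haS hbS
      exact hess S (Or.inr (fun h1 => hbS (h1.mp haS)))
    · have h1 : nt s t T a b z' (c - 2 * l) + 1 = npos (fun j => g j - l * q j) := by
        rw [zstep_npos_sum, zstep_npos_unit (fun k => g (Sum.inr k) - l * q (Sum.inr k)) hc1]
        congr 1
        unfold nt
        congr 1
        funext j
        rcases j with e | S
        · rfl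
        · show (if Ess T a b S then cw s t z' S - (c - 2 * l) else 0) =
            (if Ess T a b S then cw s t z S - c else 0) -
              l * (if Ess T a b S then cw s t (rat o) S - 2 else 0)
          split_ifs
          · rw [hcw]
            ring
          · ring
      have h2 : nt s t T a b z c + 1 = npos g := by
        rw [zstep_npos_sum, zstep_npos_unit (fun k => g (Sum.inr k)) hc]
        rfl
      omega
    · intro o' ho'
      refine ⟨?_, ho'.loop, ho'.deg, ho'.ess, ?_⟩
      · intro e he
        apply ho'.supp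
        show z e - l * o e = 0
        rw [he, hsupp e he]
        simp
      · intro S hS hSc
        apply ho'.tight S hS
        rw [hcw, hSc, htight S hS hSc]
        ring
    · intro e
      show z e = z e - l * o e + l * o e
      ring
  · left
    have hz0 : ∀ e, s e ≠ t e → z e = l * o e := by
      intro e he
      have h1 : z' e ≤ cw s t z' {s e} :=
        Finset.single_le_sum (f := z') (fun f _ => hz'nn f) (mem_cut_s he)
      rw [hdeg' _ (h.frame.hs e)] at h1
      have h2 := hz'nn e
      have h3 : z' e = z e - l * o e := rfl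
      linarith
    have hcwz : ∀ S : Finset V, cw s t z S = l * cw s t (rat o) S := by
      intro S
      rw [← cw_smul]
      exact cw_congr_loop hz0 S
    have h2l : 2 * l = c := by linarith
    refine ⟨⟨hsupp, hloop, hdeg, ?_, htight⟩, l, hl, h2l, hz0⟩
    intro S hS
    have h1 := ess_le h hS
    rw [hcwz, ← h2l, mul_comm] at h1
    exact le_of_mul_le_mul_left h1 hl

end Pool.Agent.Lib.MP_95bb8c_al.OE
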