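import Pool.Agent.Lib.MP_95bb8c_al.OE.ZGlue
import Pool.Agent.Lib.MP_95bb8c_al.OE.Hall2
import Pool.Agent.Lib.MP_95bb8c_al.OE.ZStep

set_option autoImplicit false
set_option linter.unusedSectionVars false

/-!
# Existence of tight integral objects, and the integral decomposition

PROOF of `exists_tobj`. Strong induction on `T.card`, inside it strong induction on
`nt s t T a b z c` (`s`, `t`, `T` fixed in the inner induction, `z`, `c` vary).
Case A: there is `S` with `Odd (S ∩ T).card`, `a ∉ S`, `b ∉ S`, `cw s t z S = c`,
`1 < (S ∩ T).card`. Choose `v0 ∈ S ∩ T`, apply the induction hypothesis to `kk_contr`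
(`card_contr`) and then `glue_obj`.
Case B: no such `S`. Take `o` of `select`. Tightness of `o`: let `S` be essential,
`cw z S = c`. If `S` separates `a` from `b`: the last property of `select` for `S` or its
complement (`cw_compl`). Otherwise `S` is `T`-odd and contains both or none of `a, b`. If none,
`(S ∩ T).card = 1` (it is odd and not `> 1`), so `S` agrees with a `{v}`, `v ∈ T`, on `T ∪ {a, b}`
(`cw_congr`), weight `2`. If both: the complement is `T`-odd (`even_T`), contains none of them,
and has the same cuts. Now `step_obj`: in the first alternative `o` itself is a `TObj`, in the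
second one use the inner induction hypothesis.

PROOF of `peelZ`. For `c = 0`: `ι = Empty`; all degrees are `0` so `z e = 0` for non-loops.
For `c > 0`: strong induction on `nt z c`: take `o` of `exists_tobj` and apply `step_obj` to it.
First alternative: `ι = Unit`, weight `l`. Second: the induction hypothesis for `z'`, `c'` and
`Option ι` with weight `l` and `o` at `none`; the objects for `z'` are objects for `z`.
-/

namespace Pool.Agent.Lib.MP_95bb8c_al.OE

open Finset

variable {V E : Type} [Fintype V] [DecidableEq V] [Fintype E] [DecidableEq E]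
variable {s t : E → V} {T : Finset V} {a b : V} {z : E → ℚ} {c : ℚ}

theorem zmain_aux {a b : V} : ∀ (n : ℕ) (s t : E → V) (T : Finset V), T.card = n →
    ∀ (m : ℕ) (z : E → ℚ) (c : ℚ), nt s t T a b z c = m → KK s t T a b c c z → 0 < c →
      ∃ o : E → ℕ, TObj s t T a b c z o := by
  intro n
  induction n using Nat.strong_induction_on with
  | _ n IH1 =>
  intro s t T hn m
  induction m using Nat.strong_induction_on with
  | _ m IH2 =>
  intro z c hm h hc
  have hTe := even_T h hc
  by_cases hA : ∃ S : Finset V, Odd (S ∩ T).card ∧ a ∉ S ∧ b ∉ S ∧ cw s t z S = c ∧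
      1 < (S ∩ T).card
  · obtain ⟨S, hS, ha, hb, hSc, h1⟩ := hA
    obtain ⟨v0, hv0⟩ : (S ∩ T).Nonempty := Finset.card_pos.mp (by omega)
    have hlt := card_contr hv0 h1
    rw [hn] at hlt
    obtain ⟨o1, ho1⟩ := IH1 _ hlt _ _ (insert v0 (T \ S)) rfl _ z c rfl
      (kk_contr h hS ha hb hSc hv0) hc
    exact glue_obj h hc hS ha hb hSc hv0 ho1
  · obtain ⟨o, hsupp, hloop, hdeg, hsep⟩ := select h hc
    have hone : ∀ S : Finset V, Odd (S ∩ T).card → a ∉ S → b ∉ S → cw s t z S = c →
        cw s t (rat o) S = 2 := by
      intro S hS ha hb hSc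
      have h1 : (S ∩ T).card = 1 := by
        by_contra h2
        apply hA
        refine ⟨S, hS, ha, hb, hSc, ?_⟩
        rw [Nat.odd_iff] at hS
        omega
      obtain ⟨v, hv⟩ := Finset.card_eq_one.mp h1
      have hvST : v ∈ S ∩ T := by
        rw [hv]
        exact Finset.mem_singleton_self v
      have hvT := (Finset.mem_inter.mp hvST).2
      rw [← hdeg v (Or.inl hvT)]
      apply cw_congr h.frame
      intro w hw
      rw [Finset.mem_singleton]
      rcases hw with hw | rfl | rfl
      · constructor
        · intro h3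
          have h4 : w ∈ S ∩ T := Finset.mem_inter.mpr ⟨h3, hw⟩
          rw [hv, Finset.mem_singleton] at h4
          exact h4
        · rintro rfl
          exact (Finset.mem_inter.mp hvST).1
      · refine iff_of_false ha ?_
        rintro rfl
        exact h.frame.ha hvT
      · refine iff_of_false hb ?_
        rintro rfl
        exact h.frame.hb hvT
    have htight : ∀ S : Finset V, Ess T a b S → cw s t z S = c →
        cw s t (rat o) S = 2 := by
      intro S hS hSc
      by_cases h1 : a ∈ S ↔ b ∈ S
      · have hodd : Odd (S ∩ T).card := by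
          rcases hS with hS | hS
          · exact hS
          · exact absurd h1 hS
        by_cases ha : a ∈ S
        · rw [← cw_compl]
          apply hone Sᶜ
          · have h2 := card_compl_split S T
            rw [Nat.odd_iff] at hodd ⊢
            rw [Nat.even_iff] at hTe
            omega
          · rw [Finset.mem_compl, not_not]
            exact ha
          · rw [Finset.mem_compl, not_not]
            exact h1.mp ha
          · rw [cw_compl]
            exact hSc
        · exact hone S hodd ha (fun h2 => ha (h1.mpr h2)) hSc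
      · by_cases ha : a ∈ S
        · exact hsep S ha (fun h2 => h1 (iff_of_true ha h2)) hSc
        · have hb : b ∈ S := by
            by_contra h2
            exact h1 (iff_of_false ha h2)
          rw [← cw_compl]
          apply hsep Sᶜ (Finset.mem_compl.mpr ha)
          · rw [Finset.mem_compl, not_not]
            exact hb
          · rw [cw_compl]
            exact hSc
    rcases step_obj h hc hsupp hloop hdeg htight with ⟨h1, -⟩ | ⟨z', c', l, hc', -, -, hK, hlt,
      htr, -⟩
    · exact ⟨o, h1⟩
    · rw [hm] at hlt
      obtain ⟨o', ho'⟩ := IH2 _ hlt z' c' rfl hK hc'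
      exact ⟨o', htr o' ho'⟩

theorem exists_tobj (h : KK s t T a b c c z) (hc : 0 < c) :
    ∃ o : E → ℕ, TObj s t T a b c z o :=
  zmain_aux _ s t T rfl _ z c rfl h hc

theorem zmain_peel (m : ℕ) : ∀ (z : E → ℚ) (c : ℚ), nt s t T a b z c = m →
    KK s t T a b c c z → 0 < c →
    ∃ (ι : Type) (_ : Fintype ι) (w : ι → ℚ) (o : ι → E → ℕ), (∀ i, 0 < w i) ∧
      (∀ i, TObj s t T a b c z (o i)) ∧ 2 * ∑ i, w i = c ∧
      ∀ e, s e ≠ t e → ∑ i, w i * (o i e : ℚ) = z e := by
  induction m using Nat.strong_induction_on with
  | _ m IH =>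
  intro z c hm h hc
  obtain ⟨o, ho⟩ := exists_tobj h hc
  rcases step_obj h hc ho.supp ho.loop ho.deg ho.tight with ⟨h1, l, hl, hlc, hzl⟩ |
    ⟨z', c', l, hc', hl, hcc, hK, hlt, htr, hz⟩
  · refine ⟨Unit, inferInstance, fun _ => l, fun _ => o, fun _ => hl, fun _ => ho, ?_, ?_⟩
    · simp [hlc]
    · intro e he
      simp [hzl e he]
  · rw [hm] at hlt
    obtain ⟨ι, hι, w, oo, hw, hoo, hsum, hmar⟩ := IH _ hlt z' c' rfl hK hc'
    refine ⟨Option ι, inferInstance, fun i => i.elim l w, fun i => i.elim o oo, ?_, ?_, ?_, ?_⟩
    · rintro (_ | i)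
      · exact hl
      · exact hw i
    · rintro (_ | i)
      · exact ho
      · exact htr _ (hoo i)
    · rw [Fintype.sum_option]
      show 2 * (l + ∑ i, w i) = c
      linarith
    · intro e he
      rw [Fintype.sum_option]
      show l * (o e : ℚ) + ∑ i, w i * (oo i e : ℚ) = z e
      rw [hmar e he, hz e]
      ring

theorem peelZ (h : KK s t T a b c c z) (hc : 0 < c) :
    ∃ (ι : Type) (_ : Fintype ι) (w : ι → ℚ) (o : ι → E → ℕ), (∀ i, 0 < w i) ∧
      (∀ i, TObj s t T a b c z (o i)) ∧ 2 * ∑ i, w i = c ∧
      ∀ e, s e ≠ t e → ∑ i, w i * (o i e : ℚ) = z e :=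
  zmain_peel _ z c rfl h hc

end Pool.Agent.Lib.MP_95bb8c_al.OE
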