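import Pool.Agent.Lib.MP_95bb8c_al.OE.Chain
import Pool.Agent.Lib.MP_95bb8c_al.OE.ZMain

set_option autoImplicit false
set_option linter.unusedSectionVars false

/-!
# An almost balanced law on the objects

PROOF. Choose `N` with `2 * c / (N + 1) ≤ ε`. Take `chain` for `N` and `peelZ` for the chain:
`ι, w, o'`. New index type `ι × Fin (N + 1)`, weights `w p / (N + 1)`, objects
`o' p ∘ ρ i`. They are `TObj`s of the given graph; `2 * ∑ = c`; for each `e` the mean of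
`o' p (ρ i e)` over `p` is `z' (ρ i e) = z e` (no loops), so the total mean is `z e`. Let
`e, f ∈ cut s t {b}`. Put `P i = ∑ p, w p * (o' p (ρ i e) * o' p (ρ i f))` and
`Q i = ∑ p, w p * (o' p (ρ i (σ e)) * o' p (ρ i (σ f)))`. By compatibility `Q (i + 1) = P i`
for `i < N`, so the sum over `i ≤ N` of `P i - Q i` is `P N - Q 0`. Both are in `[0, 2 c]`: an
object has `o e ≤ 2` for each edge (the star of `s e` has weight `2`), so the products are
`≤ 4` and `∑ w p = c / 2`. Hence the difference of the two sides is at most `2 c / (N + 1)`.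
-/

namespace Pool.Agent.Lib.MP_95bb8c_al.OE

open Finset

variable {V E : Type} [Fintype V] [DecidableEq V] [Fintype E] [DecidableEq E]
variable {s t : E → V} {T : Finset V} {a b : V} {z : E → ℚ} {c : ℚ} {σ τ : E → E}

theorem obj_le_two (C : Clean s t T a b c z) {o : E → ℕ} (ho : TObj s t T a b c z o) (e : E) :
    o e ≤ 2 := by
  have h1 := ho.deg (s e) (C.kk.frame.hs e)
  have h2 : e ∈ cut s t {s e} := mem_cut_s (C.loop e)
  have h3 : rat o e ≤ cw s t (rat o) {s e} :=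
    Finset.single_le_sum (f := rat o) (fun f _ => Nat.cast_nonneg (o f)) h2
  rw [h1] at h3
  unfold rat at h3
  exact_mod_cast h3

/-- Telescoping: the sums of `P` and of the shifted `Q` differ by the two ends. -/
theorem approx_tele (N : ℕ) (P Q : ℕ → ℚ) (h : ∀ i < N, Q (i + 1) = P i) :
    ∑ i ∈ range (N + 1), P i - ∑ i ∈ range (N + 1), Q i = P N - Q 0 := by
  rw [Finset.sum_range_succ P, Finset.sum_range_succ' Q]
  have h1 : ∑ i ∈ range N, Q (i + 1) = ∑ i ∈ range N, P i :=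
    Finset.sum_congr rfl fun i hi => h i (Finset.mem_range.mp hi)
  rw [h1]
  ring

/-- Averages over `ι × Fin (N + 1)`. -/
theorem approx_avg {ι : Type} [Fintype ι] (N : ℕ) (w : ι → ℚ) (F : ι → ℕ → ℚ) :
    ∑ x : ι × Fin (N + 1), w x.1 / ((N : ℚ) + 1) * F x.1 x.2 =
      (∑ i ∈ range (N + 1), ∑ p, w p * F p i) / ((N : ℚ) + 1) := by
  rw [Fintype.sum_prod_type_right, ← Fin.sum_univ_eq_sum_range (fun i => ∑ p, w p * F p i) (N + 1),
    Finset.sum_div]
  apply Finset.sum_congr rfl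
  intro i _
  rw [Finset.sum_div]
  apply Finset.sum_congr rfl
  intro p _
  ring

theorem approx_law (C : Clean s t T a b c z) (hA : Axis s t a b z σ τ) {ε : ℚ} (hε : 0 < ε) :
    ∃ (ι : Type) (_ : Fintype ι) (w : ι → ℚ) (o : ι → E → ℕ), (∀ i, 0 ≤ w i) ∧
      (∀ i, TObj s t T a b c z (o i)) ∧ 2 * ∑ i, w i = c ∧
      (∀ e, ∑ i, w i * (o i e : ℚ) = z e) ∧
      ∀ e ∈ cut s t {b}, ∀ f ∈ cut s t {b},
        |∑ i, w i * ((o i e : ℚ) * o i f) - ∑ i, w i * ((o i (σ e) : ℚ) * o i (σ f))| ≤ ε := by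
  have hc := C.hc
  obtain ⟨N, hN⟩ := exists_nat_ge (2 * c / ε)
  obtain ⟨V', E', _, _, _, _, s', t', T', a', b', z', ρ, back, C', hz, hobj, hcomp, -, -⟩ :=
    chain C hA N
  obtain ⟨ι, _, w, o', hw, ho', hsum, hmean⟩ := peelZ C'.kk C'.hc
  have hN1 : (0 : ℚ) < (N : ℚ) + 1 := by positivity
  have hle : ∀ p, ∀ i ≤ N, ∀ e, ((o' p (ρ i e) : ℕ) : ℚ) ≤ 2 := by
    intro p i hi e
    exact_mod_cast obj_le_two C (hobj (o' p) (ho' p) i hi) e
  refine ⟨ι × Fin (N + 1), inferInstance, fun x => w x.1 / ((N : ℚ) + 1),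
    fun x e => o' x.1 (ρ x.2 e), fun x => div_nonneg (hw x.1).le hN1.le,
    fun x => hobj (o' x.1) (ho' x.1) x.2 (Nat.lt_succ_iff.mp x.2.2), ?_, ?_, ?_⟩
  · have h1 := approx_avg N w (fun _ _ => 1)
    simp only [mul_one, Finset.sum_const, Finset.card_range, nsmul_eq_mul] at h1
    rw [h1]
    push_cast
    rw [← hsum]
    field_simp
  · intro e
    have h1 := approx_avg N w (fun p i => ((o' p (ρ i e) : ℕ) : ℚ))
    refine h1.trans ?_
    have h2 : ∑ i ∈ range (N + 1), ∑ p, w p * ((o' p (ρ i e) : ℕ) : ℚ) =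
        ∑ _i ∈ range (N + 1), z e := by
      apply Finset.sum_congr rfl
      intro i hi
      rw [hmean (ρ i e) (C'.loop _)]
      exact hz i (Nat.lt_succ_iff.mp (Finset.mem_range.mp hi)) e
    rw [h2, Finset.sum_const, Finset.card_range, nsmul_eq_mul]
    push_cast
    field_simp
  · intro e he f hf
    have h1 := approx_avg N w (fun p i => ((o' p (ρ i e) : ℕ) : ℚ) * ((o' p (ρ i f) : ℕ) : ℚ))
    have h2 := approx_avg N w
      (fun p i => ((o' p (ρ i (σ e)) : ℕ) : ℚ) * ((o' p (ρ i (σ f)) : ℕ) : ℚ))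
    have h3 := approx_tele N
      (fun i => ∑ p, w p * (((o' p (ρ i e) : ℕ) : ℚ) * ((o' p (ρ i f) : ℕ) : ℚ)))
      (fun i => ∑ p, w p * (((o' p (ρ i (σ e)) : ℕ) : ℚ) * ((o' p (ρ i (σ f)) : ℕ) : ℚ))) (by
        intro i hi
        apply Finset.sum_congr rfl
        intro p _
        rw [hcomp i hi e he, hcomp i hi f hf])
    have hbd : ∀ i ≤ N, ∀ x y : E, 0 ≤ ∑ p, w p * (((o' p (ρ i x) : ℕ) : ℚ) * ((o' p (ρ i y) : ℕ) : ℚ)) ∧
        ∑ p, w p * (((o' p (ρ i x) : ℕ) : ℚ) * ((o' p (ρ i y) : ℕ) : ℚ)) ≤ 2 * c := by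
      intro i hi x y
      constructor
      · exact Finset.sum_nonneg fun p _ => mul_nonneg (hw p).le (by positivity)
      · have h4 : ∀ p ∈ (univ : Finset ι), w p * (((o' p (ρ i x) : ℕ) : ℚ) *
            ((o' p (ρ i y) : ℕ) : ℚ)) ≤ w p * 4 := by
          intro p _
          apply mul_le_mul_of_nonneg_left _ (hw p).le
          have h5 := hle p i hi x
          have h6 := hle p i hi y
          have h7 : (0 : ℚ) ≤ ((o' p (ρ i x) : ℕ) : ℚ) := Nat.cast_nonneg _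
          have h8 : (0 : ℚ) ≤ ((o' p (ρ i y) : ℕ) : ℚ) := Nat.cast_nonneg _
          nlinarith
        refine (Finset.sum_le_sum h4).trans ?_
        rw [← Finset.sum_mul]
        linarith
    have h4 := hbd N le_rfl e f
    have h5 := hbd 0 (Nat.zero_le _) (σ e) (σ f)
    have h6 : |(∑ p, w p * (((o' p (ρ N e) : ℕ) : ℚ) * ((o' p (ρ N f) : ℕ) : ℚ))) -
        ∑ p, w p * (((o' p (ρ 0 (σ e)) : ℕ) : ℚ) * ((o' p (ρ 0 (σ f)) : ℕ) : ℚ))| ≤ 2 * c := by
      rw [abs_le]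
      constructor <;> linarith [h4.1, h4.2, h5.1, h5.2]
    have h7 : ∀ x y : ℚ, x / ((N : ℚ) + 1) - y / ((N : ℚ) + 1) = (x - y) / ((N : ℚ) + 1) :=
      fun x y => by ring
    beta_reduce
    rw [h1, h2, h7, h3, abs_div, abs_of_pos hN1, div_le_iff₀ hN1]
    refine h6.trans ?_
    rw [div_le_iff₀ hε] at hN
    nlinarith

end Pool.Agent.Lib.MP_95bb8c_al.OE
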