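import Pool.Agent.Lib.MP_95bb8c_al.OE.Approx
import Pool.Agent.Lib.MP_95bb8c_al.OE.Exact

set_option autoImplicit false
set_option linter.unusedSectionVars false

/-!
# A balanced law on the objects

PROOF. Let `Ω = {o : E → Fin 3 // TObj s t T a b c z (fun e => (o e : ℕ))}` (finite; by `obj_le_two`
each object is of this form). Apply `exact_of_approx` with `B = c / 2` and the equations
`J = Unit ⊕ E ⊕ E × E`: `∑ μ = c / 2`; `∑ μ o * o e = z e`; for the pair `(e, f)`, if both are
in `cut s t {b}`: `∑ μ o * (o e * o f - o (σ e) * o (σ f)) = 0` (coefficient `0` for other pairs). The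
approximate solutions come from `approx_law`: push the law forward to `Ω`
(`μ x = ∑ of w i over the i whose object is x`).
-/

namespace Pool.Agent.Lib.MP_95bb8c_al.OE

open Finset

variable {V E : Type} [Fintype V] [DecidableEq V] [Fintype E] [DecidableEq E]
variable {s t : E → V} {T : Finset V} {a b : V} {z : E → ℚ} {c : ℚ} {σ τ : E → E}

theorem bobj_push {ι Ω : Type} [Fintype ι] [Fintype Ω] [DecidableEq Ω] (w : ι → ℚ) (Φ : ι → Ω)
    (F : Ω → ℚ) :
    ∑ x, F x * ∑ i, (if Φ i = x then w i else 0) = ∑ i, w i * F (Φ i) := by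
  simp_rw [Finset.mul_sum]
  rw [Finset.sum_comm]
  refine Finset.sum_congr rfl fun i _ => ?_
  simp only [mul_ite, mul_zero]
  rw [Finset.sum_ite_eq]
  simp only [Finset.mem_univ, if_true]
  ring

theorem balanced_objs (C : Clean s t T a b c z) (hA : Axis s t a b z σ τ) :
    ∃ (ι : Type) (_ : Fintype ι) (w : ι → ℚ) (o : ι → E → ℕ), (∀ i, 0 ≤ w i) ∧
      (∀ i, TObj s t T a b c z (o i)) ∧ 2 * ∑ i, w i = c ∧
      (∀ e, ∑ i, w i * (o i e : ℚ) = z e) ∧
      ∀ e ∈ cut s t {b}, ∀ f ∈ cut s t {b},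
        ∑ i, w i * ((o i e : ℚ) * o i f) = ∑ i, w i * ((o i (σ e) : ℚ) * o i (σ f)) := by
  classical
  let Ω : Type := {o : E → Fin 3 // TObj s t T a b c z (fun e => (o e : ℕ))}
  haveI : Fintype Ω := Fintype.ofFinite Ω
  let P : E → E → Ω → ℚ := fun e f o => if e ∈ cut s t {b} ∧ f ∈ cut s t {b} then
    ((o.1 e : ℕ) : ℚ) * ((o.1 f : ℕ) : ℚ) - ((o.1 (σ e) : ℕ) : ℚ) * ((o.1 (σ f) : ℕ) : ℚ) else 0
  let A : Unit ⊕ (E ⊕ (E × E)) → Ω → ℚ :=
    Sum.elim (fun _ _ => 1) (Sum.elim (fun e o => ((o.1 e : ℕ) : ℚ)) (fun p => P p.1 p.2))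
  let r : Unit ⊕ (E ⊕ (E × E)) → ℚ := Sum.elim (fun _ => c / 2) (Sum.elim z (fun _ => 0))
  obtain ⟨μ, hμ, hr⟩ := exact_of_approx A r (c / 2) (by
    intro ε hε
    obtain ⟨ι, hι, w, o, hw, ho, hsum, hmarg, hpair⟩ := approx_law C hA hε
    let Φ : ι → Ω := fun i => ⟨fun e => ⟨o i e, Nat.lt_succ_of_le (obj_le_two C (ho i) e)⟩, ho i⟩
    have hΦ : ∀ i e, ((Φ i).1 e : ℕ) = o i e := fun _ _ => rfl
    refine ⟨fun x => ∑ i, (if Φ i = x then w i else 0), fun x => ?_, ?_, ?_⟩
    · refine Finset.sum_nonneg fun i _ => ?_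
      split_ifs
      · exact hw i
      · exact le_refl _
    · have h1 := bobj_push w Φ (fun _ => 1)
      simp only [one_mul, mul_one] at h1
      rw [h1]
      linarith
    · intro j
      rw [bobj_push w Φ (A j)]
      rcases j with j | e | ⟨e, f⟩
      · have h1 : ∑ i, w i * A (Sum.inl j) (Φ i) - r (Sum.inl j) = 0 := by
          simp only [A, r, Sum.elim_inl, mul_one]
          linarith
        rw [h1, abs_zero]
        exact hε.le
      · have h1 : ∑ i, w i * A (Sum.inr (Sum.inl e)) (Φ i) - r (Sum.inr (Sum.inl e)) = 0 := by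
          simp only [A, r, Sum.elim_inl, Sum.elim_inr, hΦ]
          rw [hmarg e, sub_self]
        rw [h1, abs_zero]
        exact hε.le
      · by_cases hef : e ∈ cut s t {b} ∧ f ∈ cut s t {b}
        · have h1 : ∑ i, w i * A (Sum.inr (Sum.inr (e, f))) (Φ i) - r (Sum.inr (Sum.inr (e, f))) =
              ∑ i, w i * ((o i e : ℚ) * o i f) - ∑ i, w i * ((o i (σ e) : ℚ) * o i (σ f)) := by
            simp only [A, r, P, Sum.elim_inr, hΦ, if_pos hef, sub_zero]
            rw [← Finset.sum_sub_distrib]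
            refine Finset.sum_congr rfl fun i _ => ?_
            ring
          rw [h1]
          exact hpair e hef.1 f hef.2
        · have h1 : ∑ i, w i * A (Sum.inr (Sum.inr (e, f))) (Φ i) - r (Sum.inr (Sum.inr (e, f))) =
              0 := by
            simp only [A, r, P, Sum.elim_inr, if_neg hef, mul_zero, Finset.sum_const_zero,
              sub_zero]
          rw [h1, abs_zero]
          exact hε.le)
  refine ⟨Ω, inferInstance, μ, fun x e => (x.1 e : ℕ), hμ, fun x => x.2, ?_, fun e => ?_,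
    fun e he f hf => ?_⟩
  · have h1 := hr (Sum.inl ())
    simp only [A, r, Sum.elim_inl, one_mul] at h1
    rw [h1]
    ring
  · have h1 := hr (Sum.inr (Sum.inl e))
    simp only [A, r, Sum.elim_inl, Sum.elim_inr] at h1
    rw [← h1]
    refine Finset.sum_congr rfl fun i _ => ?_
    ring
  · have h1 := hr (Sum.inr (Sum.inr (e, f)))
    simp only [A, r, P, Sum.elim_inr, if_pos (And.intro he hf)] at h1
    rw [← sub_eq_zero, ← h1, ← Finset.sum_sub_distrib]
    refine Finset.sum_congr rfl fun i _ => ?_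
    ring

end Pool.Agent.Lib.MP_95bb8c_al.OE
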