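import Pool.Agent.Lib.MP_95bb8c_al.OE.GlueRes

set_option autoImplicit false
set_option linter.unusedSectionVars false

/-!
# Chains of copies of a graph

`σ` maps the star of `b` bijectively to the star of `a` (inverse `τ`), and no edge joins `a` and
`b`. `chain`: for each `N` there is a graph (the chain of `N + 1` copies) with maps `ρ i : E → E'`,
`i ≤ N` (the copies of the edges).

PROOF. Induction on `N`. `N = 0`: the graph itself, `ρ i = id`, `back = id`. Step: let
`(s', t', T', a', b', z', ρ, back)` be the chain for `N`. Glue it (`b1 = b'`) with the given graph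
(`a2 = a`): `β e' = σ (back e')`, `τ1 f = ρ N (τ f)`. `Link`: for `e'` at `b'`: `back e'` is at `b`,
so `β e'` is at `a`, `τ1 (β e') = ρ N (τ (σ (back e'))) = ρ N (back e') = e'`, and
`z (β e') = z (back e') = z' (ρ N (back e')) = z' e'`. For `f` at `a`: `τ f` at `b`, `ρ N (τ f)` at
`b'`, `β (ρ N (τ f)) = σ (back (ρ N (τ f))) = σ (τ f) = f`. New `ρ' i = inl ∘ ρ i` for `i ≤ N`, and
for `i > N`: `ρ' i f = if h : f ∉ cut s t {a} then inr ⟨f, h⟩ else inl (ρ N (τ f))`, so
`o ∘ ρ' (N + 1) = resR s t a τ1 o`. New `back' (inr f) = f.1` and `back' (inl e') = ` anything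
(`back e'`). `glue_clean`; weights: clear. Objects: for `i ≤ N` `glue_left` and the induction
hypothesis, for `i = N + 1` `glue_right`. Compatibility for `i < N`: induction hypothesis; for
`i = N`, `e` at `b`: `σ e` is at `a`, so `ρ' (N + 1) (σ e) = inl (ρ N (τ (σ e))) = inl (ρ N e)`.
Boundary: `e` at `b` is not at `a` (`hnab`), so `ρ' (N + 1) e = inr ⟨e, _⟩`, which is at `inr b`, and
`back'` of it is `e`. Conversely an edge `e''` of the glued graph at `inr b`: if `e'' = inr f`
then `f` is at `b`, fine; if `e'' = inl e'`: one of its ends is `inr (far s t a (β e')) = inr b`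
with `e'` at `b'`; then `β e'` is at `a` and at `b` (an edge at `a` whose other end is `b`),
impossible by `hnab`.
-/

namespace Pool.Agent.Lib.MP_95bb8c_al.OE

open Finset

variable {V E : Type} [Fintype V] [DecidableEq V] [Fintype E] [DecidableEq E]
variable {s t : E → V} {T : Finset V} {a b : V} {z : E → ℚ} {c : ℚ} {σ τ : E → E}

/-- `σ` identifies the star of `b` with the star of `a`; no edge joins `a` and `b`. -/
structure Axis (s t : E → V) (a b : V) (z : E → ℚ) (σ τ : E → E) : Prop where
  link : Link s t b z s t a z σ τ
  hnab : ∀ e ∈ cut s t {b}, e ∉ cut s t {a}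

theorem chain (C : Clean s t T a b c z) (hA : Axis s t a b z σ τ) (N : ℕ) :
    ∃ (V' E' : Type) (_ : Fintype V') (_ : DecidableEq V') (_ : Fintype E')
      (_ : DecidableEq E') (s' t' : E' → V') (T' : Finset V') (a' b' : V') (z' : E' → ℚ)
      (ρ : ℕ → E → E') (back : E' → E),
      Clean s' t' T' a' b' c z' ∧ (∀ i ≤ N, ∀ e, z' (ρ i e) = z e) ∧
      (∀ o', TObj s' t' T' a' b' c z' o' → ∀ i ≤ N, TObj s t T a b c z (fun e => o' (ρ i e))) ∧
      (∀ i < N, ∀ e ∈ cut s t {b}, ρ (i + 1) (σ e) = ρ i e) ∧
      (∀ e ∈ cut s t {b}, ρ N e ∈ cut s' t' {b'} ∧ back (ρ N e) = e) ∧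
      ∀ e' ∈ cut s' t' {b'}, back e' ∈ cut s t {b} ∧ ρ N (back e') = e' := by
  induction N with
  | zero =>
    refine ⟨V, E, inferInstance, inferInstance, inferInstance, inferInstance, s, t, T, a, b, z,
      fun _ e => e, fun e => e, C, ?_, ?_, ?_, ?_, ?_⟩
    · intros; rfl
    · intro o' ho i _; exact ho
    · intro i hi; exact absurd hi (Nat.not_lt_zero _)
    · intro e he; exact ⟨he, rfl⟩
    · intro e' he; exact ⟨he, rfl⟩
  | succ N ih =>
    obtain ⟨V', E', iV, dV, iE, dE, s', t', T', a', b', z', ρ, back, C', hz, hobj, hcomp, hbd,
      hbk⟩ := ih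
    have L : Link s' t' b' z' s t a z (fun e' => σ (back e')) (fun f => ρ N (τ f)) := by
      constructor
      · intro e' he'
        obtain ⟨h1, h2⟩ := hbk e' he'
        obtain ⟨h3, h4, h5⟩ := hA.link.fwd _ h1
        refine ⟨h3, ?_, ?_⟩
        · change ρ N (τ (σ (back e'))) = e'
          rw [h4, h2]
        · change z (σ (back e')) = z' e'
          rw [h5, ← hz N le_rfl (back e'), h2]
      · intro f hf
        obtain ⟨h1, h2⟩ := hA.link.bwd f hf
        obtain ⟨h3, h4⟩ := hbd _ h1
        refine ⟨h3, ?_⟩
        change σ (back (ρ N (τ f))) = f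
        rw [h4, h2]
    refine ⟨V' ⊕ V, E' ⊕ E2' s t a, inferInstance, inferInstance, inferInstance, inferInstance,
      glS s' b' s t a (fun e' => σ (back e')), glT t' b' s t a (fun e' => σ (back e')),
      T'.disjSum T, Sum.inl a', Sum.inr b, glz z' s t a z,
      fun i e => if i ≤ N then Sum.inl (ρ i e) else
        if h : e ∉ cut s t {a} then Sum.inr ⟨e, h⟩ else Sum.inl (ρ N (τ e)),
      Sum.elim back (fun f => f.1), glue_clean C' C L, ?_, ?_, ?_, ?_, ?_⟩
    · intro i hi e
      by_cases h : i ≤ N
      · simp only [h, if_true]
        exact hz i h e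
      · simp only [h, if_false]
        by_cases h' : e ∉ cut s t {a}
        · rw [dif_pos h']
          rfl
        · rw [dif_neg h']
          rw [not_not] at h'
          obtain ⟨h1, h2⟩ := hA.link.bwd e h'
          change z' (ρ N (τ e)) = z e
          rw [hz N le_rfl, ← (hA.link.fwd _ h1).2.2, h2]
    · intro o' ho i hi
      by_cases h : i ≤ N
      · simp only [h, if_true]
        exact hobj _ (glue_left C' C L ho) i h
      · simp only [h, if_false]
        have h3 := glue_right C' C L ho
        have h4 : (fun e => o' (if h : e ∉ cut s t {a} then Sum.inr ⟨e, h⟩ else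
            Sum.inl (ρ N (τ e)))) = resR s t a (fun f => ρ N (τ f)) o' := by
          funext e
          unfold resR
          split_ifs <;> rfl
        rw [h4]
        exact h3
    · intro i hi e he
      have hiN : i ≤ N := by omega
      simp only [hiN, if_true]
      obtain ⟨h3, h4, h5⟩ := hA.link.fwd _ he
      by_cases h : i + 1 ≤ N
      · simp only [h, if_true]
        rw [hcomp i (by omega) e he]
      · have hi2 : i = N := by omega
        subst hi2
        simp only [h, if_false]
        rw [dif_neg (not_not.2 h3), h4]
    · intro e he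
      have h1 := hA.hnab e he
      have h2 : ¬ (N + 1 ≤ N) := by omega
      simp only [h2, if_false]
      rw [dif_pos h1]
      refine ⟨?_, rfl⟩
      rw [mem_cut_singleton] at he ⊢
      simpa [glS, glT] using he
    · intro e'' he''
      have h2 : ¬ (N + 1 ≤ N) := by omega
      simp only [h2, if_false]
      rcases e'' with e' | f
      · exfalso
        have key : ∀ e', e' ∈ cut s' t' {b'} → far s t a (σ (back e')) ≠ b := by
          intro e' he' hf
          obtain ⟨h1, -⟩ := hbk e' he'
          have h3 := (hA.link.fwd _ h1).1
          refine hA.hnab (σ (back e')) ?_ h3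
          rw [mem_cut_singleton] at h3 ⊢
          unfold far at hf
          have hab := C.kk.frame.hab
          split_ifs at hf with h4
          · rw [h4, hf]
            intro h5
            exact hab (h5.2 rfl)
          · rw [hf]
            intro h5
            have h6 := h5.1 rfl
            apply h3
            constructor
            · intro h7; exact absurd h7 h4
            · intro h7
              exact absurd (h7.symm.trans h6) hab
        have hl := C'.loop e'
        rw [mem_cut_singleton] at he''
        simp only [glS, glT, Sum.elim_inl] at he''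
        by_cases h3 : s' e' = b'
        · have h4 : t' e' ≠ b' := fun h => hl (h3.trans h.symm)
          have h5 := key e' (by rw [mem_cut_singleton]; intro h; exact h4 (h.1 h3))
          rw [if_pos h3, if_neg h4] at he''
          apply he''
          constructor
          · intro h; exact absurd (Sum.inr.inj h) h5
          · intro h; cases h
        · rw [if_neg h3] at he''
          by_cases h4 : t' e' = b'
          · have h5 := key e' (by rw [mem_cut_singleton]; intro h; exact h3 (h.2 h4))
            rw [if_pos h4] at he''
            apply he''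
            constructor
            · intro h; cases h
            · intro h; exact absurd (Sum.inr.inj h) h5
          · rw [if_neg h4] at he''
            apply he''
            constructor
            · intro h; cases h
            · intro h; cases h
      · have h3 : f.1 ∈ cut s t {b} := by
          rw [mem_cut_singleton] at he'' ⊢
          simpa [glS, glT] using he''
        refine ⟨h3, ?_⟩
        change (if h : f.1 ∉ cut s t {a} then Sum.inr ⟨f.1, h⟩ else
            Sum.inl (ρ N (τ f.1))) = Sum.inr f
        rw [dif_pos f.2]

end Pool.Agent.Lib.MP_95bb8c_al.OE
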