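import Pool.Agent.Lib.MP_95bb8c_al.OE.Defs

set_option autoImplicit false
set_option linter.unusedSectionVars false

/-!
# Cut algebra
-/

namespace Pool.Agent.Lib.MP_95bb8c_al.OE

open Finset

variable {V E : Type} [Fintype V] [DecidableEq V] [Fintype E] [DecidableEq E]
variable {s t : E → V} {T : Finset V} {a b : V} {z : E → ℚ} {c k : ℚ}

theorem cw_def (S : Finset V) : cw s t z S = ∑ e, if (s e ∈ S ↔ t e ∈ S) then 0 else z e := by
  unfold cw cut
  rw [Finset.sum_filter]
  apply Finset.sum_congr rfl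
  intro e _
  by_cases h : (s e ∈ S ↔ t e ∈ S) <;> simp [h]

theorem cut_compl' (S : Finset V) : cut s t Sᶜ = cut s t S := by
  ext e
  simp only [mem_cut, Finset.mem_compl]
  tauto

theorem cw_compl (S : Finset V) : cw s t z Sᶜ = cw s t z S := by
  unfold cw
  rw [cut_compl']

theorem cw_univ : cw s t z univ = 0 := by
  rw [cw_def]
  simp

theorem cw_empty : cw s t z ∅ = 0 := by
  rw [cw_def]
  simp

theorem cw_nonneg (hz : ∀ e, 0 ≤ z e) (S : Finset V) : 0 ≤ cw s t z S :=
  Finset.sum_nonneg fun e _ => hz e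

theorem cw_add (x y : E → ℚ) (S : Finset V) :
    cw s t (fun e => x e + y e) S = cw s t x S + cw s t y S := Finset.sum_add_distrib

theorem cw_sub (x y : E → ℚ) (S : Finset V) :
    cw s t (fun e => x e - y e) S = cw s t x S - cw s t y S := Finset.sum_sub_distrib _ _

theorem cw_smul (l : ℚ) (x : E → ℚ) (S : Finset V) :
    cw s t (fun e => l * x e) S = l * cw s t x S := (Finset.mul_sum _ _ _).symm

/-- Only the weights of the edges which are not loops matter. -/
theorem cw_congr_loop {x y : E → ℚ} (h : ∀ e, s e ≠ t e → x e = y e) (S : Finset V) :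
    cw s t x S = cw s t y S := by
  apply Finset.sum_congr rfl
  intro e he
  apply h
  intro h1
  rw [mem_cut, h1] at he
  exact he Iff.rfl

/-- A weighted sum of set indicators. -/
theorem cw_sum {ι : Type} [Fintype ι] (w : ι → ℚ) (x : ι → E → ℚ) (S : Finset V) :
    cw s t (fun e => ∑ i, w i * x i e) S = ∑ i, w i * cw s t (x i) S := by
  unfold cw
  rw [Finset.sum_comm]
  apply Finset.sum_congr rfl
  intro i _
  rw [Finset.mul_sum]

theorem cw_ind (M : Finset E) (S : Finset V) :
    cw s t (fun e => if e ∈ M then 1 else 0) S = ((M ∩ cut s t S).card : ℚ) := by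
  unfold cw
  rw [Finset.sum_boole, Finset.inter_comm, Finset.filter_mem_eq_inter]

/-- Cuts after a map of the vertices. -/
theorem cut_comp (f : V → V) (S : Finset V) :
    cut (fun e => f (s e)) (fun e => f (t e)) S = cut s t (pre f S) := by
  ext e
  simp [mem_cut, pre]

theorem cw_comp (f : V → V) (S : Finset V) :
    cw (fun e => f (s e)) (fun e => f (t e)) z S = cw s t z (pre f S) := by
  unfold cw
  rw [cut_comp]

theorem mem_pre {f : V → V} {S : Finset V} {v : V} : v ∈ pre f S ↔ f v ∈ S := by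
  simp [pre]

/-- Useless vertices do not matter. -/
theorem cut_congr (hF : Frame s t T a b) {S S' : Finset V}
    (h : ∀ v, InU T a b v → (v ∈ S ↔ v ∈ S')) : cut s t S = cut s t S' := by
  ext e
  rw [mem_cut, mem_cut, h _ (hF.hs e), h _ (hF.ht e)]

theorem cw_congr (hF : Frame s t T a b) {S S' : Finset V}
    (h : ∀ v, InU T a b v → (v ∈ S ↔ v ∈ S')) : cw s t z S = cw s t z S' := by
  unfold cw
  rw [cut_congr hF h]

theorem mem_cr {A B : Finset V} {e : E} :
    e ∈ cr s t A B ↔ (s e ∈ A ∧ t e ∈ B) ∨ (s e ∈ B ∧ t e ∈ A) := by simp [cr]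

theorem cr_def (A B : Finset V) : ∑ e ∈ cr s t A B, z e =
    ∑ e, if (s e ∈ A ∧ t e ∈ B) ∨ (s e ∈ B ∧ t e ∈ A) then z e else 0 := by
  unfold cr
  rw [Finset.sum_filter]

/-- Uncrossing, first form. -/
theorem cw_inter_union (A B : Finset V) :
    cw s t z (A ∩ B) + cw s t z (A ∪ B) + 2 * ∑ e ∈ cr s t (A \ B) (B \ A), z e =
      cw s t z A + cw s t z B := by
  rw [cw_def, cw_def, cw_def, cw_def, cr_def, Finset.mul_sum, ← Finset.sum_add_distrib,
    ← Finset.sum_add_distrib, ← Finset.sum_add_distrib]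
  apply Finset.sum_congr rfl
  intro e _
  simp only [Finset.mem_inter, Finset.mem_union, Finset.mem_sdiff]
  by_cases h1 : s e ∈ A <;> by_cases h2 : s e ∈ B <;> by_cases h3 : t e ∈ A <;>
    by_cases h4 : t e ∈ B <;> simp [h1, h2, h3, h4] <;> ring

/-- Uncrossing, second form. -/
theorem cw_sdiff_sdiff (A B : Finset V) :
    cw s t z (A \ B) + cw s t z (B \ A) + 2 * ∑ e ∈ cr s t (A ∩ B) (A ∪ B)ᶜ, z e =
      cw s t z A + cw s t z B := by
  rw [cw_def, cw_def, cw_def, cw_def, cr_def, Finset.mul_sum, ← Finset.sum_add_distrib,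
    ← Finset.sum_add_distrib, ← Finset.sum_add_distrib]
  apply Finset.sum_congr rfl
  intro e _
  simp only [Finset.mem_inter, Finset.mem_union, Finset.mem_sdiff, Finset.mem_compl]
  by_cases h1 : s e ∈ A <;> by_cases h2 : s e ∈ B <;> by_cases h3 : t e ∈ A <;>
    by_cases h4 : t e ∈ B <;> simp [h1, h2, h3, h4] <;> ring

theorem cw_inter_union_le (hz : ∀ e, 0 ≤ z e) (A B : Finset V) :
    cw s t z (A ∩ B) + cw s t z (A ∪ B) ≤ cw s t z A + cw s t z B := by
  have h1 := cw_inter_union (s := s) (t := t) (z := z) A B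
  have h2 : 0 ≤ ∑ e ∈ cr s t (A \ B) (B \ A), z e := Finset.sum_nonneg fun e _ => hz e
  linarith

theorem cw_sdiff_sdiff_le (hz : ∀ e, 0 ≤ z e) (A B : Finset V) :
    cw s t z (A \ B) + cw s t z (B \ A) ≤ cw s t z A + cw s t z B := by
  have h1 := cw_sdiff_sdiff (s := s) (t := t) (z := z) A B
  have h2 : 0 ≤ ∑ e ∈ cr s t (A ∩ B) (A ∪ B)ᶜ, z e := Finset.sum_nonneg fun e _ => hz e
  linarith

/-- If the first uncrossing is an equality for `z` then it is one for each `o` whose support is
in the support of `z`. -/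
theorem cw_inter_union_eq (hz : ∀ e, 0 ≤ z e) {A B : Finset V} {o : E → ℚ}
    (ho : ∀ e, z e = 0 → o e = 0)
    (h : cw s t z A + cw s t z B ≤ cw s t z (A ∩ B) + cw s t z (A ∪ B)) :
    cw s t o (A ∩ B) + cw s t o (A ∪ B) = cw s t o A + cw s t o B := by
  have h1 := cw_inter_union (s := s) (t := t) (z := z) A B
  have h2 : 0 ≤ ∑ e ∈ cr s t (A \ B) (B \ A), z e := Finset.sum_nonneg fun e _ => hz e
  have h3 : ∑ e ∈ cr s t (A \ B) (B \ A), z e = 0 := by linarith
  rw [Finset.sum_eq_zero_iff_of_nonneg (fun e _ => hz e)] at h3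
  have h4 : ∑ e ∈ cr s t (A \ B) (B \ A), o e = 0 :=
    Finset.sum_eq_zero fun e he => ho e (h3 e he)
  have h5 := cw_inter_union (s := s) (t := t) (z := o) A B
  linarith

/-- The same for the second uncrossing. -/
theorem cw_sdiff_sdiff_eq (hz : ∀ e, 0 ≤ z e) {A B : Finset V} {o : E → ℚ}
    (ho : ∀ e, z e = 0 → o e = 0)
    (h : cw s t z A + cw s t z B ≤ cw s t z (A \ B) + cw s t z (B \ A)) :
    cw s t o (A \ B) + cw s t o (B \ A) = cw s t o A + cw s t o B := by
  have h1 := cw_sdiff_sdiff (s := s) (t := t) (z := z) A B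
  have h2 : 0 ≤ ∑ e ∈ cr s t (A ∩ B) (A ∪ B)ᶜ, z e := Finset.sum_nonneg fun e _ => hz e
  have h3 : ∑ e ∈ cr s t (A ∩ B) (A ∪ B)ᶜ, z e = 0 := by linarith
  rw [Finset.sum_eq_zero_iff_of_nonneg (fun e _ => hz e)] at h3
  have h4 : ∑ e ∈ cr s t (A ∩ B) (A ∪ B)ᶜ, o e = 0 :=
    Finset.sum_eq_zero fun e he => ho e (h3 e he)
  have h5 := cw_sdiff_sdiff (s := s) (t := t) (z := o) A B
  linarith

/-! ### Parity -/

theorem card_split (A B T : Finset V) :
    (A ∩ T).card = ((A ∩ B) ∩ T).card + ((A \ B) ∩ T).card := by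
  rw [← Finset.card_union_of_disjoint]
  · congr 1
    ext v
    simp only [Finset.mem_inter, Finset.mem_union, Finset.mem_sdiff]
    tauto
  · rw [Finset.disjoint_left]
    intro v h1 h2
    simp only [Finset.mem_inter, Finset.mem_sdiff] at h1 h2
    exact h2.1.2 h1.1.2

theorem card_union_split (A B T : Finset V) :
    ((A ∪ B) ∩ T).card = (A ∩ T).card + ((B \ A) ∩ T).card := by
  rw [← Finset.card_union_of_disjoint]
  · congr 1
    ext v
    simp only [Finset.mem_inter, Finset.mem_union, Finset.mem_sdiff]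
    tauto
  · rw [Finset.disjoint_left]
    intro v h1 h2
    simp only [Finset.mem_inter, Finset.mem_sdiff] at h1 h2
    exact h2.1.2 h1.1

theorem card_compl_split (A T : Finset V) : T.card = (A ∩ T).card + (Aᶜ ∩ T).card := by
  rw [← Finset.card_union_of_disjoint]
  · congr 1
    ext v
    simp only [Finset.mem_inter, Finset.mem_union, Finset.mem_compl]
    tauto
  · rw [Finset.disjoint_left]
    intro v h1 h2
    simp only [Finset.mem_inter, Finset.mem_compl] at h1 h2
    exact h2.1 h1.1

theorem even_T (h : KK s t T a b c k z) (hc : 0 < c) : Even T.card := by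
  by_contra hne
  rw [Nat.not_even_iff_odd] at hne
  have h1 := h.odd univ (by rw [Finset.univ_inter]; exact hne)
  rw [cw_univ] at h1
  linarith

/-- The complement of an essential set is essential. -/
theorem Ess.compl (hT : Even T.card) {S : Finset V} (hS : Ess T a b S) : Ess T a b Sᶜ := by
  rcases hS with h | h
  · left
    have h1 := card_compl_split S T
    rw [h1] at hT
    rw [Nat.even_add] at hT
    rw [← Nat.not_even_iff_odd] at h ⊢
    tauto
  · right
    simp only [Finset.mem_compl]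
    tauto

theorem sep' (h : KK s t T a b c k z) {S : Finset V} (hS : ¬ (a ∈ S ↔ b ∈ S)) :
    k ≤ cw s t z S := by
  by_cases h1 : a ∈ S
  · exact h.sep S h1 (fun h2 => hS (iff_of_true h1 h2))
  · have h2 : b ∈ S := by
      by_contra h2
      exact hS (iff_of_false h1 h2)
    rw [← cw_compl]
    exact h.sep Sᶜ (Finset.mem_compl.mpr h1) (fun h3 => (Finset.mem_compl.mp h3) h2)

/-- All essential cuts have weight at least `c` if `k = c`. -/
theorem ess_le (h : KK s t T a b c c z) {S : Finset V} (hS : Ess T a b S) : c ≤ cw s t z S := by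
  rcases hS with hS | hS
  · exact h.odd S hS
  · exact sep' h hS

theorem deg_eq (h : KK s t T a b c c z) {v : V} (hv : InU T a b v) : cw s t z {v} = c := by
  rcases hv with hv | rfl | rfl
  · exact h.degT v hv
  · exact h.dega
  · exact h.degb

theorem ess_singleton (hF : Frame s t T a b) {v : V} (hv : InU T a b v) : Ess T a b {v} := by
  rcases hv with hv | rfl | rfl
  · left
    rw [Finset.singleton_inter_of_mem hv]
    exact Nat.odd_iff.mpr rfl
  · right
    simp only [Finset.mem_singleton, true_iff]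
    exact fun h => hF.hab h.symm
  · right
    simp only [Finset.mem_singleton, iff_true]
    exact hF.hab

/-! ### Laws -/

/-- If a weighted sum of vectors has the smallest possible cut at `S` then each of them has. -/
theorem tight_avg {ι : Type} [Fintype ι] {w : ι → ℚ} {y : ι → E → ℚ} {x : E → ℚ} {m : ℚ}
    {S : Finset V} (hw : ∀ i, 0 < w i) (hm : ∀ i, m ≤ cw s t (y i) S)
    (hx : ∀ e, s e ≠ t e → ∑ i, w i * y i e = x e) (h : cw s t x S = (∑ i, w i) * m) (i : ι) :
    cw s t (y i) S = m := by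
  have h1 : ∑ i, w i * (cw s t (y i) S - m) = 0 := by
    have h2 : cw s t x S = ∑ i, w i * cw s t (y i) S := by
      rw [← cw_sum]
      exact (cw_congr_loop hx S).symm
    rw [h2] at h
    simp_rw [mul_sub]
    rw [Finset.sum_sub_distrib, h, Finset.sum_mul]
    ring
  rw [Finset.sum_eq_zero_iff_of_nonneg
    (fun i _ => mul_nonneg (hw i).le (sub_nonneg.mpr (hm i)))] at h1
  have h2 := h1 i (Finset.mem_univ i)
  rcases mul_eq_zero.mp h2 with h3 | h3
  · exact absurd h3 (hw i).ne'
  · linarith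

/-- A law whose members miss an edge of weight `0`. -/
theorem supp_of_law {ι : Type} [Fintype ι] {w : ι → ℚ} {y : ι → ℚ} (hw : ∀ i, 0 < w i)
    (hy : ∀ i, 0 ≤ y i) (h : ∑ i, w i * y i = 0) (i : ι) : y i = 0 := by
  rw [Finset.sum_eq_zero_iff_of_nonneg (fun i _ => mul_nonneg (hw i).le (hy i))] at h
  rcases mul_eq_zero.mp (h i (Finset.mem_univ i)) with h3 | h3
  · exact absurd h3 (hw i).ne'
  · exact h3

end Pool.Agent.Lib.MP_95bb8c_al.OE
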