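import Pool.Agent.Lib.MP_95bb8c_al.Whitehead

set_option autoImplicit false

/-!
# One exceptional generator: weighted graphs with two terminals

`E` edges, `V` vertices, endpoints `s e`, `t e` (loops and useless vertices are allowed), `T` the
set of ordinary vertices, `a`, `b` the two terminals, `z` the weights of the edges.
-/

namespace Pool.Agent.Lib.MP_95bb8c_al.OE

open Finset

variable {V E : Type} [Fintype V] [DecidableEq V] [Fintype E] [DecidableEq E]

/-- The weight of the cut of `S`. -/
def cw (s t : E → V) (z : E → ℚ) (S : Finset V) : ℚ := ∑ e ∈ cut s t S, z e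

/-- Essential sets: `T`-odd sets and sets which separate `a` from `b`. -/
def Ess (T : Finset V) (a b : V) (S : Finset V) : Prop :=
  Odd (S ∩ T).card ∨ ¬ (a ∈ S ↔ b ∈ S)

/-- `v` is an ordinary vertex or a terminal. -/
def InU (T : Finset V) (a b : V) (v : V) : Prop := v ∈ T ∨ v = a ∨ v = b

/-- Two different terminals outside `T`, and all endpoints in `T ∪ {a, b}`. -/
structure Frame (s t : E → V) (T : Finset V) (a b : V) : Prop where
  hab : a ≠ b
  ha : a ∉ T
  hb : b ∉ T
  hs : ∀ e, InU T a b (s e)
  ht : ∀ e, InU T a b (t e)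

/-- The cone `K`: all vertices of `T` have degree `c`, the terminals have degree `k`, each
`T`-odd cut has weight at least `c` and each cut which separates `a` from `b` at least `k`. -/
structure KK (s t : E → V) (T : Finset V) (a b : V) (c k : ℚ) (z : E → ℚ) : Prop where
  frame : Frame s t T a b
  nonneg : ∀ e, 0 ≤ z e
  degT : ∀ v ∈ T, cw s t z {v} = c
  dega : cw s t z {a} = k
  degb : cw s t z {b} = k
  odd : ∀ S : Finset V, Odd (S ∩ T).card → c ≤ cw s t z S
  sep : ∀ S : Finset V, a ∈ S → b ∉ S → k ≤ cw s t z S

/-- Natural numbers on the edges as rational weights. -/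
def rat (o : E → ℕ) : E → ℚ := fun e => (o e : ℚ)

/-- Integral objects: weights in `ℕ`, all degrees `2`, all essential cuts at least `2`; tight for
`z`: the support is in the support of `z`, and each essential cut of `z`-weight `c` has
weight `2`. -/
structure TObj (s t : E → V) (T : Finset V) (a b : V) (c : ℚ) (z : E → ℚ) (o : E → ℕ) : Prop where
  supp : ∀ e, z e = 0 → o e = 0
  loop : ∀ e, s e = t e → o e = 0
  deg : ∀ v, InU T a b v → cw s t (rat o) {v} = 2
  ess : ∀ S : Finset V, Ess T a b S → 2 ≤ cw s t (rat o) S
  tight : ∀ S : Finset V, Ess T a b S → cw s t z S = c → cw s t (rat o) S = 2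

/-- The preimage of `S`. -/
def pre (f : V → V) (S : Finset V) : Finset V := univ.filter fun v => f v ∈ S

/-- The edges between `A` and `B` (disjoint sets). -/
def cr (s t : E → V) (A B : Finset V) : Finset E :=
  univ.filter fun e => (s e ∈ A ∧ t e ∈ B) ∨ (s e ∈ B ∧ t e ∈ A)

end Pool.Agent.Lib.MP_95bb8c_al.OE
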