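import Pool.Agent.Lib.MP_95bb8c_al.OE.Cut

set_option autoImplicit false
set_option linter.unusedSectionVars false

/-!
# Edmonds' theorem with useless vertices and loops

PROOF of `edmonds_frame`. If `V0 = {v // v ∈ U}`, `s0 e = ⟨s e, hs e⟩`, `t0 e = ⟨t e, ht e⟩` and
`x0 e = if s e = t e then 0 else x e / c`, then `InQ s0 t0 x0` (file Edmonds.lean):
the cut of `S0 : Finset V0` for `s0, t0` is the cut of its image `S = S0.map (Embedding.subtype _)`
for `s, t`, and `S ∩ U = S`, same cardinality; the sum of `x0` over a cut is `cw s t x S / c`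
(loops are in no cut). `edmonds` gives `Conv s0 t0 x0`: unfold it, restrict the index type to
`{i // w i ≠ 0}` and multiply the weights by `c`; replace `M i` by itself: it contains no loop
since `x0 = 0` there (`mem_supp`). `IsPM` of `s0, t0` gives the degrees.

PROOF of `pmu_odd`. The number of pairs (vertex `v ∈ S ∩ U`, edge `e ∈ M ∩ cut s t {v}`) is
`(S ∩ U).card`, odd. An edge `e ∈ M` (no loop, both ends in `U`) counts once if `e ∈ cut s t S`,
and `0` or `2` times otherwise. So `(M ∩ cut s t S).card` is odd.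

PROOF of `pmu_tight`. `tight_avg` with `y i = indicator of M i`, `m = 1`, `cw_ind`, `pmu_odd`.
-/

namespace Pool.Agent.Lib.MP_95bb8c_al.OE

open Finset

variable {V E : Type} [Fintype V] [DecidableEq V] [Fintype E] [DecidableEq E]
variable {s t : E → V} {U : Finset V} {c : ℚ} {x : E → ℚ}

/-- `M` is a perfect matching of `U`. -/
structure PMU (s t : E → V) (U : Finset V) (M : Finset E) : Prop where
  loop : ∀ e ∈ M, s e ≠ t e
  deg : ∀ v ∈ U, (M ∩ cut s t {v}).card = 1

theorem edf_cut (hs : ∀ e, s e ∈ U) (ht : ∀ e, t e ∈ U) (S0 : Finset {v // v ∈ U}) :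
    cut (fun e => (⟨s e, hs e⟩ : {v // v ∈ U})) (fun e => (⟨t e, ht e⟩ : {v // v ∈ U})) S0 =
      cut s t (S0.map (Function.Embedding.subtype _)) := by
  have h1 : ∀ (v : V) (hv : v ∈ U),
      v ∈ S0.map (Function.Embedding.subtype _) ↔ (⟨v, hv⟩ : {v // v ∈ U}) ∈ S0 := by
    intro v hv
    rw [Finset.mem_map]
    constructor
    · rintro ⟨w, hw, hwv⟩
      have : w = ⟨v, hv⟩ := Subtype.ext hwv
      rw [← this]
      exact hw
    · intro h
      exact ⟨_, h, rfl⟩
  ext e
  rw [mem_cut, mem_cut, h1 _ (hs e), h1 _ (ht e)]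

theorem edf_sum (hc : 0 < c) (S : Finset V) :
    ∑ e ∈ cut s t S, (if s e = t e then 0 else x e / c) = cw s t x S / c := by
  unfold cw
  rw [Finset.sum_div]
  refine Finset.sum_congr rfl fun e he => ?_
  rw [if_neg]
  intro h
  rw [mem_cut, h] at he
  exact he Iff.rfl

theorem edmonds_frame (hc : 0 < c) (hs : ∀ e, s e ∈ U) (ht : ∀ e, t e ∈ U)
    (hx : ∀ e, 0 ≤ x e) (hdeg : ∀ v ∈ U, cw s t x {v} = c)
    (hodd : ∀ S : Finset V, Odd (S ∩ U).card → c ≤ cw s t x S) :
    ∃ (ι : Type) (_ : Fintype ι) (w : ι → ℚ) (M : ι → Finset E), (∀ i, 0 < w i) ∧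
      (∀ i, PMU s t U (M i)) ∧ ∑ i, w i = c ∧
      ∀ e, s e ≠ t e → ∑ i, w i * (if e ∈ M i then 1 else 0) = x e := by
  have hQ : InQ (fun e => (⟨s e, hs e⟩ : {v // v ∈ U})) (fun e => (⟨t e, ht e⟩ : {v // v ∈ U}))
      (fun e => if s e = t e then 0 else x e / c) := by
    refine ⟨fun e => ?_, fun e he => ?_, fun v => ?_, fun S hS => ?_⟩
    · split_ifs
      · exact le_rfl
      · exact div_nonneg (hx e) hc.le
    · exact if_pos (congrArg Subtype.val he)
    · rw [edf_cut hs ht, edf_sum hc, Finset.map_singleton]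
      have h1 := hdeg v.1 v.2
      change cw s t x {v.1} / c = 1
      rw [h1, div_self hc.ne']
    · rw [edf_cut hs ht, edf_sum hc, le_div_iff₀ hc, one_mul]
      apply hodd
      have h1 : S.map (Function.Embedding.subtype _) ∩ U = S.map (Function.Embedding.subtype _) := by
        rw [Finset.inter_eq_left]
        intro v hv
        rw [Finset.mem_map] at hv
        obtain ⟨w, -, rfl⟩ := hv
        exact w.2
      rw [h1, Finset.card_map]
      exact hS
  obtain ⟨ι, hι, w, M, h1, h2, h3, h4⟩ := edmonds _ _ _ _ hQ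
  have hsub : ∀ f : ι → ℚ, (∀ i, w i = 0 → f i = 0) →
      ∑ i : {i // w i ≠ 0}, f i = ∑ i, f i := by
    intro f hf
    rw [← Finset.sum_subtype (univ.filter fun i => w i ≠ 0) (fun i => by simp) f]
    refine Finset.sum_filter_of_ne fun i _ hi h0 => hi (hf i h0)
  refine ⟨{i // w i ≠ 0}, inferInstance, fun i => c * w i, fun i => M i, fun i => ?_, fun i => ?_,
    ?_, fun e he => ?_⟩
  · exact mul_pos hc (lt_of_le_of_ne (h1 i) (Ne.symm i.2))
  · refine ⟨fun e he hst => ?_, fun v hv => ?_⟩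
    · exact mem_supp h1 h4 (if_pos hst) i.2 he
    · have h5 := h2 i i.2 ⟨v, hv⟩
      rw [edf_cut hs ht, Finset.map_singleton] at h5
      exact h5
  · rw [hsub (fun i => c * w i) (fun i hi => by rw [hi, mul_zero]), ← Finset.mul_sum, h3, mul_one]
  · rw [hsub (fun i => c * w i * (if e ∈ M i then 1 else 0)) (fun i hi => by
      rw [hi, mul_zero, zero_mul])]
    have h5 : ∑ i, (if e ∈ M i then w i else 0) = x e / c := (h4 e).trans (if_neg he)
    have h6 : ∀ i ∈ (univ : Finset ι), c * w i * (if e ∈ M i then 1 else 0) =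
        c * (if e ∈ M i then w i else 0) := by
      intro i _
      split_ifs
      · rw [mul_one]
      · rw [mul_zero, mul_zero]
    rw [Finset.sum_congr rfl h6, ← Finset.mul_sum, h5]
    field_simp

theorem pmu_odd (hs : ∀ e, s e ∈ U) (ht : ∀ e, t e ∈ U) {M : Finset E} (hM : PMU s t U M)
    {S : Finset V} (hS : Odd (S ∩ U).card) : Odd (M ∩ cut s t S).card := by
  have h1 : ∑ v ∈ S ∩ U, (M ∩ cut s t {v}).card = (S ∩ U).card := by
    rw [Finset.card_eq_sum_ones]
    refine Finset.sum_congr rfl fun v hv => hM.deg v (Finset.mem_inter.mp hv).2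
  have h2 : ∀ R : Finset E, (M ∩ R).card = ∑ e ∈ M, if e ∈ R then 1 else 0 := by
    intro R
    rw [← Finset.filter_mem_eq_inter, Finset.card_filter]
  have h3 : ∑ v ∈ S ∩ U, (M ∩ cut s t {v}).card =
      ∑ e ∈ M, ((if e ∈ cut s t S then 1 else 0) +
        2 * (if s e ∈ S ∧ t e ∈ S then 1 else 0)) := by
    simp only [h2]
    rw [Finset.sum_comm]
    refine Finset.sum_congr rfl fun e he => ?_
    have hne := hM.loop e he
    have h4 : ∀ v ∈ S ∩ U, (if e ∈ cut s t {v} then 1 else 0) =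
        (if s e = v then 1 else 0) + (if t e = v then 1 else 0) := by
      intro v _
      have h7 : e ∈ cut s t {v} ↔ ¬ (s e = v ↔ t e = v) := mem_cut_singleton
      by_cases h5 : s e = v
      · have h6 : t e ≠ v := fun h6 => hne (h5.trans h6.symm)
        rw [if_pos (h7.mpr (by tauto)), if_pos h5, if_neg h6]
      · by_cases h6 : t e = v
        · rw [if_pos (h7.mpr (by tauto)), if_neg h5, if_pos h6]
        · rw [if_neg (fun h8 => h7.mp h8 (by tauto)), if_neg h5, if_neg h6]
    rw [Finset.sum_congr rfl h4, Finset.sum_add_distrib, Finset.sum_ite_eq, Finset.sum_ite_eq]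
    have h7 : e ∈ cut s t S ↔ ¬ (s e ∈ S ↔ t e ∈ S) := mem_cut
    simp only [Finset.mem_inter, hs e, ht e, and_true]
    by_cases h5 : s e ∈ S <;> by_cases h6 : t e ∈ S <;> simp [h5, h6, h7]
  rw [h3, Finset.sum_add_distrib, ← h2, ← Finset.mul_sum] at h1
  rw [← h1, Nat.odd_add] at hS
  exact hS.mpr (even_two_mul _)

theorem pmu_tight (hs : ∀ e, s e ∈ U) (ht : ∀ e, t e ∈ U) {ι : Type} [Fintype ι] {w : ι → ℚ}
    {M : ι → Finset E} (hw : ∀ i, 0 < w i) (hM : ∀ i, PMU s t U (M i)) (hwc : ∑ i, w i = c)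
    (hx : ∀ e, s e ≠ t e → ∑ i, w i * (if e ∈ M i then 1 else 0) = x e)
    {S : Finset V} (hS : Odd (S ∩ U).card) (hSc : cw s t x S = c) (i : ι) :
    (M i ∩ cut s t S).card = 1 := by
  have h1 := tight_avg (s := s) (t := t) (w := w) (m := 1) (S := S) (x := x)
    (y := fun i e => if e ∈ M i then (1 : ℚ) else 0) hw (fun j => by
      rw [cw_ind]
      exact_mod_cast (pmu_odd hs ht (hM j) hS).pos) hx (by rw [hwc, hSc, mul_one]) i
  rw [cw_ind] at h1
  exact_mod_cast h1

end Pool.Agent.Lib.MP_95bb8c_al.OE
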