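import Pool.Agent.Lib.MP_95bb8c_al.OE.GadDefs

set_option autoImplicit false
set_option linter.unusedSectionVars false

/-!
# Pairs of members of the three laws

The list of cycles comes from the symmetric differences of independent pairs `(C, C')` (weight
`w1 w1`), `(O, O')` (weight `w2 w2`) and `(C, R)` (weight `2 w1 w3`). `fq Λ e f` is the total weight
of the pairs whose symmetric difference contains `e` and `f`.
-/

namespace Pool.Agent.Lib.MP_95bb8c_al.OE

open Finset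

variable {V E : Type} [Fintype V] [DecidableEq V] [Fintype E] [DecidableEq E]
variable {s t : E → V} {T : Finset V} {a b : V} {D d : ℕ} {σ : E → E}

/-- The index type of the pairs. -/
abbrev Kap (Λ : LawW s t T a b D d σ) : Type :=
  (Λ.ι1 × Λ.ι1) ⊕ ((Λ.ι2 × Λ.ι2) ⊕ (Λ.ι1 × Λ.ι3))

/-- The weights of the pairs. -/
def kW (Λ : LawW s t T a b D d σ) : Kap Λ → ℚ :=
  Sum.elim (fun p => Λ.w1 p.1 * Λ.w1 p.2)
    (Sum.elim (fun p => Λ.w2 p.1 * Λ.w2 p.2) (fun p => 2 * (Λ.w1 p.1 * Λ.w3 p.2)))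

/-- The symmetric differences. -/
def kX (Λ : LawW s t T a b D d σ) : Kap Λ → Finset E :=
  Sum.elim (fun p => symmDiff (Λ.C p.1) (Λ.C p.2))
    (Sum.elim (fun p => symmDiff (Λ.O p.1) (Λ.O p.2)) (fun p => symmDiff (Λ.C p.1) (Λ.R p.2)))

/-- The frequency of a pair of edges. -/
def fq (Λ : LawW s t T a b D d σ) (e f : E) : ℚ :=
  ∑ k, kW Λ k * (if e ∈ kX Λ k ∧ f ∈ kX Λ k then 1 else 0)

/-- The frequency of a pair of edges in the joins `R`. -/
def rho (Λ : LawW s t T a b D d σ) (e f : E) : ℚ :=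
  ∑ i, Λ.w3 i * (if e ∈ Λ.R i ∧ f ∈ Λ.R i then 1 else 0)

theorem kW_nonneg (Λ : LawW s t T a b D d σ) (k : Kap Λ) : 0 ≤ kW Λ k := by
  rcases k with p | p | p
  · exact mul_nonneg (Λ.p1 _).le (Λ.p1 _).le
  · exact mul_nonneg (Λ.p2 _).le (Λ.p2 _).le
  · exact mul_nonneg two_pos.le (mul_nonneg (Λ.p1 _).le (Λ.p3 _).le)

end Pool.Agent.Lib.MP_95bb8c_al.OE
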