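import Pool.Agent.Lib.MP_95bb8c_al.OE.Fq

set_option autoImplicit false
set_option linter.unusedSectionVars false

/-!
# The frequency of an edge

PROOF of `fq_same`. `y e = ∑ w1 * [e ∈ C]`, `o e = ∑ w2 * [e ∈ O] = ∑ w3 * [e ∈ R]`, `y e + o e = 1`.
`[e ∈ symmDiff A B] = [e ∈ A] + [e ∈ B] - 2 * [e ∈ A] * [e ∈ B]`. The three parts are
`2 (D - d) y - 2 y ^ 2`, `2 d o - 2 o ^ 2` and `2 (y d + (D - d) o - 2 y o)`; the sum is
`2 D (y + o) - 2 (y + o) ^ 2 = 2 (D - 1)`. (Product sums: `Fintype.sum_prod_type`,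
`Finset.sum_mul_sum`; see `hprod` in the proof of `balanced_law` in Law.lean.)
-/

namespace Pool.Agent.Lib.MP_95bb8c_al.OE

open Finset

variable {V E : Type} [Fintype V] [DecidableEq V] [Fintype E] [DecidableEq E]
variable {s t : E → V} {T : Finset V} {a b : V} {D d : ℕ} {σ : E → E}

/-- The marginals of `C` and of `O`, `R`. -/
def yy (Λ : LawW s t T a b D d σ) (e : E) : ℚ := ∑ i, Λ.w1 i * (if e ∈ Λ.C i then 1 else 0)

/-- The marginals of `O`. -/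
def oo (Λ : LawW s t T a b D d σ) (e : E) : ℚ := ∑ i, Λ.w2 i * (if e ∈ Λ.O i then 1 else 0)

theorem yy_add_oo (Λ : LawW s t T a b D d σ) (e : E) : yy Λ e + oo Λ e = 1 := Λ.mar e

/-- Sums of products over pairs. -/
theorem sum_prod {ι κ : Type} [Fintype ι] [Fintype κ] (w : ι → ℚ) (w' : κ → ℚ) (x : ι → ℚ)
    (y : κ → ℚ) :
    ∑ p : ι × κ, w p.1 * w' p.2 * (x p.1 * y p.2) = (∑ i, w i * x i) * ∑ j, w' j * y j := by
  rw [Fintype.sum_prod_type, Finset.sum_mul_sum]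
  apply Finset.sum_congr rfl
  intro i _
  apply Finset.sum_congr rfl
  intro j _
  ring

/-- The three parts of the frequency. -/
theorem fqsame_split (Λ : LawW s t T a b D d σ) (e f : E) : fq Λ e f =
    (∑ p : Λ.ι1 × Λ.ι1, Λ.w1 p.1 * Λ.w1 p.2 * (if e ∈ symmDiff (Λ.C p.1) (Λ.C p.2) ∧
      f ∈ symmDiff (Λ.C p.1) (Λ.C p.2) then 1 else 0)) +
    ((∑ p : Λ.ι2 × Λ.ι2, Λ.w2 p.1 * Λ.w2 p.2 * (if e ∈ symmDiff (Λ.O p.1) (Λ.O p.2) ∧
      f ∈ symmDiff (Λ.O p.1) (Λ.O p.2) then 1 else 0)) +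
    2 * ∑ p : Λ.ι1 × Λ.ι3, Λ.w1 p.1 * Λ.w3 p.2 * (if e ∈ symmDiff (Λ.C p.1) (Λ.R p.2) ∧
      f ∈ symmDiff (Λ.C p.1) (Λ.R p.2) then 1 else 0)) := by
  unfold fq
  rw [Fintype.sum_sum_type, Fintype.sum_sum_type, Finset.mul_sum]
  refine congrArg₂ (· + ·) rfl (congrArg₂ (· + ·) rfl ?_)
  apply Finset.sum_congr rfl
  intro p _
  simp only [kW, kX, Sum.elim_inr]
  ring_nf

/-- One part, for one edge. -/
theorem fqsame_pair {ι κ : Type} [Fintype ι] [Fintype κ] (w : ι → ℚ) (w' : κ → ℚ)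
    (A : ι → Finset E) (B : κ → Finset E) (e : E) :
    ∑ p : ι × κ, w p.1 * w' p.2 * (if e ∈ symmDiff (A p.1) (B p.2) ∧
      e ∈ symmDiff (A p.1) (B p.2) then (1 : ℚ) else 0) =
    (∑ i, w i * (if e ∈ A i then (1 : ℚ) else 0)) * (∑ j, w' j) +
    (∑ i, w i) * (∑ j, w' j * (if e ∈ B j then (1 : ℚ) else 0)) -
    2 * ((∑ i, w i * (if e ∈ A i then (1 : ℚ) else 0)) *
      (∑ j, w' j * (if e ∈ B j then (1 : ℚ) else 0))) := by
  have h1 : ∀ p : ι × κ, w p.1 * w' p.2 * (if e ∈ symmDiff (A p.1) (B p.2) ∧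
      e ∈ symmDiff (A p.1) (B p.2) then (1 : ℚ) else 0) =
      w p.1 * w' p.2 * ((if e ∈ A p.1 then (1 : ℚ) else 0) * 1) +
      w p.1 * w' p.2 * (1 * (if e ∈ B p.2 then (1 : ℚ) else 0)) -
      2 * (w p.1 * w' p.2 * ((if e ∈ A p.1 then (1 : ℚ) else 0) *
        (if e ∈ B p.2 then (1 : ℚ) else 0))) := by
    intro p
    have hmem : e ∈ symmDiff (A p.1) (B p.2) ↔
        (e ∈ A p.1 ∧ e ∉ B p.2 ∨ e ∈ B p.2 ∧ e ∉ A p.1) := Finset.mem_symmDiff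
    by_cases h1 : e ∈ A p.1 <;> by_cases h2 : e ∈ B p.2 <;> simp [hmem, h1, h2]
    ring
  simp_rw [h1]
  rw [Finset.sum_sub_distrib, Finset.sum_add_distrib, ← Finset.mul_sum]
  rw [sum_prod w w' (fun i => if e ∈ A i then (1 : ℚ) else 0) (fun _ => 1),
    sum_prod w w' (fun _ => 1) (fun i => if e ∈ B i then (1 : ℚ) else 0),
    sum_prod w w' (fun i => if e ∈ A i then (1 : ℚ) else 0)
      (fun i => if e ∈ B i then (1 : ℚ) else 0)]
  simp only [mul_one]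

/-- One part, for two edges no two of which are in the same member. -/
theorem fqsame_pair2 {ι κ : Type} [Fintype ι] [Fintype κ] (w : ι → ℚ) (w' : κ → ℚ)
    (A : ι → Finset E) (B : κ → Finset E) (e f : E) (hA : ∀ i, ¬ (e ∈ A i ∧ f ∈ A i))
    (hB : ∀ j, ¬ (e ∈ B j ∧ f ∈ B j)) :
    ∑ p : ι × κ, w p.1 * w' p.2 * (if e ∈ symmDiff (A p.1) (B p.2) ∧
      f ∈ symmDiff (A p.1) (B p.2) then (1 : ℚ) else 0) =
    (∑ i, w i * (if e ∈ A i then (1 : ℚ) else 0)) *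
      (∑ j, w' j * (if f ∈ B j then (1 : ℚ) else 0)) +
    (∑ i, w i * (if f ∈ A i then (1 : ℚ) else 0)) *
      (∑ j, w' j * (if e ∈ B j then (1 : ℚ) else 0)) := by
  have h1 : ∀ p : ι × κ, w p.1 * w' p.2 * (if e ∈ symmDiff (A p.1) (B p.2) ∧
      f ∈ symmDiff (A p.1) (B p.2) then (1 : ℚ) else 0) =
      w p.1 * w' p.2 * ((if e ∈ A p.1 then (1 : ℚ) else 0) *
        (if f ∈ B p.2 then (1 : ℚ) else 0)) +
      w p.1 * w' p.2 * ((if f ∈ A p.1 then (1 : ℚ) else 0) *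
        (if e ∈ B p.2 then (1 : ℚ) else 0)) := by
    intro p
    rw [← mul_add]
    congr 1
    have ha := hA p.1
    have hb := hB p.2
    have hmem : ∀ g, g ∈ symmDiff (A p.1) (B p.2) ↔
        (g ∈ A p.1 ∧ g ∉ B p.2 ∨ g ∈ B p.2 ∧ g ∉ A p.1) := fun g => Finset.mem_symmDiff
    by_cases h1 : e ∈ A p.1 <;> by_cases h2 : e ∈ B p.2 <;> by_cases h3 : f ∈ A p.1 <;>
      by_cases h4 : f ∈ B p.2 <;> simp_all
  simp_rw [h1]
  rw [Finset.sum_add_distrib, sum_prod w w' (fun i => if e ∈ A i then (1 : ℚ) else 0)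
    (fun i => if f ∈ B i then (1 : ℚ) else 0), sum_prod w w'
    (fun i => if f ∈ A i then (1 : ℚ) else 0) (fun i => if e ∈ B i then (1 : ℚ) else 0)]

/-- Two edges at a vertex where a set has one edge are not both in the set. -/
theorem fqsame_not {v : V} {X : Finset E} (hX : (X ∩ cut s t {v}).card = 1) {e f : E}
    (he : e ∈ cut s t {v}) (hf : f ∈ cut s t {v}) (hef : e ≠ f) : ¬ (e ∈ X ∧ f ∈ X) := by
  rintro ⟨h1, h2⟩
  rw [Finset.card_eq_one] at hX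
  obtain ⟨g, hg⟩ := hX
  have h4 : e ∈ X ∩ cut s t {v} := Finset.mem_inter.mpr ⟨h1, he⟩
  have h5 : f ∈ X ∩ cut s t {v} := Finset.mem_inter.mpr ⟨h2, hf⟩
  rw [hg, Finset.mem_singleton] at h4 h5
  exact hef (h4.trans h5.symm)

theorem fq_same (Λ : LawW s t T a b D d σ) (e : E) : fq Λ e e = 2 * ((D : ℚ) - 1) := by
  rw [fqsame_split, fqsame_pair, fqsame_pair, fqsame_pair, Λ.m1, Λ.m2, Λ.m3, Λ.marR e]
  have h1 : (∑ i, Λ.w1 i * (if e ∈ Λ.C i then (1 : ℚ) else 0)) =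
      1 - ∑ i, Λ.w2 i * (if e ∈ Λ.O i then (1 : ℚ) else 0) := by
    have h2 := Λ.mar e
    linarith
  rw [h1]
  ring

end Pool.Agent.Lib.MP_95bb8c_al.OE
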