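import Pool.Agent.Lib.MP_95bb8c_al.OE.GadDefs

set_option autoImplicit false
set_option linter.unusedSectionVars false

/-!
# The gadget graph: cuts

This is an adaptation of `odd_cut` (Gadget3.lean), where all vertices outside the gadgets had degree `D`; here the gadgets
are those of the vertices outside `TP = insert a (insert b T)`, and `a`, `b` have degree `d`. All
lemmas of Gadget.lean, Gadget2.lean, and `mem_side`, `agree_uncut`, `agree_cut`, `fib_of_mem`,
`uncut_of_mem`, `mem_ext`, `mem_cut_inl`, `ext_of_mem`, `sum_gI_singleton` hold for `TP` without change;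
`dg_cases` is needed for `v ∉ TP` (`dg s t v ∈ {0, 2, 3}`, from `hlow` and `hbr`).
By `sum_cut`, `sum_int`: for `A : Finset (GV s t TP)`,
`cw A = (ext A).card + D * ∑ v, gI D A v`, and `gI ≥ 0`.

PROOF of `gad_cut` (for each `A`: `D ≤ cw A`, or the set `S = side A` has
`cw A ≥ (cut s t S).card`, `Odd (S ∩ T).card ↔ Odd (A ∩ gT).card`, `a ∈ S ↔ gA ∈ A`,
`b ∈ S ↔ gB ∈ A`). As in `odd_cut`: (i) some `v` with `gI D A v ≥ 1`: `cw A ≥ D`. (ii) two different
`v ∉ TP` whose fiber is cut: each `gI = 1 - 1 / D`, `cw A ≥ 2 (D - 1) ≥ D`. (iii) exactly one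
`v ∉ TP` whose fiber is cut, `gI = 1 - 1 / D`: `ext A` is nonempty by `hbr` (the argument of
`odd_cut`), `cw A ≥ 1 + (D - 1)`. (iv) no fiber is cut: `ext A = cut s t (side A)` and
`cw A ≥ (ext A).card`; the parity: each low vertex contributes an even number to
`(A ∩ gT).card` (`fib_card`), each `v ∈ T` contributes `1` iff `v ∈ side A` (`fib_of_mem`), and
`a`, `b` contribute nothing (not in `gT`, not in `T`); `a ∈ side A ↔ gA ∈ A` because the fiber of `a`
is `{gA}`.
-/

namespace Pool.Agent.Lib.MP_95bb8c_al.OE

open Finset

variable {V E : Type} [Fintype V] [DecidableEq V] [Fintype E] [DecidableEq E]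
variable {s t : E → V} {T : Finset V} {a b : V} {D d : ℕ}

omit [Fintype V] [DecidableEq E] in
theorem gadcut_dg (hg : Good2 s t T a b D d) {v : V} (hv : v ∉ TP T a b) :
    dg s t v = 0 ∨ dg s t v = 2 ∨ dg s t v = 3 := by
  have hv' : v ∉ T ∧ v ≠ a ∧ v ≠ b := by
    simp only [TP, Finset.mem_insert, not_or] at hv
    exact ⟨hv.2.2, hv.1, hv.2.1⟩
  have h1 := hg.hlow v hv'.1 hv'.2.1 hv'.2.2
  have h2 := hg.hbr {v}
  unfold dg at *
  omega

theorem gadcut_cw (hl : ∀ e, s e ≠ t e) (hD : 0 < D) (A : Finset (GV s t (TP T a b))) :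
    cw (gs (TP T a b) hl) (gt (TP T a b) hl) (gz s t T a b D) A =
      (ext (TP T a b) hl A).card + D * ∑ v, gI D A v := by
  have hD0 : (D : ℚ) ≠ 0 := by exact_mod_cast hD.ne'
  unfold cw gz
  rw [← Finset.mul_sum, sum_cut, sum_int]
  field_simp

theorem gadcut_mem_side {A : Finset (GV s t T)} {v : V} (hv : v ∈ T) :
    v ∈ side A ↔ (⟨(v, none), Or.inl hv⟩ : GV s t T) ∈ A := by
  rw [mem_side, fib_of_mem hv]
  by_cases h : (⟨(v, none), Or.inl hv⟩ : GV s t T) ∈ A
  · rw [Finset.singleton_inter_of_mem h, Finset.sdiff_eq_empty_iff_subset.mpr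
      (Finset.singleton_subset_iff.mpr h)]
    simp [h]
  · rw [Finset.singleton_inter_of_notMem h]
    simp [h]

theorem gad_cut (hl : ∀ e, s e ≠ t e) (hg : Good2 s t T a b D d)
    (A : Finset (GV s t (TP T a b))) :
    (D : ℚ) ≤ cw (gs (TP T a b) hl) (gt (TP T a b) hl) (gz s t T a b D) A ∨
    ∃ S : Finset V, ((cut s t S).card : ℚ) ≤
        cw (gs (TP T a b) hl) (gt (TP T a b) hl) (gz s t T a b D) A ∧
      (Odd (S ∩ T).card ↔ Odd (A ∩ gT s t T a b).card) ∧ (a ∈ S ↔ gA s t T a b ∈ A) ∧
      (b ∈ S ↔ gB s t T a b ∈ A) := by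
  have hD : 3 ≤ D := by
    have h1 := hg.hd
    have h2 := hg.hdD
    omega
  have hD' : (3 : ℚ) ≤ D := by exact_mod_cast hD
  have hD0 : (0 : ℚ) < D := by linarith
  have hDinv : 1 / (D : ℚ) ≤ 1 / 3 := one_div_le_one_div_of_le (by norm_num) hD'
  have hDD : (D : ℚ) * (1 / D) = 1 := by field_simp
  rw [gadcut_cw hl (by omega)]
  have hext : (0 : ℚ) ≤ (ext (TP T a b) hl A).card := by positivity
  have hnn : ∀ v, 0 ≤ gI D A v := gI_nonneg hD A
  by_cases h1 : ∃ v, 1 ≤ gI D A v
  · left
    obtain ⟨v, hv⟩ := h1
    have h2 := Finset.single_le_sum (f := fun v => gI D A v) (fun v _ => hnn v) (Finset.mem_univ v)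
    have h3 : (D : ℚ) * 1 ≤ D * ∑ v, gI D A v := mul_le_mul_of_nonneg_left (hv.trans h2) hD0.le
    linarith
  push Not at h1
  have hcut : ∀ v, v ∉ TP T a b → (fib s t (TP T a b) v ∩ A).Nonempty →
      (fib s t (TP T a b) v \ A).Nonempty →
      (gI D A v = 1 - 1 / (D : ℚ) ∧ ∃ e, ∃ h : e ∈ cut s t {v},
      ((fib s t (TP T a b) v ∩ A = {pt s t (TP T a b) v e h} ∧
        (fib s t (TP T a b) v ∩ A).card ≤ (fib s t (TP T a b) v \ A).card) ∨
       (fib s t (TP T a b) v \ A = {pt s t (TP T a b) v e h} ∧
          (fib s t (TP T a b) v \ A).card < (fib s t (TP T a b) v ∩ A).card))) := by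
    intro v hv ha hb
    have hd : dg s t v = 2 ∨ dg s t v = 3 := by
      rcases gadcut_dg hg hv with h | h
      · exfalso
        have h2 := fib_card (s := s) (t := t) hv
        have h3 : ¬ Odd 0 := by decide
        rw [h, if_neg h3, Finset.card_eq_zero] at h2
        rw [h2] at ha
        simp at ha
      · exact h
    rcases gI_cases hD hv hd ha hb with h | h
    · exact absurd h (not_le.mpr (h1 v))
    · exact h
  by_cases h2 : ∃ v, v ∉ TP T a b ∧ (fib s t (TP T a b) v ∩ A).Nonempty ∧
      (fib s t (TP T a b) v \ A).Nonempty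
  · left
    obtain ⟨v, hv, ha, hb⟩ := h2
    obtain ⟨hgI, e, he, hc⟩ := hcut v hv ha hb
    by_cases h3 : ∃ u, u ≠ v ∧ u ∉ TP T a b ∧ (fib s t (TP T a b) u ∩ A).Nonempty ∧
        (fib s t (TP T a b) u \ A).Nonempty
    · obtain ⟨u, huv, hu, ha', hb'⟩ := h3
      obtain ⟨hgI', -⟩ := hcut u hu ha' hb'
      have h4 : gI D A v + gI D A u ≤ ∑ v, gI D A v := by
        rw [← Finset.sum_pair huv.symm]
        exact Finset.sum_le_sum_of_subset_of_nonneg (Finset.subset_univ _) (fun v _ _ => hnn v)
      rw [hgI, hgI'] at h4
      have h5 : (D : ℚ) * 1 ≤ D * ∑ v, gI D A v := mul_le_mul_of_nonneg_left (by linarith) hD0.le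
      linarith
    · have h4 : gI D A v ≤ ∑ v, gI D A v :=
        Finset.single_le_sum (f := fun v => gI D A v) (fun v _ => hnn v) (Finset.mem_univ v)
      have hne : (ext (TP T a b) hl A).Nonempty := by
        rw [Finset.nonempty_iff_ne_empty]
        intro hemp
        have hun : ∀ u, u ≠ v → fib s t (TP T a b) u ∩ A = ∅ ∨ fib s t (TP T a b) u \ A = ∅ := by
          intro u hu
          by_cases huT : u ∈ TP T a b
          · exact uncut_of_mem huT A
          · by_contra h5
            push Not at h5
            exact h3 ⟨u, hu, huT, h5.1, h5.2⟩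
        have hagree : ∀ u f (h : f ∈ cut s t {u}), u ≠ v ∨ f ≠ e →
            (pt s t (TP T a b) u f h ∈ A ↔ u ∈ side A) := by
          intro u f h huf
          by_cases huv : u = v
          · subst huv
            rw [agree_cut hv he h hc]
            have : ¬ f = e := by
              rcases huf with h' | h'
              · exact absurd rfl h'
              · exact h'
            tauto
          · exact agree_uncut h (hun u huv)
        have hflip : ∀ h, pt s t (TP T a b) v e h ∈ A ↔ ¬ v ∈ side A := by
          intro h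
          rw [agree_cut hv he h hc]
          tauto
        refine hg.hbr (side A) ?_
        rw [Finset.card_eq_one]
        refine ⟨e, ?_⟩
        ext f
        rw [Finset.mem_singleton, mem_cut]
        have hf : ¬ (f ∈ ext (TP T a b) hl A) := by rw [hemp]; simp
        rw [mem_ext, not_not] at hf
        by_cases hfe : f = e
        · subst hfe
          refine ⟨fun _ => rfl, fun _ => ?_⟩
          rcases end_of_mem (hl := hl) he with ⟨h5, h6⟩ | ⟨h5, h6⟩
          · have h7 := hagree (t f) f (mem_cut_t (hl f)) (Or.inl h6)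
            have h8 : pt s t (TP T a b) (s f) f (mem_cut_s (hl f)) ∈ A ↔ ¬ s f ∈ side A := by
              have : ∀ x (hx : f ∈ cut s t {x}), x = v →
                  (pt s t (TP T a b) x f hx ∈ A ↔ ¬ x ∈ side A) := by
                rintro x hx rfl
                exact hflip hx
              exact this _ _ h5
            tauto
          · have h7 := hagree (s f) f (mem_cut_s (hl f)) (Or.inl h6)
            have h8 : pt s t (TP T a b) (t f) f (mem_cut_t (hl f)) ∈ A ↔ ¬ t f ∈ side A := by
              have : ∀ x (hx : f ∈ cut s t {x}), x = v →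
                  (pt s t (TP T a b) x f hx ∈ A ↔ ¬ x ∈ side A) := by
                rintro x hx rfl
                exact hflip hx
              exact this _ _ h5
            tauto
        · have h7 := hagree (s f) f (mem_cut_s (hl f)) (Or.inr hfe)
          have h8 := hagree (t f) f (mem_cut_t (hl f)) (Or.inr hfe)
          constructor
          · intro h9
            exact absurd (h7.symm.trans (hf.trans h8)) h9
          · intro h9
            exact absurd h9 hfe
      have h5 : (1 : ℚ) ≤ (ext (TP T a b) hl A).card := by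
        exact_mod_cast Finset.card_pos.mpr hne
      rw [hgI] at h4
      have h6 : (D : ℚ) * (1 - 1 / D) ≤ D * ∑ v, gI D A v := mul_le_mul_of_nonneg_left h4 hD0.le
      rw [mul_sub, hDD, mul_one] at h6
      linarith
  · right
    have hun : ∀ u, fib s t (TP T a b) u ∩ A = ∅ ∨ fib s t (TP T a b) u \ A = ∅ := by
      intro u
      by_cases huT : u ∈ TP T a b
      · exact uncut_of_mem huT A
      · by_contra h5
        push Not at h5
        exact h2 ⟨u, huT, h5.1, h5.2⟩
    have hex : ext (TP T a b) hl A = cut s t (side A) := by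
      ext f
      rw [mem_ext, mem_cut, agree_uncut _ (hun _), agree_uncut _ (hun _)]
    refine ⟨side A, ?_, ?_, ?_, ?_⟩
    · rw [← hex]
      have h5 : 0 ≤ ∑ v, gI D A v := Finset.sum_nonneg (fun v _ => hnn v)
      have h6 : 0 ≤ (D : ℚ) * ∑ v, gI D A v := mul_nonneg hD0.le h5
      linarith
    · have h3 : (A ∩ gT s t T a b).card =
          ∑ v, if v ≠ a ∧ v ≠ b then (fib s t (TP T a b) v ∩ A).card else 0 := by
        rw [Finset.card_eq_sum_card_fiberwise (f := fun p => p.1.1) (t := univ)
          (fun _ _ => Finset.mem_coe.mpr (Finset.mem_univ _))]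
        apply Finset.sum_congr rfl
        intro v _
        by_cases hv : v ≠ a ∧ v ≠ b
        · rw [if_pos hv]
          congr 1
          ext p
          simp only [gT, Finset.mem_filter, Finset.mem_inter, mem_fib, Finset.mem_univ, true_and]
          constructor
          · rintro ⟨⟨h4, -⟩, h5⟩
            exact ⟨h5, h4⟩
          · rintro ⟨h4, h5⟩
            exact ⟨⟨h5, by rw [h4]; exact hv.1, by rw [h4]; exact hv.2⟩, h4⟩
        · rw [if_neg hv, Finset.card_eq_zero, Finset.filter_eq_empty_iff]
          intro p hp hpv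
          simp only [gT, Finset.mem_filter, Finset.mem_inter, Finset.mem_univ, true_and] at hp
          rw [hpv] at hp
          exact hv hp.2
      have h4 : (side A ∩ T).card = ∑ v, if v ∈ side A ∩ T then 1 else 0 := by
        rw [Finset.sum_boole, Finset.filter_mem_eq_inter, Finset.univ_inter]
        rfl
      have h5 : Even ((A ∩ gT s t T a b).card + (side A ∩ T).card) := by
        rw [h3, h4, ← Finset.sum_add_distrib]
        apply Finset.even_sum
        intro v _
        by_cases hv : v ∈ T
        · have hva : v ≠ a := fun h => hg.ha (h ▸ hv)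
          have hvb : v ≠ b := fun h => hg.hb (h ▸ hv)
          have hvP : v ∈ TP T a b := Finset.mem_insert_of_mem (Finset.mem_insert_of_mem hv)
          rw [if_pos ⟨hva, hvb⟩]
          by_cases hs : v ∈ side A
          · rw [if_pos (Finset.mem_inter.mpr ⟨hs, hv⟩)]
            have h6 : (fib s t (TP T a b) v ∩ A).card = 1 := by
              rw [gadcut_mem_side hvP] at hs
              rw [fib_of_mem hvP, Finset.singleton_inter_of_mem hs, Finset.card_singleton]
            rw [h6]
            decide
          · rw [if_neg (fun h => hs (Finset.mem_inter.mp h).1)]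
            have h6 : (fib s t (TP T a b) v ∩ A).card = 0 := by
              rw [gadcut_mem_side hvP] at hs
              rw [fib_of_mem hvP, Finset.singleton_inter_of_notMem hs, Finset.card_empty]
            rw [h6]
            decide
        · rw [if_neg (fun h => hv (Finset.mem_inter.mp h).2)]
          by_cases hab : v ≠ a ∧ v ≠ b
          · rw [if_pos hab]
            have hvP : v ∉ TP T a b := by
              simp only [TP, Finset.mem_insert, not_or]
              exact ⟨hab.1, hab.2, hv⟩
            rcases hun v with h | h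
            · rw [h]; simp
            · have h7 : (fib s t (TP T a b) v ∩ A).card = (fib s t (TP T a b) v).card := by
                have := Finset.card_inter_add_card_sdiff (fib s t (TP T a b) v) A
                rw [h] at this
                simpa using this
              rw [h7, fib_card hvP, add_zero]
              by_cases ho : Odd (dg s t v)
              · rw [if_pos ho]
                exact Odd.add_odd ho odd_one
              · rw [if_neg ho, add_zero]
                exact Nat.not_odd_iff_even.mp ho
          · rw [if_neg hab]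
            decide
      rw [Nat.even_add] at h5
      rw [← Nat.not_even_iff_odd, ← Nat.not_even_iff_odd]
      tauto
    · exact gadcut_mem_side (Finset.mem_insert_self _ _)
    · exact gadcut_mem_side (Finset.mem_insert_of_mem (Finset.mem_insert_self _ _))

end Pool.Agent.Lib.MP_95bb8c_al.OE
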