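import Pool.Agent.Lib.MP_95bb8c_al.OE.Main3

set_option autoImplicit false
set_option linter.unusedSectionVars false

/-!
# The gadget graph with two exceptional vertices: definitions
-/

namespace Pool.Agent.Lib.MP_95bb8c_al.OE

open Finset

variable {V E : Type} [Fintype V] [DecidableEq V] [Fintype E] [DecidableEq E]

/-- The hypotheses on the multigraph: `T` are the vertices of degree `D`, `a`, `b` the two
exceptional vertices of degree `d`, all other vertices have degree at most `3`. -/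
structure Good2 (s t : E → V) (T : Finset V) (a b : V) (D d : ℕ) : Prop where
  hab : a ≠ b
  ha : a ∉ T
  hb : b ∉ T
  hd : 4 ≤ d
  hdD : d < D
  hT : ∀ v ∈ T, dg s t v = D
  hda : dg s t a = d
  hdb : dg s t b = d
  hlow : ∀ v, v ∉ T → v ≠ a → v ≠ b → dg s t v ≤ 3
  hodd : ∀ S : Finset V, Odd (S ∩ T).card → D ≤ (cut s t S).card
  hsep : ∀ S : Finset V, a ∈ S → b ∉ S → d ≤ (cut s t S).card
  hbr : ∀ S : Finset V, (cut s t S).card ≠ 1

/-- The vertices which are not replaced by a gadget. -/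
abbrev TP (T : Finset V) (a b : V) : Finset V := insert a (insert b T)

variable (s t : E → V) (T : Finset V) (a b : V)

/-- The terminal `a` of the gadget graph. -/
def gA : GV s t (TP T a b) := ⟨(a, none), Or.inl (Finset.mem_insert_self _ _)⟩

/-- The terminal `b` of the gadget graph. -/
def gB : GV s t (TP T a b) :=
  ⟨(b, none), Or.inl (Finset.mem_insert_of_mem (Finset.mem_insert_self _ _))⟩

/-- The ordinary vertices of the gadget graph. -/
noncomputable def gT : Finset (GV s t (TP T a b)) := univ.filter fun p => p.1.1 ≠ a ∧ p.1.1 ≠ b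

/-- The weights of the gadget graph: `1` on the old edges. -/
noncomputable def gz (D : ℕ) (x : E ⊕ (GV s t (TP T a b) × GV s t (TP T a b))) : ℚ :=
  (D : ℚ) * gx (TP T a b) D x

/-- A map of the old edges, extended to the gadget graph. -/
def gσ (σ : E → E) : E ⊕ (GV s t (TP T a b) × GV s t (TP T a b)) →
    E ⊕ (GV s t (TP T a b) × GV s t (TP T a b)) := Sum.elim (fun e => Sum.inl (σ e)) Sum.inr

/-- The laws for the multigraph itself (all weights `1`): `C`, `O`, `R` have one edge at each vertex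
of `T` and an even number of edges at each low vertex; `C` has no edge at `a`, `b`, `O` has one, `R`
has none or two. -/
structure LawW (s t : E → V) (T : Finset V) (a b : V) (D d : ℕ) (σ : E → E) where
  ι1 : Type
  ι2 : Type
  ι3 : Type
  f1 : Fintype ι1
  f2 : Fintype ι2
  f3 : Fintype ι3
  w1 : ι1 → ℚ
  w2 : ι2 → ℚ
  w3 : ι3 → ℚ
  C : ι1 → Finset E
  O : ι2 → Finset E
  R : ι3 → Finset E
  p1 : ∀ i, 0 < w1 i
  p2 : ∀ i, 0 < w2 i
  p3 : ∀ i, 0 < w3 i
  m1 : ∑ i, w1 i = (D : ℚ) - d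
  m2 : ∑ i, w2 i = d
  m3 : ∑ i, w3 i = d
  tC : ∀ i, ∀ v ∈ T, (C i ∩ cut s t {v}).card = 1
  tO : ∀ i, ∀ v ∈ T, (O i ∩ cut s t {v}).card = 1
  tR : ∀ i, ∀ v ∈ T, (R i ∩ cut s t {v}).card = 1
  lC : ∀ i, ∀ v, v ∉ T → v ≠ a → v ≠ b → Even (C i ∩ cut s t {v}).card
  lO : ∀ i, ∀ v, v ∉ T → v ≠ a → v ≠ b → Even (O i ∩ cut s t {v}).card
  lR : ∀ i, ∀ v, v ∉ T → v ≠ a → v ≠ b → Even (R i ∩ cut s t {v}).card
  aC : ∀ i, ∀ v, v = a ∨ v = b → (C i ∩ cut s t {v}).card = 0
  aO : ∀ i, ∀ v, v = a ∨ v = b → (O i ∩ cut s t {v}).card = 1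
  aR : ∀ i, ∀ v, v = a ∨ v = b → (R i ∩ cut s t {v}).card = 0 ∨ (R i ∩ cut s t {v}).card = 2
  mar : ∀ e, ∑ i, w1 i * (if e ∈ C i then 1 else 0) + ∑ i, w2 i * (if e ∈ O i then 1 else 0) = 1
  marR : ∀ e, ∑ i, w3 i * (if e ∈ R i then 1 else 0) = ∑ i, w2 i * (if e ∈ O i then 1 else 0)
  bal : ∀ e ∈ cut s t {b}, ∀ f ∈ cut s t {b}, e ≠ f →
    ∑ i, w3 i * (if e ∈ R i ∧ f ∈ R i then 1 else 0) =
      ∑ i, w3 i * (if σ e ∈ R i ∧ σ f ∈ R i then 1 else 0)

attribute [instance] LawW.f1 LawW.f2 LawW.f3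

end Pool.Agent.Lib.MP_95bb8c_al.OE
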