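import Pool.Agent.Lib.MP_95bb8c_al.OE.GadDefs

set_option autoImplicit false
set_option linter.unusedSectionVars false

/-!
# The gadget graph: degrees

This is an adaptation of `deg_one` (Joins.lean), where all vertices outside the gadgets had degree `D`; here the gadgets
are those of the vertices outside `TP = insert a (insert b T)`, and `a`, `b` have degree `d`. All
lemmas of Gadget.lean, Gadget2.lean, and `mem_side`, `agree_uncut`, `agree_cut`, `fib_of_mem`,
`uncut_of_mem`, `mem_ext`, `mem_cut_inl`, `ext_of_mem`, `sum_gI_singleton` hold for `TP` without change;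
`dg_cases` is needed for `v ∉ TP` (`dg s t v ∈ {0, 2, 3}`, from `hlow` and `hbr`).
By `sum_cut`, `sum_int`: for `A : Finset (GV s t TP)`,
`cw A = (ext A).card + D * ∑ v, gI D A v`, and `gI ≥ 0`.

PROOF of `gad_deg`. `D` times `deg_one`: copy the proof of `deg_one` for `p.1.1 ∈ T` and for low vertices
(it does not use `a`, `b`; only `dg_cases` for low `v` and `dg s t v = D` for `v ∈ T`).
PROOF of `gad_degA`, `gad_degB`: `ext_of_mem`, `gI_eq_zero_of_mem`: `(ext {gA}).card = dg s t a = d`.
PROOF of `gad_frame`: `gA ≠ gB` because `a ≠ b`; each vertex `p` with `p.1.1 = a` is `gA`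
(`fib_of_mem` for `TP`), the same for `b`, all others are in `gT`.
-/

namespace Pool.Agent.Lib.MP_95bb8c_al.OE

open Finset

variable {V E : Type} [Fintype V] [DecidableEq V] [Fintype E] [DecidableEq E]
variable {s t : E → V} {T : Finset V} {a b : V} {D d : ℕ}

/-- Ports of gadgets have degree one (as in `deg_one`). -/
theorem gaddeg_low {P : Finset V} {D : ℕ} (hD : 3 ≤ D) (hl : ∀ e, s e ≠ t e) (p : GV s t P)
    (hv : p.1.1 ∉ P) (hdg3 : dg s t p.1.1 = 0 ∨ dg s t p.1.1 = 2 ∨ dg s t p.1.1 = 3) :
    (ext P hl {p}).card / (D : ℚ) + gI D {p} p.1.1 = 1 := by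
  have hD' : (3 : ℚ) ≤ D := by exact_mod_cast hD
  have hD0 : (0 : ℚ) < D := by linarith
  have hpf : p ∈ fib s t P p.1.1 := mem_fib.mpr rfl
  have hi : fib s t P p.1.1 ∩ {p} = {p} := Finset.inter_singleton_of_mem hpf
  have hcard := Finset.card_inter_add_card_sdiff (fib s t P p.1.1) {p}
  rw [hi, Finset.card_singleton, fib_card hv] at hcard
  rcases hp : p.1.2 with _ | e
  · have hodd : Odd (dg s t p.1.1) := by
      have := p.2
      unfold GP at this
      rw [hp] at this
      rcases this with h | h
      · exact absurd h hv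
      · exact h
    have h3 : dg s t p.1.1 = 3 := by
      rcases hdg3 with h | h | h
      · rw [h] at hodd; exact absurd hodd (by decide)
      · rw [h] at hodd; exact absurd hodd (by decide)
      · exact h
    have hne : dg s t p.1.1 ≠ 2 := by omega
    rw [if_pos hodd, h3] at hcard
    have hc3 : (fib s t P p.1.1 \ {p}).card = 3 := by omega
    have hn1 : (({p} : Finset (GV s t P)).filter fun p => p.1.2 = none).card = 1 := by
      rw [Finset.filter_singleton, if_pos hp, Finset.card_singleton]
    have hn2 : ((fib s t P p.1.1 \ {p}).filter fun p => p.1.2 = none).card = 0 := by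
      have h4 := none_card (T := P) h3
      rw [Finset.card_eq_one] at h4
      obtain ⟨q, hq⟩ := h4
      have hpq : p = q := by
        have : p ∈ (fib s t P p.1.1).filter fun p => p.1.2 = none :=
          Finset.mem_filter.mpr ⟨hpf, hp⟩
        rw [hq] at this
        exact Finset.mem_singleton.mp this
      rw [Finset.card_eq_zero, Finset.filter_eq_empty_iff]
      intro x hx hx2
      rw [Finset.mem_sdiff, Finset.mem_singleton] at hx
      have : x ∈ (fib s t P p.1.1).filter fun p => p.1.2 = none :=
        Finset.mem_filter.mpr ⟨hx.1, hx2⟩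
      rw [hq, Finset.mem_singleton, ← hpq] at this
      exact hx.2 this
    have hext : ext P hl {p} = ∅ := by
      rw [Finset.eq_empty_iff_forall_notMem]
      intro f hf
      rw [mem_ext, Finset.mem_singleton, Finset.mem_singleton] at hf
      have h5 : ∀ u (h : f ∈ cut s t {u}), pt s t P u f h ≠ p := by
        intro u h h6
        have h7 : u = p.1.1 := by rw [← h6, pt_fst]
        subst h7
        rw [pt_of_not_mem hv] at h6
        have := congrArg (fun p : GV s t P => p.1.2) h6
        simp [hp] at this
      exact hf (iff_of_false (h5 _ _) (h5 _ _))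
    rw [gI_three hv hne, hext, hi, hc3, hn1, hn2, Finset.card_empty, Finset.card_singleton]
    push_cast
    field_simp
    ring
  · have he : e ∈ cut s t {p.1.1} := by
      have := p.2
      unfold GP at this
      rw [hp] at this
      exact this.2
    have hpe : p = pt s t P p.1.1 e he := by
      rw [pt_of_not_mem hv]
      exact Subtype.ext (Prod.ext rfl hp)
    have hext : ext P hl {p} = {e} := by
      ext f
      rw [mem_ext, Finset.mem_singleton, Finset.mem_singleton, Finset.mem_singleton]
      have h5 : ∀ u (h : f ∈ cut s t {u}), pt s t P u f h = p ↔ (u = p.1.1 ∧ f = e) := by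
        intro u h
        constructor
        · intro h6
          have h7 : u = p.1.1 := by rw [← h6, pt_fst]
          subst h7
          refine ⟨rfl, ?_⟩
          have h8 := h6.trans hpe
          exact pt_inj hv h8
        · rintro ⟨rfl, rfl⟩
          exact hpe.symm
      rw [h5, h5]
      constructor
      · intro h6
        by_contra h7
        exact h6 (iff_of_false (fun h => h7 h.2) (fun h => h7 h.2))
      · rintro rfl
        rcases end_of_mem (hl := hl) he with ⟨h8, h9⟩ | ⟨h8, h9⟩
        · intro h6
          exact h9 (h6.mp ⟨h8, rfl⟩).1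
        · intro h6
          exact h9 (h6.mpr ⟨h8, rfl⟩).1
    have hdg : dg s t p.1.1 ≠ 0 := by
      unfold dg
      exact (Finset.card_pos.mpr ⟨e, he⟩).ne'
    rcases hdg3 with h | h2 | h3
    · exact absurd h hdg
    · have hodd : ¬ Odd 2 := by decide
      rw [h2, if_neg hodd] at hcard
      have hc : (fib s t P p.1.1 \ {p}).card = 1 := by omega
      rw [gI_two hv h2, hext, hi, hc, Finset.card_singleton, Finset.card_singleton]
      push_cast
      field_simp
      ring
    · have hodd : Odd 3 := by decide
      have hne : dg s t p.1.1 ≠ 2 := by omega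
      rw [h3, if_pos hodd] at hcard
      have hc3 : (fib s t P p.1.1 \ {p}).card = 3 := by omega
      have hn1 : (({p} : Finset (GV s t P)).filter fun p => p.1.2 = none).card = 0 := by
        rw [Finset.filter_singleton, if_neg (by rw [hp]; simp), Finset.card_empty]
      have hn2 : ((fib s t P p.1.1 \ {p}).filter fun p => p.1.2 = none).card = 1 := by
        rw [← none_card (T := P) h3]
        congr 1
        ext x
        rw [Finset.mem_filter, Finset.mem_filter, Finset.mem_sdiff, Finset.mem_singleton]
        constructor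
        · rintro ⟨⟨h4, -⟩, h5⟩
          exact ⟨h4, h5⟩
        · rintro ⟨h4, h5⟩
          refine ⟨⟨h4, ?_⟩, h5⟩
          rintro rfl
          rw [hp] at h5
          simp at h5
      rw [gI_three hv hne, hext, hi, hc3, hn1, hn2, Finset.card_singleton,
        Finset.card_singleton]
      push_cast
      field_simp
      ring

theorem gaddeg_cw (hl : ∀ e, s e ≠ t e) (hD : 0 < D) (p : GV s t (TP T a b)) :
    cw (gs (TP T a b) hl) (gt (TP T a b) hl) (gz s t T a b D) {p} =
      (ext (TP T a b) hl {p}).card + D * gI D {p} p.1.1 := by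
  have hD0 : (D : ℚ) ≠ 0 := by exact_mod_cast hD.ne'
  unfold cw gz
  rw [← Finset.mul_sum, sum_cut, sum_int, sum_gI_singleton]
  field_simp

theorem gaddeg_mem (hl : ∀ e, s e ≠ t e) (hD : 0 < D) {v : V} (hv : v ∈ TP T a b) :
    cw (gs (TP T a b) hl) (gt (TP T a b) hl) (gz s t T a b D) {⟨(v, none), Or.inl hv⟩} =
      dg s t v := by
  rw [gaddeg_cw hl hD, gI_eq_zero_of_mem hv, ext_of_mem hv, mul_zero, add_zero]
  rfl

omit [Fintype V] [DecidableEq E] in
theorem gaddeg_pos (hg : Good2 s t T a b D d) : 3 ≤ D := by
  have h1 := hg.hd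
  have h2 := hg.hdD
  omega

theorem gad_deg (hl : ∀ e, s e ≠ t e) (hg : Good2 s t T a b D d)
    (p : GV s t (TP T a b)) (hp : p ∈ gT s t T a b) :
    cw (gs (TP T a b) hl) (gt (TP T a b) hl) (gz s t T a b D) {p} = D := by
  have hD := gaddeg_pos hg
  have hD0 : (D : ℚ) ≠ 0 := by exact_mod_cast (show D ≠ 0 by omega)
  simp only [gT, Finset.mem_filter, Finset.mem_univ, true_and] at hp
  by_cases hv : p.1.1 ∈ TP T a b
  · have hp' : p = ⟨(p.1.1, none), Or.inl hv⟩ := by
      have := mem_fib.mpr (rfl : p.1.1 = p.1.1)
      rw [fib_of_mem hv, Finset.mem_singleton] at this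
      exact this
    rw [hp', gaddeg_mem hl (by omega) hv]
    have hT : p.1.1 ∈ T := by
      simp only [TP, Finset.mem_insert] at hv
      rcases hv with h | h | h
      · exact absurd h hp.1
      · exact absurd h hp.2
      · exact h
    rw [hg.hT _ hT]
  · have hdg : dg s t p.1.1 = 0 ∨ dg s t p.1.1 = 2 ∨ dg s t p.1.1 = 3 := by
      have hv' : p.1.1 ∉ T := fun h => hv (Finset.mem_insert_of_mem (Finset.mem_insert_of_mem h))
      have h1 := hg.hlow _ hv' hp.1 hp.2
      have h2 := hg.hbr {p.1.1}
      unfold dg at *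
      omega
    have h1 := gaddeg_low hD hl p hv hdg
    rw [gaddeg_cw hl (by omega)]
    have h2 : (D : ℚ) * ((ext (TP T a b) hl {p}).card / (D : ℚ) + gI D {p} p.1.1) = D * 1 := by
      rw [h1]
    rw [mul_add, mul_div_cancel₀ _ hD0, mul_one] at h2
    exact h2

theorem gad_degA (hl : ∀ e, s e ≠ t e) (hg : Good2 s t T a b D d) :
    cw (gs (TP T a b) hl) (gt (TP T a b) hl) (gz s t T a b D) {gA s t T a b} = d := by
  have hD := gaddeg_pos hg
  refine (gaddeg_mem (D := D) hl (by omega) (Finset.mem_insert_self a (insert b T))).trans ?_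
  exact_mod_cast hg.hda

theorem gad_degB (hl : ∀ e, s e ≠ t e) (hg : Good2 s t T a b D d) :
    cw (gs (TP T a b) hl) (gt (TP T a b) hl) (gz s t T a b D) {gB s t T a b} = d := by
  have hD := gaddeg_pos hg
  refine (gaddeg_mem (D := D) hl (by omega)
    (Finset.mem_insert_of_mem (Finset.mem_insert_self b T) : b ∈ TP T a b)).trans ?_
  exact_mod_cast hg.hdb

theorem gaddeg_inU (p : GV s t (TP T a b)) :
    InU (gT s t T a b) (gA s t T a b) (gB s t T a b) p := by
  unfold InU
  by_cases h1 : p.1.1 = a
  · right; left
    have hv : p.1.1 ∈ TP T a b := by rw [h1]; exact Finset.mem_insert_self _ _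
    have := mem_fib.mpr (rfl : p.1.1 = p.1.1)
    rw [fib_of_mem hv, Finset.mem_singleton] at this
    rw [this]
    apply Subtype.ext
    exact Prod.ext h1 rfl
  · by_cases h2 : p.1.1 = b
    · right; right
      have hv : p.1.1 ∈ TP T a b := by
        rw [h2]; exact Finset.mem_insert_of_mem (Finset.mem_insert_self _ _)
      have := mem_fib.mpr (rfl : p.1.1 = p.1.1)
      rw [fib_of_mem hv, Finset.mem_singleton] at this
      rw [this]
      apply Subtype.ext
      exact Prod.ext h2 rfl
    · left
      simp only [gT, Finset.mem_filter, Finset.mem_univ, true_and]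
      exact ⟨h1, h2⟩

theorem gad_frame (hl : ∀ e, s e ≠ t e) (hg : Good2 s t T a b D d) :
    Frame (gs (TP T a b) hl) (gt (TP T a b) hl) (gT s t T a b) (gA s t T a b)
      (gB s t T a b) := by
  refine ⟨?_, ?_, ?_, fun e => gaddeg_inU _, fun e => gaddeg_inU _⟩
  · intro h
    have := congrArg (fun p : GV s t (TP T a b) => p.1.1) h
    exact hg.hab this
  · simp [gT, gA]
  · simp [gT, gB]

end Pool.Agent.Lib.MP_95bb8c_al.OE
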