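import Pool.Agent.Lib.MP_95bb8c_al.OE.GadCut
import Pool.Agent.Lib.MP_95bb8c_al.OE.GadDeg

set_option autoImplicit false
set_option linter.unusedSectionVars false

/-!
# The gadget graph is in the cone
-/

namespace Pool.Agent.Lib.MP_95bb8c_al.OE

open Finset

variable {V E : Type} [Fintype V] [DecidableEq V] [Fintype E] [DecidableEq E]
variable {s t : E → V} {T : Finset V} {a b : V} {D d : ℕ}

theorem gad_KK (hl : ∀ e, s e ≠ t e) (hg : Good2 s t T a b D d) :
    KK (gs (TP T a b) hl) (gt (TP T a b) hl) (gT s t T a b) (gA s t T a b) (gB s t T a b)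
      (D : ℚ) (d : ℚ) (gz s t T a b D) := by
  have hD3 : 3 ≤ D := by
    have h1 := hg.hd
    have h2 := hg.hdD
    omega
  refine ⟨gad_frame hl hg, ?_, fun p hp => gad_deg hl hg p hp, gad_degA hl hg, gad_degB hl hg,
    ?_, ?_⟩
  · rintro (e | ⟨p, q⟩)
    · show 0 ≤ (D : ℚ) * (1 / (D : ℚ))
      positivity
    · show 0 ≤ (D : ℚ) * (gb (TP T a b) D p q / 2)
      have := gb_nonneg hD3 p q
      positivity
  · intro A hA
    rcases gad_cut hl hg A with h | ⟨S, h1, h2, -, -⟩
    · exact h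
    · refine le_trans ?_ h1
      exact_mod_cast hg.hodd S (h2.mpr hA)
  · intro A hA hB
    rcases gad_cut hl hg A with h | ⟨S, h1, -, h3, h4⟩
    · refine le_trans ?_ h
      exact_mod_cast hg.hdD.le
    · refine le_trans ?_ h1
      exact_mod_cast hg.hsep S (h3.mpr hA) (fun h5 => hB (h4.mp h5))

end Pool.Agent.Lib.MP_95bb8c_al.OE
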