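import Pool.Agent.Lib.MP_95bb8c_al.OE.GlueDefs

set_option autoImplicit false
set_option linter.unusedSectionVars false

/-!
# Cuts of the glued graph which live on one side

PROOF of `cw_leftside`. (`S` has no vertex of the second graph.) Let
`S1 = S.toLeft.erase b1`. For an edge `f` of `E2'`: both ends are `inr`, not in `S`: not in the
cut. For `e : E1` (`s1 e ≠ t1 e`, so at most one end is `b1`): `glS e ∈ S` iff `s1 e ∈ S1` (if
`s1 e = b1` then both are false; else `inl (s1 e) ∈ S` iff `s1 e ∈ S.toLeft`, `s1 e ≠ b1`), the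
same for `glT`. So `inl e` is in the cut of `S` iff `e` is in the cut of `S1`.

PROOF of `cw_rightside`. (`S` contains all vertices `inl v`.) Let `S2 = insert a2 S.toRight`. For
`f : E2'` (not at `a2`: `s2 f = a2 ↔ t2 f = a2`, and there is no loop, so both ends are `≠ a2`):
`inr f` is in the cut of `S` iff `f` is in the cut of `S2`. For `e : E1`: if `e` is not at
`b1` both ends are in `S`: not in the cut. If `e` is at `b1`, one end is `inl _ ∈ S` and the other
one is `inr (far s2 t2 a2 (β e))`, so `inl e` is in the cut iff `inr (far (β e)) ∉ S`, iff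
`far (β e) ∉ S2` (`far (β e) ≠ a2` as `β e` is no loop), iff `β e` is in the cut of `S2` (its other
end `a2` is in `S2`). So the cut of `S` corresponds to the cut of `S2` by
`inr f ↦ f`, `inl e ↦ β e` (bijection onto the edges at `a2`, inverse `τ`). The general
vector version is used for `z` and for integral vectors: `x2 (β e) = x (inl e)` for `e` at `b1` and
`x2 f = x (inr f)`.
-/

namespace Pool.Agent.Lib.MP_95bb8c_al.OE

open Finset

variable {V1 E1 V2 E2 : Type} [Fintype V1] [DecidableEq V1] [Fintype E1] [DecidableEq E1]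
  [Fintype V2] [DecidableEq V2] [Fintype E2] [DecidableEq E2]
variable {s1 t1 : E1 → V1} {b1 : V1} {z1 : E1 → ℚ} {s2 t2 : E2 → V2} {a2 : V2} {z2 : E2 → ℚ}
  {β : E1 → E2} {τ : E2 → E1}

theorem cw_leftside (h1 : ∀ e, s1 e ≠ t1 e) (x : E1 ⊕ E2' s2 t2 a2 → ℚ)
    {S : Finset (V1 ⊕ V2)} (hS : ∀ v, Sum.inr v ∉ S) :
    cw (glS s1 b1 s2 t2 a2 β) (glT t1 b1 s2 t2 a2 β) x S =
      cw s1 t1 (fun e => x (Sum.inl e)) (S.toLeft.erase b1) := by
  rw [cw_def, cw_def, Fintype.sum_sum_type]
  have hR : ∑ f : E2' s2 t2 a2, (if (glS s1 b1 s2 t2 a2 β (Sum.inr f) ∈ S ↔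
      glT t1 b1 s2 t2 a2 β (Sum.inr f) ∈ S) then 0 else x (Sum.inr f)) = 0 := by
    apply Finset.sum_eq_zero
    intro f _
    simp [glS, glT, hS]
  rw [hR, add_zero]
  apply Finset.sum_congr rfl
  intro e _
  have hs : (glS s1 b1 s2 t2 a2 β (Sum.inl e) ∈ S ↔ s1 e ∈ S.toLeft.erase b1) := by
    by_cases h : s1 e = b1 <;> simp [glS, h, hS]
  have ht : (glT t1 b1 s2 t2 a2 β (Sum.inl e) ∈ S ↔ t1 e ∈ S.toLeft.erase b1) := by
    by_cases h : t1 e = b1 <;> simp [glT, h, hS]
  simp only [hs, ht]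

theorem cw_rightside (h1 : ∀ e, s1 e ≠ t1 e) (h2 : ∀ f, s2 f ≠ t2 f)
    (hL : Link s1 t1 b1 z1 s2 t2 a2 z2 β τ) (x : E1 ⊕ E2' s2 t2 a2 → ℚ) (x2 : E2 → ℚ)
    (hx1 : ∀ e ∈ cut s1 t1 {b1}, x2 (β e) = x (Sum.inl e))
    (hx2 : ∀ f : E2' s2 t2 a2, x2 f.1 = x (Sum.inr f))
    {S : Finset (V1 ⊕ V2)} (hS : ∀ v, Sum.inl v ∈ S) :
    cw (glS s1 b1 s2 t2 a2 β) (glT t1 b1 s2 t2 a2 β) x S =
      cw s2 t2 x2 (insert a2 S.toRight) := by
  rw [cw_def, cw_def, Fintype.sum_sum_type]
  rw [← Fintype.sum_subtype_add_sum_subtype (fun f => f ∈ cut s2 t2 {a2})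
    (fun f => if (s2 f ∈ insert a2 S.toRight ↔ t2 f ∈ insert a2 S.toRight) then 0 else x2 f)]
  congr 1
  · rw [← Finset.sum_subset (Finset.subset_univ (cut s1 t1 {b1})), ← Finset.sum_subtype
      (cut s2 t2 {a2}) (fun f => Iff.rfl)
      (fun f => if (s2 f ∈ insert a2 S.toRight ↔ t2 f ∈ insert a2 S.toRight)
        then 0 else x2 f)]
    · refine Finset.sum_nbij' β τ (fun e he => (hL.fwd e he).1) (fun f hf => (hL.bwd f hf).1)
        (fun e he => (hL.fwd e he).2.1) (fun f hf => (hL.bwd f hf).2) ?_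
      intro e he
      have hβ := (hL.fwd e he).1
      rw [hx1 e he]
      have hkey : ((glS s1 b1 s2 t2 a2 β (Sum.inl e) ∈ S ↔
          glT t1 b1 s2 t2 a2 β (Sum.inl e) ∈ S) ↔
          (s2 (β e) ∈ insert a2 S.toRight ↔ t2 (β e) ∈ insert a2 S.toRight)) := by
        have hfar : (s2 (β e) ∈ insert a2 S.toRight ↔ t2 (β e) ∈ insert a2 S.toRight) ↔
            Sum.inr (far s2 t2 a2 (β e)) ∈ S := by
          rw [mem_cut, Finset.mem_singleton, Finset.mem_singleton] at hβ
          unfold far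
          have hne := h2 (β e)
          by_cases h : s2 (β e) = a2
          · have h' : t2 (β e) ≠ a2 := fun h3 => hne (h.trans h3.symm)
            simp [h, h']
          · have h' : t2 (β e) = a2 := by
              by_contra h3
              exact hβ (by simp [h, h3])
            simp [h, h']
        rw [hfar]
        rw [mem_cut, Finset.mem_singleton, Finset.mem_singleton] at he
        by_cases h : s1 e = b1
        · have h' : t1 e ≠ b1 := fun h3 => h1 e (h.trans h3.symm)
          simp [glS, glT, h, h', hS]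
        · have h' : t1 e = b1 := by
            by_contra h3
            exact he (by simp [h, h3])
          simp [glS, glT, h, h', hS]
      by_cases hc : (glS s1 b1 s2 t2 a2 β (Sum.inl e) ∈ S ↔
          glT t1 b1 s2 t2 a2 β (Sum.inl e) ∈ S)
      · rw [if_pos hc, if_pos (hkey.mp hc)]
      · rw [if_neg hc, if_neg (fun h => hc (hkey.mpr h))]
    · intro e _ he
      rw [mem_cut, Finset.mem_singleton, Finset.mem_singleton, not_not] at he
      have hs : s1 e ≠ b1 := fun h => h1 e (h.trans (he.mp h).symm)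
      have ht : t1 e ≠ b1 := fun h => hs (he.mpr h)
      simp [glS, glT, hs, ht, hS]
  · apply Finset.sum_congr rfl
    intro f _
    have hf := f.2
    rw [mem_cut, Finset.mem_singleton, Finset.mem_singleton, not_not] at hf
    have hs : s2 f.1 ≠ a2 := fun h => h2 f.1 (h.trans (hf.mp h).symm)
    have ht : t2 f.1 ≠ a2 := fun h => hs (hf.mpr h)
    rw [hx2 f]
    simp [glS, glT, hs, ht]

end Pool.Agent.Lib.MP_95bb8c_al.OE
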