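import Pool.Agent.Lib.MP_95bb8c_al.OE.Cut

set_option autoImplicit false
set_option linter.unusedSectionVars false

/-!
# Gluing two graphs: definitions

`G1 = (s1, t1, T1, a1, b1, z1)` and `G2 = (s2, t2, T2, a2, b2, z2)`; the star of `b1` is identified
with the star of `a2` by `β` (with inverse `τ`); an edge `e` at `b1` is continued by the edge
`β e` at `a2`: the new edge `inl e` joins the other end of `e` and the other end of `β e`.
-/

namespace Pool.Agent.Lib.MP_95bb8c_al.OE

open Finset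

/-- All weights positive, no loops. -/
structure Clean {V E : Type} [Fintype V] [DecidableEq V] [Fintype E] [DecidableEq E]
    (s t : E → V) (T : Finset V) (a b : V) (c : ℚ) (z : E → ℚ) : Prop where
  kk : KK s t T a b c c z
  hc : 0 < c
  pos : ∀ e, 0 < z e
  loop : ∀ e, s e ≠ t e

variable {V1 E1 V2 E2 : Type} [Fintype V1] [DecidableEq V1] [Fintype E1] [DecidableEq E1]
  [Fintype V2] [DecidableEq V2] [Fintype E2] [DecidableEq E2]

/-- The end of `e` which is not `v`. -/
def far {V E : Type} [DecidableEq V] (s t : E → V) (v : V) (e : E) : V :=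
  if s e = v then t e else s e

/-- `β` and `τ` are inverse bijections between the star of `b1` and the star of `a2` which respect
the weights. -/
structure Link (s1 t1 : E1 → V1) (b1 : V1) (z1 : E1 → ℚ) (s2 t2 : E2 → V2) (a2 : V2) (z2 : E2 → ℚ)
    (β : E1 → E2) (τ : E2 → E1) : Prop where
  fwd : ∀ e ∈ cut s1 t1 {b1}, β e ∈ cut s2 t2 {a2} ∧ τ (β e) = e ∧ z2 (β e) = z1 e
  bwd : ∀ f ∈ cut s2 t2 {a2}, τ f ∈ cut s1 t1 {b1} ∧ β (τ f) = f

variable (s1 t1 : E1 → V1) (T1 : Finset V1) (b1 : V1) (z1 : E1 → ℚ)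
  (s2 t2 : E2 → V2) (T2 : Finset V2) (a2 : V2) (z2 : E2 → ℚ) (β : E1 → E2)

/-- The edges of the second graph which are not at `a2`. -/
abbrev E2' : Type := {f : E2 // f ∉ cut s2 t2 {a2}}

/-- First endpoints of the glued graph. -/
def glS : E1 ⊕ E2' s2 t2 a2 → V1 ⊕ V2 :=
  Sum.elim (fun e => if s1 e = b1 then Sum.inr (far s2 t2 a2 (β e)) else Sum.inl (s1 e))
    (fun f => Sum.inr (s2 f.1))

/-- Second endpoints of the glued graph. -/
def glT : E1 ⊕ E2' s2 t2 a2 → V1 ⊕ V2 :=
  Sum.elim (fun e => if t1 e = b1 then Sum.inr (far s2 t2 a2 (β e)) else Sum.inl (t1 e))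
    (fun f => Sum.inr (t2 f.1))

/-- Weights of the glued graph. -/
def glz : E1 ⊕ E2' s2 t2 a2 → ℚ := Sum.elim z1 (fun f => z2 f.1)

/-- The part in the second graph of a vector of the glued graph. -/
def resR (τ : E2 → E1) (o : E1 ⊕ E2' s2 t2 a2 → ℕ) : E2 → ℕ :=
  fun f => if h : f ∉ cut s2 t2 {a2} then o (Sum.inr ⟨f, h⟩) else o (Sum.inl (τ f))

end Pool.Agent.Lib.MP_95bb8c_al.OE
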