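import Pool.Agent.Lib.MP_95bb8c_al.OE.GlueCut

set_option autoImplicit false
set_option linter.unusedSectionVars false

/-!
# Essential sets on one side of the glued graph

Notation: `T = T1.disjSum T2`, `a = inl a1`, `b = inr b2`. For `S : Finset (V1 ⊕ V2)`:
`(S ∩ T).card = (S.toLeft ∩ T1).card + (S.toRight ∩ T2).card`.

PROOF of `ess_left` (no vertex `inr v` in `S`). `S1 = S.toLeft.erase b1`. `b1 ∉ T1`, so the parities
of `S1 ∩ T1` and `S ∩ T` agree; `inl a1 ∈ S ↔ a1 ∈ S1` (`a1 ≠ b1`), `inr b2 ∉ S`, `b1 ∉ S1`.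
PROOF of `ess_right` (all `inl v` in `S`). `S2 = insert a2 S.toRight`, `a2 ∉ T2`,
`(S ∩ T).card = T1.card + (S2 ∩ T2).card`, `T1.card` even; `inl a1 ∈ S`, `a2 ∈ S2`,
`inr b2 ∈ S ↔ b2 ∈ S2` (`b2 ≠ a2`).
PROOF of `cw_C`. `cw_leftside`, the set `C.toLeft.erase b1` is the complement of `{b1}`, `cw_compl`.
-/

namespace Pool.Agent.Lib.MP_95bb8c_al.OE

open Finset

variable {V1 E1 V2 E2 : Type} [Fintype V1] [DecidableEq V1] [Fintype E1] [DecidableEq E1]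
  [Fintype V2] [DecidableEq V2] [Fintype E2] [DecidableEq E2]
variable {s1 t1 : E1 → V1} {T1 : Finset V1} {a1 b1 : V1} {z1 : E1 → ℚ} {s2 t2 : E2 → V2}
  {T2 : Finset V2} {a2 b2 : V2} {z2 : E2 → ℚ} {β : E1 → E2} {τ : E2 → E1} {c : ℚ}

theorem card_disjSum_inter (S : Finset (V1 ⊕ V2)) (T1 : Finset V1) (T2 : Finset V2) :
    (S ∩ T1.disjSum T2).card = (S.toLeft ∩ T1).card + (S.toRight ∩ T2).card := by
  rw [← Finset.card_toLeft_add_card_toRight (u := S ∩ T1.disjSum T2)]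
  congr 1
  · congr 1
    ext v
    simp
  · congr 1
    ext v
    simp

theorem ess_left (hab : a1 ≠ b1) (hb : b1 ∉ T1) {S : Finset (V1 ⊕ V2)}
    (hS : ∀ v, Sum.inr v ∉ S) :
    Ess (T1.disjSum T2) (Sum.inl a1) (Sum.inr b2) S ↔ Ess T1 a1 b1 (S.toLeft.erase b1) := by
  have h1 : S.toRight = ∅ := by
    ext v
    simp [hS v]
  have h2 : (S.toLeft.erase b1) ∩ T1 = S.toLeft ∩ T1 := by
    ext v
    simp only [Finset.mem_inter, Finset.mem_erase]
    constructor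
    · rintro ⟨⟨_, h3⟩, h4⟩
      exact ⟨h3, h4⟩
    · rintro ⟨h3, h4⟩
      exact ⟨⟨fun h5 => hb (h5 ▸ h4), h3⟩, h4⟩
  unfold Ess
  rw [card_disjSum_inter, h1, Finset.empty_inter, Finset.card_empty, add_zero, h2]
  have h3 : Sum.inr b2 ∉ S := hS b2
  have h4 : (a1 ∈ S.toLeft.erase b1) ↔ Sum.inl a1 ∈ S := by
    rw [Finset.mem_erase, Finset.mem_toLeft]
    exact ⟨fun h => h.2, fun h => ⟨hab, h⟩⟩
  have h5 : b1 ∉ S.toLeft.erase b1 := Finset.notMem_erase _ _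
  rw [h4]
  tauto

theorem ess_right (hT : Even T1.card) (hab : a2 ≠ b2) (ha : a2 ∉ T2) {S : Finset (V1 ⊕ V2)}
    (hS : ∀ v, Sum.inl v ∈ S) :
    Ess (T1.disjSum T2) (Sum.inl a1) (Sum.inr b2) S ↔ Ess T2 a2 b2 (insert a2 S.toRight) := by
  have h1 : S.toLeft = univ := by
    ext v
    simp [hS v]
  have h2 : (insert a2 S.toRight) ∩ T2 = S.toRight ∩ T2 := by
    ext v
    simp only [Finset.mem_inter, Finset.mem_insert]
    constructor
    · rintro ⟨h3 | h3, h4⟩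
      · exact absurd (h3 ▸ h4) ha
      · exact ⟨h3, h4⟩
    · rintro ⟨h3, h4⟩
      exact ⟨Or.inr h3, h4⟩
  unfold Ess
  rw [card_disjSum_inter, h1, Finset.univ_inter, h2]
  have h3 : Odd (T1.card + (S.toRight ∩ T2).card) ↔ Odd (S.toRight ∩ T2).card := by
    rw [← Nat.not_even_iff_odd, ← Nat.not_even_iff_odd, Nat.even_add]
    tauto
  have h4 : Sum.inl a1 ∈ S := hS a1
  have h5 : a2 ∈ insert a2 S.toRight := Finset.mem_insert_self _ _
  have h6 : b2 ∈ insert a2 S.toRight ↔ Sum.inr b2 ∈ S := by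
    rw [Finset.mem_insert, Finset.mem_toRight]
    exact ⟨fun h => h.resolve_left (fun h7 => hab h7.symm), fun h => Or.inr h⟩
  rw [h3, h6]
  tauto

theorem cw_C (h1 : ∀ e, s1 e ≠ t1 e) (x : E1 ⊕ E2' s2 t2 a2 → ℚ) :
    cw (glS s1 b1 s2 t2 a2 β) (glT t1 b1 s2 t2 a2 β) x
      ((univ : Finset V1).disjSum (∅ : Finset V2)) =
      cw s1 t1 (fun e => x (Sum.inl e)) {b1} := by
  rw [cw_leftside h1 x (S := (univ : Finset V1).disjSum (∅ : Finset V2)) (fun v => by simp)]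
  rw [← cw_compl]
  congr 1
  ext v
  simp

end Pool.Agent.Lib.MP_95bb8c_al.OE
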