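import Pool.Agent.Lib.MP_95bb8c_al.OE.GlueUn

set_option autoImplicit false
set_option linter.unusedSectionVars false

/-!
# The glued graph is clean

PROOF of `glue_clean`. Frame: an end `inl (s1 e)` with `s1 e ≠ b1` has `s1 e ∈ T1` or `= a1`;
`far s2 t2 a2 (β e) ≠ a2` (for `e` at `b1`, `β e` is at `a2` and no loop) is in `T2` or `= b2`; for `f : E2'`
(not at `a2`, no loop) both ends are `≠ a2`. Positive weights: clear. No loops: `inl e` with `s1 e = b1`
joins `inr _` and `inl _` (`t1 e ≠ b1`). Degrees: `{inl v}`, `v ∈ T1` or `v = a1` (`≠ b1`): `cw_leftside`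
(the set `({inl v}).toLeft.erase b1` is `{v}`). `{inr w}`, `w ∈ T2` or `w = b2`: the complement contains all
`inl v`: `cw_compl`, `cw_rightside`, and `insert a2 ({inr w}ᶜ).toRight = {w}ᶜ`, `cw_compl`. `odd` and
`sep`: `glue_ess`.
-/

namespace Pool.Agent.Lib.MP_95bb8c_al.OE

open Finset

variable {V1 E1 V2 E2 : Type} [Fintype V1] [DecidableEq V1] [Fintype E1] [DecidableEq E1]
  [Fintype V2] [DecidableEq V2] [Fintype E2] [DecidableEq E2]
variable {s1 t1 : E1 → V1} {T1 : Finset V1} {a1 b1 : V1} {z1 : E1 → ℚ} {s2 t2 : E2 → V2}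
  {T2 : Finset V2} {a2 b2 : V2} {z2 : E2 → ℚ} {β : E1 → E2} {τ : E2 → E1} {c : ℚ}

theorem gluekk_far (C2 : Clean s2 t2 T2 a2 b2 c z2) {f : E2} :
    far s2 t2 a2 f ∈ T2 ∨ far s2 t2 a2 f = b2 := by
  unfold far
  split_ifs with h
  · rcases C2.kk.frame.ht f with h1 | h1 | h1
    · exact Or.inl h1
    · exact absurd (h.trans h1.symm) (C2.loop f)
    · exact Or.inr h1
  · rcases C2.kk.frame.hs f with h1 | h1 | h1
    · exact Or.inl h1
    · exact absurd h1 h
    · exact Or.inr h1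

theorem gluekk_left (C1 : Clean s1 t1 T1 a1 b1 c z1) {v : V1} (hv : v ≠ b1) :
    cw (glS s1 b1 s2 t2 a2 β) (glT t1 b1 s2 t2 a2 β) (glz z1 s2 t2 a2 z2) {Sum.inl v} =
      cw s1 t1 z1 {v} := by
  rw [cw_leftside C1.loop _ (S := {Sum.inl v}) (fun w => by simp)]
  have h1 : (({Sum.inl v} : Finset (V1 ⊕ V2)).toLeft.erase b1) = {v} := by
    ext w
    simp only [Finset.mem_erase, Finset.mem_toLeft, Finset.mem_singleton, Sum.inl.injEq]
    exact ⟨fun h => h.2, fun h => ⟨fun h2 => hv (h.symm.trans h2), h⟩⟩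
  rw [h1]
  rfl

theorem gluekk_right (C1 : Clean s1 t1 T1 a1 b1 c z1) (C2 : Clean s2 t2 T2 a2 b2 c z2)
    (hL : Link s1 t1 b1 z1 s2 t2 a2 z2 β τ) {w : V2} (hw : w ≠ a2) :
    cw (glS s1 b1 s2 t2 a2 β) (glT t1 b1 s2 t2 a2 β) (glz z1 s2 t2 a2 z2) {Sum.inr w} =
      cw s2 t2 z2 {w} := by
  rw [← cw_compl]
  rw [cw_rightside C1.loop C2.loop hL _ z2 (fun e he => (hL.fwd e he).2.2) (fun f => rfl)
    (S := ({Sum.inr w} : Finset (V1 ⊕ V2))ᶜ) (fun v => by simp)]
  have h1 : insert a2 (({Sum.inr w} : Finset (V1 ⊕ V2))ᶜ).toRight = ({w} : Finset V2)ᶜ := by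
    ext u
    simp only [Finset.mem_insert, Finset.mem_toRight, Finset.mem_compl, Finset.mem_singleton,
      Sum.inr.injEq]
    constructor
    · rintro (h | h)
      · exact fun h2 => hw (h2.symm.trans h)
      · exact h
    · exact fun h => Or.inr h
  rw [h1, cw_compl]

theorem glue_clean (C1 : Clean s1 t1 T1 a1 b1 c z1) (C2 : Clean s2 t2 T2 a2 b2 c z2)
    (hL : Link s1 t1 b1 z1 s2 t2 a2 z2 β τ) :
    Clean (glS s1 b1 s2 t2 a2 β) (glT t1 b1 s2 t2 a2 β) (T1.disjSum T2) (Sum.inl a1)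
      (Sum.inr b2) c (glz z1 s2 t2 a2 z2) := by
  have hpos : ∀ e, 0 < glz z1 s2 t2 a2 z2 e := by
    rintro (e | f)
    · exact C1.pos e
    · exact C2.pos f.1
  have hfar : ∀ e : E1, InU (T1.disjSum T2) (Sum.inl a1) (Sum.inr b2)
      (Sum.inr (far s2 t2 a2 (β e))) := by
    intro e
    rcases gluekk_far C2 (f := β e) with h | h
    · left
      simpa using h
    · right
      right
      rw [h]
  have h2side : ∀ v : V2, v ∈ T2 ∨ v = a2 ∨ v = b2 → v ≠ a2 →
      InU (T1.disjSum T2) (Sum.inl a1) (Sum.inr b2) (Sum.inr v) := by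
    rintro v (h | h | h) h3
    · left
      simpa using h
    · exact absurd h h3
    · right
      right
      rw [h]
  have h1side : ∀ v : V1, v ∈ T1 ∨ v = a1 ∨ v = b1 → v ≠ b1 →
      InU (T1.disjSum T2) (Sum.inl a1) (Sum.inr b2) (Sum.inl v) := by
    rintro v (h | h | h) h3
    · left
      simpa using h
    · right
      left
      rw [h]
    · exact absurd h h3
  have hE2 : ∀ f : E2' s2 t2 a2, s2 f.1 ≠ a2 ∧ t2 f.1 ≠ a2 := by
    intro f
    have h := f.2
    rw [mem_cut] at h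
    simp only [Finset.mem_singleton, not_not] at h
    have h2 := C2.loop f.1
    constructor
    · intro h3
      exact h2 (h3.trans (h.mp h3).symm)
    · intro h3
      exact h2 ((h.mpr h3).trans h3.symm)
  refine ⟨⟨⟨by simp, ?_, ?_, ?_, ?_⟩, fun e => (hpos e).le, ?_, ?_, ?_, ?_, ?_⟩, C1.hc, hpos, ?_⟩
  · simpa using C1.kk.frame.ha
  · simpa using C2.kk.frame.hb
  · rintro (e | f)
    · show InU _ _ _ (if s1 e = b1 then Sum.inr (far s2 t2 a2 (β e)) else Sum.inl (s1 e))
      split_ifs with h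
      · exact hfar e
      · exact h1side _ (C1.kk.frame.hs e) h
    · exact h2side _ (C2.kk.frame.hs f.1) (hE2 f).1
  · rintro (e | f)
    · show InU _ _ _ (if t1 e = b1 then Sum.inr (far s2 t2 a2 (β e)) else Sum.inl (t1 e))
      split_ifs with h
      · exact hfar e
      · exact h1side _ (C1.kk.frame.ht e) h
    · exact h2side _ (C2.kk.frame.ht f.1) (hE2 f).2
  · rintro (v | w) hv
    · have hv' : v ∈ T1 := by simpa using hv
      rw [gluekk_left C1 (fun h => C1.kk.frame.hb (h ▸ hv'))]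
      exact C1.kk.degT v hv'
    · have hv' : w ∈ T2 := by simpa using hv
      rw [gluekk_right C1 C2 hL (fun h => C2.kk.frame.ha (h ▸ hv'))]
      exact C2.kk.degT w hv'
  · rw [gluekk_left C1 C1.kk.frame.hab]
    exact C1.kk.dega
  · rw [gluekk_right C1 C2 hL (fun h => C2.kk.frame.hab h.symm)]
    exact C2.kk.degb
  · intro S hS
    exact glue_ess C1 C2 hL (Or.inl hS)
  · intro S ha hb
    exact glue_ess C1 C2 hL (Or.inr (fun h => hb (h.mp ha)))
  · rintro (e | f)
    · show (if s1 e = b1 then Sum.inr (far s2 t2 a2 (β e)) else Sum.inl (s1 e) : V1 ⊕ V2) ≠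
        (if t1 e = b1 then Sum.inr (far s2 t2 a2 (β e)) else Sum.inl (t1 e))
      have h := C1.loop e
      split_ifs with h1 h2 h2
      · exact absurd (h1.trans h2.symm) h
      · simp
      · simp
      · intro h3
        exact h (Sum.inl.inj h3)
    · intro h3
      exact C2.loop f.1 (Sum.inr.inj h3)

end Pool.Agent.Lib.MP_95bb8c_al.OE
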