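import Pool.Agent.Lib.MP_95bb8c_al.OE.GlueKK

set_option autoImplicit false
set_option linter.unusedSectionVars false

/-!
# Restriction of objects of the glued graph to the two parts

PROOF of `glue_left`. `o1 e = o (inl e)`. `supp` is void (all `z1 e > 0`; from `supp` of `o`),
`loop` is void. Let `S1 : Finset V1` be essential. If `b1 ∉ S1` put `S = S1.disjSum ∅`: no `inr`,
`S.toLeft.erase b1 = S1`, so `cw o S = cw o1 S1`, `cw glz S = cw z1 S1`, and `S` is essential
(`ess_left`): `ess` and `tight` for `S1` follow from those for `S`. If `b1 ∈ S1` use `S1ᶜ`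
(`Ess.compl`, `cw_compl`). Degrees: `{v}` is essential and `cw z1 {v} = c` (`ess_singleton`,
`deg_eq`), so `tight` gives `2` (do `tight` first).

PROOF of `glue_right`. `o2 = resR s2 t2 a2 τ o`: `o2 (β e) = o (inl e)` for `e ∈ cut s1 t1 {b1}`
(`β e` is at `a2` and `τ (β e) = e`) and `o2 f = o (inr f)` for `f : E2'`. Let `S2` be essential.
If `a2 ∈ S2` put `S = univ.disjSum S2`: contains all `inl`, `insert a2 S.toRight = S2`:
`cw_rightside` for `x = rat o`, `x2 = rat o2` and for `x = glz`, `x2 = z2`, `ess_right`. If `a2 ∉ S2`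
use the complement. Degrees as before.
-/

namespace Pool.Agent.Lib.MP_95bb8c_al.OE

open Finset

variable {V1 E1 V2 E2 : Type} [Fintype V1] [DecidableEq V1] [Fintype E1] [DecidableEq E1]
  [Fintype V2] [DecidableEq V2] [Fintype E2] [DecidableEq E2]
variable {s1 t1 : E1 → V1} {T1 : Finset V1} {a1 b1 : V1} {z1 : E1 → ℚ} {s2 t2 : E2 → V2}
  {T2 : Finset V2} {a2 b2 : V2} {z2 : E2 → ℚ} {β : E1 → E2} {τ : E2 → E1} {c : ℚ}

theorem glueres_mk {V E : Type} [Fintype V] [DecidableEq V] [Fintype E] [DecidableEq E]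
    {s t : E → V} {T : Finset V} {a b : V} {c : ℚ} {z : E → ℚ} (C : Clean s t T a b c z)
    (o : E → ℕ) (Q : Finset V → Prop) (hQ : ∀ S, Q S ∨ Q Sᶜ)
    (h : ∀ S, Q S → Ess T a b S → 2 ≤ cw s t (rat o) S ∧
      (cw s t z S = c → cw s t (rat o) S = 2)) : TObj s t T a b c z o := by
  have hT : Even T.card := even_T C.kk C.hc
  have h1 : ∀ S, Ess T a b S → 2 ≤ cw s t (rat o) S ∧
      (cw s t z S = c → cw s t (rat o) S = 2) := by
    intro S hS
    rcases hQ S with h2 | h2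
    · exact h S h2 hS
    · have h3 := h Sᶜ h2 (hS.compl hT)
      rw [cw_compl, cw_compl] at h3
      exact h3
  refine ⟨fun e he => absurd he (C.pos e).ne', fun e he => absurd he (C.loop e), ?_,
    fun S hS => (h1 S hS).1, fun S hS => (h1 S hS).2⟩
  intro v hv
  exact (h1 {v} (ess_singleton C.kk.frame hv)).2 (deg_eq C.kk hv)

theorem glue_left (C1 : Clean s1 t1 T1 a1 b1 c z1) (C2 : Clean s2 t2 T2 a2 b2 c z2)
    (hL : Link s1 t1 b1 z1 s2 t2 a2 z2 β τ) {o : E1 ⊕ E2' s2 t2 a2 → ℕ}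
    (ho : TObj (glS s1 b1 s2 t2 a2 β) (glT t1 b1 s2 t2 a2 β) (T1.disjSum T2) (Sum.inl a1)
      (Sum.inr b2) c (glz z1 s2 t2 a2 z2) o) :
    TObj s1 t1 T1 a1 b1 c z1 (fun e => o (Sum.inl e)) := by
  apply glueres_mk C1 _ (fun S => b1 ∉ S)
  · intro S
    by_cases h : b1 ∈ S
    · right
      simpa using h
    · exact Or.inl h
  · intro S1 hb hE
    have hr : ∀ v : V2, (Sum.inr v : V1 ⊕ V2) ∉ S1.disjSum (∅ : Finset V2) := fun v => by simp
    have hS : (S1.disjSum (∅ : Finset V2)).toLeft.erase b1 = S1 := by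
      ext v
      simp only [Finset.mem_erase, Finset.mem_toLeft, Finset.inl_mem_disjSum]
      exact ⟨fun h => h.2, fun h => ⟨fun h2 => hb (h2 ▸ h), h⟩⟩
    have hEss : Ess (T1.disjSum T2) (Sum.inl a1) (Sum.inr b2) (S1.disjSum (∅ : Finset V2)) := by
      rw [ess_left C1.kk.frame.hab C1.kk.frame.hb hr, hS]
      exact hE
    have hcw : ∀ x : E1 ⊕ E2' s2 t2 a2 → ℚ,
        cw (glS s1 b1 s2 t2 a2 β) (glT t1 b1 s2 t2 a2 β) x (S1.disjSum (∅ : Finset V2)) =
          cw s1 t1 (fun e => x (Sum.inl e)) S1 := by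
      intro x
      rw [cw_leftside C1.loop x hr, hS]
    constructor
    · have h1 := ho.ess _ hEss
      rw [hcw] at h1
      exact h1
    · intro h1
      have h2 := ho.tight _ hEss ((hcw _).trans h1)
      rw [hcw] at h2
      exact h2

theorem glue_right (C1 : Clean s1 t1 T1 a1 b1 c z1) (C2 : Clean s2 t2 T2 a2 b2 c z2)
    (hL : Link s1 t1 b1 z1 s2 t2 a2 z2 β τ) {o : E1 ⊕ E2' s2 t2 a2 → ℕ}
    (ho : TObj (glS s1 b1 s2 t2 a2 β) (glT t1 b1 s2 t2 a2 β) (T1.disjSum T2) (Sum.inl a1)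
      (Sum.inr b2) c (glz z1 s2 t2 a2 z2) o) :
    TObj s2 t2 T2 a2 b2 c z2 (resR s2 t2 a2 τ o) := by
  apply glueres_mk C2 _ (fun S => a2 ∈ S)
  · intro S
    by_cases h : a2 ∈ S
    · exact Or.inl h
    · right
      simpa using h
  · intro S2 ha hE
    have hr : ∀ v : V1, (Sum.inl v : V1 ⊕ V2) ∈ (univ : Finset V1).disjSum S2 := fun v => by simp
    have hS : insert a2 ((univ : Finset V1).disjSum S2).toRight = S2 := by
      ext v
      simp only [Finset.mem_insert, Finset.mem_toRight, Finset.inr_mem_disjSum]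
      exact ⟨fun h => h.elim (fun h2 => h2 ▸ ha) id, fun h => Or.inr h⟩
    have hEss : Ess (T1.disjSum T2) (Sum.inl a1) (Sum.inr b2) ((univ : Finset V1).disjSum S2) := by
      rw [ess_right (even_T C1.kk C1.hc) C2.kk.frame.hab C2.kk.frame.ha hr, hS]
      exact hE
    have h1 := ho.ess _ hEss
    have h2 := ho.tight _ hEss
    have hres1 : ∀ e ∈ cut s1 t1 {b1},
        rat (resR s2 t2 a2 τ o) (β e) = rat o (Sum.inl e) := by
      intro e he
      have h3 := hL.fwd e he
      unfold rat resR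
      rw [dif_neg (not_not.mpr h3.1), h3.2.1]
    have hres2 : ∀ f : E2' s2 t2 a2, rat (resR s2 t2 a2 τ o) f.1 = rat o (Sum.inr f) := by
      intro f
      unfold rat resR
      rw [dif_pos f.2]
    rw [cw_rightside C1.loop C2.loop hL (rat o) (rat (resR s2 t2 a2 τ o)) hres1 hres2 hr, hS]
      at h1 h2
    rw [cw_rightside C1.loop C2.loop hL _ z2 (fun e he => (hL.fwd e he).2.2) (fun f => rfl) hr,
      hS] at h2
    exact ⟨h1, h2⟩

end Pool.Agent.Lib.MP_95bb8c_al.OE
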