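import Pool.Agent.Lib.MP_95bb8c_al.OE.GlueEss

set_option autoImplicit false
set_option linter.unusedSectionVars false

/-!
# Essential cuts of the glued graph

Notation: `G = (glS, glT, T = T1.disjSum T2, a = inl a1, b = inr b2, z = glz)`.

PROOF of `glue_ess`. By `ess_left`, `ess_right`, `cw_leftside`, `cw_rightside` (with `x = glz`, so
`x ∘ inl = z1`, and `x2 = z2`) and `ess_le` an essential `S` without `inr`, or with all `inl`, has
weight `≥ c`. Let `C = univ.disjSum ∅` (all `inl v`): `cw z C = c` (`cw_C`, `C1.kk.degb`). `T1.card` is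
even (`even_T`). Let `S` be essential, `α = ((S ∩ C) ∩ T).card mod 2`, `P = (S ∩ T).card mod 2`,
`A = [a ∈ S]`, `B = [b ∈ S]`; `(C ∩ T).card = T1.card` is even, `a ∈ C`, `b ∉ C`. Classes
(parity, separates):
`S ∩ C : (α, A)`, `S ∪ C : (P + α, 1 + B)`, `S \ C : (P + α, B)`, `C \ S : (α, 1 + A)`
(the second entry is `1` iff the set separates `a` from `b`). A set is essential iff its class
is not `(0, 0)`. Claim: `S ∩ C`, `S ∪ C` are both essential or `S \ C`, `C \ S` are both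
essential. (Otherwise `(α, A) = (0, 0)` or `(P, B) = (α, 1)`, and `(P, B) = (α, 0)` or
`(α, A) = (0, 1)`; all four combinations are impossible or give `P = 0`, `A = B`, i.e. `S` is
not essential.) In the first case `cw (S ∩ C) ≥ c` (left), `cw (S ∪ C) ≥ c` (right) and
`cw_inter_union_le` gives `cw S + c ≥ 2 c`. In the second one `C \ S` is left, and the
complement of `S \ C` contains all `inl v` and is essential (`Ess.compl`, `T.card` is even because
`T1.card` and `T2.card` are), `cw_compl`, `cw_sdiff_sdiff_le`.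
-/

namespace Pool.Agent.Lib.MP_95bb8c_al.OE

open Finset

variable {V1 E1 V2 E2 : Type} [Fintype V1] [DecidableEq V1] [Fintype E1] [DecidableEq E1]
  [Fintype V2] [DecidableEq V2] [Fintype E2] [DecidableEq E2]
variable {s1 t1 : E1 → V1} {T1 : Finset V1} {a1 b1 : V1} {z1 : E1 → ℚ} {s2 t2 : E2 → V2}
  {T2 : Finset V2} {a2 b2 : V2} {z2 : E2 → ℚ} {β : E1 → E2} {τ : E2 → E1} {c : ℚ}

private theorem glueun_bool (p q A B : Prop) (h : ¬ (p ↔ q) ∨ ¬ (A ↔ B)) :
    ((p ∨ A) ∧ (q ∨ ¬ B)) ∨ ((q ∨ B) ∧ (p ∨ ¬ A)) := by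
  by_cases hp : p <;> by_cases hq : q <;> by_cases hA : A <;> by_cases hB : B <;> simp_all

private theorem glueun_par {x y : ℕ} (h : Even (x + y)) : Odd y ↔ Odd x := by
  rw [Nat.even_add] at h
  rw [← Nat.not_even_iff_odd, ← Nat.not_even_iff_odd, h]

private theorem glueun_sum (x y : ℕ) : Odd (x + y) ↔ ¬ (Odd x ↔ Odd y) := by
  rw [Nat.odd_add, ← Nat.not_odd_iff_even]
  by_cases hx : Odd x <;> by_cases hy : Odd y <;> simp [hx, hy]

private theorem glueun_ev {x : ℕ} (h : Even x) (y : ℕ) : Odd (x + y) ↔ Odd y := by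
  rw [glueun_sum]
  have : ¬ Odd x := Nat.not_odd_iff_even.mpr h
  by_cases hy : Odd y <;> simp [this, hy]

/-- Essential sets without vertices of the second graph. -/
private theorem glueun_left (C1 : Clean s1 t1 T1 a1 b1 c z1) {S : Finset (V1 ⊕ V2)}
    (hR : ∀ v, Sum.inr v ∉ S) (hS : Ess (T1.disjSum T2) (Sum.inl a1) (Sum.inr b2) S) :
    c ≤ cw (glS s1 b1 s2 t2 a2 β) (glT t1 b1 s2 t2 a2 β) (glz z1 s2 t2 a2 z2) S := by
  rw [cw_leftside C1.loop _ hR]
  exact ess_le C1.kk ((ess_left C1.kk.frame.hab C1.kk.frame.hb hR).mp hS)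

/-- Essential sets with all vertices of the first graph. -/
private theorem glueun_right (C1 : Clean s1 t1 T1 a1 b1 c z1) (C2 : Clean s2 t2 T2 a2 b2 c z2)
    (hL : Link s1 t1 b1 z1 s2 t2 a2 z2 β τ) {S : Finset (V1 ⊕ V2)}
    (hR : ∀ v, Sum.inl v ∈ S) (hS : Ess (T1.disjSum T2) (Sum.inl a1) (Sum.inr b2) S) :
    c ≤ cw (glS s1 b1 s2 t2 a2 β) (glT t1 b1 s2 t2 a2 β) (glz z1 s2 t2 a2 z2) S := by
  rw [cw_rightside C1.loop C2.loop hL (glz z1 s2 t2 a2 z2) z2
    (fun e he => (hL.fwd e he).2.2) (fun _ => rfl) hR]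
  exact ess_le C2.kk ((ess_right (even_T C1.kk C1.hc) C2.kk.frame.hab C2.kk.frame.ha hR).mp hS)

theorem glue_ess (C1 : Clean s1 t1 T1 a1 b1 c z1) (C2 : Clean s2 t2 T2 a2 b2 c z2)
    (hL : Link s1 t1 b1 z1 s2 t2 a2 z2 β τ) {S : Finset (V1 ⊕ V2)}
    (hS : Ess (T1.disjSum T2) (Sum.inl a1) (Sum.inr b2) S) :
    c ≤ cw (glS s1 b1 s2 t2 a2 β) (glT t1 b1 s2 t2 a2 β) (glz z1 s2 t2 a2 z2) S := by
  have hz : ∀ e, 0 ≤ glz z1 s2 t2 a2 z2 e := by
    rintro (e | f)
    · exact (C1.pos e).le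
    · exact (C2.pos f.1).le
  have hE1 := even_T C1.kk C1.hc
  have hE2 := even_T C2.kk C2.hc
  set C : Finset (V1 ⊕ V2) := (univ : Finset V1).disjSum (∅ : Finset V2) with hC
  have hCl : ∀ v : V1, (Sum.inl v : V1 ⊕ V2) ∈ C := by
    intro v
    rw [hC, Finset.inl_mem_disjSum]
    exact Finset.mem_univ v
  have hCr : ∀ v : V2, (Sum.inr v : V1 ⊕ V2) ∉ C := by
    intro v
    rw [hC, Finset.inr_mem_disjSum]
    exact Finset.notMem_empty v
  have hcC : cw (glS s1 b1 s2 t2 a2 β) (glT t1 b1 s2 t2 a2 β) (glz z1 s2 t2 a2 z2) C = c := by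
    rw [hC, cw_C C1.loop]
    exact C1.kk.degb
  have hTe : Even (T1.disjSum T2).card := by
    rw [Finset.card_disjSum]
    exact hE1.add hE2
  have hl1 : (S ∩ C).toLeft = S.toLeft := by
    ext v
    simp [hCl v]
  have hr1 : (S ∩ C).toRight = ∅ := by
    ext v
    simp [hCr v]
  have hl2 : (S ∪ C).toLeft = univ := by
    ext v
    simp [hCl v]
  have hr2 : (S ∪ C).toRight = S.toRight := by
    ext v
    simp [hCr v]
  have hl3 : (S \ C).toLeft = ∅ := by
    ext v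
    simp [hCl v]
  have hr3 : (S \ C).toRight = S.toRight := by
    ext v
    simp [hCr v]
  have hl4 : (C \ S).toLeft = S.toLeftᶜ := by
    ext v
    simp [hCl v]
  have hr4 : (C \ S).toRight = ∅ := by
    ext v
    simp [hCr v]
  have hcompl := card_compl_split S.toLeft T1
  have hpar : Odd (S.toLeftᶜ ∩ T1).card ↔ Odd (S.toLeft ∩ T1).card := by
    apply glueun_par
    rw [← hcompl]
    exact hE1
  have hsum := glueun_sum (S.toLeft ∩ T1).card (S.toRight ∩ T2).card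
  have e1 : Ess (T1.disjSum T2) (Sum.inl a1) (Sum.inr b2) (S ∩ C) ↔
      (Odd (S.toLeft ∩ T1).card ∨ Sum.inl a1 ∈ S) := by
    unfold Ess
    rw [card_disjSum_inter, hl1, hr1]
    simp [hCl, hCr]
  have e2 : Ess (T1.disjSum T2) (Sum.inl a1) (Sum.inr b2) (S ∪ C) ↔
      (Odd (S.toRight ∩ T2).card ∨ Sum.inr b2 ∉ S) := by
    unfold Ess
    rw [card_disjSum_inter, hl2, hr2, Finset.univ_inter]
    rw [glueun_ev hE1]
    simp [hCl, hCr]
  have e3 : Ess (T1.disjSum T2) (Sum.inl a1) (Sum.inr b2) (S \ C) ↔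
      (Odd (S.toRight ∩ T2).card ∨ Sum.inr b2 ∈ S) := by
    unfold Ess
    rw [card_disjSum_inter, hl3, hr3]
    simp [hCl, hCr]
  have e4 : Ess (T1.disjSum T2) (Sum.inl a1) (Sum.inr b2) (C \ S) ↔
      (Odd (S.toLeft ∩ T1).card ∨ Sum.inl a1 ∉ S) := by
    unfold Ess
    rw [card_disjSum_inter, hl4, hr4]
    simp [hCl, hCr, hpar]
  have hS' : (¬ (Odd (S.toLeft ∩ T1).card ↔ Odd (S.toRight ∩ T2).card)) ∨
      ¬ (Sum.inl a1 ∈ S ↔ Sum.inr b2 ∈ S) := by
    have := hS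
    unfold Ess at this
    rw [card_disjSum_inter, hsum] at this
    exact this
  have hcase : (Ess (T1.disjSum T2) (Sum.inl a1) (Sum.inr b2) (S ∩ C) ∧
      Ess (T1.disjSum T2) (Sum.inl a1) (Sum.inr b2) (S ∪ C)) ∨
      (Ess (T1.disjSum T2) (Sum.inl a1) (Sum.inr b2) (S \ C) ∧
      Ess (T1.disjSum T2) (Sum.inl a1) (Sum.inr b2) (C \ S)) := by
    rw [e1, e2, e3, e4]
    exact glueun_bool _ _ _ _ hS'
  rcases hcase with ⟨h1, h2⟩ | ⟨h1, h2⟩
  · have hA := glueun_left (s2 := s2) (t2 := t2) (a2 := a2) (z2 := z2) (β := β) C1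
      (fun v hv => hCr v (Finset.mem_inter.mp hv).2) h1
    have hB := glueun_right C1 C2 hL (fun v => Finset.mem_union_right _ (hCl v)) h2
    have hU := cw_inter_union_le (s := glS s1 b1 s2 t2 a2 β) (t := glT t1 b1 s2 t2 a2 β) hz S C
    rw [hcC] at hU
    linarith
  · have hA := glueun_left (s2 := s2) (t2 := t2) (a2 := a2) (z2 := z2) (β := β) C1
      (fun v hv => hCr v (Finset.mem_sdiff.mp hv).1) h2
    have hB := glueun_right C1 C2 hL (S := (S \ C)ᶜ) (fun v => Finset.mem_compl.mpr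
      (fun hv => (Finset.mem_sdiff.mp hv).2 (hCl v))) (Ess.compl hTe h1)
    rw [cw_compl] at hB
    have hU := cw_sdiff_sdiff_le (s := glS s1 b1 s2 t2 a2 β) (t := glT t1 b1 s2 t2 a2 β) hz S C
    rw [hcC] at hU
    linarith

end Pool.Agent.Lib.MP_95bb8c_al.OE
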