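import Mathlib

set_option autoImplicit false
set_option linter.unusedSectionVars false

/-!
# Fractional orientation with prescribed out-degrees

PROOF of `orient`. By `common_den` (file Cycles.lean; or reprove it) applied to `x` and `m` on
`E ⊕ V` there are `N > 0`, `p : E → ℕ`, `q : V → ℕ` with `p e = N * x e`, `q v = N * m v`.
Left set `L = Σ e : E, Fin (p e)`, right set `R = Σ v : V, Fin (q v)`; for `l = (e, i)` let
`tl l = {r : R | r.1 = s e ∨ r.1 = t e}`. Hall's condition
(`Finset.all_card_le_biUnion_card_iff_exists_injective`): for `A : Finset L` let `F` be the set of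
edges in `A`, `S` the set of their ends; `A.card ≤ ∑ e ∈ F, p e ≤ ∑ e with both ends in S, p e
≤ ∑ v ∈ S, q v = (A.biUnion tl).card`. So there is an injective `f : L → R` with
`(f (e, i)).1 ∈ {s e, t e}`. `card L = ∑ p e = ∑ q v = card R`, so `f` is bijective. Put
`y e = (number of i with (f (e, i)).1 = s e) / N`. Then `0 ≤ y e ≤ x e`. For a vertex `v`, `q v` is
the number of `(e, i)` with `(f (e, i)).1 = v`; an edge with `s e = v` contributes `N * y e`, an
edge with `t e = v`, `s e ≠ v` contributes `N * (x e - y e)`; for a loop at `v` one has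
`y e = x e` and both sums together give `N * x e`; other edges contribute `0`.
(Other proofs are welcome, for example by moving weight step by step.)
-/

namespace Pool.Agent.Lib.MP_95bb8c_al.OE

open Finset

variable {V E : Type} [Fintype V] [DecidableEq V] [Fintype E] [DecidableEq E]

theorem hall1_common_den {ι : Type} [Fintype ι] (w : ι → ℚ) (h : ∀ i, 0 ≤ w i) :
    ∃ (N : ℕ) (m : ι → ℕ), 0 < N ∧ ∀ i, (m i : ℚ) = N * w i := by
  classical
  have hpos : 0 < ∏ i, (w i).den := Finset.prod_pos fun i _ => (w i).den_pos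
  have hm : ∀ i, ∃ m : ℕ, (m : ℚ) = (∏ i, (w i).den : ℕ) * w i := by
    intro i
    obtain ⟨c, hc⟩ := Finset.dvd_prod_of_mem (fun i => (w i).den) (Finset.mem_univ i)
    have h1 : (((w i).num * c : ℤ) : ℚ) = (∏ i, (w i).den : ℕ) * w i := by
      have h2 : (∏ i, (w i).den) = (w i).den * c := hc
      rw [h2]
      push_cast
      have h3 := Rat.mul_den_eq_num (w i)
      rw [← h3]
      ring
    have h2 : 0 ≤ (w i).num * (c : ℤ) :=
      mul_nonneg (Rat.num_nonneg.mpr (h i)) (Int.natCast_nonneg c)
    refine ⟨((w i).num * c).toNat, ?_⟩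
    rw [← h1]
    exact_mod_cast Int.toNat_of_nonneg h2
  choose m hm using hm
  exact ⟨_, m, hpos, hm⟩

theorem hall1_nat {s t : E → V} {p : E → ℕ} {q : V → ℕ} (htot : ∑ e, p e = ∑ v, q v)
    (hall : ∀ S : Finset V, ∑ e ∈ univ.filter (fun e => s e ∈ S ∧ t e ∈ S), p e ≤ ∑ v ∈ S, q v) :
    ∃ y : E → ℕ, (∀ e, y e ≤ p e) ∧
      ∀ v, ∑ e, ((if s e = v then y e else 0) + (if t e = v then p e - y e else 0)) = q v := by
  classical
  let L := Σ e : E, Fin (p e)
  let R := Σ v : V, Fin (q v)
  let tl : L → Finset R := fun l => univ.filter (fun r => r.1 = s l.1 ∨ r.1 = t l.1)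
  have hH : ∀ A : Finset L, A.card ≤ (A.biUnion tl).card := by
    intro A
    let F : Finset E := A.image (fun l => l.1)
    let S : Finset V := F.image s ∪ F.image t
    have h1 : A.card ≤ (F.sigma (fun e => (univ : Finset (Fin (p e))))).card := by
      apply Finset.card_le_card
      intro l hl
      exact Finset.mem_sigma.mpr ⟨Finset.mem_image_of_mem _ hl, Finset.mem_univ _⟩
    have h2 : (F.sigma (fun e => (univ : Finset (Fin (p e))))).card = ∑ e ∈ F, p e := by
      rw [Finset.card_sigma]
      exact Finset.sum_congr rfl fun e _ => by simp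
    have h3 : ∑ e ∈ F, p e ≤ ∑ e ∈ univ.filter (fun e => s e ∈ S ∧ t e ∈ S), p e := by
      apply Finset.sum_le_sum_of_subset
      intro e he
      refine Finset.mem_filter.mpr ⟨Finset.mem_univ _, ?_, ?_⟩
      · exact Finset.mem_union_left _ (Finset.mem_image_of_mem _ he)
      · exact Finset.mem_union_right _ (Finset.mem_image_of_mem _ he)
    have h4 := hall S
    have h5 : ∑ v ∈ S, q v = (S.sigma (fun v => (univ : Finset (Fin (q v))))).card := by
      rw [Finset.card_sigma]
      exact Finset.sum_congr rfl fun e _ => by simp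
    have h6 : (S.sigma (fun v => (univ : Finset (Fin (q v))))).card ≤ (A.biUnion tl).card := by
      apply Finset.card_le_card
      intro r hr
      have hr1 := (Finset.mem_sigma.mp hr).1
      rcases Finset.mem_union.mp hr1 with h | h
      · obtain ⟨e, he, hes⟩ := Finset.mem_image.mp h
        obtain ⟨l, hl, hle⟩ := Finset.mem_image.mp he
        refine Finset.mem_biUnion.mpr ⟨l, hl, ?_⟩
        refine Finset.mem_filter.mpr ⟨Finset.mem_univ _, Or.inl ?_⟩
        rw [← hes, ← hle]
      · obtain ⟨e, he, hes⟩ := Finset.mem_image.mp h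
        obtain ⟨l, hl, hle⟩ := Finset.mem_image.mp he
        refine Finset.mem_biUnion.mpr ⟨l, hl, ?_⟩
        refine Finset.mem_filter.mpr ⟨Finset.mem_univ _, Or.inr ?_⟩
        rw [← hes, ← hle]
    omega
  obtain ⟨f, hf, hft⟩ := (Finset.all_card_le_biUnion_card_iff_exists_injective tl).mp hH
  have hft' : ∀ l, (f l).1 = s l.1 ∨ (f l).1 = t l.1 := fun l => (Finset.mem_filter.mp (hft l)).2
  have hcard : Fintype.card L = Fintype.card R := by
    simp only [L, R, Fintype.card_sigma, Fintype.card_fin]
    exact htot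
  have hbij : Function.Bijective f := (Fintype.bijective_iff_injective_and_card f).mpr ⟨hf, hcard⟩
  refine ⟨fun e => (univ.filter (fun i : Fin (p e) => (f ⟨e, i⟩).1 = s e)).card, fun e => ?_,
    fun v => ?_⟩
  · exact (Finset.card_le_univ _).trans (by simp)
  have hq : q v = ∑ e, (univ.filter (fun i : Fin (p e) => (f ⟨e, i⟩).1 = v)).card := by
    have h1 : q v = (univ.filter (fun r : R => r.1 = v)).card := by
      have h2 : (univ.filter (fun r : R => r.1 = v)) =
          (univ : Finset (Fin (q v))).map ⟨fun i => (⟨v, i⟩ : R), by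
            intro a b hab
            simpa using hab⟩ := by
        ext r
        simp only [Finset.mem_filter, Finset.mem_univ, true_and, Finset.mem_map,
          Function.Embedding.coeFn_mk]
        constructor
        · rintro rfl
          exact ⟨r.2, rfl⟩
        · rintro ⟨i, rfl⟩
          rfl
      rw [h2, Finset.card_map]
      simp
    have h3 : (univ.filter (fun r : R => r.1 = v)).card =
        (univ.filter (fun l : L => (f l).1 = v)).card := by
      symm
      apply Finset.card_bij (fun l _ => f l)
      · intro l hl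
        exact Finset.mem_filter.mpr ⟨Finset.mem_univ _, (Finset.mem_filter.mp hl).2⟩
      · intro a _ b _ hab
        exact hf hab
      · intro r hr
        obtain ⟨l, rfl⟩ := hbij.2 r
        exact ⟨l, Finset.mem_filter.mpr ⟨Finset.mem_univ _, (Finset.mem_filter.mp hr).2⟩, rfl⟩
    have h4 : (univ.filter (fun l : L => (f l).1 = v)) =
        (univ : Finset E).sigma (fun e => univ.filter (fun i : Fin (p e) => (f ⟨e, i⟩).1 = v)) := by
      ext l
      constructor
      · intro hl
        exact Finset.mem_sigma.mpr ⟨Finset.mem_univ _,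
          Finset.mem_filter.mpr ⟨Finset.mem_univ _, (Finset.mem_filter.mp hl).2⟩⟩
      · intro hl
        exact Finset.mem_filter.mpr ⟨Finset.mem_univ _,
          (Finset.mem_filter.mp (Finset.mem_sigma.mp hl).2).2⟩
    rw [h1, h3, h4, Finset.card_sigma]
  rw [hq]
  refine Finset.sum_congr rfl fun e _ => ?_
  by_cases h1 : s e = v
  · subst h1
    by_cases h2 : t e = s e
    · have h3 : (univ.filter (fun i : Fin (p e) => (f ⟨e, i⟩).1 = s e)) = univ := by
        apply Finset.filter_true_of_mem
        intro i _
        rcases hft' ⟨e, i⟩ with h | h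
        · exact h
        · exact h.trans h2
      simp [h2, h3]
    · simp [h2]
  · by_cases h2 : t e = v
    · subst h2
      have h3 := Finset.card_filter_add_card_filter_not (s := (univ : Finset (Fin (p e))))
        (fun i : Fin (p e) => (f ⟨e, i⟩).1 = s e)
      have h4 : (univ.filter (fun i : Fin (p e) => ¬ (f ⟨e, i⟩).1 = s e)) =
          univ.filter (fun i : Fin (p e) => (f ⟨e, i⟩).1 = t e) := by
        apply Finset.filter_congr
        intro i _
        constructor
        · intro h
          exact (hft' ⟨e, i⟩).resolve_left h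
        · intro h h5
          exact h1 (h5.symm.trans h)
      rw [h4] at h3
      simp only [Finset.card_univ, Fintype.card_fin] at h3
      simp only [h1, if_false, if_true, zero_add]
      omega
    · have h3 : (univ.filter (fun i : Fin (p e) => (f ⟨e, i⟩).1 = v)) = ∅ := by
        apply Finset.filter_false_of_mem
        intro i _ h
        rcases hft' ⟨e, i⟩ with h5 | h5
        · exact h1 (h5.symm.trans h)
        · exact h2 (h5.symm.trans h)
      simp [h1, h2, h3]

theorem orient {s t : E → V} {x : E → ℚ} {m : V → ℚ} (hx : ∀ e, 0 ≤ x e) (hm : ∀ v, 0 ≤ m v)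
    (htot : ∑ e, x e = ∑ v, m v)
    (hall : ∀ S : Finset V, ∑ e ∈ univ.filter (fun e => s e ∈ S ∧ t e ∈ S), x e ≤ ∑ v ∈ S, m v) :
    ∃ y : E → ℚ, (∀ e, 0 ≤ y e ∧ y e ≤ x e) ∧
      ∀ v, ∑ e ∈ univ.filter (fun e => s e = v), y e +
        ∑ e ∈ univ.filter (fun e => t e = v), (x e - y e) = m v := by
  classical
  obtain ⟨N, w, hN, hw⟩ := hall1_common_den (Sum.elim x m)
    (fun i => by cases i with
      | inl e => exact hx e
      | inr v => exact hm v)
  have hp : ∀ e, ((w (Sum.inl e) : ℕ) : ℚ) = N * x e := fun e => hw (Sum.inl e)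
  have hq : ∀ v, ((w (Sum.inr v) : ℕ) : ℚ) = N * m v := fun v => hw (Sum.inr v)
  have hN0 : (N : ℚ) ≠ 0 := by exact_mod_cast hN.ne'
  have hN1 : (0 : ℚ) < N := by exact_mod_cast hN
  obtain ⟨y, hy1, hy2⟩ := hall1_nat (s := s) (t := t) (p := fun e => w (Sum.inl e))
    (q := fun v => w (Sum.inr v))
    (by
      have h1 : ((∑ e, w (Sum.inl e) : ℕ) : ℚ) = ((∑ v, w (Sum.inr v) : ℕ) : ℚ) := by
        push_cast
        rw [Finset.sum_congr rfl fun e _ => hp e, Finset.sum_congr rfl fun v _ => hq v,
          ← Finset.mul_sum, ← Finset.mul_sum, htot]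
      exact_mod_cast h1)
    (by
      intro S
      have h1 : ((∑ e ∈ univ.filter (fun e => s e ∈ S ∧ t e ∈ S), w (Sum.inl e) : ℕ) : ℚ) ≤
          ((∑ v ∈ S, w (Sum.inr v) : ℕ) : ℚ) := by
        push_cast
        rw [Finset.sum_congr rfl fun e _ => hp e, Finset.sum_congr rfl fun v _ => hq v,
          ← Finset.mul_sum, ← Finset.mul_sum]
        exact mul_le_mul_of_nonneg_left (hall S) hN1.le
      exact_mod_cast h1)
  refine ⟨fun e => (y e : ℚ) / N, fun e => ⟨by positivity, ?_⟩, fun v => ?_⟩
  · rw [div_le_iff₀ hN1, mul_comm, ← hp e]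
    exact_mod_cast hy1 e
  · have h1 := hy2 v
    have h2 : (∑ e, ((if s e = v then ((y e : ℕ) : ℚ) else 0) +
        (if t e = v then ((w (Sum.inl e) : ℕ) : ℚ) - y e else 0))) = N * m v := by
      rw [← hq v, ← h1]
      push_cast
      refine Finset.sum_congr rfl fun e _ => ?_
      congr 1
      split_ifs
      · rw [Nat.cast_sub (hy1 e)]
      · rfl
    rw [Finset.sum_filter, Finset.sum_filter, ← Finset.sum_add_distrib]
    have h3 : ∑ e, ((if s e = v then (y e : ℚ) / N else 0) +
        (if t e = v then x e - (y e : ℚ) / N else 0)) =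
        (∑ e, ((if s e = v then ((y e : ℕ) : ℚ) else 0) +
        (if t e = v then ((w (Sum.inl e) : ℕ) : ℚ) - y e else 0))) / N := by
      rw [Finset.sum_div]
      refine Finset.sum_congr rfl fun e _ => ?_
      rw [hp e, add_div]
      congr 1
      · split_ifs <;> simp
      · split_ifs
        · field_simp
        · simp
    rw [h3, h2]
    field_simp

end Pool.Agent.Lib.MP_95bb8c_al.OE
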