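import Pool.Agent.Lib.MP_95bb8c_al.Cycles

set_option autoImplicit false
set_option linter.unusedSectionVars false

/-!
# From a rational law on sets with degrees `0`, `2` to a list of cycles
-/

namespace Pool.Agent.Lib.MP_95bb8c_al.OE

open Finset

variable {V E : Type} [Fintype V] [DecidableEq V] [Fintype E] [DecidableEq E]
variable {s t : E → V}

theorem list_of_law (hl : ∀ e, s e ≠ t e) {κ : Type} [Fintype κ] (W : κ → ℚ)
    (hW : ∀ k, 0 ≤ W k) (X : κ → Finset E) (hX : ∀ k, W k ≠ 0 → Deg02 s t (X k)) :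
    ∃ (L : List (Finset E)) (N : ℕ), 0 < N ∧ (∀ C ∈ L, IsCycle s t C) ∧
      ∀ v, ∀ e ∈ cut s t {v}, ∀ f ∈ cut s t {v},
        ((L.countP fun C => e ∈ C ∧ f ∈ C : ℕ) : ℚ) =
          N * ∑ k, W k * (if e ∈ X k ∧ f ∈ X k then 1 else 0) := by
  classical
  obtain ⟨N, m, hN, hm⟩ := common_den W hW
  have hNq : (N : ℚ) ≠ 0 := by exact_mod_cast hN.ne'
  have hdec : ∀ k : κ, ∃ L : List (Finset E), Deg02 s t (X k) →
      (∀ C ∈ L, IsCycle s t C) ∧ ∀ v, ∀ e ∈ cut s t {v}, ∀ f ∈ cut s t {v},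
        (L.countP fun C => e ∈ C ∧ f ∈ C) = if e ∈ X k ∧ f ∈ X k then 1 else 0 := by
    intro k
    by_cases h : Deg02 s t (X k)
    · obtain ⟨L, hL⟩ := decomp hl _ (X k) rfl h
      exact ⟨L, fun _ => hL⟩
    · exact ⟨[], fun h' => absurd h' h⟩
  choose L hL using hdec
  obtain ⟨L0, hL1, hL2⟩ := combine m L
  have hmw : ∀ k : κ, m k ≠ 0 → W k ≠ 0 := by
    intro k hk hk2
    apply hk
    have h1 : (m k : ℚ) = 0 := by rw [hm, hk2, mul_zero]
    exact_mod_cast h1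
  refine ⟨L0, N, hN, ?_, ?_⟩
  · intro C hC
    obtain ⟨k, hk, hk2⟩ := hL1 C hC
    exact (hL k (hX k (hmw k hk))).1 C hk2
  intro v e he f hf
  rw [hL2]
  push_cast
  rw [Finset.mul_sum]
  apply Finset.sum_congr rfl
  intro k _
  by_cases hk : m k = 0
  · have hk' : W k = 0 := by
      have h1 : (N : ℚ) * W k = 0 := by rw [← hm, hk, Nat.cast_zero]
      exact (mul_eq_zero.mp h1).resolve_left hNq
    rw [hk, hk']
    simp
  · rw [(hL k (hX k (hmw k hk))).2 v e he f hf, hm]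
    push_cast
    ring

end Pool.Agent.Lib.MP_95bb8c_al.OE
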