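import Pool.Agent.Lib.MP_95bb8c_al.OE.Cut
import Pool.Agent.Lib.MP_95bb8c_al.OE.Hall1

set_option autoImplicit false
set_option linter.unusedSectionVars false

/-!
# The orientation of a point of the cone with `k = c`

PROOF. Let `x e = if s e = t e then 0 else z e` and `m v = c / 2` for `v ∈ T`, `m a = c`,
`m v = 0` for the other vertices (also `m b = 0`). For `S : Finset V`, counting edges without
loops at the vertices of `S`: `∑ v ∈ S, cw s t z {v} = 2 * i S + cw s t z S`, where `i S` is the sum
of `x` over the edges with both ends in `S` (an edge in `cut S` is in exactly one star of a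
vertex of `S`, a non-loop inside `S` in two, the others in none). `cw {v} = c` for
`v` with `InU` (`deg_eq`), and `0` for useless vertices. So
`2 * i S = c * ((S ∩ T).card + [a ∈ S] + [b ∈ S]) - cw S`. Hall's condition `i S ≤ ∑ v ∈ S, m v`
`= (c / 2) * ((S ∩ T).card + 2 * [a ∈ S])`: if `b ∉ S` or `a ∈ S` use `cw S ≥ 0`; if
`b ∈ S`, `a ∉ S` use `cw S ≥ c` (`sep'`). For `S = univ` there is equality since
`cw univ = 0`. Apply `orient`. The bound `y e ≤ x e` gives the second and third property.
-/

namespace Pool.Agent.Lib.MP_95bb8c_al.OE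

open Finset

variable {V E : Type} [Fintype V] [DecidableEq V] [Fintype E] [DecidableEq E]
variable {s t : E → V} {T : Finset V} {a b : V} {z : E → ℚ} {c : ℚ}

/-- The weights without loops. -/
def nl (s t : E → V) (z : E → ℚ) (e : E) : ℚ := if s e = t e then 0 else z e

/-- The prescribed out-degrees. -/
def outd (T : Finset V) (a : V) (c : ℚ) (v : V) : ℚ :=
  if v ∈ T then c / 2 else if v = a then c else 0

theorem orient_cw_single (v : V) : cw s t z {v} = ∑ e, if s e = t e then 0 else
    ((if s e = v then z e else 0) + (if t e = v then z e else 0)) := by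
  rw [cw_def]
  refine Finset.sum_congr rfl fun e _ => ?_
  simp only [Finset.mem_singleton]
  by_cases h : s e = t e
  · rw [if_pos h, if_pos]
    rw [h]
  · rw [if_neg h]
    by_cases h1 : s e = v
    · have h2 : t e ≠ v := fun h2 => h (h1.trans h2.symm)
      rw [if_neg (by tauto), if_pos h1, if_neg h2, add_zero]
    · by_cases h2 : t e = v
      · rw [if_neg (by tauto), if_neg h1, if_pos h2, zero_add]
      · rw [if_pos (by tauto), if_neg h1, if_neg h2, add_zero]

theorem orient_count (S : Finset V) : ∑ v ∈ S, cw s t z {v} =
    2 * ∑ e ∈ univ.filter (fun e => s e ∈ S ∧ t e ∈ S), nl s t z e + cw s t z S := by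
  simp only [orient_cw_single]
  rw [Finset.sum_comm, Finset.sum_filter, cw_def, Finset.mul_sum, ← Finset.sum_add_distrib]
  refine Finset.sum_congr rfl fun e _ => ?_
  unfold nl
  by_cases h : s e = t e
  · rw [if_pos h]
    simp [h]
  · simp only [if_neg h]
    rw [Finset.sum_add_distrib, Finset.sum_ite_eq, Finset.sum_ite_eq]
    by_cases h1 : s e ∈ S <;> by_cases h2 : t e ∈ S <;> simp [h1, h2]
    ring

theorem orient_deg (h : KK s t T a b c c z) (v : V) :
    cw s t z {v} = 2 * outd T a c v - (if v = a then c else 0) + (if v = b then c else 0) := by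
  have hF := h.frame
  unfold outd
  by_cases hv : v ∈ T
  · have h1 : v ≠ a := fun h1 => hF.ha (h1 ▸ hv)
    have h2 : v ≠ b := fun h2 => hF.hb (h2 ▸ hv)
    rw [if_pos hv, if_neg h1, if_neg h2, h.degT v hv]
    ring
  · rw [if_neg hv]
    by_cases h1 : v = a
    · subst h1
      rw [if_pos rfl, if_neg hF.hab, h.dega]
      ring
    · by_cases h2 : v = b
      · subst h2
        rw [if_neg h1, if_pos rfl, h.degb]
        ring
      · rw [if_neg h1, if_neg h2]
        have h3 : cw s t z {v} = cw s t z ∅ := by
          refine cw_congr hF fun w hw => ?_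
          rw [Finset.mem_singleton]
          refine iff_of_false ?_ (Finset.notMem_empty w)
          rintro rfl
          rcases hw with hw | hw | hw
          · exact hv hw
          · exact h1 hw
          · exact h2 hw
        rw [h3, cw_empty]
        ring

theorem orient_sum (h : KK s t T a b c c z) (S : Finset V) :
    2 * ∑ e ∈ univ.filter (fun e => s e ∈ S ∧ t e ∈ S), nl s t z e =
      2 * ∑ v ∈ S, outd T a c v - (if a ∈ S then c else 0) + (if b ∈ S then c else 0) -
        cw s t z S := by
  have h1 := orient_count (s := s) (t := t) (z := z) S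
  have h2 : ∑ v ∈ S, cw s t z {v} =
      2 * ∑ v ∈ S, outd T a c v - (if a ∈ S then c else 0) + (if b ∈ S then c else 0) := by
    rw [Finset.sum_congr rfl fun v _ => orient_deg h v, Finset.sum_add_distrib,
      Finset.sum_sub_distrib, ← Finset.mul_sum, Finset.sum_ite_eq', Finset.sum_ite_eq']
  linarith

theorem orient_KK (h : KK s t T a b c c z) (hc : 0 < c) :
    ∃ y : E → ℚ, (∀ e, 0 ≤ y e ∧ y e ≤ nl s t z e) ∧
      ∀ v, ∑ e ∈ univ.filter (fun e => s e = v), y e +
        ∑ e ∈ univ.filter (fun e => t e = v), (nl s t z e - y e) = outd T a c v := by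
  refine orient (x := nl s t z) (m := outd T a c) (fun e => ?_) (fun v => ?_) ?_ ?_
  · unfold nl
    split_ifs
    · exact le_rfl
    · exact h.nonneg e
  · unfold outd
    split_ifs <;> linarith
  · have h1 := orient_sum h univ
    rw [cw_univ] at h1
    simp only [Finset.mem_univ, and_self, Finset.filter_true, if_true] at h1
    linarith
  · intro S
    have h1 := orient_sum h S
    have h2 : 0 ≤ cw s t z S := cw_nonneg h.nonneg S
    by_cases hb : b ∈ S
    · by_cases ha : a ∈ S
      · rw [if_pos ha, if_pos hb] at h1
        linarith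
      · rw [if_neg ha, if_pos hb] at h1
        have h3 : c ≤ cw s t z S := sep' h (by tauto)
        linarith
    · rw [if_neg hb] at h1
      have h3 : 0 ≤ (if a ∈ S then c else 0) := by split_ifs <;> linarith
      linarith

end Pool.Agent.Lib.MP_95bb8c_al.OE
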