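import Pool.Agent.Lib.MP_95bb8c_al.OE.YMain
import Pool.Agent.Lib.MP_95bb8c_al.OE.Step

set_option autoImplicit false
set_option linter.unusedSectionVars false

/-!
# Decomposition: `z` is a sum of perfect matchings of `T` and of a part with `c = k`

PROOF of `peelY`. Index type of the constraints: `J = (E ⊕ Finset V) ⊕ (Finset V ⊕ Unit)`.
Slacks `g = slackY`:
`inl (inl e) ↦ z e`, `inl (inr S) ↦ if Odd (S ∩ T).card then cw s t z S - c else 0`,
`inr (inl X) ↦ if a ∈ X ∧ b ∉ X then cw s t z X - k else 0`, `inr (inr ()) ↦ c - k`.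
Strong induction on `npos g` (for all `z`, `c`).
If `c = k`: empty index type, `o = z`. If `k < c`: take `M` of `exists_tight_pm` and the speeds
`h`: `inl (inl e) ↦ if e ∈ M then 1 else 0`,
`inl (inr S) ↦ if Odd (S ∩ T).card then (M ∩ cut s t S).card - 1 else 0`,
`inr (inl X) ↦ if a ∈ X ∧ b ∉ X then (M ∩ cut s t X).card else 0`, `inr (inr ()) ↦ 1`.
Slack `0` implies speed `0`: for `e` since `M` is in the support; for `S` by the second property
of `M`; for `X` with `cw X = k`: `X` is `T`-even because `T`-odd sets have weight `≥ c > k`, so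
`M ∩ cut s t X = ∅`. `exists_step` gives `l > 0` with all `g j - l * h j ≥ 0` and a smaller
`npos`. Put `z' e = z e - l * (if e ∈ M then 1 else 0)`, `c' = c - l ≥ k`. Then
`KK s t T a b c' k z'` (`cw_sub`, `cw_smul`, `cw_ind`; the degrees of `M` at `T` are `1`
(`S = {v}`), at `a` and `b` they are `0` since the edges of `M` have both ends in `T`),
and `g j - l * h j` are the slacks of `z'`, `c'`. The induction hypothesis gives
`ι, w, M', o` for `z'`: use `Option ι` with the weight `l` and the matching `M` at `none`. The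
supports: `z' e ≠ 0` implies `z e ≠ 0` (if `z e = 0` then `e ∉ M`, so `z' e = 0`).
-/

namespace Pool.Agent.Lib.MP_95bb8c_al.OE

open Finset

variable {V E : Type} [Fintype V] [DecidableEq V] [Fintype E] [DecidableEq E]
variable {s t : E → V} {T : Finset V} {a b : V} {z : E → ℚ} {c k : ℚ}

/-- The slacks. -/
def peely_slack (s t : E → V) (T : Finset V) (a b : V) (k : ℚ) (z : E → ℚ) (c : ℚ) :
    (E ⊕ Finset V) ⊕ (Finset V ⊕ Unit) → ℚ :=
  Sum.elim (Sum.elim z (fun S => if Odd (S ∩ T).card then cw s t z S - c else 0))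
    (Sum.elim (fun X => if a ∈ X ∧ b ∉ X then cw s t z X - k else 0) (fun _ => c - k))

/-- The speeds. -/
def peely_speed (s t : E → V) (T : Finset V) (a b : V) (M : Finset E) :
    (E ⊕ Finset V) ⊕ (Finset V ⊕ Unit) → ℚ :=
  Sum.elim (Sum.elim (fun e => if e ∈ M then 1 else 0)
      (fun S => if Odd (S ∩ T).card then ((M ∩ cut s t S).card : ℚ) - 1 else 0))
    (Sum.elim (fun X => if a ∈ X ∧ b ∉ X then ((M ∩ cut s t X).card : ℚ) else 0) (fun _ => 1))

theorem peely_aux (hk : 0 < k) (m : ℕ) : ∀ (z : E → ℚ) (c : ℚ),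
    npos (peely_slack s t T a b k z c) = m → KK s t T a b c k z → k ≤ c →
    ∃ (ι : Type) (_ : Fintype ι) (w : ι → ℚ) (M : ι → Finset E) (o : E → ℚ), (∀ i, 0 < w i) ∧
      (∀ i, Inside s t T z (M i) ∧ ∀ v ∈ T, (M i ∩ cut s t {v}).card = 1) ∧
      ∑ i, w i = c - k ∧ KK s t T a b k k o ∧
      ∀ e, z e = ∑ i, w i * (if e ∈ M i then 1 else 0) + o e := by
  induction m using Nat.strong_induction_on with
  | _ m IH =>
  intro z c hm h hkc
  rcases hkc.eq_or_lt with rfl | hlt
  · refine ⟨Empty, inferInstance, fun i => i.elim, fun i => i.elim, z, fun i => i.elim,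
      fun i => i.elim, ?_, h, ?_⟩
    · simp
    · intro e
      simp
  obtain ⟨M, hI, hO, hE⟩ := exists_tight_pm h hk hlt
  have hMdeg : ∀ v ∈ T, (M ∩ cut s t {v}).card = 1 := by
    intro v hv
    apply hO
    · rw [Finset.singleton_inter_of_mem hv]
      exact Nat.odd_iff.mpr rfl
    · exact h.degT v hv
  have hM0 : ∀ v, v ∉ T → (M ∩ cut s t {v}).card = 0 := by
    intro v hv
    rw [Finset.card_eq_zero, Finset.eq_empty_iff_forall_notMem]
    intro e he
    rw [Finset.mem_inter, mem_cut_singleton] at he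
    obtain ⟨-, h2, h3, -⟩ := hI e he.1
    apply he.2
    refine iff_of_false ?_ ?_
    · rintro rfl
      exact hv h2
    · rintro rfl
      exact hv h3
  set g := peely_slack s t T a b k z c with hg
  set q := peely_speed s t T a b M with hq
  have hgnn : ∀ j, 0 ≤ g j := by
    rintro ((e | S) | (X | u))
    · exact h.nonneg e
    · show 0 ≤ if Odd (S ∩ T).card then cw s t z S - c else 0
      split_ifs with hS
      · exact sub_nonneg.mpr (h.odd S hS)
      · exact le_rfl
    · show 0 ≤ if a ∈ X ∧ b ∉ X then cw s t z X - k else 0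
      split_ifs with hX
      · exact sub_nonneg.mpr (h.sep X hX.1 hX.2)
      · exact le_rfl
    · show 0 ≤ c - k
      linarith
  have hgq : ∀ j, g j = 0 → q j = 0 := by
    rintro ((e | S) | (X | u)) hj
    · show (if e ∈ M then (1 : ℚ) else 0) = 0
      rw [if_neg]
      intro he
      exact (hI e he).1 hj
    · have hj' : (if Odd (S ∩ T).card then cw s t z S - c else 0) = 0 := hj
      show (if Odd (S ∩ T).card then ((M ∩ cut s t S).card : ℚ) - 1 else 0) = 0
      split_ifs with hS
      · rw [if_pos hS] at hj'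
        rw [hO S hS (by linarith)]
        norm_num
      · rfl
    · have hj' : (if a ∈ X ∧ b ∉ X then cw s t z X - k else 0) = 0 := hj
      show (if a ∈ X ∧ b ∉ X then ((M ∩ cut s t X).card : ℚ) else 0) = 0
      split_ifs with hX
      · rw [if_pos hX] at hj'
        have hXe : Even (X ∩ T).card := by
          rw [← Nat.not_odd_iff_even]
          intro hodd
          have := h.odd X hodd
          linarith
        rw [hE X hX.1 hX.2 hXe (by linarith)]
        simp
      · rfl
    · have hj' : c - k = 0 := hj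
      exfalso
      linarith
  obtain ⟨l, hl, hnn, hlt'⟩ := exists_step g q hgnn hgq ⟨Sum.inr (Sum.inr ()), one_pos⟩
  set z' : E → ℚ := fun e => z e - l * (if e ∈ M then 1 else 0) with hz'
  have hcw : ∀ S : Finset V, cw s t z' S = cw s t z S - l * ((M ∩ cut s t S).card : ℚ) := by
    intro S
    rw [hz', cw_sub, cw_smul, cw_ind]
  have hKK : KK s t T a b (c - l) k z' := by
    refine ⟨h.frame, fun e => hnn (Sum.inl (Sum.inl e)), ?_, ?_, ?_, ?_, ?_⟩
    · intro v hv
      rw [hcw, h.degT v hv, hMdeg v hv]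
      push_cast
      ring
    · rw [hcw, h.dega, hM0 a h.frame.ha]
      push_cast
      ring
    · rw [hcw, h.degb, hM0 b h.frame.hb]
      push_cast
      ring
    · intro S hS
      have h1 : 0 ≤ (if Odd (S ∩ T).card then cw s t z S - c else 0) -
        l * (if Odd (S ∩ T).card then ((M ∩ cut s t S).card : ℚ) - 1 else 0) :=
        hnn (Sum.inl (Sum.inr S))
      rw [if_pos hS, if_pos hS] at h1
      rw [hcw]
      linarith
    · intro X haX hbX
      have h1 : 0 ≤ (if a ∈ X ∧ b ∉ X then cw s t z X - k else 0) -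
        l * (if a ∈ X ∧ b ∉ X then ((M ∩ cut s t X).card : ℚ) else 0) :=
        hnn (Sum.inr (Sum.inl X))
      rw [if_pos ⟨haX, hbX⟩, if_pos ⟨haX, hbX⟩] at h1
      rw [hcw]
      linarith
  have hck : k ≤ c - l := by
    have h1 : 0 ≤ (c - k) - l * 1 := hnn (Sum.inr (Sum.inr ()))
    linarith
  have hslack : peely_slack s t T a b k z' (c - l) = fun j => g j - l * q j := by
    funext j
    rcases j with (e | S) | (X | u)
    · rfl
    · show (if Odd (S ∩ T).card then cw s t z' S - (c - l) else 0) =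
        (if Odd (S ∩ T).card then cw s t z S - c else 0) -
          l * (if Odd (S ∩ T).card then ((M ∩ cut s t S).card : ℚ) - 1 else 0)
      split_ifs
      · rw [hcw]
        ring
      · ring
    · show (if a ∈ X ∧ b ∉ X then cw s t z' X - k else 0) =
        (if a ∈ X ∧ b ∉ X then cw s t z X - k else 0) -
          l * (if a ∈ X ∧ b ∉ X then ((M ∩ cut s t X).card : ℚ) else 0)
      split_ifs
      · rw [hcw]
        ring
      · ring
    · show c - l - k = (c - k) - l * 1
      ring
  rw [hm] at hlt'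
  obtain ⟨ι, hι, w, M', o, hw, hM', hsum, ho, hmar⟩ :=
    IH _ hlt' z' (c - l) (by rw [hslack]) hKK hck
  refine ⟨Option ι, inferInstance, fun i => i.elim l w, fun i => i.elim M M', o, ?_, ?_, ?_,
    ho, ?_⟩
  · rintro (_ | i)
    · exact hl
    · exact hw i
  · rintro (_ | i)
    · exact ⟨hI, hMdeg⟩
    · refine ⟨?_, (hM' i).2⟩
      intro e he
      obtain ⟨h1, h2⟩ := (hM' i).1 e he
      refine ⟨fun h3 => h1 ?_, h2⟩
      show z e - l * (if e ∈ M then 1 else 0) = 0
      rw [h3, if_neg (fun h4 => (hI e h4).1 h3)]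
      ring
  · rw [Fintype.sum_option]
    show l + ∑ i, w i = c - k
    linarith
  · intro e
    rw [Fintype.sum_option]
    show z e = l * (if e ∈ M then 1 else 0) + ∑ i, w i * (if e ∈ M' i then 1 else 0) + o e
    have h1 := hmar e
    have h2 : z' e = z e - l * (if e ∈ M then 1 else 0) := rfl
    linarith

theorem peelY (h : KK s t T a b c k z) (hk : 0 < k) (hkc : k ≤ c) :
    ∃ (ι : Type) (_ : Fintype ι) (w : ι → ℚ) (M : ι → Finset E) (o : E → ℚ), (∀ i, 0 < w i) ∧
      (∀ i, Inside s t T z (M i) ∧ ∀ v ∈ T, (M i ∩ cut s t {v}).card = 1) ∧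
      ∑ i, w i = c - k ∧ KK s t T a b k k o ∧
      ∀ e, z e = ∑ i, w i * (if e ∈ M i then 1 else 0) + o e :=
  peely_aux hk _ z c rfl h hkc

end Pool.Agent.Lib.MP_95bb8c_al.OE
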