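import Pool.Agent.Lib.MP_95bb8c_al.OE.GadKK

set_option autoImplicit false
set_option linter.unusedSectionVars false

/-!
# From the gadget graph back to the multigraph

For `M : Finset (E ⊕ GV × GV)` put `old M = {e | inl e ∈ M}`.

PROOF of `pull_star` (`v ∈ TP`). The edges of `M` at `⟨(v, none), _⟩`: an `inl e` is there iff
`e ∈ cut s t {v}` (`mem_cut_inl`, `ext_of_mem`); no `inr (p, q)` of `M` is there, because for
`inr (p, q) ∈ M` the weight `gb TP D p q` is not zero, so `p ≠ q`, `p.1.1 = q.1.1 ∉ TP`. See the
first part of the proof of `exists_joins` (Joins.lean).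

PROOF of `pull_even` (`v ∉ TP`, each vertex of the gadget of `v` on exactly one edge of `M`). This
is the second part of the proof of `exists_joins` (Joins.lean), the claim
`Even (F i ∩ cut s t {v}).card`: the gadget `fib v` has an even number of vertices (`fib_card`), the
inner edges of `M` cover an even number of them, the others are covered by the old edges of `M` at
`v`.
-/

namespace Pool.Agent.Lib.MP_95bb8c_al.OE

open Finset

variable {V E : Type} [Fintype V] [DecidableEq V] [Fintype E] [DecidableEq E]
variable {s t : E → V} {T : Finset V} {a b : V} {D d : ℕ}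

open Classical in
/-- The old edges of a set of edges of the gadget graph. -/
noncomputable def old (M : Finset (E ⊕ (GV s t (TP T a b) × GV s t (TP T a b)))) : Finset E :=
  univ.filter fun e => Sum.inl e ∈ M

theorem mem_old {M : Finset (E ⊕ (GV s t (TP T a b) × GV s t (TP T a b)))} {e : E} :
    e ∈ old M ↔ Sum.inl e ∈ M := by
  classical
  simp [old]

theorem pull_supp {M : Finset (E ⊕ (GV s t (TP T a b) × GV s t (TP T a b)))}
    (hM : ∀ x ∈ M, gz s t T a b D x ≠ 0) (p q : GV s t (TP T a b)) (hpq : Sum.inr (p, q) ∈ M) :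
    p ≠ q ∧ p.1.1 = q.1.1 ∧ p.1.1 ∉ TP T a b := by
  by_contra hcon
  refine hM _ hpq ?_
  show (D : ℚ) * (gb (TP T a b) D p q / 2) = 0
  unfold gb
  rw [if_neg hcon, zero_div, mul_zero]

theorem pull_star (hl : ∀ e, s e ≠ t e)
    {M : Finset (E ⊕ (GV s t (TP T a b) × GV s t (TP T a b)))}
    (hM : ∀ x ∈ M, gz s t T a b D x ≠ 0) {v : V} (hv : v ∈ TP T a b) :
    (old M ∩ cut s t {v}).card =
      (M ∩ cut (gs (TP T a b) hl) (gt (TP T a b) hl) {⟨(v, none), Or.inl hv⟩}).card := by
  classical
  rw [← Finset.card_map (Function.Embedding.inl (α := E)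
    (β := GV s t (TP T a b) × GV s t (TP T a b)))]
  congr 1
  ext x
  rw [Finset.mem_map, Finset.mem_inter]
  constructor
  · rintro ⟨e, he, rfl⟩
    rw [Finset.mem_inter, mem_old] at he
    refine ⟨he.1, ?_⟩
    show Sum.inl e ∈ _
    rw [mem_cut_inl, ext_of_mem hv]
    exact he.2
  · rintro ⟨hx1, hx2⟩
    rcases x with e | ⟨p, q⟩
    · rw [mem_cut_inl, ext_of_mem hv] at hx2
      exact ⟨e, Finset.mem_inter.mpr ⟨mem_old.mpr hx1, hx2⟩, rfl⟩
    · exfalso
      obtain ⟨h5, h6, h7⟩ := pull_supp hM p q hx1
      rw [mem_cut_singleton] at hx2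
      have h8 : p = ⟨(v, none), Or.inl hv⟩ ∨ q = ⟨(v, none), Or.inl hv⟩ := by
        by_contra h9
        push Not at h9
        exact hx2 (iff_of_false h9.1 h9.2)
      rcases h8 with h8 | h8
      · rw [h8] at h7
        exact h7 hv
      · rw [h6, h8] at h7
        exact h7 hv

theorem pull_even (hl : ∀ e, s e ≠ t e)
    {M : Finset (E ⊕ (GV s t (TP T a b) × GV s t (TP T a b)))}
    (hM : ∀ x ∈ M, gz s t T a b D x ≠ 0) {v : V} (hv : v ∉ TP T a b)
    (hd : ∀ p : GV s t (TP T a b), p.1.1 = v →
      (M ∩ cut (gs (TP T a b) hl) (gt (TP T a b) hl) {p}).card = 1) :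
    Even (old M ∩ cut s t {v}).card := by
  classical
  set Φ := fib s t (TP T a b) v with hΦ
  have hΦe : Even Φ.card := by
    rw [hΦ, fib_card hv]
    by_cases ho : Odd (dg s t v)
    · rw [if_pos ho]
      exact Odd.add_odd ho odd_one
    · rw [if_neg ho, add_zero]
      exact Nat.not_odd_iff_even.mp ho
  have hc1 : Φ.card = ∑ x ∈ M,
      (Φ.filter fun p => x ∈ cut (gs (TP T a b) hl) (gt (TP T a b) hl) {p}).card := by
    have : Φ.card = ∑ p ∈ Φ, (M ∩ cut (gs (TP T a b) hl) (gt (TP T a b) hl) {p}).card := by
      rw [Finset.sum_congr rfl (fun p hp => hd p (mem_fib.mp (hΦ ▸ hp))), Finset.card_eq_sum_ones]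
    rw [this]
    simp_rw [Finset.card_eq_sum_ones, Finset.sum_filter]
    rw [Finset.sum_comm]
    apply Finset.sum_congr rfl
    intro p _
    rw [← Finset.sum_filter, Finset.filter_mem_eq_inter]
  have hc2 : (old M ∩ cut s t {v}).card =
      ∑ x ∈ M, (if ∃ e ∈ cut s t {v}, x = Sum.inl e then 1 else 0) := by
    rw [Finset.sum_boole]
    simp only [Nat.cast_id]
    rw [← Finset.card_map (Function.Embedding.inl (α := E) (β := GV s t (TP T a b) × GV s t (TP T a b)))]
    congr 1
    ext x
    rw [Finset.mem_map, Finset.mem_filter]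
    constructor
    · rintro ⟨e, he, rfl⟩
      rw [Finset.mem_inter, mem_old] at he
      exact ⟨he.1, e, he.2, rfl⟩
    · rintro ⟨hx1, e, he, rfl⟩
      exact ⟨e, Finset.mem_inter.mpr ⟨mem_old.mpr hx1, he⟩, rfl⟩
  have hsum : Even (Φ.card + (old M ∩ cut s t {v}).card) := by
    rw [hc1, hc2, ← Finset.sum_add_distrib]
    apply Finset.even_sum
    rintro (e | ⟨p, q⟩) hx
    · have key : ∀ x y : GV s t (TP T a b), x.1.1 = v → y.1.1 ≠ v →
          (Φ.filter fun p => ¬ (x = p ↔ y = p)) = {x} := by
        intro x y ha hb
        ext p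
        rw [Finset.mem_filter, Finset.mem_singleton, hΦ, mem_fib]
        constructor
        · rintro ⟨h5, h6⟩
          by_contra h7
          apply h6
          refine iff_of_false (fun h => h7 h.symm) ?_
          rintro rfl
          exact hb h5
        · rintro rfl
          refine ⟨ha, fun h => ?_⟩
          have := h.mp rfl
          rw [this] at hb
          exact hb ha
      have hmem : ∀ p, Sum.inl e ∈ cut (gs (TP T a b) hl) (gt (TP T a b) hl) {p} ↔
          ¬ (pt s t (TP T a b) (s e) e (mem_cut_s (hl e)) = p ↔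
            pt s t (TP T a b) (t e) e (mem_cut_t (hl e)) = p) := by
        intro p
        rw [mem_cut_inl, mem_ext, Finset.mem_singleton, Finset.mem_singleton]
      simp_rw [hmem]
      by_cases he : e ∈ cut s t {v}
      · rw [if_pos ⟨e, he, rfl⟩]
        rcases end_of_mem (hl := hl) he with ⟨h8, h9⟩ | ⟨h8, h9⟩
        · rw [key _ _ (by rw [pt_fst]; exact h8) (by rw [pt_fst]; exact h9),
            Finset.card_singleton]
          decide
        · have h10 := key (pt s t (TP T a b) (t e) e (mem_cut_t (hl e)))
            (pt s t (TP T a b) (s e) e (mem_cut_s (hl e))) (by rw [pt_fst]; exact h8)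
            (by rw [pt_fst]; exact h9)
          have h11 : (Φ.filter fun p => ¬ (pt s t (TP T a b) (s e) e (mem_cut_s (hl e)) = p ↔
            pt s t (TP T a b) (t e) e (mem_cut_t (hl e)) = p)) =
            (Φ.filter fun p => ¬ (pt s t (TP T a b) (t e) e (mem_cut_t (hl e)) = p ↔
            pt s t (TP T a b) (s e) e (mem_cut_s (hl e)) = p)) := by
            apply Finset.filter_congr
            intro p _
            exact not_congr iff_comm
          rw [h11, h10, Finset.card_singleton]
          decide
      · rw [if_neg (by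
          rintro ⟨f, hf, hef⟩
          rw [Sum.inl.injEq] at hef
          subst hef
          exact he hf)]
        have h5 : (Φ.filter fun p => ¬ (pt s t (TP T a b) (s e) e (mem_cut_s (hl e)) = p ↔
            pt s t (TP T a b) (t e) e (mem_cut_t (hl e)) = p)) = ∅ := by
          rw [Finset.filter_eq_empty_iff]
          intro p hp hp2
          rw [hΦ, mem_fib] at hp
          rw [mem_cut_singleton, not_not] at he
          apply hp2
          have h6 : ¬ (s e = v ∧ t e = v) := fun h => hl e (h.1.trans h.2.symm)
          refine iff_of_false ?_ ?_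
          · intro h7
            have : s e = v := by rw [← hp, ← h7, pt_fst]
            exact h6 ⟨this, he.mp this⟩
          · intro h7
            have : t e = v := by rw [← hp, ← h7, pt_fst]
            exact h6 ⟨he.mpr this, this⟩
        rw [h5]
        simp
    · obtain ⟨h5, h6, h7⟩ := pull_supp hM p q hx
      rw [if_neg (by
        rintro ⟨f, hf, hef⟩
        exact absurd hef (by simp))]
      have hmem : ∀ r, Sum.inr (p, q) ∈ cut (gs (TP T a b) hl) (gt (TP T a b) hl) {r} ↔
          ¬ (p = r ↔ q = r) := by
        intro r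
        rw [mem_cut_singleton]
        rfl
      simp_rw [hmem]
      by_cases hpv : p.1.1 = v
      · have h8 : (Φ.filter fun r => ¬ (p = r ↔ q = r)) = {p, q} := by
          ext r
          rw [Finset.mem_filter, Finset.mem_insert, Finset.mem_singleton, hΦ, mem_fib]
          constructor
          · rintro ⟨-, h9⟩
            by_contra h10
            push Not at h10
            exact h9 (iff_of_false h10.1.symm h10.2.symm)
          · rintro (rfl | rfl)
            · exact ⟨hpv, fun h => h5 (h.mp rfl).symm⟩
            · exact ⟨h6 ▸ hpv, fun h => h5 (h.mpr rfl)⟩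
        rw [h8, Finset.card_pair h5]
        decide
      · have h8 : (Φ.filter fun r => ¬ (p = r ↔ q = r)) = ∅ := by
          rw [Finset.filter_eq_empty_iff]
          intro r hr hr2
          rw [hΦ, mem_fib] at hr
          apply hr2
          refine iff_of_false ?_ ?_
          · rintro rfl
            exact hpv hr
          · rintro rfl
            exact hpv (h6.trans hr)
        rw [h8]
        simp
  rw [Nat.even_add] at hsum
  exact hsum.mp hΦe

end Pool.Agent.Lib.MP_95bb8c_al.OE
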