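import Pool.Agent.Lib.MP_95bb8c_al.OE.Chain

set_option autoImplicit false
set_option linter.unusedSectionVars false

/-!
# Subdivision of the edges between the terminals: definitions

Edges of weight `0` and loops are removed. Each edge `e` between `a` and `b` of positive weight is
replaced by a path `a - p - q - b` with new ordinary vertices `p = inr (e, false)`,
`q = inr (e, true)`, weights `z e`, `c - z e`, `z e`; the middle edge keeps the name `inl e`, the
outer edges are `inr (e, false)` (at `a`) and `inr (e, true)` (at `b`).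
-/

namespace Pool.Agent.Lib.MP_95bb8c_al.OE

open Finset

variable {V E : Type} [Fintype V] [DecidableEq V] [Fintype E] [DecidableEq E]

/-- `σ` identifies the part of positive weight of the star of `b` with that of the star of `a`;
edges between `a` and `b` have weight at most `c / 2`. -/
structure Axis0 (s t : E → V) (a b : V) (c : ℚ) (z : E → ℚ) (σ τ : E → E) : Prop where
  fwd : ∀ e ∈ cut s t {b}, z e ≠ 0 → σ e ∈ cut s t {a} ∧ τ (σ e) = e ∧ z (σ e) = z e
  bwd : ∀ f ∈ cut s t {a}, z f ≠ 0 → τ f ∈ cut s t {b} ∧ σ (τ f) = f ∧ z (τ f) = z f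
  small : ∀ e ∈ cut s t {a}, e ∈ cut s t {b} → 2 * z e ≤ c

variable (s t : E → V) (a b : V) (c : ℚ) (z : E → ℚ) (σ τ : E → E)

/-- Edges between the terminals with positive weight. -/
abbrev AB : Type := {e : E // z e ≠ 0 ∧ e ∈ cut s t {a} ∧ e ∈ cut s t {b}}

/-- Edges of positive weight which are no loops. -/
abbrev E0 : Type := {e : E // z e ≠ 0 ∧ s e ≠ t e}

/-- First endpoints. -/
def sbS : E0 s t z ⊕ (AB s t a b z × Bool) → V ⊕ (AB s t a b z × Bool) :=
  Sum.elim (fun e => if h : e.1 ∈ cut s t {a} ∧ e.1 ∈ cut s t {b}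
    then Sum.inr (⟨e.1, e.2.1, h⟩, false) else Sum.inl (s e.1))
    (fun p => Sum.inl (if p.2 then b else a))

/-- Second endpoints. -/
def sbT : E0 s t z ⊕ (AB s t a b z × Bool) → V ⊕ (AB s t a b z × Bool) :=
  Sum.elim (fun e => if h : e.1 ∈ cut s t {a} ∧ e.1 ∈ cut s t {b}
    then Sum.inr (⟨e.1, e.2.1, h⟩, true) else Sum.inl (t e.1))
    (fun p => Sum.inr p)

/-- Weights. -/
def sbz : E0 s t z ⊕ (AB s t a b z × Bool) → ℚ :=
  Sum.elim (fun e => if e.1 ∈ cut s t {a} ∧ e.1 ∈ cut s t {b} then c - z e.1 else z e.1)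
    (fun p => z p.1.1)

/-- Ordinary vertices. -/
def sbV (T : Finset V) : Finset (V ⊕ (AB s t a b z × Bool)) := T.disjSum univ

/-- The old edge. -/
def psi : E0 s t z ⊕ (AB s t a b z × Bool) → E := Sum.elim (fun e => e.1) (fun p => p.1.1)

/-- The new edge at `a` (`i = false`) or `b` (`i = true`) which represents the old edge `e`
(default `d`). -/
def phi (i : Bool) (e : E) (d : E0 s t z ⊕ (AB s t a b z × Bool)) :
    E0 s t z ⊕ (AB s t a b z × Bool) :=
  if h : z e ≠ 0 ∧ e ∈ cut s t {a} ∧ e ∈ cut s t {b} then Sum.inr (⟨e, h⟩, i)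
  else if h2 : z e ≠ 0 ∧ s e ≠ t e then Sum.inl ⟨e, h2⟩ else d

/-- The new `σ`. -/
def sbσ (x : E0 s t z ⊕ (AB s t a b z × Bool)) : E0 s t z ⊕ (AB s t a b z × Bool) :=
  phi s t a b z false (σ (psi s t a b z x)) x

/-- The new `τ`. -/
def sbτ (x : E0 s t z ⊕ (AB s t a b z × Bool)) : E0 s t z ⊕ (AB s t a b z × Bool) :=
  phi s t a b z true (τ (psi s t a b z x)) x

end Pool.Agent.Lib.MP_95bb8c_al.OE
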