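import Pool.Agent.Lib.MP_95bb8c_al.OE.SubDefs

set_option autoImplicit false
set_option linter.unusedSectionVars false

/-!
# The subdivided graph is clean and has an axis

Notation: new graph `G' = (sbS, sbT, T' = sbV T, inl a, inl b, c, sbz)`. An edge `e : E0` is special if
it is at `a` and at `b`. A special edge has the ends `a` and `b`.

PROOF of `sub_clean`. Positive weights: `c - z e > 0` as `2 * z e ≤ c`, `0 < c`. No loops: clear. Frame:
clear (`inl a`, `inl b` are not in `T'`; a non-special edge has ends `inl v` with `InU v`).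
Let `S' : Finset (V ⊕ AB × Bool)`, `S = S'.toLeft`. Then
`cw' S' = ∑ (e : E0 not special) [e ∈ cut s t S] * z e + ∑ (e : AB) cost e`, where, with
`p = [inr (e, false) ∈ S']`, `q = [inr (e, true) ∈ S']`,
`cost e = (c - z e) * [p ≠ q] + z e * [(a ∈ S) ≠ p] + z e * [(b ∈ S) ≠ q]`.
And `cw s t z S = ∑ (e : E0 not special) [e ∈ cut S] * z e + ∑ (e : AB) z e * [(a ∈ S) ≠ (b ∈ S)]`.
(1) `cost e ≥ z e * [(a ∈ S) ≠ (b ∈ S)]`: clear if `p = q`; if `p ≠ q` then
`cost e ≥ c - z e ≥ z e`. So `cw' S' ≥ cw s t z S`.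
(2) if `(a ∈ S) = (b ∈ S)` and `p ≠ q` then `cost e ≥ (c - z e) + z e = c`.
Parity: `(S' ∩ T').card = (S ∩ T).card + ∑ (e : AB) (p + q)`. Let `S'` be essential. If `S` is
essential then `cw' S' ≥ cw S ≥ c` by (1). Otherwise `S` does not separate, `(S ∩ T).card` is
even, `S'` does not separate, so `(S' ∩ T').card` is odd and some `e : AB` has `p ≠ q`: (2).
Degrees: `{inl v}`, `v ∈ T`: special edges are not at `v`, so the star is that of `v` (loops and
edges of weight `0` removed), weight `c`. `{inl a}`: the non-special edges at `a` and the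
`inr (e, false)`: weight `cw s t z {a} = c`. The same at `b`. `{inr (e, i)}`: the edges `inl e` and
`inr (e, i)`: weight `(c - z e) + z e`. (Or use the formula for `cw'`.)
-/

namespace Pool.Agent.Lib.MP_95bb8c_al.OE

open Finset

variable {V E : Type} [Fintype V] [DecidableEq V] [Fintype E] [DecidableEq E]
variable {s t : E → V} {T : Finset V} {a b : V} {z : E → ℚ} {c : ℚ} {σ τ : E → E}

/-- does `S'` contain the new vertex `(e, i)` -/
def subKK_P (s t : E → V) (a b : V) (z : E → ℚ) (S' : Finset (V ⊕ (AB s t a b z × Bool)))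
    (i : Bool) (e : E) : Bool :=
  if h : z e ≠ 0 ∧ e ∈ cut s t {a} ∧ e ∈ cut s t {b} then decide (Sum.inr (⟨e, h⟩, i) ∈ S')
  else false

/-- the contribution of the old edge `e` -/
def subKK_F (s t : E → V) (a b : V) (c : ℚ) (z : E → ℚ) (S' : Finset (V ⊕ (AB s t a b z × Bool)))
    (e : E) : ℚ :=
  if z e ≠ 0 ∧ e ∈ cut s t {a} ∧ e ∈ cut s t {b} then
    (if subKK_P s t a b z S' false e = subKK_P s t a b z S' true e then 0 else c - z e) +
      ((if decide (Sum.inl b ∈ S') = subKK_P s t a b z S' true e then 0 else z e) +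
        (if decide (Sum.inl a ∈ S') = subKK_P s t a b z S' false e then 0 else z e))
  else if ((Sum.inl (s e) : V ⊕ (AB s t a b z × Bool)) ∈ S' ↔ Sum.inl (t e) ∈ S') then 0 else z e

theorem subKK_cw (S' : Finset (V ⊕ (AB s t a b z × Bool))) :
    cw (sbS s t a b z) (sbT s t a b z) (sbz s t a b c z) S' = ∑ e, subKK_F s t a b c z S' e := by
  rw [cw_def, Fintype.sum_sum_type]
  have h1 : ∑ x : E0 s t z, (if (sbS s t a b z (Sum.inl x) ∈ S' ↔ sbT s t a b z (Sum.inl x) ∈ S')
      then 0 else sbz s t a b c z (Sum.inl x)) =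
      ∑ e : E, if z e ≠ 0 ∧ s e ≠ t e then
        (if e ∈ cut s t {a} ∧ e ∈ cut s t {b} then
          (if subKK_P s t a b z S' false e = subKK_P s t a b z S' true e then 0 else c - z e)
        else if ((Sum.inl (s e) : V ⊕ (AB s t a b z × Bool)) ∈ S' ↔ Sum.inl (t e) ∈ S') then 0
          else z e) else 0 := by
    rw [← Finset.sum_filter, Finset.sum_subtype (p := fun e => z e ≠ 0 ∧ s e ≠ t e)
      (univ.filter fun e => z e ≠ 0 ∧ s e ≠ t e) (by simp)]
    refine Finset.sum_congr rfl fun x _ => ?_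
    by_cases h : x.1 ∈ cut s t {a} ∧ x.1 ∈ cut s t {b}
    · have hs : sbS s t a b z (Sum.inl x) = Sum.inr (⟨x.1, x.2.1, h⟩, false) := by
        simp only [sbS, Sum.elim_inl]
        rw [dif_pos h]
      have ht : sbT s t a b z (Sum.inl x) = Sum.inr (⟨x.1, x.2.1, h⟩, true) := by
        simp only [sbT, Sum.elim_inl]
        rw [dif_pos h]
      have hz : sbz s t a b c z (Sum.inl x) = c - z x.1 := by
        simp only [sbz, Sum.elim_inl]
        rw [if_pos h]
      have hp : ∀ i, subKK_P s t a b z S' i x.1 =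
          decide (Sum.inr (⟨x.1, x.2.1, h⟩, i) ∈ S') := by
        intro i
        unfold subKK_P
        rw [dif_pos ⟨x.2.1, h⟩]
      rw [hs, ht, hz, if_pos h, hp, hp]
      by_cases hh : (Sum.inr (⟨x.1, x.2.1, h⟩, false) ∈ S' ↔ Sum.inr (⟨x.1, x.2.1, h⟩, true) ∈ S')
      · rw [if_pos hh, if_pos (decide_eq_decide.2 hh)]
      · rw [if_neg hh, if_neg (fun h' => hh (decide_eq_decide.1 h'))]
    · have hs : sbS s t a b z (Sum.inl x) = Sum.inl (s x.1) := by
        simp only [sbS, Sum.elim_inl]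
        rw [dif_neg h]
      have ht : sbT s t a b z (Sum.inl x) = Sum.inl (t x.1) := by
        simp only [sbT, Sum.elim_inl]
        rw [dif_neg h]
      have hz : sbz s t a b c z (Sum.inl x) = z x.1 := by
        simp only [sbz, Sum.elim_inl]
        rw [if_neg h]
      rw [hs, ht, hz, if_neg h]
  have h2 : ∑ x : AB s t a b z × Bool, (if (sbS s t a b z (Sum.inr x) ∈ S' ↔
      sbT s t a b z (Sum.inr x) ∈ S') then 0 else sbz s t a b c z (Sum.inr x)) =
      ∑ e : E, if z e ≠ 0 ∧ e ∈ cut s t {a} ∧ e ∈ cut s t {b} then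
        ((if decide (Sum.inl b ∈ S') = subKK_P s t a b z S' true e then 0 else z e) +
        (if decide (Sum.inl a ∈ S') = subKK_P s t a b z S' false e then 0 else z e)) else 0 := by
    rw [← Finset.sum_filter,
      Finset.sum_subtype (p := fun e => z e ≠ 0 ∧ e ∈ cut s t {a} ∧ e ∈ cut s t {b})
      (univ.filter fun e => z e ≠ 0 ∧ e ∈ cut s t {a} ∧ e ∈ cut s t {b}) (by simp),
      Fintype.sum_prod_type]
    refine Finset.sum_congr rfl fun y _ => ?_
    rw [Fintype.sum_bool]
    have hp : ∀ i, subKK_P s t a b z S' i y.1 = decide (Sum.inr (y, i) ∈ S') := by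
      intro i
      unfold subKK_P
      rw [dif_pos y.2]
    rw [hp, hp]
    have key : ∀ (v : V) (i : Bool), (if ((Sum.inl v : V ⊕ (AB s t a b z × Bool)) ∈ S' ↔
        Sum.inr (y, i) ∈ S') then (0 : ℚ) else z y.1) =
        if decide ((Sum.inl v : V ⊕ (AB s t a b z × Bool)) ∈ S') = decide (Sum.inr (y, i) ∈ S')
          then 0 else z y.1 := by
      intro v i
      by_cases hh : ((Sum.inl v : V ⊕ (AB s t a b z × Bool)) ∈ S' ↔ Sum.inr (y, i) ∈ S')
      · rw [if_pos hh, if_pos (decide_eq_decide.2 hh)]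
      · rw [if_neg hh, if_neg (fun h' => hh (decide_eq_decide.1 h'))]
    rw [← key b true, ← key a false]
    rfl
  rw [h1, h2, ← Finset.sum_add_distrib]
  refine Finset.sum_congr rfl fun e _ => ?_
  unfold subKK_F
  by_cases h : z e ≠ 0 ∧ e ∈ cut s t {a} ∧ e ∈ cut s t {b}
  · have hne : s e ≠ t e := by
      intro h3
      have h4 := h.2.1
      rw [mem_cut, h3] at h4
      exact h4 Iff.rfl
    rw [if_pos h, if_pos h, if_pos ⟨h.1, hne⟩, if_pos h.2]
  · rw [if_neg h, if_neg h, add_zero]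
    by_cases h3 : z e ≠ 0 ∧ s e ≠ t e
    · have h4 : ¬ (e ∈ cut s t {a} ∧ e ∈ cut s t {b}) := fun h5 => h ⟨h3.1, h5⟩
      rw [if_pos h3, if_neg h4]
    · rw [if_neg h3]
      by_cases h5 : z e = 0
      · rw [h5]
        simp
      · have h6 : s e = t e := by
          by_contra h7
          exact h3 ⟨h5, h7⟩
        rw [h6, if_pos Iff.rfl]

/-- the ends of a special edge -/
theorem subKK_ends (hab : a ≠ b) {e : E} (h1 : e ∈ cut s t {a}) (h2 : e ∈ cut s t {b}) :
    (s e = a ∧ t e = b) ∨ (s e = b ∧ t e = a) := by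
  rw [mem_cut_singleton] at h1 h2
  by_cases hs : s e = a
  · left
    refine ⟨hs, ?_⟩
    have h3 : s e ≠ b := fun h => hab (hs.symm.trans h)
    by_contra h4
    exact h2 (iff_of_false h3 h4)
  · right
    have h3 : t e = a := by
      by_contra h4
      exact h1 (iff_of_false hs h4)
    have h4 : t e ≠ b := fun h => hab (h3.symm.trans h)
    refine ⟨?_, h3⟩
    by_contra h5
    exact h2 (iff_of_false h5 h4)

/-- the contribution of the old edge in the old graph -/
theorem subKK_old (S' : Finset (V ⊕ (AB s t a b z × Bool))) :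
    cw s t z S'.toLeft = ∑ e, if ((Sum.inl (s e) : V ⊕ (AB s t a b z × Bool)) ∈ S' ↔
      Sum.inl (t e) ∈ S') then 0 else z e := by
  rw [cw_def]
  refine Finset.sum_congr rfl fun e _ => ?_
  simp only [Finset.mem_toLeft]

theorem subKK_nn (hz : ∀ e, 0 ≤ z e) (hA : ∀ e ∈ cut s t {a}, e ∈ cut s t {b} → 2 * z e ≤ c)
    (S' : Finset (V ⊕ (AB s t a b z × Bool))) (e : E) : 0 ≤ subKK_F s t a b c z S' e := by
  have h0 := hz e
  unfold subKK_F
  by_cases h : z e ≠ 0 ∧ e ∈ cut s t {a} ∧ e ∈ cut s t {b}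
  · have h1 := hA e h.2.1 h.2.2
    rw [if_pos h]
    split_ifs <;> linarith
  · rw [if_neg h]
    split_ifs <;> linarith

/-- (1) -/
theorem subKK_ge (hab : a ≠ b) (hz : ∀ e, 0 ≤ z e)
    (hA : ∀ e ∈ cut s t {a}, e ∈ cut s t {b} → 2 * z e ≤ c)
    (S' : Finset (V ⊕ (AB s t a b z × Bool))) :
    cw s t z S'.toLeft ≤ cw (sbS s t a b z) (sbT s t a b z) (sbz s t a b c z) S' := by
  rw [subKK_cw, subKK_old]
  refine Finset.sum_le_sum fun e _ => ?_
  have h0 := hz e
  unfold subKK_F
  by_cases h : z e ≠ 0 ∧ e ∈ cut s t {a} ∧ e ∈ cut s t {b}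
  · have h1 := hA e h.2.1 h.2.2
    rw [if_pos h]
    have h2 : ((Sum.inl (s e) : V ⊕ (AB s t a b z × Bool)) ∈ S' ↔ Sum.inl (t e) ∈ S') ↔
        (Sum.inl a ∈ S' ↔ (Sum.inl b : V ⊕ (AB s t a b z × Bool)) ∈ S') := by
      rcases subKK_ends hab h.2.1 h.2.2 with ⟨h3, h4⟩ | ⟨h3, h4⟩
      · rw [h3, h4]
      · rw [h3, h4]
        exact Iff.comm
    by_cases h5 : ((Sum.inl (s e) : V ⊕ (AB s t a b z × Bool)) ∈ S' ↔ Sum.inl (t e) ∈ S')
    · rw [if_pos h5]
      split_ifs <;> linarith
    · rw [if_neg h5]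
      rw [h2] at h5
      cases h6 : subKK_P s t a b z S' false e <;> cases h7 : subKK_P s t a b z S' true e <;>
        by_cases h8 : (Sum.inl a : V ⊕ (AB s t a b z × Bool)) ∈ S' <;>
        by_cases h9 : (Sum.inl b : V ⊕ (AB s t a b z × Bool)) ∈ S' <;>
        simp [h8, h9] at h5 ⊢ <;> linarith
  · rw [if_neg h]

/-- (2) -/
theorem subKK_odd (hz : ∀ e, 0 ≤ z e)
    (hA : ∀ e ∈ cut s t {a}, e ∈ cut s t {b} → 2 * z e ≤ c)
    (S' : Finset (V ⊕ (AB s t a b z × Bool)))
    (hS : (Sum.inl a : V ⊕ (AB s t a b z × Bool)) ∈ S' ↔ Sum.inl b ∈ S')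
    (y : AB s t a b z) (hy : ¬ (Sum.inr (y, false) ∈ S' ↔ Sum.inr (y, true) ∈ S')) :
    c ≤ cw (sbS s t a b z) (sbT s t a b z) (sbz s t a b c z) S' := by
  rw [subKK_cw]
  refine le_trans ?_ (Finset.single_le_sum (f := fun e => subKK_F s t a b c z S' e)
    (fun e _ => subKK_nn hz hA S' e) (Finset.mem_univ y.1))
  show c ≤ subKK_F s t a b c z S' y.1
  unfold subKK_F
  have hp : ∀ i, subKK_P s t a b z S' i y.1 = decide (Sum.inr (y, i) ∈ S') := by
    intro i
    unfold subKK_P
    rw [dif_pos y.2]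
  rw [if_pos y.2, hp, hp]
  have h0 := hz y.1
  have h1 := hA y.1 y.2.2.1 y.2.2.2
  by_cases h6 : Sum.inr (y, false) ∈ S' <;> by_cases h7 : Sum.inr (y, true) ∈ S' <;>
    by_cases h8 : (Sum.inl a : V ⊕ (AB s t a b z × Bool)) ∈ S' <;>
    by_cases h9 : (Sum.inl b : V ⊕ (AB s t a b z × Bool)) ∈ S' <;>
    simp [h6, h7, h8, h9] at hS hy ⊢

/-- the cut of a set of old vertices which does not contain both terminals -/
theorem subKK_left (hab : a ≠ b) (S : Finset V) (hS : ¬ (a ∈ S ∧ b ∈ S)) :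
    cw (sbS s t a b z) (sbT s t a b z) (sbz s t a b c z)
      (S.map Function.Embedding.inl) = cw s t z S := by
  rw [subKK_cw, cw_def]
  refine Finset.sum_congr rfl fun e _ => ?_
  have hp : ∀ i, subKK_P s t a b z (S.map Function.Embedding.inl) i e = false := by
    intro i
    unfold subKK_P
    split_ifs with h
    · simp
    · rfl
  have hm : ∀ v : V, (Sum.inl v : V ⊕ (AB s t a b z × Bool)) ∈
      S.map Function.Embedding.inl ↔ v ∈ S := by
    intro v
    simp
  unfold subKK_F
  rw [hp, hp]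
  simp only [hm]
  by_cases h : z e ≠ 0 ∧ e ∈ cut s t {a} ∧ e ∈ cut s t {b}
  · rw [if_pos h]
    rcases subKK_ends hab h.2.1 h.2.2 with ⟨h3, h4⟩ | ⟨h3, h4⟩
    · rw [h3, h4]
      by_cases h8 : a ∈ S <;> by_cases h9 : b ∈ S <;> simp [h8, h9] at hS ⊢
    · rw [h3, h4]
      by_cases h8 : a ∈ S <;> by_cases h9 : b ∈ S <;> simp [h8, h9] at hS ⊢
  · rw [if_neg h]

theorem subKK_single (v : V) : ({Sum.inl v} : Finset (V ⊕ (AB s t a b z × Bool))) =
    ({v} : Finset V).map Function.Embedding.inl := by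
  rw [Finset.map_singleton]
  rfl

/-- the star of a new vertex -/
theorem subKK_new (y : AB s t a b z) (i : Bool) :
    cw (sbS s t a b z) (sbT s t a b z) (sbz s t a b c z) {Sum.inr (y, i)} = c := by
  rw [subKK_cw, Finset.sum_eq_single y.1]
  · unfold subKK_F
    have hp : ∀ j, subKK_P s t a b z {Sum.inr (y, i)} j y.1 = decide (j = i) := by
      intro j
      unfold subKK_P
      rw [dif_pos y.2]
      simp
    rw [if_pos y.2, hp, hp]
    cases i <;> simp
  · intro e _ he
    have hp : ∀ j, subKK_P s t a b z {Sum.inr (y, i)} j e = false := by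
      intro j
      unfold subKK_P
      split_ifs with h
      · simp only [Finset.mem_singleton, Sum.inr.injEq, Prod.mk.injEq, decide_eq_false_iff_not]
        rintro ⟨h1, -⟩
        exact he (congrArg Subtype.val h1)
      · rfl
    unfold subKK_F
    rw [hp, hp]
    simp
  · intro h
    exact absurd (Finset.mem_univ _) h

/-- parity of the number of new vertices -/
theorem subKK_par (T : Finset V) (S' : Finset (V ⊕ (AB s t a b z × Bool)))
    (hodd : Odd (S' ∩ sbV s t a b z T).card) (hev : ¬ Odd (S'.toLeft ∩ T).card) :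
    ∃ y : AB s t a b z, ¬ (Sum.inr (y, false) ∈ S' ↔ Sum.inr (y, true) ∈ S') := by
  by_contra hcon
  push Not at hcon
  have h1 : (S' ∩ sbV s t a b z T).card = (S'.toLeft ∩ T).card + S'.toRight.card := by
    rw [← Finset.card_toLeft_add_card_toRight (u := S' ∩ sbV s t a b z T)]
    congr 2
    · ext v
      simp [sbV]
    · ext v
      simp [sbV]
  have h2 : S'.toRight.card =
      2 * (univ.filter fun y : AB s t a b z => Sum.inr (y, false) ∈ S').card := by
    have h3 : S'.toRight = (univ.filter fun y : AB s t a b z => Sum.inr (y, false) ∈ S') ×ˢ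
        (univ : Finset Bool) := by
      ext ⟨y, i⟩
      simp only [Finset.mem_toRight, Finset.mem_product, Finset.mem_filter, Finset.mem_univ,
        true_and, and_true]
      cases i
      · exact Iff.rfl
      · exact (hcon y).symm
    rw [h3, Finset.card_product, Finset.card_univ, Fintype.card_bool, Nat.mul_comm]
  rw [h1, h2] at hodd
  apply hev
  rw [Nat.odd_add] at hodd
  exact hodd.2 (even_two_mul _)

theorem sub_clean (h : KK s t T a b c c z) (hc : 0 < c) (hA : Axis0 s t a b c z σ τ) :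
    Clean (sbS s t a b z) (sbT s t a b z) (sbV s t a b z T) (Sum.inl a) (Sum.inl b) c
      (sbz s t a b c z) := by
  have hab := h.frame.hab
  have hcz : ∀ e : E0 s t z, e.1 ∈ cut s t {a} ∧ e.1 ∈ cut s t {b} → 0 < c - z e.1 := by
    intro e he
    have h1 := hA.small e.1 he.1 he.2
    have h2 := h.nonneg e.1
    linarith
  have hpos : ∀ x, 0 < sbz s t a b c z x := by
    rintro (e | p)
    · simp only [sbz, Sum.elim_inl]
      split_ifs with h1
      · exact hcz e h1
      · exact lt_of_le_of_ne (h.nonneg e.1) (Ne.symm e.2.1)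
    · simp only [sbz, Sum.elim_inr]
      exact lt_of_le_of_ne (h.nonneg p.1.1) (Ne.symm p.1.2.1)
  have hmemT : ∀ v : V, Sum.inl v ∈ sbV s t a b z T ↔ v ∈ T := by
    intro v
    simp [sbV]
  have hmemN : ∀ p : AB s t a b z × Bool, Sum.inr p ∈ sbV s t a b z T := by
    intro p
    simp [sbV]
  have hInU : ∀ v : V, InU T a b v → InU (sbV s t a b z T) (Sum.inl a) (Sum.inl b)
      (Sum.inl v) := by
    rintro v (h1 | rfl | rfl)
    · exact Or.inl ((hmemT v).2 h1)
    · exact Or.inr (Or.inl rfl)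
    · exact Or.inr (Or.inr rfl)
  have hess : ∀ S' : Finset (V ⊕ (AB s t a b z × Bool)),
      Odd (S' ∩ sbV s t a b z T).card ∨ ¬ ((Sum.inl a : V ⊕ (AB s t a b z × Bool)) ∈ S' ↔
        Sum.inl b ∈ S') →
      c ≤ cw (sbS s t a b z) (sbT s t a b z) (sbz s t a b c z) S' := by
    intro S' hS'
    by_cases h1 : ¬ ((Sum.inl a : V ⊕ (AB s t a b z × Bool)) ∈ S' ↔ Sum.inl b ∈ S')
    · refine le_trans (sep' h (S := S'.toLeft) ?_) (subKK_ge hab h.nonneg hA.small S')
      simpa only [Finset.mem_toLeft] using h1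
    · push Not at h1
      have h2 : Odd (S' ∩ sbV s t a b z T).card := by
        rcases hS' with h3 | h3
        · exact h3
        · exact absurd h1 h3
      by_cases h3 : Odd (S'.toLeft ∩ T).card
      · exact le_trans (h.odd _ h3) (subKK_ge hab h.nonneg hA.small S')
      · obtain ⟨y, hy⟩ := subKK_par T S' h2 h3
        exact subKK_odd h.nonneg hA.small S' h1 y hy
  refine ⟨⟨⟨?_, ?_, ?_, ?_, ?_⟩, fun e => (hpos e).le, ?_, ?_, ?_, ?_, ?_⟩, hc, hpos, ?_⟩
  · intro h1
    exact hab (Sum.inl.inj h1)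
  · rw [hmemT]
    exact h.frame.ha
  · rw [hmemT]
    exact h.frame.hb
  · rintro (e | p)
    · simp only [sbS, Sum.elim_inl]
      split_ifs with h1
      · exact Or.inl (hmemN _)
      · exact hInU _ (h.frame.hs e.1)
    · simp only [sbS, Sum.elim_inr]
      split_ifs with h1
      · exact Or.inr (Or.inr rfl)
      · exact Or.inr (Or.inl rfl)
  · rintro (e | p)
    · simp only [sbT, Sum.elim_inl]
      split_ifs with h1
      · exact Or.inl (hmemN _)
      · exact hInU _ (h.frame.ht e.1)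
    · exact Or.inl (hmemN _)
  · rintro (v | ⟨y, i⟩) hv
    · rw [hmemT] at hv
      rw [subKK_single, subKK_left hab]
      · exact h.degT v hv
      · rintro ⟨h1, -⟩
        rw [Finset.mem_singleton] at h1
        exact h.frame.ha (h1 ▸ hv)
    · exact subKK_new y i
  · rw [subKK_single, subKK_left hab]
    · exact h.dega
    · rintro ⟨-, h1⟩
      rw [Finset.mem_singleton] at h1
      exact hab h1.symm
  · rw [subKK_single, subKK_left hab]
    · exact h.degb
    · rintro ⟨h1, -⟩
      rw [Finset.mem_singleton] at h1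
      exact hab h1
  · intro S' hS'
    exact hess S' (Or.inl hS')
  · intro S' h1 h2
    exact hess S' (Or.inr fun h3 => h2 (h3.1 h1))
  · rintro (e | p)
    · simp only [sbS, sbT, Sum.elim_inl]
      split_ifs with h1
      · intro h2
        have h3 := congrArg Prod.snd (Sum.inr.inj h2)
        exact Bool.false_ne_true h3
      · intro h2
        exact e.2.2 (Sum.inl.inj h2)
    · simp only [sbS, sbT, Sum.elim_inr]
      exact fun h1 => by cases h1

end Pool.Agent.Lib.MP_95bb8c_al.OE
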