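import Pool.Agent.Lib.MP_95bb8c_al.OE.EdF

set_option autoImplicit false
set_option linter.unusedSectionVars false

/-!
# A perfect matching of `T` which crosses each tight `T`-odd cut once

PROOF. Let `0 < k < c`. Split each terminal in two: `V0 = {v // v ∈ T} ⊕ (Bool × Bool)`, where
`inr (false, i)` are the two copies of `a` and `inr (true, i)` the two copies of `b`. For
`χ : Bool × Bool` let `L χ v = inl v` if `v ∈ T`, `L χ a = inr (false, χ.1)` and
`L χ v = inr (true, χ.2)` for all other `v` (in particular for `b`). Edges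
`E0 = E × (Bool × Bool) ⊕ Bool`: `inl (e, χ)` joins `L χ (s e)` and `L χ (t e)` and has weight
`z e / 4` (in total weight `z e` over the four `χ`), and `inr p` joins `inr (p, false)` and
`inr (p, true)` with weight `c - k / 2`. (Loops `s e = t e` may keep their weight.)
For `A : Finset V0` and `χ` let `A χ = {v | L χ v ∈ A}`. Then
`cw (A) = ∑ χ, cw s t z (A χ) / 4 + ∑ p, (c - k / 2) * [A separates the two copies p]`.
This is a point of the cone of `edmonds_frame` (with `U = univ`):
* degrees: `A = {inl v}`: `A χ = {v}`, weight `c`. `A = {inr (false, i)}`: `A χ = {a}` for two of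
  the four `χ` and `∅` for the others: `2 k / 4 + (c - k / 2) = c`. `A = {inr (true, i)}`: up to
  useless vertices `A χ = {b}` or `∅` (`cw_congr`), the same.
* `A` odd, no terminal separated: the `T`-part of `A` is odd, `A χ` is `T`-odd for all `χ`:
  `≥ 4 c / 4`. One terminal separated, say `a`: for exactly two of the four `χ` the set `A χ`
  separates `a` from `b` (`sep'`): `≥ 2 k / 4 + (c - k / 2) = c`. Both separated: the `T`-part is
  odd, all `A χ` are `T`-odd, `≥ c`.
So there is a law `w i, N i` of perfect matchings (`edmonds_frame`), total mass `c`. The mass of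
the `i` with `inr false ∈ N i` is `c - k / 2`, the same for `inr true`, so the mass of those which
contain both is at least `c - k > 0`: choose such an `i`. Put `M = {e | ∃ χ, inl (e, χ) ∈ N i}`.
All four copies of terminals are matched by `inr false`, `inr true`, so each `e ∈ M` has both
ends in `T` and is no loop; `z e ≠ 0` since the marginal of `inl (e, χ)` is `z e / 4` and
`w i > 0`. Let `S` be `T`-odd with `cw s t z S = c` and `A = {p | p comes from a v ∈ S}` (both
copies of a terminal in `S`): `A` is odd, `cw A = c`, so `(N i ∩ cut A).card = 1` (`pmu_tight`).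
The map `inl (e, χ) ↦ e` sends `N i ∩ cut A` onto `M ∩ cut s t S`, so `(M ∩ cut s t S).card ≤ 1`;
it is nonempty since the unique element of `N i ∩ cut A` is no `inr p`.
-/

namespace Pool.Agent.Lib.MP_95bb8c_al.OE

open Finset

variable {V E : Type} [Fintype V] [DecidableEq V] [Fintype E] [DecidableEq E]
variable {s t : E → V} {T : Finset V} {a b : V} {z : E → ℚ} {c k : ℚ}

/-- The edges of `M` are in the support of `z` and inside `T`. -/
def Inside (s t : E → V) (T : Finset V) (z : E → ℚ) (M : Finset E) : Prop :=
  ∀ e ∈ M, z e ≠ 0 ∧ s e ∈ T ∧ t e ∈ T ∧ s e ≠ t e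

/-- the vertex of the split graph -/
def ybase_L (T : Finset V) (a : V) (χ : Bool × Bool) (v : V) : {v // v ∈ T} ⊕ (Bool × Bool) :=
  if h : v ∈ T then Sum.inl ⟨v, h⟩ else if v = a then Sum.inr (false, χ.1) else Sum.inr (true, χ.2)

/-- first end -/
def ybase_s (s : E → V) (T : Finset V) (a : V) :
    (E × (Bool × Bool)) ⊕ Bool → {v // v ∈ T} ⊕ (Bool × Bool) :=
  Sum.elim (fun q => ybase_L T a q.2 (s q.1)) (fun p => Sum.inr (p, false))

/-- second end -/
def ybase_t (t : E → V) (T : Finset V) (a : V) :
    (E × (Bool × Bool)) ⊕ Bool → {v // v ∈ T} ⊕ (Bool × Bool) :=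
  Sum.elim (fun q => ybase_L T a q.2 (t q.1)) (fun p => Sum.inr (p, true))

/-- weights -/
def ybase_x (z : E → ℚ) (c k : ℚ) : (E × (Bool × Bool)) ⊕ Bool → ℚ :=
  Sum.elim (fun q => z q.1 / 4) (fun _ => c - k / 2)

/-- the trace of a set -/
def ybase_A (T : Finset V) (a : V) (A : Finset ({v // v ∈ T} ⊕ (Bool × Bool))) (χ : Bool × Bool) :
    Finset V := univ.filter fun v => ybase_L T a χ v ∈ A

theorem ybase_L_T {χ : Bool × Bool} {v : V} (h : v ∈ T) : ybase_L T a χ v = Sum.inl ⟨v, h⟩ :=
  dif_pos h

theorem ybase_L_a {χ : Bool × Bool} (h : a ∉ T) : ybase_L T a χ a = Sum.inr (false, χ.1) := by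
  unfold ybase_L
  rw [dif_neg h, if_pos rfl]

theorem ybase_L_b {χ : Bool × Bool} {v : V} (h : v ∉ T) (hv : v ≠ a) :
    ybase_L T a χ v = Sum.inr (true, χ.2) := by
  unfold ybase_L
  rw [dif_neg h, if_neg hv]

theorem ybase_mem_A {A : Finset ({v // v ∈ T} ⊕ (Bool × Bool))} {χ : Bool × Bool} {v : V} :
    v ∈ ybase_A T a A χ ↔ ybase_L T a χ v ∈ A := by
  unfold ybase_A
  rw [Finset.mem_filter]
  exact and_iff_right (Finset.mem_univ _)

theorem ybase_cw (A : Finset ({v // v ∈ T} ⊕ (Bool × Bool))) :
    cw (ybase_s s T a) (ybase_t t T a) (ybase_x z c k) A =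
      ∑ χ : Bool × Bool, cw s t z (ybase_A T a A χ) / 4 +
        ∑ p : Bool, (if (Sum.inr (p, false) ∈ A ↔ Sum.inr (p, true) ∈ A) then 0 else c - k / 2) := by
  rw [cw_def, Fintype.sum_sum_type, Fintype.sum_prod_type, Finset.sum_comm]
  congr 1
  refine Finset.sum_congr rfl fun χ _ => ?_
  rw [cw_def, Finset.sum_div]
  refine Finset.sum_congr rfl fun e _ => ?_
  have hA : (s e ∈ ybase_A T a A χ ↔ t e ∈ ybase_A T a A χ) ↔
      (ybase_s s T a (Sum.inl (e, χ)) ∈ A ↔ ybase_t t T a (Sum.inl (e, χ)) ∈ A) := by
    rw [ybase_mem_A, ybase_mem_A]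
    exact Iff.rfl
  by_cases h : (s e ∈ ybase_A T a A χ ↔ t e ∈ ybase_A T a A χ)
  · rw [if_pos h, if_pos (hA.mp h), zero_div]
  · rw [if_neg h, if_neg (fun h1 => h (hA.mpr h1))]
    rfl

theorem ybase_card_T (A : Finset ({v // v ∈ T} ⊕ (Bool × Bool))) (χ : Bool × Bool) :
    (ybase_A T a A χ ∩ T).card = A.toLeft.card := by
  rw [← Finset.card_map (Function.Embedding.subtype _)]
  congr 1
  ext v
  rw [Finset.mem_inter, ybase_mem_A, Finset.mem_map]
  constructor
  · rintro ⟨h1, h2⟩
    rw [ybase_L_T h2] at h1
    exact ⟨⟨v, h2⟩, Finset.mem_toLeft.mpr h1, rfl⟩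
  · rintro ⟨w, hw, rfl⟩
    refine ⟨?_, w.2⟩
    change ybase_L T a χ w.1 ∈ A
    rw [ybase_L_T w.2]
    exact Finset.mem_toLeft.mp hw

theorem ybase_card (A : Finset ({v // v ∈ T} ⊕ (Bool × Bool))) :
    A.card = A.toLeft.card + ∑ p : Bool, ((if Sum.inr (p, false) ∈ A then 1 else 0) +
      (if Sum.inr (p, true) ∈ A then 1 else 0)) := by
  rw [← Finset.card_toLeft_add_card_toRight (u := A)]
  congr 1
  have h1 : A.toRight = (univ : Finset (Bool × Bool)).filter fun q => Sum.inr q ∈ A := by
    ext q
    rw [Finset.mem_toRight, Finset.mem_filter]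
    exact (and_iff_right (Finset.mem_univ _)).symm
  rw [h1, Finset.card_filter, Fintype.sum_prod_type]
  refine Finset.sum_congr rfl fun p _ => ?_
  rw [Fintype.sum_bool, add_comm]

theorem ybase_A_le (h : KK s t T a b c k z) (A : Finset ({v // v ∈ T} ⊕ (Bool × Bool)))
    (χ : Bool × Bool) (hx : ¬ (Sum.inr (false, χ.1) ∈ A ↔ Sum.inr (true, χ.2) ∈ A)) :
    k ≤ cw s t z (ybase_A T a A χ) := by
  apply sep' h
  rw [ybase_mem_A, ybase_mem_A, ybase_L_a h.frame.ha, ybase_L_b h.frame.hb h.frame.hab.symm]
  exact hx

theorem ybase_odd (h : KK s t T a b c k z) (hk : 0 < k) (hkc : k < c)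
    (A : Finset ({v // v ∈ T} ⊕ (Bool × Bool))) (hA : Odd A.card) :
    c ≤ cw (ybase_s s T a) (ybase_t t T a) (ybase_x z c k) A := by
  rw [ybase_cw]
  by_cases hT : Odd A.toLeft.card
  · have h1 : ∀ χ ∈ (univ : Finset (Bool × Bool)), c / 4 ≤ cw s t z (ybase_A T a A χ) / 4 := by
      intro χ _
      have h2 := h.odd (ybase_A T a A χ) (by rw [ybase_card_T]; exact hT)
      linarith
    have h2 := Finset.sum_le_sum h1
    rw [Finset.sum_const, Finset.card_univ, Fintype.card_prod, Fintype.card_bool, nsmul_eq_mul] at h2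
    have h3 : 0 ≤ ∑ p : Bool,
        (if (Sum.inr (p, false) ∈ A ↔ Sum.inr (p, true) ∈ A) then 0 else c - k / 2) := by
      refine Finset.sum_nonneg fun p _ => ?_
      split_ifs
      · exact le_rfl
      · linarith
    push_cast at h2
    linarith
  · rw [ybase_card, Fintype.sum_bool] at hA
    have hn : ∀ χ : Bool × Bool, 0 ≤ cw s t z (ybase_A T a A χ) :=
      fun χ => cw_nonneg h.nonneg _
    have hs : ∀ χ : Bool × Bool, (if (Sum.inr (false, χ.1) ∈ A ↔ Sum.inr (true, χ.2) ∈ A) then 0
        else k) ≤ cw s t z (ybase_A T a A χ) := by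
      intro χ
      split_ifs with h1
      · exact hn χ
      · exact ybase_A_le h A χ h1
    have s1 := hs (false, false)
    have s2 := hs (false, true)
    have s3 := hs (true, false)
    have s4 := hs (true, true)
    rw [Fintype.sum_prod_type, Fintype.sum_bool, Fintype.sum_bool, Fintype.sum_bool,
      Fintype.sum_bool]
    simp only at s1 s2 s3 s4
    by_cases x0 : (Sum.inr (false, false) : {v // v ∈ T} ⊕ (Bool × Bool)) ∈ A <;>
    by_cases x1 : (Sum.inr (false, true) : {v // v ∈ T} ⊕ (Bool × Bool)) ∈ A <;>
    by_cases y0 : (Sum.inr (true, false) : {v // v ∈ T} ⊕ (Bool × Bool)) ∈ A <;>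
    by_cases y1 : (Sum.inr (true, true) : {v // v ∈ T} ⊕ (Bool × Bool)) ∈ A <;>
    simp only [x0, x1, y0, y1, iff_true, iff_false, not_true_eq_false, if_true,
      if_false, iff_self] at s1 s2 s3 s4 hA ⊢ <;>
    first
    | linarith
    | (exfalso; apply hT; rw [Nat.odd_iff] at hA ⊢; omega)

theorem ybase_deg (h : KK s t T a b c k z) (v : {v // v ∈ T} ⊕ (Bool × Bool)) :
    cw (ybase_s s T a) (ybase_t t T a) (ybase_x z c k) {v} = c := by
  rw [ybase_cw]
  rcases v with v | ⟨p, i⟩
  · have h1 : ∀ χ : Bool × Bool, cw s t z (ybase_A T a {Sum.inl v} χ) = c := by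
      intro χ
      rw [← h.degT v.1 v.2]
      congr 1
      ext w
      rw [ybase_mem_A, Finset.mem_singleton, Finset.mem_singleton]
      constructor
      · intro h2
        unfold ybase_L at h2
        split_ifs at h2 with h3 h4
        have h5 := Sum.inl.inj h2
        rw [← h5]
      · rintro rfl
        exact ybase_L_T v.2
    simp only [h1, Finset.mem_singleton, reduceCtorEq, if_true, Finset.sum_const_zero, add_zero]
    rw [Finset.sum_const, Finset.card_univ, Fintype.card_prod, Fintype.card_bool, nsmul_eq_mul]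
    push_cast
    ring
  · cases p
    · have h1 : ∀ χ : Bool × Bool, cw s t z (ybase_A T a {Sum.inr (false, i)} χ) =
          if χ.1 = i then k else 0 := by
        intro χ
        split_ifs with hi
        · rw [← h.dega]
          congr 1
          ext w
          rw [ybase_mem_A, Finset.mem_singleton, Finset.mem_singleton]
          constructor
          · intro h2
            unfold ybase_L at h2
            split_ifs at h2 with h3 h4
            · exact h4
            · simp at h2
          · rintro rfl
            rw [ybase_L_a h.frame.ha, hi]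
        · rw [← cw_empty (s := s) (t := t) (z := z)]
          congr 1
          ext w
          rw [ybase_mem_A, Finset.mem_singleton]
          refine iff_of_false ?_ (Finset.notMem_empty w)
          intro h2
          unfold ybase_L at h2
          split_ifs at h2 with h3 h4
          · simp at h2
            exact hi h2
          · simp at h2
      simp only [h1, Fintype.sum_prod_type, Fintype.sum_bool]
      cases i <;> simp <;> ring
    · have h1 : ∀ χ : Bool × Bool, cw s t z (ybase_A T a {Sum.inr (true, i)} χ) =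
          if χ.2 = i then k else 0 := by
        intro χ
        split_ifs with hi
        · rw [← h.degb]
          refine cw_congr h.frame fun w hw => ?_
          rw [ybase_mem_A, Finset.mem_singleton, Finset.mem_singleton]
          constructor
          · intro h2
            unfold ybase_L at h2
            split_ifs at h2 with h3 h4
            · simp at h2
            · rcases hw with hw | hw | hw
              · exact absurd hw h3
              · exact absurd hw h4
              · exact hw
          · rintro rfl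
            rw [ybase_L_b h.frame.hb h.frame.hab.symm, hi]
        · rw [← cw_empty (s := s) (t := t) (z := z)]
          congr 1
          ext w
          rw [ybase_mem_A, Finset.mem_singleton]
          refine iff_of_false ?_ (Finset.notMem_empty w)
          intro h2
          unfold ybase_L at h2
          split_ifs at h2 with h3 h4
          · simp at h2
          · simp at h2
            exact hi h2
      simp only [h1, Fintype.sum_prod_type, Fintype.sum_bool]
      cases i <;> simp <;> ring

open Classical in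
/-- the lift of a set -/
noncomputable def ybase_up (T : Finset V) (a b : V) (S : Finset V) : Finset ({v // v ∈ T} ⊕ (Bool × Bool)) :=
  univ.filter fun q => Sum.elim (fun v => v.1 ∈ S)
    (fun r : Bool × Bool => if r.1 = false then a ∈ S else b ∈ S) q

theorem ybase_mem_up_inl {S : Finset V} {v : {v // v ∈ T}} :
    Sum.inl v ∈ ybase_up T a b S ↔ v.1 ∈ S := by
  classical
  unfold ybase_up
  rw [Finset.mem_filter]
  exact and_iff_right (Finset.mem_univ _)

theorem ybase_mem_up_inr {S : Finset V} {p i : Bool} :
    Sum.inr (p, i) ∈ ybase_up T a b S ↔ (if p = false then a ∈ S else b ∈ S) := by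
  classical
  unfold ybase_up
  rw [Finset.mem_filter]
  exact and_iff_right (Finset.mem_univ _)

theorem ybase_L_up (h : KK s t T a b c k z) {S : Finset V} (χ : Bool × Bool) {v : V}
    (hv : InU T a b v) : ybase_L T a χ v ∈ ybase_up T a b S ↔ v ∈ S := by
  by_cases h1 : v ∈ T
  · rw [ybase_L_T h1, ybase_mem_up_inl]
  · by_cases h2 : v = a
    · subst h2
      rw [ybase_L_a h1, ybase_mem_up_inr, if_pos rfl]
    · have h3 : v = b := by
        rcases hv with hv | hv | hv
        · exact absurd hv h1
        · exact absurd hv h2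
        · exact hv
      subst h3
      rw [ybase_L_b h1 h2, ybase_mem_up_inr, if_neg (by simp)]

theorem tight_base (h : KK s t T a b c k z) (hk : 0 < k) (hkc : k < c) :
    ∃ M : Finset E, Inside s t T z M ∧
      ∀ S : Finset V, Odd (S ∩ T).card → cw s t z S = c → (M ∩ cut s t S).card = 1 := by
  obtain ⟨ι, hι, w, N, hw, hN, hwc, hmarg⟩ := edmonds_frame (s := ybase_s s T a)
    (t := ybase_t t T a) (U := univ) (x := ybase_x z c k) (c := c) (by linarith)
    (fun _ => Finset.mem_univ _) (fun _ => Finset.mem_univ _) (fun e => by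
      rcases e with e | p
      · exact div_nonneg (h.nonneg e.1) (by norm_num)
      · change 0 ≤ c - k / 2
        linarith) (fun v _ => ybase_deg h v) (fun S hS => by
      rw [Finset.inter_univ] at hS
      exact ybase_odd h hk hkc S hS)
  -- a matching with both edges
  obtain ⟨i, hi⟩ : ∃ i, Sum.inr false ∈ N i ∧ Sum.inr true ∈ N i := by
    by_contra hcon
    push Not at hcon
    have h1 := hmarg (Sum.inr false) (by simp [ybase_s, ybase_t])
    have h2 := hmarg (Sum.inr true) (by simp [ybase_s, ybase_t])
    have h3 : ∑ i, w i * (if Sum.inr false ∈ N i then 1 else 0) +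
        ∑ i, w i * (if Sum.inr true ∈ N i then 1 else 0) ≤ ∑ i, w i := by
      rw [← Finset.sum_add_distrib]
      refine Finset.sum_le_sum fun i _ => ?_
      by_cases h4 : Sum.inr false ∈ N i
      · rw [if_pos h4, if_neg (hcon i h4)]
        linarith
      · rw [if_neg h4]
        have := (hw i).le
        split_ifs <;> linarith
    rw [h1, h2, hwc] at h3
    change (c - k / 2) + (c - k / 2) ≤ c at h3
    linarith
  -- the copies of the terminals are matched
  have hterm : ∀ (p j : Bool) (q : E × (Bool × Bool)), Sum.inl q ∈ N i →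
      ybase_L T a q.2 (s q.1) ≠ Sum.inr (p, j) ∧ ybase_L T a q.2 (t q.1) ≠ Sum.inr (p, j) := by
    intro p j q hq
    have h1 := (hN i).deg (Sum.inr (p, j)) (Finset.mem_univ _)
    have hp : Sum.inr p ∈ N i := by
      cases p
      · exact hi.1
      · exact hi.2
    have h2 : (Sum.inr p : (E × (Bool × Bool)) ⊕ Bool) ∈
        N i ∩ cut (ybase_s s T a) (ybase_t t T a) {Sum.inr (p, j)} := by
      rw [Finset.mem_inter, mem_cut_singleton]
      refine ⟨hp, ?_⟩
      simp only [ybase_s, ybase_t, Sum.elim_inr]
      cases j <;> simp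
    have h3 : (Sum.inl q : (E × (Bool × Bool)) ⊕ Bool) ∉
        N i ∩ cut (ybase_s s T a) (ybase_t t T a) {Sum.inr (p, j)} := by
      intro h3
      rw [Finset.card_eq_one] at h1
      obtain ⟨f, hf⟩ := h1
      rw [hf, Finset.mem_singleton] at h2 h3
      rw [← h2] at h3
      exact absurd h3 (by simp)
    have h4 : (ybase_L T a q.2 (s q.1) = Sum.inr (p, j) ↔
        ybase_L T a q.2 (t q.1) = Sum.inr (p, j)) := by
      by_contra hcon
      apply h3
      rw [Finset.mem_inter, mem_cut_singleton]
      exact ⟨hq, hcon⟩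
    have h5 := (hN i).loop _ hq
    change ybase_L T a q.2 (s q.1) ≠ ybase_L T a q.2 (t q.1) at h5
    constructor
    · intro h6
      exact h5 (h6.trans (h4.mp h6).symm)
    · intro h6
      exact h5 ((h4.mpr h6).trans h6.symm)
  have hT : ∀ (χ : Bool × Bool) (v : V), (∀ p j, ybase_L T a χ v ≠ Sum.inr (p, j)) → v ∈ T := by
    intro χ v hv
    by_contra h1
    by_cases h2 : v = a
    · subst h2
      exact hv _ _ (ybase_L_a h1)
    · exact hv _ _ (ybase_L_b h1 h2)
  refine ⟨univ.filter fun e => ∃ χ, Sum.inl (e, χ) ∈ N i, ?_, ?_⟩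
  · intro e he
    rw [Finset.mem_filter] at he
    obtain ⟨-, χ, hχ⟩ := he
    have hloop := (hN i).loop _ hχ
    refine ⟨?_, hT χ _ fun p j => (hterm p j _ hχ).1, hT χ _ fun p j => (hterm p j _ hχ).2, ?_⟩
    · intro hz
      have h1 := hmarg _ hloop
      have h2 : ybase_x z c k (Sum.inl (e, χ)) = 0 := by
        change z e / 4 = 0
        rw [hz, zero_div]
      rw [h2] at h1
      have h3 := supp_of_law hw (fun j => by split_ifs <;> norm_num) h1 i
      rw [if_pos hχ] at h3
      exact one_ne_zero h3
    · intro hst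
      apply hloop
      change ybase_L T a χ (s e) = ybase_L T a χ (t e)
      rw [hst]
  · intro S hS hSc
    have hcard : Odd (ybase_up T a b S ∩ univ).card := by
      rw [Finset.inter_univ, ybase_card, Fintype.sum_bool]
      have h1 : (ybase_up T a b S).toLeft.card = (S ∩ T).card := by
        rw [← Finset.card_map (Function.Embedding.subtype _)]
        congr 1
        ext v
        rw [Finset.mem_inter, Finset.mem_map]
        constructor
        · rintro ⟨w, hw, rfl⟩
          rw [Finset.mem_toLeft, ybase_mem_up_inl] at hw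
          exact ⟨hw, w.2⟩
        · rintro ⟨h1, h2⟩
          exact ⟨⟨v, h2⟩, Finset.mem_toLeft.mpr (ybase_mem_up_inl.mpr h1), rfl⟩
      rw [h1]
      simp only [ybase_mem_up_inr]
      rw [Nat.odd_iff] at hS ⊢
      split_ifs <;> omega
    have hcw : cw (ybase_s s T a) (ybase_t t T a) (ybase_x z c k) (ybase_up T a b S) = c := by
      rw [ybase_cw]
      have h1 : ∀ χ : Bool × Bool, cw s t z (ybase_A T a (ybase_up T a b S) χ) = c := by
        intro χ
        rw [← hSc]
        refine cw_congr h.frame fun v hv => ?_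
        rw [ybase_mem_A]
        exact ybase_L_up h χ hv
      simp only [h1, ybase_mem_up_inr, if_true, Finset.sum_const_zero, add_zero]
      rw [Finset.sum_const, Finset.card_univ, Fintype.card_prod, Fintype.card_bool, nsmul_eq_mul]
      push_cast
      ring
    have h1 := pmu_tight (fun _ => Finset.mem_univ _) (fun _ => Finset.mem_univ _) hw hN hwc
      hmarg hcard hcw i
    rw [Finset.card_eq_one] at h1 ⊢
    obtain ⟨f, hf⟩ := h1
    have hcutiff : ∀ q : E × (Bool × Bool),
        Sum.inl q ∈ cut (ybase_s s T a) (ybase_t t T a) (ybase_up T a b S) ↔ q.1 ∈ cut s t S := by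
      intro q
      rw [mem_cut, mem_cut]
      change ¬ (ybase_L T a q.2 (s q.1) ∈ ybase_up T a b S ↔
        ybase_L T a q.2 (t q.1) ∈ ybase_up T a b S) ↔ _
      rw [ybase_L_up h q.2 (h.frame.hs q.1), ybase_L_up h q.2 (h.frame.ht q.1)]
    have hfm : f ∈ N i ∩ cut (ybase_s s T a) (ybase_t t T a) (ybase_up T a b S) := by
      rw [hf]
      exact Finset.mem_singleton_self f
    rw [Finset.mem_inter] at hfm
    rcases f with q | p
    · refine ⟨q.1, ?_⟩
      ext e
      rw [Finset.mem_inter, Finset.mem_filter, Finset.mem_singleton]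
      constructor
      · rintro ⟨⟨-, χ, hχ⟩, he⟩
        have h2 : (Sum.inl (e, χ) : (E × (Bool × Bool)) ⊕ Bool) ∈
            N i ∩ cut (ybase_s s T a) (ybase_t t T a) (ybase_up T a b S) :=
          Finset.mem_inter.mpr ⟨hχ, (hcutiff (e, χ)).mpr he⟩
        rw [hf, Finset.mem_singleton] at h2
        have h3 := Sum.inl.inj h2
        rw [← h3]
      · rintro rfl
        exact ⟨⟨Finset.mem_univ _, q.2, hfm.1⟩, (hcutiff q).mp hfm.2⟩
    · exfalso
      have h2 := hfm.2
      rw [mem_cut] at h2
      apply h2
      change Sum.inr (p, false) ∈ ybase_up T a b S ↔ Sum.inr (p, true) ∈ ybase_up T a b S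
      rw [ybase_mem_up_inr, ybase_mem_up_inr]

end Pool.Agent.Lib.MP_95bb8c_al.OE
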