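import Pool.Agent.Lib.MP_95bb8c_al.OE.Cut

set_option autoImplicit false
set_option linter.unusedSectionVars false

/-!
# Contraction of the two sides of a tight `T`-even separating set
-/

namespace Pool.Agent.Lib.MP_95bb8c_al.OE

open Finset

variable {V E : Type} [Fintype V] [DecidableEq V] [Fintype E] [DecidableEq E]
variable {s t : E → V} {T X S : Finset V} {a b v : V} {z : E → ℚ} {c k : ℚ}

/-- Contract the complement of `X` to `b`. -/
def toR (X : Finset V) (b v : V) : V := if v ∈ X then v else b

/-- Contract `X` to `a`. -/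
def toL (X : Finset V) (a v : V) : V := if v ∈ X then a else v

theorem toR_mem (h : v ∈ X) : toR X b v = v := if_pos h
theorem toR_not (h : v ∉ X) : toR X b v = b := if_neg h
theorem toL_mem (h : v ∈ X) : toL X a v = a := if_pos h
theorem toL_not (h : v ∉ X) : toL X a v = v := if_neg h

theorem pre_toR_not (hb : b ∉ S) : pre (toR X b) S = S ∩ X := by
  ext v
  rw [mem_pre, Finset.mem_inter]
  by_cases h : v ∈ X
  · simp [toR_mem h, h]
  · simp [toR_not h, h, hb]

theorem pre_toR_mem (hb : b ∈ S) : pre (toR X b) S = (S ∩ X) ∪ Xᶜ := by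
  ext v
  rw [mem_pre, Finset.mem_union, Finset.mem_inter, Finset.mem_compl]
  by_cases h : v ∈ X
  · simp [toR_mem h, h]
  · simp [toR_not h, h, hb]

theorem pre_toL_not (ha : a ∉ S) : pre (toL X a) S = S \ X := by
  ext v
  rw [mem_pre, Finset.mem_sdiff]
  by_cases h : v ∈ X
  · simp [toL_mem h, h, ha]
  · simp [toL_not h, h]

theorem pre_toL_mem (ha : a ∈ S) : pre (toL X a) S = S ∪ X := by
  ext v
  rw [mem_pre, Finset.mem_union]
  by_cases h : v ∈ X
  · simp [toL_mem h, h, ha]
  · simp [toL_not h, h]

theorem kk_left (h : KK s t T a b c k z) (hc : 0 < c) (ha : a ∈ X) (hb : b ∉ X)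
    (hX : Even (X ∩ T).card) (hXk : cw s t z X = k) :
    KK (fun e => toR X b (s e)) (fun e => toR X b (t e)) (X ∩ T) a b c k z := by
  have hTe := even_T h hc
  have hcT : Even (Xᶜ ∩ T).card := by
    have h1 := card_compl_split X T
    rw [h1, Nat.even_add] at hTe
    exact hTe.mp hX
  have hU : ∀ v, InU T a b v → InU (X ∩ T) a b (toR X b v) := by
    intro v hv
    by_cases hvX : v ∈ X
    · rw [toR_mem hvX]
      rcases hv with hv | hv | hv
      · exact Or.inl (Finset.mem_inter.mpr ⟨hvX, hv⟩)
      · exact Or.inr (Or.inl hv)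
      · exact Or.inr (Or.inr hv)
    · rw [toR_not hvX]
      exact Or.inr (Or.inr rfl)
  refine ⟨⟨h.frame.hab, fun h1 => h.frame.ha (Finset.mem_inter.mp h1).2,
    fun h1 => h.frame.hb (Finset.mem_inter.mp h1).2, fun e => hU _ (h.frame.hs e),
    fun e => hU _ (h.frame.ht e)⟩, h.nonneg, ?_, ?_, ?_, ?_, ?_⟩
  · intro v hv
    rw [Finset.mem_inter] at hv
    have hvb : b ∉ ({v} : Finset V) := by
      rw [Finset.mem_singleton]
      rintro rfl
      exact hb hv.1
    rw [cw_comp, pre_toR_not hvb, Finset.singleton_inter_of_mem hv.1]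
    exact h.degT v hv.2
  · have hvb : b ∉ ({a} : Finset V) := by
      rw [Finset.mem_singleton]
      exact h.frame.hab.symm
    rw [cw_comp, pre_toR_not hvb, Finset.singleton_inter_of_mem ha]
    exact h.dega
  · have h1 : ({b} : Finset V) ∩ X ∪ Xᶜ = Xᶜ := by
      rw [Finset.singleton_inter_of_notMem hb, Finset.empty_union]
    rw [cw_comp, pre_toR_mem (Finset.mem_singleton_self b), h1, cw_compl]
    exact hXk
  · intro S hS
    rw [cw_comp]
    apply h.odd
    by_cases hbS : b ∈ S
    · rw [pre_toR_mem hbS]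
      have h1 : ((S ∩ X ∪ Xᶜ) ∩ T).card = (S ∩ (X ∩ T)).card + (Xᶜ ∩ T).card := by
        rw [← Finset.card_union_of_disjoint]
        · congr 1
          ext v
          simp only [Finset.mem_inter, Finset.mem_union, Finset.mem_compl]
          tauto
        · rw [Finset.disjoint_left]
          intro v h1 h2
          simp only [Finset.mem_inter, Finset.mem_compl] at h1 h2
          exact h2.1 h1.2.1
      rw [h1]
      exact hS.add_even hcT
    · rw [pre_toR_not hbS, Finset.inter_assoc]
      exact hS
  · intro S haS hbS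
    rw [cw_comp, pre_toR_not hbS]
    exact h.sep _ (Finset.mem_inter.mpr ⟨haS, ha⟩) (fun h1 => hbS (Finset.mem_inter.mp h1).1)

theorem kk_right (h : KK s t T a b c k z) (_hc : 0 < c) (ha : a ∈ X) (hb : b ∉ X)
    (hX : Even (X ∩ T).card) (hXk : cw s t z X = k) :
    KK (fun e => toL X a (s e)) (fun e => toL X a (t e)) (T \ X) a b c k z := by
  have hU : ∀ v, InU T a b v → InU (T \ X) a b (toL X a v) := by
    intro v hv
    by_cases hvX : v ∈ X
    · rw [toL_mem hvX]
      exact Or.inr (Or.inl rfl)
    · rw [toL_not hvX]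
      rcases hv with hv | hv | hv
      · exact Or.inl (Finset.mem_sdiff.mpr ⟨hv, hvX⟩)
      · exact Or.inr (Or.inl hv)
      · exact Or.inr (Or.inr hv)
  refine ⟨⟨h.frame.hab, fun h1 => h.frame.ha (Finset.mem_sdiff.mp h1).1,
    fun h1 => h.frame.hb (Finset.mem_sdiff.mp h1).1, fun e => hU _ (h.frame.hs e),
    fun e => hU _ (h.frame.ht e)⟩, h.nonneg, ?_, ?_, ?_, ?_, ?_⟩
  · intro v hv
    rw [Finset.mem_sdiff] at hv
    have hva : a ∉ ({v} : Finset V) := by
      rw [Finset.mem_singleton]
      rintro rfl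
      exact hv.2 ha
    have h1 : ({v} : Finset V) \ X = {v} := by
      rw [Finset.sdiff_eq_self_iff_disjoint, Finset.disjoint_singleton_left]
      exact hv.2
    rw [cw_comp, pre_toL_not hva, h1]
    exact h.degT v hv.1
  · have h1 : ({a} : Finset V) ∪ X = X := by
      rw [Finset.union_eq_right, Finset.singleton_subset_iff]
      exact ha
    rw [cw_comp, pre_toL_mem (Finset.mem_singleton_self a), h1]
    exact hXk
  · have hva : a ∉ ({b} : Finset V) := by
      rw [Finset.mem_singleton]
      exact h.frame.hab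
    have h1 : ({b} : Finset V) \ X = {b} := by
      rw [Finset.sdiff_eq_self_iff_disjoint, Finset.disjoint_singleton_left]
      exact hb
    rw [cw_comp, pre_toL_not hva, h1]
    exact h.degb
  · intro S hS
    rw [cw_comp]
    apply h.odd
    have h2 : S ∩ (T \ X) = (S \ X) ∩ T := by
      ext v
      simp only [Finset.mem_inter, Finset.mem_sdiff]
      tauto
    rw [h2] at hS
    by_cases haS : a ∈ S
    · rw [pre_toL_mem haS, Finset.union_comm, card_union_split]
      exact hX.add_odd hS
    · rw [pre_toL_not haS]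
      exact hS
  · intro S haS hbS
    rw [cw_comp, pre_toL_mem haS]
    exact h.sep _ (Finset.mem_union.mpr (Or.inl haS))
      (fun h1 => (Finset.mem_union.mp h1).elim hbS hb)

end Pool.Agent.Lib.MP_95bb8c_al.OE
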