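import Pool.Agent.Lib.MP_95bb8c_al.OE.YBase
import Pool.Agent.Lib.MP_95bb8c_al.OE.YCon

set_option autoImplicit false
set_option linter.unusedSectionVars false

/-!
# A perfect matching of `T` which is tight for all tight cuts

PROOF of `exists_tight_pm`. Induction on `T.card` (for all `s`, `t`, `T`; `z`, `a`, `b`, `c`, `k`
fixed). Call a `T`-even `X` with `a ∈ X`, `b ∉ X`, `cw s t z X = k` even tight.
If for each even tight `X` one has `X ∩ T = ∅` or `T ⊆ X`: take `M` of `tight_base`; the edges
of `M` are inside `T`, so `M ∩ cut s t X = ∅`.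
Otherwise fix an even tight `X` with `X ∩ T ≠ ∅`, `¬ T ⊆ X`. Apply the induction hypothesis to
`kk_left` (vertices `X ∩ T`, fewer than `T`) and `kk_right` (vertices `T \ X`): `M1`, `M2`. The
edges of `M1` have both ends in `X ∩ T` (`toR X b w ∈ X ∩ T` implies `w ∈ X ∩ T` because
`b ∉ T`), those of `M2` have both ends in `T \ X` (`a ∉ T`). Put `M = M1 ∪ M2` (disjoint). For
`S` arbitrary: `(M ∩ cut s t S).card = (M1 ∩ cut s t S).card + (M2 ∩ cut s t S).card`, and in
`M1 ∩ cut s t S` the set `S` may be replaced by `S ∩ X` or by `X \ S`, in `M2 ∩ cut s t S` by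
`S ∪ X` or by `S \ X`. The cut of the contracted graph `toR X b` at `S ∩ X` and at `X \ S`
is the cut of `s t` at the same set (`cut_comp`, `pre_toR_not`, these sets do not contain `b`),
the cut of `toL X a` at `S ∪ X` (`pre_toL_mem`) and at `S \ X` (`pre_toL_not`) too. Parities:
`(S ∩ X) ∩ (X ∩ T)` has the parity of `(S ∩ X) ∩ T`, and `(S ∪ X) ∩ (T \ X)` is `(S \ X) ∩ T`.

(1) `Y` even tight. `cw (Y ∩ X) + cw (Y ∪ X) ≤ 2 k` (`cw_inter_union_le`). Both sets contain
`a` and not `b`. They have the same `T`-parity (`X`, `Y` are `T`-even). If odd: the sum would be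
`≥ 2 c > 2 k`. So both are even, each has weight `≥ k`, hence `= k`. So
`M1 ∩ cut s t Y = M1 ∩ cut s t (Y ∩ X) = ∅` and `M2 ∩ cut s t Y = M2 ∩ cut s t (Y ∪ X) = ∅`.

(2) `S` with `Odd (S ∩ T).card`, `cw s t z S = c`. Replacing `S` by its complement
(`cut_compl'`, `cw_compl`, `T` is even) one may assume `b ∉ S`.
 (2a) `a ∉ S`, `(S ∩ X) ∩ T` odd: `S ∩ X` is `T`-odd, weight `≥ c`; `S ∪ X` contains `a`, not
 `b`, weight `≥ k`, and it is `T`-even; the sum is `≤ c + k`. So `S ∩ X` is tight odd,
 `S ∪ X` is even tight: `(M1 ∩ cut S).card = 1`, `(M2 ∩ cut S).card = 0`.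
 (2b) `a ∉ S`, `(S ∩ X) ∩ T` even: use `cw_sdiff_sdiff_le`: `S \ X` is `T`-odd, weight
 `≥ c`; `X \ S` contains `a`, not `b`, is `T`-even, weight `≥ k`: both tight:
 `(M2 ∩ cut S).card = 1`, `(M1 ∩ cut S).card = 0`.
 (2c) `a ∈ S`, `(S ∩ X) ∩ T` odd: `S ∩ X` odd tight, `S ∪ X` even tight: `1 + 0`.
 (2d) `a ∈ S`, `(S ∩ X) ∩ T` even: `S ∩ X` even tight (contains `a`, not `b`), `S ∪ X` is
 `T`-odd, tight: `0 + 1`.
-/

namespace Pool.Agent.Lib.MP_95bb8c_al.OE

open Finset

variable {V E : Type} [Fintype V] [DecidableEq V] [Fintype E] [DecidableEq E]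
variable {s t : E → V} {T : Finset V} {a b : V} {z : E → ℚ} {c k : ℚ}

theorem ymain_aux {a b : V} {z : E → ℚ} {c k : ℚ} (hk : 0 < k) (hkc : k < c) :
    ∀ (n : ℕ) (s t : E → V) (T : Finset V), T.card = n → KK s t T a b c k z →
    ∃ M : Finset E, Inside s t T z M ∧
      (∀ S : Finset V, Odd (S ∩ T).card → cw s t z S = c → (M ∩ cut s t S).card = 1) ∧
      ∀ X : Finset V, a ∈ X → b ∉ X → Even (X ∩ T).card → cw s t z X = k →
        M ∩ cut s t X = ∅ := by
  intro n
  induction n using Nat.strong_induction_on with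
  | _ n IH =>
  intro s t T hn h
  have hc : 0 < c := lt_trans hk hkc
  have hTe := even_T h hc
  by_cases hX : ∃ X : Finset V, a ∈ X ∧ b ∉ X ∧ Even (X ∩ T).card ∧ cw s t z X = k ∧
      (X ∩ T).Nonempty ∧ ¬ T ⊆ X
  · obtain ⟨X, haX, hbX, hXe, hXk, hXne, hXT⟩ := hX
    have hlt1 : (X ∩ T).card < n := by
      rw [← hn]
      apply Finset.card_lt_card
      refine ⟨Finset.inter_subset_right, fun h1 => hXT (fun v hv => ?_)⟩
      exact (Finset.mem_inter.mp (h1 hv)).1
    have hlt2 : (T \ X).card < n := by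
      rw [← hn]
      apply Finset.card_lt_card
      refine ⟨Finset.sdiff_subset, fun h1 => ?_⟩
      obtain ⟨v, hv⟩ := hXne
      rw [Finset.mem_inter] at hv
      exact (Finset.mem_sdiff.mp (h1 hv.2)).2 hv.1
    obtain ⟨M1, hI1, hO1, hE1⟩ := IH _ hlt1 _ _ (X ∩ T) rfl (kk_left h hc haX hbX hXe hXk)
    obtain ⟨M2, hI2, hO2, hE2⟩ := IH _ hlt2 _ _ (T \ X) rfl (kk_right h hc haX hbX hXe hXk)
    have hR : ∀ v, toR X b v ∈ X ∩ T → v ∈ X ∧ v ∈ T := by
      intro v hv
      by_cases h1 : v ∈ X
      · rw [toR_mem h1, Finset.mem_inter] at hv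
        exact hv
      · rw [toR_not h1, Finset.mem_inter] at hv
        exact absurd hv.1 hbX
    have hL : ∀ v, toL X a v ∈ T \ X → v ∉ X ∧ v ∈ T := by
      intro v hv
      by_cases h1 : v ∈ X
      · rw [toL_mem h1, Finset.mem_sdiff] at hv
        exact absurd haX hv.2
      · rw [toL_not h1, Finset.mem_sdiff] at hv
        exact ⟨h1, hv.1⟩
    have hM1 : ∀ e ∈ M1, z e ≠ 0 ∧ (s e ∈ X ∧ s e ∈ T) ∧ (t e ∈ X ∧ t e ∈ T) ∧ s e ≠ t e := by
      intro e he
      obtain ⟨h1, h2, h3, h4⟩ := hI1 e he
      exact ⟨h1, hR _ h2, hR _ h3, fun h5 => h4 (congrArg (toR X b) h5)⟩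
    have hM2 : ∀ e ∈ M2, z e ≠ 0 ∧ (s e ∉ X ∧ s e ∈ T) ∧ (t e ∉ X ∧ t e ∈ T) ∧ s e ≠ t e := by
      intro e he
      obtain ⟨h1, h2, h3, h4⟩ := hI2 e he
      exact ⟨h1, hL _ h2, hL _ h3, fun h5 => h4 (congrArg (toL X a) h5)⟩
    have hdisj : Disjoint M1 M2 := by
      rw [Finset.disjoint_left]
      intro e h1 h2
      exact (hM2 e h2).2.1.1 (hM1 e h1).2.1.1
    have hcard : ∀ S : Finset V, ((M1 ∪ M2) ∩ cut s t S).card =
        (M1 ∩ cut s t S).card + (M2 ∩ cut s t S).card := by
      intro S
      rw [Finset.union_inter_distrib_right, Finset.card_union_of_disjoint]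
      exact Finset.disjoint_of_subset_left Finset.inter_subset_left
        (Finset.disjoint_of_subset_right Finset.inter_subset_left hdisj)
    have hc1 : ∀ S S' : Finset V, (∀ v ∈ X, v ∈ S ↔ v ∈ S') →
        M1 ∩ cut s t S = M1 ∩ cut s t S' := by
      intro S S' hSS
      ext e
      rw [Finset.mem_inter, Finset.mem_inter]
      refine and_congr_right fun he => ?_
      rw [mem_cut, mem_cut, hSS _ (hM1 e he).2.1.1, hSS _ (hM1 e he).2.2.1.1]
    have hc2 : ∀ S S' : Finset V, (∀ v, v ∉ X → (v ∈ S ↔ v ∈ S')) →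
        M2 ∩ cut s t S = M2 ∩ cut s t S' := by
      intro S S' hSS
      ext e
      rw [Finset.mem_inter, Finset.mem_inter]
      refine and_congr_right fun he => ?_
      rw [mem_cut, mem_cut, hSS _ (hM2 e he).2.1.1, hSS _ (hM2 e he).2.2.1.1]
    have hc1' : ∀ S S' : Finset V, (∀ v ∈ X, v ∈ S ↔ v ∉ S') →
        M1 ∩ cut s t S = M1 ∩ cut s t S' := by
      intro S S' hSS
      rw [← cut_compl' S']
      apply hc1
      intro v hv
      rw [Finset.mem_compl]
      exact hSS v hv
    -- the properties of `M1` and `M2` for sets of the original graph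
    have hpreR : ∀ S' : Finset V, S' ⊆ X → pre (toR X b) S' = S' := by
      intro S' hS'
      rw [pre_toR_not (fun h1 => hbX (hS' h1)), Finset.inter_eq_left]
      exact hS'
    have hpreL : ∀ S' : Finset V, X ⊆ S' ∨ Disjoint S' X → pre (toL X a) S' = S' := by
      intro S' hS'
      rcases hS' with hS' | hS'
      · rw [pre_toL_mem (hS' haX), Finset.union_eq_left]
        exact hS'
      · rw [pre_toL_not (fun h1 => (Finset.disjoint_left.mp hS') h1 haX),
          Finset.sdiff_eq_self_iff_disjoint]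
        exact hS'
    have hL1 : ∀ S' : Finset V, S' ⊆ X → Odd (S' ∩ T).card → cw s t z S' = c →
        (M1 ∩ cut s t S').card = 1 := by
      intro S' hS' ho hw
      have h1 := hO1 S' (by
        have h2 : S' ∩ (X ∩ T) = S' ∩ T := by
          rw [← Finset.inter_assoc, Finset.inter_eq_left.mpr hS']
        rw [h2]
        exact ho) (by rw [cw_comp, hpreR S' hS']; exact hw)
      rw [cut_comp, hpreR S' hS'] at h1
      exact h1
    have hL2 : ∀ S' : Finset V, S' ⊆ X → a ∈ S' → Even (S' ∩ T).card → cw s t z S' = k →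
        M1 ∩ cut s t S' = ∅ := by
      intro S' hS' haS ho hw
      have h1 := hE1 S' haS (fun h2 => hbX (hS' h2)) (by
        have h2 : S' ∩ (X ∩ T) = S' ∩ T := by
          rw [← Finset.inter_assoc, Finset.inter_eq_left.mpr hS']
        rw [h2]
        exact ho) (by rw [cw_comp, hpreR S' hS']; exact hw)
      rw [cut_comp, hpreR S' hS'] at h1
      exact h1
    have hTX : ∀ S' : Finset V, S' ∩ (T \ X) = (S' \ X) ∩ T := by
      intro S'
      ext v
      simp only [Finset.mem_inter, Finset.mem_sdiff]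
      tauto
    have hR1 : ∀ S' : Finset V, X ⊆ S' ∨ Disjoint S' X → Odd ((S' \ X) ∩ T).card →
        cw s t z S' = c → (M2 ∩ cut s t S').card = 1 := by
      intro S' hS' ho hw
      have h1 := hO2 S' (by rw [hTX]; exact ho) (by rw [cw_comp, hpreL S' hS']; exact hw)
      rw [cut_comp, hpreL S' hS'] at h1
      exact h1
    have hR2 : ∀ S' : Finset V, X ⊆ S' → b ∉ S' → Even ((S' \ X) ∩ T).card →
        cw s t z S' = k → M2 ∩ cut s t S' = ∅ := by
      intro S' hS' hbS ho hw
      have h1 := hE2 S' (hS' haX) hbS (by rw [hTX]; exact ho)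
        (by rw [cw_comp, hpreL S' (Or.inl hS')]; exact hw)
      rw [cut_comp, hpreL S' (Or.inl hS')] at h1
      exact h1
    -- tight odd sets without `b`
    have key : ∀ S : Finset V, b ∉ S → Odd (S ∩ T).card → cw s t z S = c →
        ((M1 ∪ M2) ∩ cut s t S).card = 1 := by
      intro S hbS hSo hSc
      have e1 := card_split S X T
      have e2 := card_split X S T
      have e3 := card_union_split X S T
      have e4 : (X ∩ S ∩ T).card = (S ∩ X ∩ T).card := by rw [Finset.inter_comm X S]
      have e5 : S ∪ X = X ∪ S := Finset.union_comm _ _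
      rw [Nat.odd_iff] at hSo
      rw [Nat.even_iff] at hXe
      have hunX : b ∉ S ∪ X := fun h1 => (Finset.mem_union.mp h1).elim hbS hbX
      have hsd : (S ∪ X) \ X = S \ X := by
        ext v
        simp only [Finset.mem_sdiff, Finset.mem_union]
        tauto
      rw [hcard]
      by_cases hp : Odd ((S ∩ X) ∩ T).card
      · -- `S ∩ X` is odd tight, `S ∪ X` is even tight
        have hp' := Nat.odd_iff.mp hp
        have f1 := h.odd _ hp
        have f2 := h.sep (S ∪ X) (Finset.mem_union.mpr (Or.inr haX)) hunX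
        have f3 := cw_inter_union_le (s := s) (t := t) h.nonneg S X
        have g1 := hL1 (S ∩ X) Finset.inter_subset_right hp (by linarith)
        have g2 := hR2 (S ∪ X) Finset.subset_union_right hunX (by
          rw [hsd, Nat.even_iff]
          omega) (by linarith)
        rw [hc1 S (S ∩ X) (fun v hv => by simp [hv]), g1,
          hc2 S (S ∪ X) (fun v hv => by simp [hv]), g2]
        rfl
      · rw [Nat.not_odd_iff_even] at hp
        have hp' := Nat.even_iff.mp hp
        by_cases haS : a ∈ S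
        · -- `S ∩ X` is even tight, `S ∪ X` is odd tight
          have f1 := h.sep (S ∩ X) (Finset.mem_inter.mpr ⟨haS, haX⟩)
            (fun h1 => hbS (Finset.mem_inter.mp h1).1)
          have f2 := h.odd (S ∪ X) (by
            rw [e5, Nat.odd_iff]
            omega)
          have f3 := cw_inter_union_le (s := s) (t := t) h.nonneg S X
          have g1 := hL2 (S ∩ X) Finset.inter_subset_right (Finset.mem_inter.mpr ⟨haS, haX⟩) hp
            (by linarith)
          have g2 := hR1 (S ∪ X) (Or.inl Finset.subset_union_right) (by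
            rw [hsd, Nat.odd_iff]
            omega) (by linarith)
          rw [hc1 S (S ∩ X) (fun v hv => by simp [hv]), g1,
            hc2 S (S ∪ X) (fun v hv => by simp [hv]), g2]
          rfl
        · -- `X \ S` is even tight, `S \ X` is odd tight
          have f1 := h.sep (X \ S) (Finset.mem_sdiff.mpr ⟨haX, haS⟩)
            (fun h1 => hbX (Finset.mem_sdiff.mp h1).1)
          have f2 := h.odd (S \ X) (by
            rw [Nat.odd_iff]
            omega)
          have f3 := cw_sdiff_sdiff_le (s := s) (t := t) h.nonneg S X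
          have g1 := hL2 (X \ S) Finset.sdiff_subset (Finset.mem_sdiff.mpr ⟨haX, haS⟩) (by
            rw [Nat.even_iff]
            omega) (by linarith)
          have hss : (S \ X) \ X = S \ X := by
            ext v
            simp only [Finset.mem_sdiff]
            tauto
          have g2 := hR1 (S \ X) (Or.inr Finset.sdiff_disjoint) (by
            rw [hss, Nat.odd_iff]
            omega) (by linarith)
          rw [hc1' S (X \ S) (fun v hv => by simp [hv]), g1,
            hc2 S (S \ X) (fun v hv => by simp [hv]), g2]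
          rfl
    refine ⟨M1 ∪ M2, ?_, ?_, ?_⟩
    · intro e he
      rcases Finset.mem_union.mp he with he | he
      · obtain ⟨h1, h2, h3, h4⟩ := hM1 e he
        exact ⟨h1, h2.2, h3.2, h4⟩
      · obtain ⟨h1, h2, h3, h4⟩ := hM2 e he
        exact ⟨h1, h2.2, h3.2, h4⟩
    · intro S hSo hSc
      by_cases hbS : b ∈ S
      · rw [← cut_compl' S]
        apply key Sᶜ (by rw [Finset.mem_compl, not_not]; exact hbS)
        · have h1 := card_compl_split S T
          rw [Nat.odd_iff] at hSo ⊢
          rw [Nat.even_iff] at hTe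
          omega
        · rw [cw_compl]
          exact hSc
      · exact key S hbS hSo hSc
    · intro Y haY hbY hYe hYk
      have e1 := card_split Y X T
      have e2 := card_union_split X Y T
      have e5 : Y ∪ X = X ∪ Y := Finset.union_comm _ _
      rw [Nat.even_iff] at hYe hXe
      have hun : b ∉ Y ∪ X := fun h1 => (Finset.mem_union.mp h1).elim hbY hbX
      have hsd : (Y ∪ X) \ X = Y \ X := by
        ext v
        simp only [Finset.mem_sdiff, Finset.mem_union]
        tauto
      have f1 := h.sep (Y ∩ X) (Finset.mem_inter.mpr ⟨haY, haX⟩)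
        (fun h1 => hbY (Finset.mem_inter.mp h1).1)
      have f2 := h.sep (Y ∪ X) (Finset.mem_union.mpr (Or.inr haX)) hun
      have f3 := cw_inter_union_le (s := s) (t := t) h.nonneg Y X
      by_cases hp : Odd ((Y ∩ X) ∩ T).card
      · exfalso
        have hp' := Nat.odd_iff.mp hp
        have g1 := h.odd _ hp
        have g2 := h.odd (Y ∪ X) (by
          rw [e5, Nat.odd_iff]
          omega)
        linarith
      · rw [Nat.not_odd_iff_even] at hp
        have hp' := Nat.even_iff.mp hp
        have g1 := hL2 (Y ∩ X) Finset.inter_subset_right (Finset.mem_inter.mpr ⟨haY, haX⟩) hp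
          (by linarith)
        have g2 := hR2 (Y ∪ X) Finset.subset_union_right hun (by
          rw [hsd, Nat.even_iff]
          omega) (by linarith)
        rw [← Finset.card_eq_zero, hcard, hc1 Y (Y ∩ X) (fun v hv => by simp [hv]), g1,
          hc2 Y (Y ∪ X) (fun v hv => by simp [hv]), g2]
        rfl
  · obtain ⟨M, hI, hO⟩ := tight_base h hk hkc
    refine ⟨M, hI, hO, ?_⟩
    intro X haX hbX hXe hXk
    rw [Finset.eq_empty_iff_forall_notMem]
    intro e he
    rw [Finset.mem_inter, mem_cut] at he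
    obtain ⟨-, h2, h3, -⟩ := hI e he.1
    by_cases h5 : (X ∩ T).Nonempty
    · have h6 : T ⊆ X := by
        by_contra h7
        exact hX ⟨X, haX, hbX, hXe, hXk, h5, h7⟩
      exact he.2 (iff_of_true (h6 h2) (h6 h3))
    · rw [Finset.not_nonempty_iff_eq_empty] at h5
      have h7 : ∀ v ∈ T, v ∉ X := by
        intro v hv hv2
        have : v ∈ X ∩ T := Finset.mem_inter.mpr ⟨hv2, hv⟩
        rw [h5] at this
        simp at this
      exact he.2 (iff_of_false (h7 _ h2) (h7 _ h3))

theorem exists_tight_pm (h : KK s t T a b c k z) (hk : 0 < k) (hkc : k < c) :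
    ∃ M : Finset E, Inside s t T z M ∧
      (∀ S : Finset V, Odd (S ∩ T).card → cw s t z S = c → (M ∩ cut s t S).card = 1) ∧
      ∀ X : Finset V, a ∈ X → b ∉ X → Even (X ∩ T).card → cw s t z X = k →
        M ∩ cut s t X = ∅ :=
  ymain_aux hk hkc _ s t T rfl h

end Pool.Agent.Lib.MP_95bb8c_al.OE
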