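import Pool.Agent.Lib.MP_95bb8c_al.OE.Cut

set_option autoImplicit false
set_option linter.unusedSectionVars false

/-!
# Contraction of a tight `T`-odd set without terminals to a vertex of `T`
-/

namespace Pool.Agent.Lib.MP_95bb8c_al.OE

open Finset

variable {V E : Type} [Fintype V] [DecidableEq V] [Fintype E] [DecidableEq E]
variable {s t : E → V} {T S Y : Finset V} {a b v v0 : V} {z : E → ℚ} {c : ℚ}

/-- Contract `S` to `v0`. -/
def toV (S : Finset V) (v0 v : V) : V := if v ∈ S then v0 else v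

theorem toV_mem (h : v ∈ S) : toV S v0 v = v0 := if_pos h
theorem toV_not (h : v ∉ S) : toV S v0 v = v := if_neg h

theorem pre_toV_mem (h : v0 ∈ Y) : pre (toV S v0) Y = Y ∪ S := by
  ext v
  rw [mem_pre, Finset.mem_union]
  by_cases hv : v ∈ S
  · simp [toV_mem hv, hv, h]
  · simp [toV_not hv, hv]

theorem pre_toV_not (h : v0 ∉ Y) : pre (toV S v0) Y = Y \ S := by
  ext v
  rw [mem_pre, Finset.mem_sdiff]
  by_cases hv : v ∈ S
  · simp [toV_mem hv, hv, h]
  · simp [toV_not hv, hv]

/-- The parity of `Y` in the contracted graph. -/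
theorem odd_toV (hS : Odd (S ∩ T).card) (hv0 : v0 ∈ S ∩ T) :
    Odd (Y ∩ insert v0 (T \ S)).card ↔ Odd (pre (toV S v0) Y ∩ T).card := by
  have hYT : Y ∩ (T \ S) = (Y \ S) ∩ T := by
    ext v
    simp only [Finset.mem_inter, Finset.mem_sdiff]
    tauto
  have hn : v0 ∉ Y ∩ (T \ S) := by
    intro h
    exact (Finset.mem_sdiff.mp (Finset.mem_inter.mp h).2).2 (Finset.mem_inter.mp hv0).1
  by_cases hY : v0 ∈ Y
  · rw [pre_toV_mem hY, Finset.inter_insert_of_mem hY, Finset.card_insert_of_notMem hn, hYT,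
      Finset.union_comm, card_union_split]
    rw [Nat.odd_iff] at hS
    rw [Nat.odd_iff, Nat.odd_iff]
    omega
  · rw [pre_toV_not hY, Finset.inter_insert_of_notMem hY, hYT]

/-- Membership of a terminal in the preimage. -/
theorem mem_pre_toV (hv : v ∉ S) : v ∈ pre (toV S v0) Y ↔ v ∈ Y := by
  rw [mem_pre, toV_not hv]

theorem ess_toV (hS : Odd (S ∩ T).card) (hv0 : v0 ∈ S ∩ T) (ha : a ∉ S) (hb : b ∉ S) :
    Ess (insert v0 (T \ S)) a b Y ↔ Ess T a b (pre (toV S v0) Y) := by
  unfold Ess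
  rw [odd_toV hS hv0, mem_pre_toV ha, mem_pre_toV hb]

theorem kk_contr (h : KK s t T a b c c z) (hS : Odd (S ∩ T).card) (ha : a ∉ S) (hb : b ∉ S)
    (hSc : cw s t z S = c) (hv0 : v0 ∈ S ∩ T) :
    KK (fun e => toV S v0 (s e)) (fun e => toV S v0 (t e)) (insert v0 (T \ S)) a b c c z := by
  obtain ⟨h0S, h0T⟩ := Finset.mem_inter.mp hv0
  have hU : ∀ v, InU T a b v → InU (insert v0 (T \ S)) a b (toV S v0 v) := by
    intro v hv
    by_cases hvS : v ∈ S
    · rw [toV_mem hvS]
      exact Or.inl (Finset.mem_insert_self _ _)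
    · rw [toV_not hvS]
      rcases hv with hv | hv | hv
      · exact Or.inl (Finset.mem_insert_of_mem (Finset.mem_sdiff.mpr ⟨hv, hvS⟩))
      · exact Or.inr (Or.inl hv)
      · exact Or.inr (Or.inr hv)
  have hnot : ∀ v, v ∉ T → v ∉ S → v ∉ insert v0 (T \ S) := by
    intro v h1 h2 h3
    rcases Finset.mem_insert.mp h3 with h3 | h3
    · rw [h3] at h2
      exact h2 h0S
    · exact h1 (Finset.mem_sdiff.mp h3).1
  have hsing : ∀ v, v ∉ S → pre (toV S v0) {v} = {v} := by
    intro v hv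
    have h1 : v0 ∉ ({v} : Finset V) := by
      rw [Finset.mem_singleton]
      rintro rfl
      exact hv h0S
    rw [pre_toV_not h1, Finset.sdiff_eq_self_iff_disjoint, Finset.disjoint_singleton_left]
    exact hv
  refine ⟨⟨h.frame.hab, hnot a h.frame.ha ha, hnot b h.frame.hb hb, fun e => hU _ (h.frame.hs e),
    fun e => hU _ (h.frame.ht e)⟩, h.nonneg, ?_, ?_, ?_, ?_, ?_⟩
  · intro v hv
    rw [cw_comp]
    rcases Finset.mem_insert.mp hv with hv | hv
    · have h1 : v0 ∈ ({v} : Finset V) := by rw [hv]; exact Finset.mem_singleton_self _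
      have h2 : ({v} : Finset V) ∪ S = S := by
        rw [Finset.union_eq_right, Finset.singleton_subset_iff, hv]
        exact h0S
      rw [pre_toV_mem h1, h2]
      exact hSc
    · rw [hsing v (Finset.mem_sdiff.mp hv).2]
      exact h.degT v (Finset.mem_sdiff.mp hv).1
  · rw [cw_comp, hsing a ha]
    exact h.dega
  · rw [cw_comp, hsing b hb]
    exact h.degb
  · intro Y hY
    rw [cw_comp]
    exact h.odd _ ((odd_toV hS hv0).mp hY)
  · intro Y haY hbY
    rw [cw_comp]
    exact h.sep _ ((mem_pre_toV ha).mpr haY) (fun h1 => hbY ((mem_pre_toV hb).mp h1))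

theorem card_contr (hv0 : v0 ∈ S ∩ T) (h3 : 1 < (S ∩ T).card) :
    (insert v0 (T \ S)).card < T.card := by
  have hn : v0 ∉ T \ S := by
    intro h
    exact (Finset.mem_sdiff.mp h).2 (Finset.mem_inter.mp hv0).1
  have h1 := Finset.card_inter_add_card_sdiff T S
  rw [Finset.card_insert_of_notMem hn]
  rw [Finset.inter_comm] at h3
  omega

end Pool.Agent.Lib.MP_95bb8c_al.OE
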