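import Pool.Agent.Lib.MP_95bb8c_al.OE.ZInner

set_option autoImplicit false
set_option linter.unusedSectionVars false

/-!
# Gluing an object of the contracted graph with two inner matchings

PROOF of `glue_obj`. Write `δS = cut s t S`. In the contracted graph the star of `v0` is `δS`
(`pre (toV S v0) {v0} = S` up to the remark `{v0} ∪ S = S`), so `∑ e ∈ δS, o1 e = 2`
(as rationals, hence in `ℕ`). So there are `e1, e2 ∈ δS` (maybe equal) with
`o1 e = [e = e1] + [e = e2]` for all `e ∈ δS`. (`o1 e1 ≠ 0`: if the sum is `2` then some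
`o1 e1 ≥ 1`; subtract `1` there; the rest has sum `1`.) By `ho.supp`, `z e1 ≠ 0`, `z e2 ≠ 0`. Let
`N1, N2` be the inner matchings of `inner_pm` for `e1, e2`. Put
`o e = if s e ∈ S ∧ t e ∈ S then [e ∈ N1] + [e ∈ N2] else o1 e`.
Then (A) for each `e` with an end in `S`, `o e = [e ∈ N1] + [e ∈ N2]` (on `δS` because
`Ni ∩ δS = {ei}`), and (B) for each `e` which is not inside `S`, `o e = o1 e`.
Support and loops: clear (`N` has no loops; a loop outside `S` is a loop of the contracted
graph; a loop inside `S` is not in `N1`, `N2`).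
Cuts: (A') for `Y ⊆ S`: each edge of `cut s t Y` has an end in `S`, so
`cw (rat o) Y = (N1 ∩ cut s t Y).card + (N2 ∩ cut s t Y).card`; if `Y ∩ T` is odd it is `≥ 2`,
and `= 2` if moreover `cw z Y = c`.
(B') if `S ⊆ Y` or `Y ∩ S = ∅`: no edge of `cut s t Y` is inside `S`, and `Y = pre (toV S v0) Y'`
with `Y' = Y` (if `S ⊆ Y`, then `v0 ∈ Y`, `pre_toV_mem`; if `Y ∩ S = ∅`, `pre_toV_not`), so
`cw (rat o) Y = cw o1 (contracted) Y`, `≥ 2` if `Ess T a b Y` (`ess_toV`), and `= 2` if moreover
`cw s t z Y = c` (`ho.ess`, `ho.tight`).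
Degrees: `v ∈ S` in `T`: (A') with `Y = {v}`, tight. `v ∉ S`: `Y = {v}` is disjoint from `S`,
it is essential and tight (`ess_singleton`, `deg_eq`): (B').
Essential `Y`: let `o S := cw (rat o) S = 2` ((B'), or (A')).
If `(Y ∩ S) ∩ T` is odd: `Y ∩ S` is as in (A'), and `Y ∪ S` is essential: its parity is
that of `Y` (`Y ∩ T` plus `S ∩ T` minus `(Y ∩ S) ∩ T`, the last two odd) and it contains the same
terminals. `cw_inter_union_le`: `2 + 2 ≤ cw o Y + 2`.
If `(Y ∩ S) ∩ T` is even: `S \ Y` has odd parity: (A'); `Y \ S` is essential (the same parity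
and terminals as `Y`), disjoint from `S`: (B'). `cw_sdiff_sdiff_le`.
Tightness: if moreover `cw z Y = c`: in the first case `cw z (Y ∩ S) ≥ c`, `cw z (Y ∪ S) ≥ c`
(`ess_le`) and the sum is `≤ 2 c`, so both are `= c`, and `cw_inter_union_eq` with `o := rat o`
gives `cw o Y + 2 = 2 + 2`. The second case with `cw_sdiff_sdiff_eq`.
-/

namespace Pool.Agent.Lib.MP_95bb8c_al.OE

open Finset

variable {V E : Type} [Fintype V] [DecidableEq V] [Fintype E] [DecidableEq E]
variable {s t : E → V} {T S : Finset V} {a b v0 : V} {z : E → ℚ} {c : ℚ}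

theorem zglue_one {A : Finset E} {f : E → ℕ} (h : ∑ e ∈ A, f e = 1) :
    ∃ e1 ∈ A, ∀ e ∈ A, f e = if e = e1 then 1 else 0 := by
  obtain ⟨e1, he1, hf⟩ : ∃ e1 ∈ A, f e1 ≠ 0 := by
    by_contra hcon
    push Not at hcon
    rw [Finset.sum_eq_zero hcon] at h
    exact absurd h (by decide)
  have h1 := Finset.add_sum_erase A f he1
  have h2 : ∑ e ∈ A.erase e1, f e = 0 := by omega
  rw [Finset.sum_eq_zero_iff] at h2
  refine ⟨e1, he1, ?_⟩
  intro e he
  by_cases h3 : e = e1
  · rw [if_pos h3, h3]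
    have h4 : ∑ e ∈ A.erase e1, f e = 0 := Finset.sum_eq_zero h2
    omega
  · rw [if_neg h3]
    exact h2 e (Finset.mem_erase.mpr ⟨h3, he⟩)

theorem zglue_two {A : Finset E} {f : E → ℕ} (h : ∑ e ∈ A, f e = 2) :
    ∃ e1 ∈ A, ∃ e2 ∈ A, ∀ e ∈ A,
      f e = (if e = e1 then 1 else 0) + (if e = e2 then 1 else 0) := by
  obtain ⟨e1, he1, hf⟩ : ∃ e1 ∈ A, f e1 ≠ 0 := by
    by_contra hcon
    push Not at hcon
    rw [Finset.sum_eq_zero hcon] at h
    exact absurd h (by decide)
  have h1 := Finset.add_sum_erase A f he1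
  rcases (show f e1 = 1 ∨ f e1 = 2 by omega) with h2 | h2
  · have h3 : ∑ e ∈ A.erase e1, f e = 1 := by omega
    obtain ⟨e2, he2, h4⟩ := zglue_one h3
    rw [Finset.mem_erase] at he2
    refine ⟨e1, he1, e2, he2.2, ?_⟩
    intro e he
    by_cases h5 : e = e1
    · rw [if_pos h5, if_neg (by rw [h5]; exact he2.1.symm), h5, h2]
    · rw [if_neg h5, h4 e (Finset.mem_erase.mpr ⟨h5, he⟩), zero_add]
  · have h3 : ∑ e ∈ A.erase e1, f e = 0 := by omega
    rw [Finset.sum_eq_zero_iff] at h3
    refine ⟨e1, he1, e1, he1, ?_⟩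
    intro e he
    by_cases h5 : e = e1
    · rw [if_pos h5, h5, h2]
    · rw [if_neg h5, h3 e (Finset.mem_erase.mpr ⟨h5, he⟩), add_zero]

theorem glue_obj (h : KK s t T a b c c z) (hc : 0 < c) (hS : Odd (S ∩ T).card) (ha : a ∉ S)
    (hb : b ∉ S) (hSc : cw s t z S = c) (hv0 : v0 ∈ S ∩ T) {o1 : E → ℕ}
    (ho : TObj (fun e => toV S v0 (s e)) (fun e => toV S v0 (t e)) (insert v0 (T \ S)) a b c z
      o1) :
    ∃ o : E → ℕ, TObj s t T a b c z o := by
  obtain ⟨h0S, h0T⟩ := Finset.mem_inter.mp hv0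
  have hpre : ∀ Y : Finset V, S ⊆ Y ∨ Disjoint Y S → pre (toV S v0) Y = Y := by
    intro Y hY
    rcases hY with hY | hY
    · rw [pre_toV_mem (hY h0S), Finset.union_eq_left]
      exact hY
    · rw [pre_toV_not (fun h1 => (Finset.disjoint_left.mp hY) h1 h0S),
        Finset.sdiff_eq_self_iff_disjoint]
      exact hY
  -- the sum of `o1` over the cut of `S`
  have hsum : ∑ e ∈ cut s t S, o1 e = 2 := by
    have h1 := ho.deg v0 (Or.inl (Finset.mem_insert_self _ _))
    have h2 : ({v0} : Finset V) ∪ S = S := by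
      rw [Finset.union_eq_right, Finset.singleton_subset_iff]
      exact h0S
    rw [cw_comp, pre_toV_mem (Finset.mem_singleton_self v0), h2] at h1
    unfold cw rat at h1
    exact_mod_cast h1
  obtain ⟨e1, he1, e2, he2, h12⟩ := zglue_two hsum
  have hz1 : z e1 ≠ 0 := by
    intro h1
    have h2 := h12 e1 he1
    rw [ho.supp e1 h1, if_pos rfl] at h2
    omega
  have hz2 : z e2 ≠ 0 := by
    intro h1
    have h2 := h12 e2 he2
    rw [ho.supp e2 h1, if_pos (rfl : e2 = e2)] at h2
    omega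
  obtain ⟨N1, hN1⟩ := inner_pm h hc hS ha hb hSc he1 hz1
  obtain ⟨N2, hN2⟩ := inner_pm h hc hS ha hb hSc he2 hz2
  set o : E → ℕ := fun e => if s e ∈ S ∧ t e ∈ S then
    (if e ∈ N1 then 1 else 0) + (if e ∈ N2 then 1 else 0) else o1 e with hodef
  have hexit : ∀ {N : Finset E} {f : E}, N ∩ cut s t S = {f} → ∀ e ∈ cut s t S,
      (e ∈ N ↔ e = f) := by
    intro N f hN e he
    rw [← Finset.mem_singleton, ← hN, Finset.mem_inter]
    exact ⟨fun h1 => ⟨h1, he⟩, fun h1 => h1.1⟩
  have hA : ∀ e, s e ∈ S ∨ t e ∈ S →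
      o e = (if e ∈ N1 then 1 else 0) + (if e ∈ N2 then 1 else 0) := by
    intro e he
    by_cases h1 : s e ∈ S ∧ t e ∈ S
    · rw [hodef]
      exact if_pos h1
    · have h2 : e ∈ cut s t S := by
        rw [mem_cut]
        tauto
      have h3 : o e = o1 e := by
        rw [hodef]
        exact if_neg h1
      rw [h3, h12 e h2]
      simp only [hexit hN1.exit e h2, hexit hN2.exit e h2]
  have hB : ∀ e, ¬ (s e ∈ S ∧ t e ∈ S) → o e = o1 e := by
    intro e he
    rw [hodef]
    exact if_neg he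
  have hcA : ∀ Y : Finset V, Y ⊆ S → cw s t (rat o) Y =
      ((N1 ∩ cut s t Y).card : ℚ) + ((N2 ∩ cut s t Y).card : ℚ) := by
    intro Y hY
    rw [← cw_ind, ← cw_ind, ← cw_add]
    unfold cw
    apply Finset.sum_congr rfl
    intro e he
    rw [mem_cut] at he
    have h1 : s e ∈ S ∨ t e ∈ S := by
      by_contra h2
      push Not at h2
      exact he (iff_of_false (fun h3 => h2.1 (hY h3)) (fun h3 => h2.2 (hY h3)))
    unfold rat
    rw [hA e h1]
    push_cast
    rfl
  have hcB : ∀ Y : Finset V, S ⊆ Y ∨ Disjoint Y S → cw s t (rat o) Y = cw s t (rat o1) Y := by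
    intro Y hY
    unfold cw
    apply Finset.sum_congr rfl
    intro e he
    rw [mem_cut] at he
    unfold rat
    rw [hB e]
    rintro ⟨h1, h2⟩
    rcases hY with hY | hY
    · exact he (iff_of_true (hY h1) (hY h2))
    · exact he (iff_of_false (fun h3 => (Finset.disjoint_left.mp hY) h3 h1)
        (fun h3 => (Finset.disjoint_left.mp hY) h3 h2))
  have hA1 : ∀ Y : Finset V, Y ⊆ S → Odd (Y ∩ T).card → 2 ≤ cw s t (rat o) Y := by
    intro Y hY hYo
    rw [hcA Y hY]
    have h1 := hN1.odd Y hY hYo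
    have h2 := hN2.odd Y hY hYo
    have h3 : (1 : ℚ) ≤ (N1 ∩ cut s t Y).card := by exact_mod_cast h1
    have h4 : (1 : ℚ) ≤ (N2 ∩ cut s t Y).card := by exact_mod_cast h2
    linarith
  have hA2 : ∀ Y : Finset V, Y ⊆ S → Odd (Y ∩ T).card → cw s t z Y = c →
      cw s t (rat o) Y = 2 := by
    intro Y hY hYo hYc
    rw [hcA Y hY, hN1.tight Y hY hYo hYc, hN2.tight Y hY hYo hYc]
    norm_num
  have hB1 : ∀ Y : Finset V, S ⊆ Y ∨ Disjoint Y S → Ess T a b Y → 2 ≤ cw s t (rat o) Y := by
    intro Y hY hYe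
    rw [hcB Y hY]
    have h1 := ho.ess Y ((ess_toV hS hv0 ha hb).mpr (by rw [hpre Y hY]; exact hYe))
    rw [cw_comp, hpre Y hY] at h1
    exact h1
  have hB2 : ∀ Y : Finset V, S ⊆ Y ∨ Disjoint Y S → Ess T a b Y → cw s t z Y = c →
      cw s t (rat o) Y = 2 := by
    intro Y hY hYe hYc
    rw [hcB Y hY]
    have h1 := ho.tight Y ((ess_toV hS hv0 ha hb).mpr (by rw [hpre Y hY]; exact hYe))
      (by rw [cw_comp, hpre Y hY]; exact hYc)
    rw [cw_comp, hpre Y hY] at h1
    exact h1
  have hoS : cw s t (rat o) S = 2 := hB2 S (Or.inl Finset.Subset.rfl) (Or.inl hS) hSc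
  have honn : ∀ e, 0 ≤ rat o e := fun e => Nat.cast_nonneg _
  have hosupp : ∀ e, z e = 0 → o e = 0 := by
    intro e he
    by_cases h1 : s e ∈ S ∧ t e ∈ S
    · rw [hA e (Or.inl h1.1), if_neg (fun h2 => hN1.supp e h2 he),
        if_neg (fun h2 => hN2.supp e h2 he)]
    · rw [hB e h1]
      exact ho.supp e he
  -- the two uncrossings
  have hcase : ∀ Y : Finset V, Ess T a b Y →
      (Odd ((Y ∩ S) ∩ T).card ∧ Ess T a b (Y ∪ S)) ∨
      (Odd ((S \ Y) ∩ T).card ∧ Ess T a b (Y \ S)) := by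
    intro Y hY
    have h1 := card_split S Y T
    have h2 := card_split Y S T
    have h3 := card_union_split Y S T
    have h4 : (S ∩ Y ∩ T).card = (Y ∩ S ∩ T).card := by rw [Finset.inter_comm S Y]
    rw [Nat.odd_iff] at hS
    by_cases h5 : Odd ((Y ∩ S) ∩ T).card
    · left
      refine ⟨h5, ?_⟩
      rw [Nat.odd_iff] at h5
      rcases hY with hY | hY
      · left
        rw [Nat.odd_iff] at hY ⊢
        omega
      · right
        simp only [Finset.mem_union, ha, hb, or_false]
        exact hY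
    · right
      rw [Nat.not_odd_iff_even, Nat.even_iff] at h5
      refine ⟨?_, ?_⟩
      · rw [Nat.odd_iff]
        omega
      · rcases hY with hY | hY
        · left
          rw [Nat.odd_iff] at hY ⊢
          omega
        · right
          simp only [Finset.mem_sdiff, ha, hb, not_false_eq_true, and_true]
          exact hY
  refine ⟨o, ⟨hosupp, ?_, ?_, ?_, ?_⟩⟩
  · intro e he
    by_cases h1 : s e ∈ S ∧ t e ∈ S
    · rw [hA e (Or.inl h1.1), if_neg (fun h2 => hN1.loop e h2 he),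
        if_neg (fun h2 => hN2.loop e h2 he)]
    · rw [hB e h1]
      apply ho.loop
      rw [he]
  · intro v hv
    by_cases hvS : v ∈ S
    · have hvT : v ∈ T := by
        rcases hv with hv | rfl | rfl
        · exact hv
        · exact absurd hvS ha
        · exact absurd hvS hb
      apply hA2 {v} (Finset.singleton_subset_iff.mpr hvS)
      · rw [Finset.singleton_inter_of_mem hvT]
        exact Nat.odd_iff.mpr rfl
      · exact h.degT v hvT
    · exact hB2 {v} (Or.inr (Finset.disjoint_singleton_left.mpr hvS))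
        (ess_singleton h.frame hv) (deg_eq h hv)
  · intro Y hY
    rcases hcase Y hY with ⟨h1, h2⟩ | ⟨h1, h2⟩
    · have h3 := hA1 (Y ∩ S) Finset.inter_subset_right h1
      have h4 := hB1 (Y ∪ S) (Or.inl Finset.subset_union_right) h2
      have h5 := cw_inter_union_le (s := s) (t := t) honn Y S
      linarith
    · have h3 := hA1 (S \ Y) Finset.sdiff_subset h1
      have h4 := hB1 (Y \ S) (Or.inr Finset.sdiff_disjoint) h2
      have h5 := cw_sdiff_sdiff_le (s := s) (t := t) honn Y S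
      linarith
  · intro Y hY hYc
    have hosupp' : ∀ e, z e = 0 → rat o e = 0 := by
      intro e he
      unfold rat
      rw [hosupp e he, Nat.cast_zero]
    rcases hcase Y hY with ⟨h1, h2⟩ | ⟨h1, h2⟩
    · have h3 := h.odd _ h1
      have h4 := ess_le h h2
      have h5 := cw_inter_union_le (s := s) (t := t) h.nonneg Y S
      have h6 := hA2 (Y ∩ S) Finset.inter_subset_right h1 (by linarith)
      have h7 := hB2 (Y ∪ S) (Or.inl Finset.subset_union_right) h2 (by linarith)
      have h8 := cw_inter_union_eq (s := s) (t := t) h.nonneg (A := Y) (B := S) hosupp'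
        (by linarith)
      linarith
    · have h3 := h.odd _ h1
      have h4 := ess_le h h2
      have h5 := cw_sdiff_sdiff_le (s := s) (t := t) h.nonneg Y S
      have h6 := hA2 (S \ Y) Finset.sdiff_subset h1 (by linarith)
      have h7 := hB2 (Y \ S) (Or.inr Finset.sdiff_disjoint) h2 (by linarith)
      have h8 := cw_sdiff_sdiff_eq (s := s) (t := t) h.nonneg (A := Y) (B := S) hosupp'
        (by linarith)
      linarith

end Pool.Agent.Lib.MP_95bb8c_al.OE
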