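import Pool.Agent.Lib.MP_95bb8c_al.OE.EdF
import Pool.Agent.Lib.MP_95bb8c_al.OE.ZCon
import Pool.Agent.Lib.MP_95bb8c_al.OE.YCon

set_option autoImplicit false
set_option linter.unusedSectionVars false

/-!
# The inner side of a tight `T`-odd set

PROOF of `inner_pm`. Contract the complement of `S` to the vertex `a`: `f v = toR S a v`
(file YCon: `v` if `v ∈ S`, else `a`; you may also define it here again), `U = insert a (S ∩ T)`.
`edmonds_frame` for `f ∘ s`, `f ∘ t`, `U`, `c`, `x = z`: all endpoints are in `U` (an endpoint in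
`S` is in `T` since `a, b ∉ S`). Preimages: `pre f Y = Y ∩ S` if `a ∉ Y` and `(Y ∩ S) ∪ Sᶜ` if
`a ∈ Y`. Degrees: `{v}` for `v ∈ S ∩ T` has preimage `{v}` and `{a}` has preimage `Sᶜ` of weight
`cw z S = c`. Odd sets: `Y ∩ U` odd and `a ∉ Y`: `(Y ∩ S) ∩ T` odd. If `a ∈ Y` then
`(Y ∩ S) ∩ T` is even, the complement of `pre f Y` is `S \ Y`, and `(S \ Y) ∩ T` is odd
(`(S ∩ T)` odd), weight `≥ c`.
This gives a law `w i, M i`. Since `z e ≠ 0` and `e` is no loop of the contracted graph
(`e ∈ cut s t S`), some `i` has `e ∈ M i`; `N = M i`. No edge of `N` is a loop of the contracted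
graph, so each has an end in `S` and is no loop of `s t`; `z f ≠ 0` for `f ∈ N` by the marginals
(`supp_of_law`: if `z f = 0` then no `M i` contains `f`). `N ∩ cut s t S` is the star of
`a` in the contracted graph, one edge, namely `e`. For `Y ⊆ S` with `Y ∩ T` odd: the cut of `Y`
in the contracted graph is `cut s t Y` (`a ∉ Y`), `Y ∩ U = Y ∩ T`: `pmu_odd` and `pmu_tight`.
-/

namespace Pool.Agent.Lib.MP_95bb8c_al.OE

open Finset

variable {V E : Type} [Fintype V] [DecidableEq V] [Fintype E] [DecidableEq E]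
variable {s t : E → V} {T S : Finset V} {a b : V} {z : E → ℚ} {c : ℚ}

/-- `N` behaves like a perfect matching of `S` with one edge leaving `S`, the edge `e`. -/
structure Inner (s t : E → V) (T S : Finset V) (z : E → ℚ) (c : ℚ) (e : E) (N : Finset E) :
    Prop where
  supp : ∀ f ∈ N, z f ≠ 0
  loop : ∀ f ∈ N, s f ≠ t f
  touch : ∀ f ∈ N, s f ∈ S ∨ t f ∈ S
  exit : N ∩ cut s t S = {e}
  odd : ∀ Y ⊆ S, Odd (Y ∩ T).card → 1 ≤ (N ∩ cut s t Y).card
  tight : ∀ Y ⊆ S, Odd (Y ∩ T).card → cw s t z Y = c → (N ∩ cut s t Y).card = 1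

theorem zinner_mem (h : KK s t T a b c c z) (ha : a ∉ S) (hb : b ∉ S) {v : V}
    (hv : InU T a b v) : toR S a v ∈ insert a (S ∩ T) := by
  by_cases hvS : v ∈ S
  · rw [toR_mem hvS]
    rcases hv with hv | hv | hv
    · exact Finset.mem_insert_of_mem (Finset.mem_inter.mpr ⟨hvS, hv⟩)
    · exact absurd (hv ▸ hvS) ha
    · exact absurd (hv ▸ hvS) hb
  · rw [toR_not hvS]
    exact Finset.mem_insert_self _ _

theorem zinner_pre_a (ha : a ∉ S) : pre (toR S a) {a} = Sᶜ := by
  rw [pre_toR_mem (Finset.mem_singleton_self a), Finset.singleton_inter_of_notMem ha,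
    Finset.empty_union]

theorem zinner_pre_sub (ha : a ∉ S) {Y : Finset V} (hY : Y ⊆ S) : pre (toR S a) Y = Y := by
  rw [pre_toR_not (fun h => ha (hY h)), Finset.inter_eq_left]
  exact hY

theorem zinner_card_sub (ha : a ∉ S) {Y : Finset V} (hY : Y ⊆ S) :
    Y ∩ insert a (S ∩ T) = Y ∩ T := by
  rw [Finset.inter_insert_of_notMem (fun h => ha (hY h)), ← Finset.inter_assoc,
    Finset.inter_eq_left.mpr hY]

theorem zinner_odd (h : KK s t T a b c c z) (hS : Odd (S ∩ T).card) {Y : Finset V}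
    (hY : Odd (Y ∩ insert a (S ∩ T)).card) : c ≤ cw s t z (pre (toR S a) Y) := by
  by_cases haY : a ∈ Y
  · rw [pre_toR_mem haY]
    have haT : a ∉ Y ∩ (S ∩ T) := fun h1 =>
      h.frame.ha (Finset.mem_inter.mp (Finset.mem_inter.mp h1).2).2
    rw [Finset.inter_insert_of_mem haY, Finset.card_insert_of_notMem haT] at hY
    have h1 : (Y ∩ S ∪ Sᶜ) = (S \ Y)ᶜ := by
      ext v
      simp only [Finset.mem_union, Finset.mem_inter, Finset.mem_compl, Finset.mem_sdiff]
      tauto
    rw [h1, cw_compl]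
    apply h.odd
    have h2 := card_split S Y T
    have h3 : S ∩ Y ∩ T = Y ∩ (S ∩ T) := by
      rw [Finset.inter_comm S Y, Finset.inter_assoc]
    rw [h3] at h2
    rw [Nat.odd_iff] at hS hY ⊢
    omega
  · rw [pre_toR_not haY]
    rw [Finset.inter_insert_of_notMem haY, ← Finset.inter_assoc] at hY
    exact h.odd _ hY

theorem inner_pm (h : KK s t T a b c c z) (hc : 0 < c) (hS : Odd (S ∩ T).card) (ha : a ∉ S)
    (hb : b ∉ S) (hSc : cw s t z S = c) {e : E} (he : e ∈ cut s t S) (hze : z e ≠ 0) :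
    ∃ N : Finset E, Inner s t T S z c e N := by
  have hs : ∀ e, toR S a (s e) ∈ insert a (S ∩ T) := fun e => zinner_mem h ha hb (h.frame.hs e)
  have ht : ∀ e, toR S a (t e) ∈ insert a (S ∩ T) := fun e => zinner_mem h ha hb (h.frame.ht e)
  have hdeg : ∀ v ∈ insert a (S ∩ T),
      cw (fun e => toR S a (s e)) (fun e => toR S a (t e)) z {v} = c := by
    intro v hv
    rw [cw_comp]
    rcases Finset.mem_insert.mp hv with rfl | hv
    · rw [zinner_pre_a ha, cw_compl]
      exact hSc
    · obtain ⟨hvS, hvT⟩ := Finset.mem_inter.mp hv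
      rw [zinner_pre_sub ha (Finset.singleton_subset_iff.mpr hvS)]
      exact h.degT v hvT
  have hodd : ∀ Y : Finset V, Odd (Y ∩ insert a (S ∩ T)).card →
      c ≤ cw (fun e => toR S a (s e)) (fun e => toR S a (t e)) z Y := by
    intro Y hY
    rw [cw_comp]
    exact zinner_odd h hS hY
  obtain ⟨ι, hι, w, M, hw, hM, hwc, hx⟩ := edmonds_frame hc hs ht h.nonneg hdeg hodd
  have hne : toR S a (s e) ≠ toR S a (t e) := by
    rw [mem_cut] at he
    intro h1
    by_cases h2 : s e ∈ S
    · have h3 : t e ∉ S := fun h3 => he (iff_of_true h2 h3)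
      rw [toR_mem h2, toR_not h3] at h1
      exact ha (h1 ▸ h2)
    · have h3 : t e ∈ S := by
        by_contra h3
        exact he (iff_of_false h2 h3)
      rw [toR_not h2, toR_mem h3] at h1
      exact ha (h1 ▸ h3)
  have hex : ∃ i, e ∈ M i := by
    by_contra hno
    push Not at hno
    apply hze
    rw [← hx e hne]
    exact Finset.sum_eq_zero fun i _ => by rw [if_neg (hno i), mul_zero]
  obtain ⟨i, hi⟩ := hex
  refine ⟨M i, ?_, ?_, ?_, ?_, ?_, ?_⟩
  · intro f hf hz0
    have h1 := hx f ((hM i).loop f hf)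
    rw [hz0] at h1
    have h2 := supp_of_law hw (fun j => by split_ifs <;> norm_num) h1 i
    rw [if_pos hf] at h2
    exact one_ne_zero h2
  · intro f hf h1
    exact (hM i).loop f hf (by change toR S a (s f) = toR S a (t f); rw [h1])
  · intro f hf
    by_contra h1
    push Not at h1
    exact (hM i).loop f hf (by
      change toR S a (s f) = toR S a (t f)
      rw [toR_not h1.1, toR_not h1.2])
  · have h1 := (hM i).deg a (Finset.mem_insert_self _ _)
    rw [cut_comp, zinner_pre_a ha, cut_compl'] at h1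
    obtain ⟨x, hx1⟩ := Finset.card_eq_one.mp h1
    have h2 : e ∈ M i ∩ cut s t S := Finset.mem_inter.mpr ⟨hi, he⟩
    rw [hx1] at h2 ⊢
    rw [Finset.mem_singleton.mp h2]
  · intro Y hY hYT
    have h1 := pmu_odd hs ht (hM i) (S := Y) (by rw [zinner_card_sub ha hY]; exact hYT)
    rw [cut_comp, zinner_pre_sub ha hY] at h1
    exact h1.pos
  · intro Y hY hYT hYc
    have h1 := pmu_tight hs ht hw hM hwc hx (S := Y)
      (by rw [zinner_card_sub ha hY]; exact hYT)
      (by rw [cw_comp, zinner_pre_sub ha hY]; exact hYc) i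
    rw [cut_comp, zinner_pre_sub ha hY] at h1
    exact h1

end Pool.Agent.Lib.MP_95bb8c_al.OE
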